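import Pool.Agent.Run7.h418.Tor

/-!
Complex tori in varieties with an immersive family of symmetric differentials.
-/

set_option autoImplicit false

open MvPolynomial Metric Set Filter Topology

namespace Run7.h418

open Pool.Agent.Y190.OP Pool.Agent.W602.GT Pool.Agent.N155 Pool.Agent.TH182.TC

section tor

variable {n : ℕ} {ι κ : Type} {F : ι → MvPolynomial (Fin (n + 1)) ℂ}
  {σ : κ → (Fin (n + 1) → ℂ) → (Fin (n + 1) → ℂ) → ℂ} {m : κ → ℕ} {c : κ → ℂ}

theorem pt_eq {u v : Fin (n + 1) → ℂ} (hu : u ≠ 0) (hv : v ≠ 0) (h : Phi u = Phi v) :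
    Projectivization.mk ℂ u hu = Projectivization.mk ℂ v hv := by
  obtain ⟨c, hc, hc'⟩ := Phi_inj hu hv h
  rw [Projectivization.mk_eq_mk_iff']
  exact ⟨c⁻¹, by rw [hc', smul_smul, inv_mul_cancel₀ hc, one_smul]⟩

theorem onX_of_cone (hF : ∀ i, IsForm (F i)) {u : Fin (n + 1) → ℂ} (hu : u ∈ Cone F) (h0 : u ≠ 0) :
    OnX F (Projectivization.mk ℂ u h0) := by
  rw [onX_mk hF h0]
  exact (mem_cone.1 hu).2

/-- **The torus.** -/
theorem torus_of_dat [Finite κ] (hF : ∀ j, IsForm (F j)) (hm : ∀ j, 0 < m j)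
    (hσ : ∀ j, SymForm F (m j) (σ j)) (him : Immersive F σ)
    (hex : ∃ (c : κ → ℂ) (f : ℂ → Mat (n + 1))
    (D : Fin (n + 1) → Dr (Fin (n + 1) ⊕ Fin (n + 1))) (C : ℝ), Dat f D C ∧
      ∀ i, Vs (Rel f) i ⊆ Ep F σ c i) : ImmersedTorus F := by
  classical
  obtain ⟨w, c, f, D, C, hlow, h, hV, htr⟩ := exists_low hex
  obtain ⟨M, hMf, hMa, ev, δ, i, hi, hM, -, hfr⟩ := exists_frame h hσ him hV
  have hw := htr M hMf hMa ev δ hM
  obtain ⟨w', x, hx⟩ := exists_tb (ev i) (hM.fr hi)
  obtain rfl : w' = w := by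
    have := tb_card hx
    rw [hw] at this
    exact_mod_cast this.symm
  set z0 : Fin w' → M := fun t => ev i (x t) with hz0
  obtain ⟨v0, hv0, hdet0⟩ := hfr w' z0 hx
  have hcomm : ∀ a b, ⁅v0 a, v0 b⁆ = 0 := fun a b =>
    comm_of_min hF hm hσ him hlow h hV hM hw hx hv0 hdet0 (hv0 a) b
  choose V hVl using fun b => hM.exists_V (fun k hk => hM.pres h (hv0 b) hk)
  have hC : ∀ b, Cmp f (V b) := fun b => Cmp.of_der h hM (hVl b)
  -- a derivation which is zero gives vector fields which are zero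
  have hz : ∀ (k : Fin (n + 1)) (G : Rn (n + 1)), (∀ (_ : ∃ z, f z k k ≠ 0), ev k G = 0) →
      G ∈ Rel f k := by
    intro k G hG
    by_cases hk : ∃ z, f z k k ≠ 0
    · exact (hM.ker k hk G).1 (hG hk)
    · push Not at hk
      exact fun z hz => absurd (hk z) hz
  have hcm : ∀ b b' k G, ⁅V b k, V b' k⁆ G ∈ Rel f k := by
    intro b b' k G
    refine hz k _ fun hk => ?_
    rw [Derivation.commutator_apply, map_sub, hVl b k hk, hVl b' k hk, hVl b' k hk, hVl b k hk,
      ← Derivation.commutator_apply, hcomm, Derivation.zero_apply]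
  obtain ⟨act, ε, hA⟩ := exists_isAct h hC hcm
  obtain ⟨d, hd⟩ := hM.comb_const h hi hx hv0 hdet0 (lie_self δ)
  have hVe : ∀ (e : Fin w' → ℂ) (k : Fin (n + 1)), (∃ z, f z k k ≠ 0) → ∀ G,
      ev k ((∑ b, e b • V b) k G) = (∑ b, algebraMap ℂ M (e b) • v0 b) (ev k G) := by
    intro e k hk G
    rw [sum_k, dsum_apply, map_sum, sum_smul_apply]
    refine Finset.sum_congr rfl fun b _ => ?_
    rw [Derivation.smul_apply, map_smul (ev k), hVl b k hk, Algebra.smul_def]
  have hdD : ∀ k G, D k G - (∑ b, d b • V b) k G ∈ Rel f k := by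
    intro k G
    refine hz k _ fun hk => ?_
    rw [map_sub, hVe d k hk, ← hd, hM.der k hk, sub_self]
  have hgen : ∀ k, (∃ z, f z k k ≠ 0) →
      ∃ (l : Fin w' → Fin (n + 1) ⊕ Fin (n + 1)) (g : Fin (n + 1) ⊕ Fin (n + 1) → Rn (n + 1)),
      (∀ t, g t ∈ Rel f k ∨ ∃ s, g t = X (l s)) ∧
      (Matrix.of fun t t' => pderiv t' (g t)).det ∉ Rel f k ∧
      (Matrix.of fun b s => V b k (X (l s))).det ∉ Rel f k := fun k hk =>
    exists_gen hM hx hdet0 hVl hk
  -- the base point
  let f0 : Ws f := ⟨f, sol_self h.hol⟩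
  obtain ⟨z1, k1, -, hk1, hB1, hg1⟩ := exists_genr h hgen f0 one_pos
  set φ0 : Ws f := shf z1 f0 with hφ0
  have hk1' : φ0.1 0 k1 k1 ≠ 0 := by
    rw [hφ0, shf_zero]
    exact hk1
  have hpr1 : pr k1 φ0.1 0 = pr k1 f0.1 z1 := pr_shf_zero z1 f0 k1
  rw [← hpr1] at hB1 hg1
  have hdisc := hA.discrete hC hk1' hB1 hg1
  have hcc := hA.cocompact h hC hdD hgen φ0
  obtain ⟨b, hb⟩ := exists_basis (P := Per act φ0) (hA.zero h φ0)
    (fun x hx y hy => by
      change act (x + y) φ0 = φ0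
      rw [hA.add]
      have h1 : act y φ0 = φ0 := hy
      rw [h1]
      exact hx)
    (fun x hx => by
      have h1 : act x φ0 = act 0 φ0 := by
        rw [hA.zero h]
        exact hx
      have h2 : act 0 φ0 = act x φ0 := h1.symm
      have h3 := hA.cancel h h2
      rw [zero_sub] at h3
      exact h3) hdisc hcc
  -- the map
  choose u huC hu using fun t => exists_pt hV (act t φ0)
  have hu0 : ∀ t, u t ≠ 0 := fun t => (huC t).1
  refine ⟨w', b, fun t => Projectivization.mk ℂ (u t) (hu0 t), ?_, fun t0 => ?_, fun t =>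
    onX_of_cone hF (huC t) (hu0 t), fun t j => ?_⟩
  · by_contra hw0
    obtain rfl : w' = 0 := by omega
    obtain ⟨z2, hz2⟩ := hi
    apply h.ne i (pr i f z2) (fun G hG => hG z2 hz2)
    funext l
    have h1 := hdD i (X (Sum.inl l)) z2 hz2
    rw [h.Dinl, sum_k] at h1
    simpa using h1
  · obtain ⟨j, G, hj, hG, hGev, hGd⟩ := hA.local_lift h φ0 t0
    have hGne : ∀ᶠ t in 𝓝 t0, ∃ h0 : G t ≠ 0,
        Projectivization.mk ℂ (u t) (hu0 t) = Projectivization.mk ℂ (G t) h0 := by
      filter_upwards [hGev] with t ht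
      have h0 : G t ≠ 0 := by
        intro h1
        have h2 := ht.1
        rw [h1] at h2
        exact zero_ne_one h2
      refine ⟨h0, pt_eq (hu0 t) h0 ?_⟩
      rw [hu t, ht.2]
    refine ⟨G, hG, hGne, fun e he a hea => ?_⟩
    -- the `j`-th coordinate is constant
    have h1 : fderiv ℂ G t0 e j = 0 := by
      rw [fderiv_comp_apply hG.differentiableAt]
      have h2 : (fun t => G t j) =ᶠ[𝓝 t0] fun _ => (1 : ℂ) := by
        filter_upwards [hGev] with t ht
        exact ht.1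
      rw [h2.fderiv_eq]
      simp
    have ha0 : a = 0 := by
      have h2 := congrFun hea j
      rw [h1, Pi.smul_apply, smul_eq_mul, hGev.self_of_nhds.1, mul_one] at h2
      exact h2.symm
    obtain ⟨l, hl⟩ := hA.orb_imm hF hm hσ him h hV hC (act t0 φ0) e (fun i' G' => by
        refine hz i' _ fun hk => ?_
        rw [Derivation.commutator_apply, map_sub, ← hM.der i' hk, hVe e i' hk, hVe e i' hk,
          ← hM.der i' hk]
        have h2 : ⁅δ, ∑ b, algebraMap ℂ M (e b) • v0 b⁆ = 0 := by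
          rw [lie_sum_der]
          refine Finset.sum_eq_zero fun b _ => ?_
          rw [Derivation.map_algebraMap, zero_smul, zero_add, hv0, smul_zero]
        have h3 := congrArg (fun w : Derivation ℂ M M => w (ev i' G')) h2
        simp only [Derivation.commutator_apply, Derivation.coe_zero, Pi.zero_apply] at h3
        exact h3) (fun i' hk' hall => he (by
        have h2 : (∑ b, algebraMap ℂ M (e b) • v0 b) = 0 := by
          refine hM.der_ext hk' fun l => ?_
          rw [← hVe e i' hk', hM.ker i' hk']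
          exact hall l
        have h3 := frame_indep hdet0 h2
        funext b
        have h4 := congrFun h3 b
        exact (_root_.map_eq_zero _).1 h4)) hj
    apply hl
    rw [← hGd, hea, ha0, zero_smul]
    rfl
  · refine pt_eq _ _ ?_
    rw [hu, hu, hA.add]
    have h1 : act (b j) φ0 = φ0 := hb j
    rw [h1]

/-- a variety with an immersive family of symmetric differentials which is not hyperbolic contains
an immersed torus -/
theorem torus_of_not_brody [Finite κ] (hF : ∀ i, IsForm (F i)) (hm : ∀ j, 0 < m j)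
    (hσ : ∀ j, SymForm F (m j) (σ j)) (him : Immersive F σ) (hB : ¬ BrodyHyperbolic F) :
    ImmersedTorus F := by
  unfold BrodyHyperbolic at hB
  push Not at hB
  obtain ⟨f, hf, hfF, z, w, hne⟩ := hB
  exact torus_of_dat hF hm hσ him (dat_of_map hF hm hσ him hf hfF fun h0 => hne (h0 z w))

theorem not_rigid_of_torus (h : ImmersedTorus F) : ¬ TorusRigid F := by
  obtain ⟨q, b, g, hq, himm, hX, hper⟩ := h
  intro hrig
  have hhol : Holo g := fun z => by
    obtain ⟨φ, h1, h2, -⟩ := himm z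
    exact ⟨φ, h1, h2⟩
  have hconst := hrig q b g hhol hX hper
  obtain ⟨φ, h1, h2, h3⟩ := himm 0
  obtain ⟨h0, -⟩ := h2.self_of_nhds
  obtain ⟨i, hi⟩ := Function.ne_iff.1 h0
  have hi' : φ 0 i ≠ 0 := hi
  have hd : ∀ l, DifferentiableAt ℂ (fun t => φ t l) 0 := fun l =>
    (analyticAt_pi_iff.1 h1 l).differentiableAt
  have hmin : ∀ l, (fun t => φ t l * φ 0 i) =ᶠ[𝓝 0] fun t => φ t i * φ 0 l := by
    intro l
    filter_upwards [h2] with t ht
    obtain ⟨ht0, ht1⟩ := ht
    obtain ⟨h00, h01⟩ := h2.self_of_nhds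
    have h4 : Projectivization.mk ℂ (φ t) ht0 = Projectivization.mk ℂ (φ 0) h00 := by
      rw [← ht1, ← h01]
      exact hconst t 0
    exact (mk_eq_mk_iff_minors ht0 h00).1 h4 l i
  set e : Fin q → ℂ := fun _ => 1 with he
  have he0 : e ≠ 0 := by
    intro h4
    have := congrFun h4 ⟨0, hq⟩
    exact one_ne_zero this
  refine h3 e he0 (fderiv ℂ φ 0 e i / φ 0 i) ?_
  funext l
  rw [Pi.smul_apply, smul_eq_mul, fderiv_comp_apply h1.differentiableAt,
    fderiv_comp_apply h1.differentiableAt]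
  have h4 := Filter.EventuallyEq.fderiv_eq (𝕜 := ℂ) (hmin l)
  rw [fderiv_mul_const (hd l), fderiv_mul_const (hd i)] at h4
  have h5 := congrArg (fun A : (Fin q → ℂ) →L[ℂ] ℂ => A e) h4
  simp only [ContinuousLinearMap.smul_apply, smul_eq_mul] at h5
  field_simp
  linear_combination h5

theorem rigid_of_brody (h : BrodyHyperbolic F) : TorusRigid F := by
  intro q b g hg hX hper z w
  set γ : ℂ → Fin q → ℂ := fun s => z + s • (w - z) with hγ
  have hγa : ∀ s, AnalyticAt ℂ γ s := by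
    intro s
    rw [hγ]
    fun_prop
  have hf : HolMap fun s => g (γ s) := by
    intro s
    obtain ⟨φ, h1, h2⟩ := hg (γ s)
    have h3 : AnalyticAt ℂ (fun s => φ (γ s)) s := AnalyticAt.fun_comp h1 (hγa s)
    have h4 : ∀ᶠ s' in 𝓝 s, ∃ h : φ (γ s') ≠ 0, g (γ s') = Projectivization.mk ℂ (φ (γ s')) h :=
      (hγa s).continuousAt.eventually h2
    have h5 : ∀ᶠ s' in 𝓝 s, AnalyticAt ℂ (fun s => φ (γ s)) s' := h3.eventually_analyticAt
    obtain ⟨V, hV, hVo, hsV⟩ := _root_.mem_nhds_iff.1 (h4.and h5)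
    refine ⟨V, fun s => φ (γ s), hVo, hsV, fun s' hs' => ?_, fun s' hs' => (hV hs').1⟩
    exact (hV hs').2.differentiableAt.differentiableWithinAt
  have h1 := h (fun s => g (γ s)) hf (fun s => mem_cone.2 ⟨(g (γ s)).rep_nonzero, hX (γ s)⟩) 0 1
  have e0 : γ 0 = z := by rw [hγ]; simp
  have e1 : γ 1 = w := by rw [hγ]; simp
  simp only [e0, e1] at h1
  exact h1

end tor

end Run7.h418
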