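import Pool.Agent.Run7.h418.Frm
import Pool.Agent.N145.SX.PullK
import Pool.Agent.W497.Mld.Dvr
import Pool.Agent.Y172.Loc2
import Pool.Agent.W602.GT.NG
import Pool.Agent.W602.GT.Gm

/-!
Pluricanonical forms on the field of the curve.
-/

set_option autoImplicit false

open MvPolynomial FF Set Filter Topology Metric

namespace Run7.h418

open Pool.Agent.Y190.OP Pool.Agent.W602.GT Pool.Agent.N155
open Pool.Agent.H436R3.Fol (DVal IsLocalRing')

section pl

variable {K : Type} [Field K] [Algebra ℂ K]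

open Classical in
/-- The place given by a valuation. -/
noncomputable def toPl (v : DVal K) : Place ℂ K where
  ord f := if f = 0 then 0 else v.ord f
  ord_zero := if_pos rfl
  ord_mul := by
    intro f g hf hg
    rw [if_neg hf, if_neg hg, if_neg (mul_ne_zero hf hg)]
    exact v.map_mul f g hf hg
  ord_add := by
    intro f g hf hg hfg
    rw [if_neg hf, if_neg hg, if_neg hfg]
    exact v.map_add f g hf hg hfg
  ord_const := by
    intro c hc
    rw [if_neg ((_root_.map_ne_zero _).2 hc)]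
    exact v.const c hc
  surj := by
    obtain ⟨f, hf, h⟩ := v.surj
    exact ⟨f, hf, by rw [if_neg hf]; exact h⟩

theorem toPl_ord (v : DVal K) {f : K} (hf : f ≠ 0) : (toPl v).ord f = v.ord f := if_neg hf

theorem toPl_reg (v : DVal K) (f : K) : (toPl v).Reg f ↔ v.Reg f := by
  by_cases hf : f = 0
  · subst hf
    exact ⟨fun _ => Or.inl rfl, fun _ => Or.inl rfl⟩
  · constructor
    · rintro (h | h)
      · exact Or.inl h
      · right
        rwa [toPl_ord v hf] at h
    · rintro (h | h)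
      · exact Or.inl h
      · right
        rwa [toPl_ord v hf]

end pl

/-- pull-backs of pluricanonical forms are regular on affine normal models with regular vector
fields -/
theorem mem_of_pluri {K M : Type} [Field K] [Field M] [Algebra ℂ K] [Algebra ℂ M] [Algebra K M]
    [IsScalarTower ℂ K M] [Algebra.EssFiniteType ℂ K] {w N : ℕ} (hK : Algebra.trdeg ℂ K = w)
    (hMw : Algebra.trdeg ℂ M = w) {z : Fin w → K} (hz : IsTranscendenceBasis ℂ z)
    {E : Fin w → Derivation ℂ K K} (hE : ∀ i j, E i (z j) = if i = j then 1 else 0)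
    {ω : (Fin w → Derivation ℂ K K) → K} (hω : IsPluri N ω)
    (hreg : ∀ P : Place ℂ K, Divisorial w P → RegAt P ω) {S : Subalgebra ℂ M} (hfg : S.FG)
    (hfrac : ∀ f : M, ∃ a b : M, a ∈ S ∧ b ∈ S ∧ b ≠ 0 ∧ f * b = a)
    (hn : ∀ f : M, IsIntegral S f → f ∈ S) {v : Fin w → Derivation ℂ M M}
    (hv : ∀ s, ∀ a ∈ S, v s a ∈ S) :
    (Matrix.of fun s t => v s (algebraMap K M (z t)) : Matrix (Fin w) (Fin w) M).det ^ N *
      algebraMap K M (ω E) ∈ S := by
  refine Pool.Agent.W497.Mld.hartogs hfg hfrac hn fun u hu => ?_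
  rw [← toPl_reg]
  have hR : ∀ r ∈ S, (toPl u).Reg r := fun r hr => (toPl_reg u r).2 (hu.1 r hr)
  have hloc : ∀ f, (toPl u).Reg f →
      ∃ a ∈ S, ∃ b ∈ S, b ≠ 0 ∧ (toPl u).ord b = 0 ∧ f * b = a := by
    intro f hf
    obtain ⟨a, b, ha, hb, hb0, hbo, hab⟩ := hu.2 f ((toPl_reg u f).1 hf)
    exact ⟨a, ha, b, hb, hb0, by rw [toPl_ord u hb0]; exact hbo, hab⟩
  have hft : Algebra.FiniteType ℂ S := (Subalgebra.fg_iff_finiteType _).1 hfg
  have hfr : IsFractionRing S M := Pool.Agent.W497.Mld.fractionRing_of hfrac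
  have hic : IsIntegrallyClosed S := by
    rw [isIntegrallyClosed_iff M]
    intro x hx
    exact ⟨⟨x, hn x hx⟩, rfl⟩
  have hdiv : Divisorial w (toPl u) :=
    Pool.Agent.Y172.divisorial_of_local S hMw hR hloc
  exact Pool.Agent.N145.SX.pull_pluri hK hMw hz hE hω hreg (toPl u) hdiv fun s =>
    pl_reg (A := (S : Set M)) hR hloc (hv s)

theorem sum_apply {K : Type} [Field K] [Algebra ℂ K] {w : ℕ} {z : Fin w → K}
    {E : Fin w → Derivation ℂ K K} (hE : ∀ i j, E i (z j) = if i = j then 1 else 0)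
    (μ : Fin w → K) (t : Fin w) : (∑ s, μ s • E s) (z t) = μ t := by
  have h1 : ∀ S : Finset (Fin w), (∑ s ∈ S, μ s • E s) (z t) = ∑ s ∈ S, μ s * E s (z t) := by
    intro S
    induction S using Finset.cons_induction with
    | empty => simp
    | cons a s ha ih =>
      rw [Finset.sum_cons, Finset.sum_cons, Derivation.add_apply, Derivation.smul_apply, ih,
        smul_eq_mul]
  rw [h1]
  simp [hE]

theorem der_expand {K : Type} [Field K] [Algebra ℂ K] {w : ℕ} {z : Fin w → K}
    (hz : IsTranscendenceBasis ℂ z) {E : Fin w → Derivation ℂ K K}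
    (hE : ∀ i j, E i (z j) = if i = j then 1 else 0) (v : Derivation ℂ K K) :
    v = ∑ t, v (z t) • E t := by
  have hch : CharZero K := charZero_of_injective_algebraMap (algebraMap ℂ K).injective
  rw [← sub_eq_zero]
  refine Derivation.ext fun x => ?_
  have hx : IsAlgebraic (IntermediateField.adjoin ℂ (Set.range z)) x :=
    hz.isAlgebraic_field.isAlgebraic x
  refine Pool.Agent.Y191.der_alg0 _ (S := Set.range z) ?_ hx
  rintro _ ⟨t, rfl⟩
  rw [Derivation.sub_apply, sum_apply hE, sub_self]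

section fin

variable {n : ℕ} {ι κ : Type} {F : ι → MvPolynomial (Fin (n + 1)) ℂ}
  {σ : κ → (Fin (n + 1) → ℂ) → (Fin (n + 1) → ℂ) → ℂ} {m : κ → ℕ} {c : κ → ℂ}
  {f : ℂ → Mat (n + 1)} {D : Fin (n + 1) → Dr (Fin (n + 1) ⊕ Fin (n + 1))} {C : ℝ}

/-- functions which are regular on all charts are constant -/
theorem IsFd.const {M : Type} [Field M] [Algebra ℂ M] {ev : Fin (n + 1) → Rn (n + 1) →ₐ[ℂ] M}
    {δ : Derivation ℂ M M} (h : Dat f D C) (hM : IsFd f D ev δ) {i : Fin (n + 1)}
    (hi : ∃ z, f z i i ≠ 0) {g : M} (hg : ∀ k, (∃ z, f z k k ≠ 0) → g ∈ (ev k).range) :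
    ∃ c : ℂ, g = algebraMap ℂ M c := by
  have hg' : ∀ k, (∃ z, f z k k ≠ 0) → ∃ G, ev k G = g := fun k hk => hg k hk
  choose! G hG using hg'
  choose ix hix hixK using fun z => exists_max (h.hol.mem_PM (mem_univ z))
  set φ : ℂ → ℂ := fun z => eval (pr (ix z) f z) (G (ix z)) with hφ
  have hφk : ∀ z k, f z k k ≠ 0 → φ z = eval (pr k f z) (G k) := by
    intro z k hk
    exact hM.val (ix z) k ⟨z, hix z⟩ ⟨z, hk⟩ (G (ix z)) (G k)
      (by rw [hG _ ⟨z, hix z⟩, hG _ ⟨z, hk⟩]) z (hix z) hk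
  have hd : Differentiable ℂ φ := by
    intro z
    have h1 : φ =ᶠ[𝓝 z] fun w => eval (pr (ix z) f w) (G (ix z)) := by
      filter_upwards [ev_diag h.hol (mem_univ z) (hix z)] with w hw
      exact hφk w _ hw
    refine DifferentiableAt.congr_of_eventuallyEq ?_ h1
    exact (analyticAt_eval (fun l => analyticAt_pr isOpen_univ h.hol (mem_univ z) (hix z) l)
      (G (ix z))).differentiableAt
  choose B hB0 hB using fun k => exists_bd (G k) (max 1 C)
  obtain ⟨B', hB'⟩ := Finite.exists_le B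
  have hb : Bornology.IsBounded (range φ) := by
    rw [isBounded_iff_forall_norm_le]
    refine ⟨B', ?_⟩
    rintro _ ⟨z, rfl⟩
    refine (hB (ix z) _ ?_).trans (hB' _)
    rw [pi_norm_le_iff_of_nonneg (by positivity)]
    have h1 : pr (ix z) f z ∈ Vs (Rel f) (ix z) := fun G hG => hG z (hix z)
    rintro (l | l)
    · exact (norm_le_pi_norm (pr (ix z) f z ∘ Sum.inl) l).trans
        ((hixK z).2.trans (le_max_left _ _))
    · exact (norm_le_pi_norm (pr (ix z) f z ∘ Sum.inr) l).trans
        ((h.bd _ _ h1 (hixK z)).trans (le_max_right _ _))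
  have hconst : ∀ z, φ z = φ 0 := fun z => hd.apply_eq_apply_of_bounded hb z 0
  refine ⟨φ 0, ?_⟩
  have h1 : ev i (G i - MvPolynomial.C (φ 0)) = 0 := by
    rw [hM.ker i hi]
    intro z hz
    rw [map_sub, eval_C, ← hφk z i hz, hconst z, sub_self]
  rw [map_sub, ← MvPolynomial.algebraMap_eq, AlgHom.commutes, hG i hi] at h1
  exact sub_eq_zero.1 h1

/-- **There is no curve if all subvarieties are of general type.** -/
theorem no_dat (hF : ∀ i, IsForm (F i)) (h : Dat f D C) (hσ : ∀ j, SymForm F (m j) (σ j))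
    (him : Immersive F σ) (hV : ∀ i, Vs (Rel f) i ⊆ Ep F σ c i) (hall : AllSubGeneral F) :
    False := by
  classical
  obtain ⟨M, hMf, hMa, ev, δ, i, hi, hM, hx, hfr⟩ := exists_frame h hσ him hV
  have hch : CharZero M := charZero_of_injective_algebraMap (algebraMap ℂ M).injective
  set y : Fin (n + 1) → M := fun k => ev i (X (Sum.inl k)) with hy
  have hyi : y i = 1 := by
    have h2 : ev i (X (Sum.inl i) - 1) = 0 := by
      rw [hM.ker i hi]
      intro z hz
      rw [map_sub, eval_X, map_one, h.inl i _ (fun G hG => hG z hz), sub_self]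
    rw [map_sub, map_one] at h2
    exact sub_eq_zero.1 h2
  have hyi0 : y i ≠ 0 := by rw [hyi]; exact one_ne_zero
  have hmem : ∀ e, val y (F e) = 0 := by
    intro e
    have h1 : val y (F e) = ev i (rename Sum.inl (F e)) := by
      unfold val
      rw [← AlgHom.comp_apply]
      congr 1
      apply MvPolynomial.algHom_ext
      intro k
      rw [aeval_X, AlgHom.comp_apply, rename_X]
    rw [h1, hM.ker i hi]
    intro z hz
    rw [eval_inl]
    exact (hV i (fun G hG => hG z hz)).1.2.2.1 e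
  have hrepr := Pool.Agent.W602.GT.repr hF y hyi0 hmem
  set K := coords ℂ y with hK
  obtain ⟨y', hy'i, hy'F, hy'gen, -⟩ := hrepr
  have hyK : ∀ k, y k ∈ K := by
    intro k
    refine IntermediateField.subset_adjoin ℂ _ ⟨k, i, hyi0, ?_⟩
    rw [hyi, div_one]
  -- `M` is algebraic over `K`
  have halg : Algebra.IsAlgebraic K M := by
    have hchK : CharZero K := charZero_of_injective_algebraMap (algebraMap ℂ K).injective
    refine ⟨fun t => ?_⟩
    by_contra ht
    have h1 : AlgebraicIndependent K (fun _ : Fin 1 => t) := by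
      rw [algebraicIndependent_unique_type_iff]
      exact ht
    obtain ⟨E, hE⟩ := Pool.Agent.Y191.exists_dual h1
    have h2 : (E 0).restrictScalars ℂ = 0 := by
      apply hx
      intro k
      change E 0 (y k) = 0
      have h3 : y k = algebraMap K M ⟨y k, hyK k⟩ := rfl
      rw [h3, Derivation.map_algebraMap]
    have h3 := hE 0 0
    rw [if_pos rfl] at h3
    have h4 : (E 0).restrictScalars ℂ t = 1 := h3
    rw [h2] at h4
    exact zero_ne_one h4
  have hessK : Algebra.EssFiniteType ℂ K := by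
    rw [IntermediateField.essFiniteType_iff]
    refine IntermediateField.fg_adjoin_of_finite ?_
    refine (Set.finite_range fun p : Fin (n + 1) × Fin (n + 1) => y p.1 / y p.2).subset ?_
    rintro x ⟨a, b, -, rfl⟩
    exact ⟨(a, b), rfl⟩
  obtain ⟨w, hw⟩ := Cardinal.lt_aleph0.1 (trdeg_lt_aleph0 ℂ K)
  have hMw : Algebra.trdeg ℂ M = w := by
    have h1 := trdeg_add_eq ℂ K (A := M)
    rw [trdeg_eq_zero_iff.2 halg, add_zero, hw] at h1
    exact h1.symm
  obtain ⟨z, hz⟩ : ∃ z : Fin w → K, IsTranscendenceBasis ℂ z := by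
    obtain ⟨B, hB⟩ := exists_isTranscendenceBasis ℂ K
    have hcard := hB.cardinalMk_eq_trdeg
    rw [hw] at hcard
    have hfin : Finite B := by
      rw [← Cardinal.lt_aleph0_iff_finite, hcard]
      exact Cardinal.natCast_lt_aleph0
    obtain ⟨m', ⟨e⟩⟩ := Finite.exists_equiv_fin B
    obtain rfl : m' = w := by
      rw [Cardinal.mk_congr e, Cardinal.mk_fin] at hcard
      exact_mod_cast hcard
    exact ⟨_, hB.comp_equiv e.symm⟩
  have hzM : IsTranscendenceBasis ℂ (fun t => algebraMap K M (z t)) := by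
    have h1 : AlgebraicIndependent ℂ (fun t => algebraMap K M (z t)) :=
      hz.1.map' (f := IsScalarTower.toAlgHom ℂ K M) (algebraMap K M).injective
    refine h1.isTranscendenceBasis_of_trdeg_le_of_finite ?_
    rw [hMw, Cardinal.mk_fin]
  obtain ⟨v, hv1, hv2⟩ := hfr w _ hzM
  have hw1 : 1 ≤ w := by
    by_contra hw0
    obtain rfl : w = 0 := by omega
    have h1 : Algebra.IsAlgebraic ℂ M := trdeg_eq_zero_iff.1 (by rw [hMw, Nat.cast_zero])
    obtain ⟨z0, hz0⟩ := hi
    apply h.ne i (pr i f z0) (fun G hG => hG z0 hz0)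
    funext k
    have h2 : (X (Sum.inr k) : Rn (n + 1)) ∈ Rel f i := by
      rw [← hM.ker i ⟨z0, hz0⟩, ← h.Dinl i k, ← hM.der i ⟨z0, hz0⟩]
      have hint : Algebra.IsIntegral ℂ M := inferInstance
      obtain ⟨c, hc⟩ := (IsAlgClosed.algebraMap_bijective_of_isIntegral (k := ℂ) (K := M)).2
        (ev i (X (Sum.inl k)))
      rw [← hc, Derivation.map_algebraMap]
    have h3 := h2 z0 hz0
    rw [eval_X] at h3
    exact h3
  have hsub : SubVar F K w y' := ⟨fun h0 => by
    rw [h0] at hy'i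
    exact zero_ne_one hy'i, hy'F, hy'gen, hw⟩
  obtain ⟨-, N, hN, ω, hpl, hreg, D0, hD0, hind⟩ := hall K w y' hw1 hsub
  obtain ⟨E, hE⟩ := Pool.Agent.Y191.exists_dual hz.1
  have hexp : ∀ j, ω j D0 = (Matrix.of fun a b => D0 a (z b) : Matrix (Fin w) (Fin w) K).det ^ N *
      ω j E := by
    intro j
    have h1 := hpl j (Matrix.of fun a b => D0 a (z b)) E
    have h2 : (fun a => ∑ b, (Matrix.of fun a b => D0 a (z b) : Matrix (Fin w) (Fin w) K) a b •
        E b) = D0 := by
      funext a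
      exact (der_expand hz hE (D0 a)).symm
    rw [h2] at h1
    exact h1
  set Δ : M := (Matrix.of fun s t => v s (algebraMap K M (z t)) :
    Matrix (Fin w) (Fin w) M).det with hΔ
  have hg : ∀ j, ∃ c : ℂ, Δ ^ N * algebraMap K M (ω j E) = algebraMap ℂ M c := by
    intro j
    refine hM.const h hi fun k hk => ?_
    exact mem_of_pluri hw hMw hz hE (hpl j) (fun P hP => hreg P hP j) (fg_range (ev k))
      (hM.fr hk) (hM.normal h hk) fun s => hM.pres h (hv1 s) hk
  choose c hc using hg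
  have hE0 : ω 0 E ≠ 0 := fun h0 => hD0 (by rw [hexp, h0, mul_zero])
  have hA0 : (Matrix.of fun a b => D0 a (z b) : Matrix (Fin w) (Fin w) K).det ^ N ≠ 0 :=
    fun h0 => hD0 (by rw [hexp, h0, zero_mul])
  have hΔ0 : Δ ^ N ≠ 0 := pow_ne_zero _ hv2
  have hc0 : algebraMap ℂ M (c 0) ≠ 0 := by
    rw [← hc]
    exact mul_ne_zero hΔ0 ((_root_.map_ne_zero _).2 hE0)
  have hrat : ∀ j : Fin w, ω j.succ D0 / ω 0 D0 = algebraMap ℂ K (c j.succ / c 0) := by
    intro j
    apply (algebraMap K M).injective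
    rw [← IsScalarTower.algebraMap_apply ℂ K M, map_div₀ (algebraMap ℂ M), ← hc, ← hc, hexp,
      hexp, mul_div_mul_left _ _ hA0, mul_div_mul_left _ _ hΔ0, map_div₀]
  have h1 := hind.transcendental ⟨0, hw1⟩
  rw [hrat] at h1
  exact h1 (isAlgebraic_algebraMap _)

end fin

end Run7.h418
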