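import Pool.Agent.TH182.TC.Core

/-!
Immersed complex tori in projective varieties.
-/

set_option autoImplicit false

open Filter Topology Pool.Agent.TH182.TC

namespace Run7.h418

variable {N : ℕ} {ι : Type}

/-- The map `g` into projective space is holomorphic near `z` and its derivative at `z` is
injective: near `z` it is given by homogeneous coordinates `φ` which are holomorphic and have no
common zero, and the derivative of `φ` at `z` in the direction `v ≠ 0` is not a multiple of
`φ z`. -/
def ImmAt {E : Type} [NormedAddCommGroup E] [NormedSpace ℂ E] (g : E → PS N) (z : E) : Prop :=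
  ∃ φ : E → Fin (N + 1) → ℂ, AnalyticAt ℂ φ z ∧
    (∀ᶠ w in 𝓝 z, ∃ h : φ w ≠ 0, g w = Projectivization.mk ℂ (φ w) h) ∧
    ∀ v, v ≠ 0 → ∀ c : ℂ, fderiv ℂ φ z v ≠ c • φ z

/-- There is a holomorphic immersion of a complex torus `ℂⁿ / Λ`, `n > 0`, into `X = {F = 0}`. The
lattice `Λ` is generated by a basis `b` of the real vector space `ℂⁿ`. -/
def ImmersedTorus (F : ι → MvPolynomial (Fin (N + 1)) ℂ) : Prop :=
  ∃ (n : ℕ) (b : Module.Basis (Fin (2 * n)) ℝ (Fin n → ℂ)) (g : (Fin n → ℂ) → PS N), 0 < n ∧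
    (∀ z, ImmAt g z) ∧ (∀ z, OnX F (g z)) ∧ ∀ z i, g (z + b i) = g z

end Run7.h418
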