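import Pool.Agent.Run7.h418.Trd
import Pool.Agent.Run7.h418.Gt

/-!
Extension of derivations to algebraic field extensions; embeddings of fields of fractions; frames.
-/

set_option autoImplicit false

open MvPolynomial TensorProduct

namespace Run7.h418

/-- Derivations extend to algebraic extensions. -/
theorem der_etale {k B L : Type*} [Field k] [CommRing B] [CommRing L] [Algebra k B] [Algebra k L]
    [Algebra B L] [IsScalarTower k B L] [Algebra.FormallyEtale B L] (E : Derivation k B B) :
    ∃ E' : Derivation k L L, ∀ b, E' (algebraMap B L b) = algebraMap B L (E b) := by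
  let l0 : Ω[B⁄k] →ₗ[B] L := (Algebra.linearMap B L) ∘ₗ E.liftKaehlerDifferential
  let l : L ⊗[B] Ω[B⁄k] →ₗ[L] L := LinearMap.liftBaseChange L l0
  let e := KaehlerDifferential.tensorKaehlerEquivOfFormallyEtale k B L
  refine ⟨(l ∘ₗ e.symm.toLinearMap).compDer (KaehlerDifferential.D k L), fun c => ?_⟩
  change l (e.symm (KaehlerDifferential.D k L (algebraMap B L c))) = _
  rw [KaehlerDifferential.tensorKaehlerEquivOfFormallyEtale_symm_D_algebraMap,
    LinearMap.liftBaseChange_tmul, one_smul]
  change algebraMap B L (E.liftKaehlerDifferential (KaehlerDifferential.D k B c)) = _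
  rw [Derivation.liftKaehlerDifferential_comp_D]

section emb

variable {M M' A : Type} [Field M] [Algebra ℂ M] [Field M'] [Algebra ℂ M'] [CommRing A]
  [Algebra ℂ A]

/-- maps of fields of fractions -/
theorem exists_lift_field (e' : A →ₐ[ℂ] M') (e : A →ₐ[ℂ] M)
    (hfr : ∀ m : M', ∃ p q : A, e' q ≠ 0 ∧ m * e' q = e' p) (hk : ∀ G, e' G = 0 ↔ e G = 0) :
    ∃ j : M' →ₐ[ℂ] M, ∀ G, j (e' G) = e G := by
  have hfr' : IsFractionRing e'.range M' := by
    refine IsFractionRing.of_field e'.range M' fun z => ?_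
    obtain ⟨p, q, hq, hpq⟩ := hfr z
    refine ⟨⟨e' p, p, rfl⟩, ⟨e' q, q, rfl⟩, ?_⟩
    change z = e' p / e' q
    rw [← hpq, mul_div_cancel_right₀ _ hq]
  let g0 : A →+* e'.range := e'.rangeRestrict.toRingHom
  have hg0 : Function.Surjective g0 := e'.rangeRestrict_surjective
  have hker : RingHom.ker g0 ≤ RingHom.ker e.toRingHom := by
    intro a ha
    have h1 : g0 a = 0 := ha
    have h2 : e' a = 0 := congrArg (fun x : e'.range => (x : M')) h1
    exact (hk a).1 h2
  let g : e'.range →+* M := g0.liftOfSurjective hg0 ⟨e.toRingHom, hker⟩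
  have hg : ∀ a, g (g0 a) = e a := fun a =>
    RingHom.liftOfSurjective_comp_apply g0 hg0 ⟨e.toRingHom, hker⟩ a
  have hgi : Function.Injective g := by
    rw [injective_iff_map_eq_zero]
    intro x hx
    obtain ⟨a, rfl⟩ := hg0 x
    rw [hg] at hx
    exact Subtype.ext ((hk a).2 hx)
  let j : M' →+* M := IsFractionRing.lift hgi
  have hj : ∀ a, j (e' a) = e a := by
    intro a
    have h1 : j (algebraMap e'.range M' (g0 a)) = g (g0 a) := IsFractionRing.lift_algebraMap hgi _
    rw [hg] at h1
    exact h1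
  refine ⟨{ j with commutes' := fun c => ?_ }, hj⟩
  have h1 := hj (algebraMap ℂ A c)
  rw [AlgHom.commutes, AlgHom.commutes] at h1
  exact h1

/-- derivations which agree on a transcendence basis -/
theorem der_zero {w : ℕ} {z : Fin w → M} (hz : IsTranscendenceBasis ℂ z) {d : Derivation ℂ M M}
    (h : ∀ t, d (z t) = 0) : d = 0 := by
  have hch : CharZero M := charZero_of_injective_algebraMap (algebraMap ℂ M).injective
  refine Derivation.ext fun x => ?_
  have hx : IsAlgebraic (IntermediateField.adjoin ℂ (Set.range z)) x :=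
    hz.isAlgebraic_field.isAlgebraic x
  refine Pool.Agent.Y191.der_alg0 _ (S := Set.range z) ?_ hx
  rintro _ ⟨t, rfl⟩
  exact h t

theorem sum_smul_apply {w : ℕ} (g : Fin w → M) (v : Fin w → Derivation ℂ M M) (x : M) :
    (∑ a, g a • v a) x = ∑ a, g a * v a x := by
  have h1 : ∀ S : Finset (Fin w), (∑ s ∈ S, g s • v s) x = ∑ s ∈ S, g s * v s x := by
    intro S
    induction S using Finset.cons_induction with
    | empty => simp
    | cons a s ha ih =>
      rw [Finset.sum_cons, Finset.sum_cons, Derivation.add_apply, Derivation.smul_apply, ih,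
        smul_eq_mul]
  exact h1 _

/-- frames generate the derivations -/
theorem frame_comb {w : ℕ} {z : Fin w → M} (hz : IsTranscendenceBasis ℂ z)
    {v : Fin w → Derivation ℂ M M}
    (hv : (Matrix.of fun s t => v s (z t) : Matrix (Fin w) (Fin w) M).det ≠ 0)
    (d : Derivation ℂ M M) : ∃ g : Fin w → M, d = ∑ a, g a • v a := by
  set B : Matrix (Fin w) (Fin w) M := Matrix.of fun s t => v s (z t) with hB
  have hu : IsUnit B.det := isUnit_iff_ne_zero.2 hv
  set g : Fin w → M := Matrix.vecMul (fun t => d (z t)) B⁻¹ with hg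
  have h1 : Matrix.vecMul g B = fun t => d (z t) := by
    rw [hg, Matrix.vecMul_vecMul, Matrix.nonsing_inv_mul B hu, Matrix.vecMul_one]
  refine ⟨g, ?_⟩
  rw [← sub_eq_zero]
  refine der_zero hz fun t => ?_
  rw [Derivation.sub_apply, sum_smul_apply, sub_eq_zero]
  exact (congrFun h1 t).symm

theorem frame_indep {w : ℕ} {z : Fin w → M} {v : Fin w → Derivation ℂ M M}
    (hv : (Matrix.of fun s t => v s (z t) : Matrix (Fin w) (Fin w) M).det ≠ 0)
    {g : Fin w → M} (h : ∑ a, g a • v a = 0) : g = 0 := by
  refine Matrix.eq_zero_of_vecMul_eq_zero hv ?_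
  funext t
  have h1 := congrArg (fun d : Derivation ℂ M M => d (z t)) h
  simp only [Derivation.coe_zero, Pi.zero_apply] at h1
  rw [sum_smul_apply] at h1
  exact h1

theorem lie_smul_der (δ v : Derivation ℂ M M) (g : M) : ⁅δ, g • v⁆ = δ g • v + g • ⁅δ, v⁆ := by
  refine Derivation.ext fun x => ?_
  rw [Derivation.commutator_apply, Derivation.smul_apply, Derivation.smul_apply,
    Derivation.add_apply, Derivation.smul_apply, Derivation.smul_apply,
    Derivation.commutator_apply]
  simp only [smul_eq_mul, Derivation.leibniz]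
  ring

theorem lie_sum_der {w : ℕ} (δ : Derivation ℂ M M) (g : Fin w → M)
    (v : Fin w → Derivation ℂ M M) :
    ⁅δ, ∑ a, g a • v a⁆ = ∑ a, (δ (g a) • v a + g a • ⁅δ, v a⁆) := by
  rw [lie_sum]
  exact Finset.sum_congr rfl fun a _ => lie_smul_der δ (v a) (g a)

end emb

end Run7.h418
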