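import Pool.Agent.Run7.h418.Alg

/-!
Transcendence degrees and ideals.
-/

set_option autoImplicit false

open MvPolynomial Cardinal

namespace Run7.h418

section trd

variable {M : Type} [Field M] [Algebra ℂ M]

/-- a transcendence basis of polynomials -/
theorem exists_tb {τ : Type} [Finite τ] (φ : MvPolynomial τ ℂ →ₐ[ℂ] M)
    (hfr : ∀ m : M, ∃ a b : M, a ∈ φ.range ∧ b ∈ φ.range ∧ b ≠ 0 ∧ m * b = a) :
    ∃ (w : ℕ) (x : Fin w → MvPolynomial τ ℂ), IsTranscendenceBasis ℂ (fun t => φ (x t)) := by
  classical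
  set s : Set M := Set.range fun l => φ (X l) with hs
  have hadj : Algebra.adjoin ℂ s = φ.range := by
    rw [hs, Algebra.adjoin_range_eq_range_aeval]
    congr 1
    exact MvPolynomial.algHom_ext (fun l => by rw [aeval_X])
  have hfr' : IsFractionRing (Algebra.adjoin ℂ s) M := by
    refine IsFractionRing.of_field (Algebra.adjoin ℂ s) M fun z => ?_
    obtain ⟨a, b, ha, hb, hb0, hab⟩ := hfr z
    rw [← hadj] at ha hb
    refine ⟨⟨a, ha⟩, ⟨b, hb⟩, ?_⟩
    change z = a / b
    rw [← hab, mul_div_cancel_right₀ _ hb0]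
  have halg : Algebra.IsAlgebraic (Algebra.adjoin ℂ s) M := by
    exact (IsFractionRing.comap_isAlgebraic_iff (A := Algebra.adjoin ℂ s) (K := M) (C := M)).2
      inferInstance
  obtain ⟨t, hts, ht⟩ := exists_isTranscendenceBasis_subset (R := ℂ) s
  have hfin : Finite t := (Set.finite_range _).subset hts
  obtain ⟨w, ⟨e⟩⟩ := Finite.exists_equiv_fin t
  have h1 : ∀ j : Fin w, ∃ l, φ (X l) = (e.symm j : M) := fun j => hts (e.symm j).2
  choose l hl using h1
  refine ⟨w, fun j => X (l j), ?_⟩
  have h2 := ht.comp_equiv e.symm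
  have h3 : (fun j => φ (X (l j))) = (fun x : t => (x : M)) ∘ e.symm := by
    funext j
    exact hl j
  rw [h3]
  exact h2

theorem tb_card {w : ℕ} {z : Fin w → M} (hz : IsTranscendenceBasis ℂ z) :
    Algebra.trdeg ℂ M = w := by
  have := hz.cardinalMk_eq_trdeg
  rw [mk_fin] at this
  exact this.symm

/-- elements of an ideal with a quotient of full dimension are zero -/
theorem eq_zero_of_mem {A : Type} [CommRing A] [Algebra ℂ A] (e : A →ₐ[ℂ] M) {R : Ideal A}
    (hR : ∀ a, e a = 0 → a ∈ R) {w : ℕ} {x : Fin w → A}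
    (hx : ∀ P : MvPolynomial (Fin w) ℂ, aeval x P ∈ R → P = 0) (hw : Algebra.trdeg ℂ M = w)
    {q : A} (hq : q ∈ R) : e q = 0 := by
  classical
  by_contra hq0
  have hex : ∀ P : MvPolynomial (Fin w) ℂ, aeval (fun t => e (x t)) P = e (aeval x P) := by
    intro P
    have h1 : (e.comp (aeval x) : MvPolynomial (Fin w) ℂ →ₐ[ℂ] M) = aeval fun t => e (x t) :=
      MvPolynomial.algHom_ext fun t => by simp
    rw [← h1]
    rfl
  have h1 : AlgebraicIndependent ℂ (fun t => e (x t)) := by
    rw [algebraicIndependent_iff]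
    intro P hP
    rw [hex] at hP
    exact hx P (hR _ hP)
  have hadj : ∀ a ∈ Algebra.adjoin ℂ (Set.range fun t => e (x t)),
      ∃ P : MvPolynomial (Fin w) ℂ, e (aeval x P) = a := by
    intro a ha
    rw [Algebra.adjoin_range_eq_range_aeval] at ha
    obtain ⟨P, hP⟩ := ha
    exact ⟨P, by rw [← hex]; exact hP⟩
  set B := Algebra.adjoin ℂ (Set.range fun t => e (x t)) with hB
  have hlift : ∀ p : Polynomial B, ∃ r : A, Polynomial.aeval (e q) p = e r := by
    intro p
    induction p using Polynomial.induction_on' with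
    | add p p' hp hp' =>
      obtain ⟨r, hr⟩ := hp
      obtain ⟨r', hr'⟩ := hp'
      exact ⟨r + r', by rw [map_add, map_add, hr, hr']⟩
    | monomial n a =>
      obtain ⟨P, hP⟩ := hadj a a.2
      refine ⟨aeval x P * q ^ n, ?_⟩
      rw [Polynomial.aeval_monomial, map_mul, map_pow, hP]
      rfl
  have h2 : ∀ (n : ℕ) (p : Polynomial B), p.natDegree ≤ n → Polynomial.aeval (e q) p = 0 →
      p = 0 := by
    intro n
    induction n with
    | zero =>
      intro p hp h0
      rw [Nat.le_zero] at hp
      rw [Polynomial.eq_C_of_natDegree_eq_zero hp, Polynomial.aeval_C] at h0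
      rw [Polynomial.eq_C_of_natDegree_eq_zero hp]
      have h3 : p.coeff 0 = 0 := Subtype.ext h0
      rw [h3, Polynomial.C_0]
    | succ n ih =>
      intro p hp h0
      have h3 := Polynomial.divX_mul_X_add p
      obtain ⟨r, hr⟩ := hlift p.divX
      obtain ⟨P, hP⟩ := hadj (p.coeff 0) (p.coeff 0).2
      have h4 : e (r * q + aeval x P) = 0 := by
        rw [map_add, map_mul, ← hr, hP]
        rw [← h3, map_add, map_mul, Polynomial.aeval_X, Polynomial.aeval_C] at h0
        exact h0
      have h5 : aeval x P ∈ R := by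
        have h6 := hR _ h4
        have h7 : r * q ∈ R := R.mul_mem_left _ hq
        have h8 := R.sub_mem h6 h7
        rwa [add_sub_cancel_left] at h8
      have h6 : p.coeff 0 = 0 := by
        apply Subtype.ext
        rw [← hP, hx P h5, map_zero, map_zero]
        rfl
      rw [h6, Polynomial.C_0, add_zero] at h3
      have h7 : Polynomial.aeval (e q) p.divX = 0 := by
        rw [← h3, map_mul, Polynomial.aeval_X] at h0
        exact (mul_eq_zero.1 h0).resolve_right hq0
      have h8 := ih p.divX (by rw [Polynomial.natDegree_divX_eq_natDegree_tsub_one]; omega) h7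
      rw [← h3, h8, zero_mul]
  have h3 : Transcendental B (e q) := by
    rw [transcendental_iff]
    exact fun p hp => h2 _ p le_rfl hp
  have h4 := (h1.option_iff_transcendental (e q)).2 h3
  have h5 := h4.cardinalMk_le_trdeg
  rw [hw, Cardinal.mk_option, Cardinal.mk_fin] at h5
  have h6 : ((w + 1 : ℕ) : Cardinal.{0}) ≤ (w : ℕ) := by exact_mod_cast h5
  have h7 : w + 1 ≤ w := by exact_mod_cast h6
  omega

end trd

end Run7.h418
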