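import Pool.Agent.Run7.h418.Add
import Pool.Agent.Run7.h418.Fam

/-!
Actions of vector groups on the space of curves.
-/

set_option autoImplicit false

open MvPolynomial Metric Set Filter Topology

namespace Run7.h418

open Pool.Agent.Y190.OP

theorem dsum_apply {R A B ι : Type*} [CommSemiring R] [CommRing A] [AddCommGroup B] [Algebra R A]
    [Module A B] [Module R B] (S : Finset ι) (W : ι → Derivation R A B) (G : A) :
    (∑ b ∈ S, W b) G = ∑ b ∈ S, W b G := by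
  induction S using Finset.cons_induction with
  | empty => simp
  | cons c S hc ih => rw [Finset.sum_cons, Finset.sum_cons, Derivation.add_apply, ih]

section loc

/-- a local action of a vector space extends to an action -/
theorem exists_action {E Y : Type} [NormedAddCommGroup E] [NormedSpace ℂ E] {st : E → Y → Y}
    {ε : ℝ} (hε : 0 < ε) (h0 : ∀ y, st 0 y = y)
    (hadd : ∀ t t' : E, ‖t‖ ≤ ε → ‖t'‖ ≤ ε → ‖t + t'‖ ≤ ε → ∀ y, st (t + t') y = st t (st t' y)) :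
    ∃ act : E → Y → Y, (∀ t t' y, act (t + t') y = act t (act t' y)) ∧
      ∀ t : E, ‖t‖ ≤ ε → ∀ y, act t y = st t y := by
  -- powers
  have hA : ∀ (t : E) (n : ℕ), ‖(n : ℂ) • t‖ ≤ ε → ∀ j : ℕ, j ≤ n → ∀ y,
      (st t)^[j] y = st ((j : ℂ) • t) y := by
    intro t n hn j
    induction j with
    | zero => intro _ y; simp [h0]
    | succ j ih =>
      intro hj y
      have hle : ∀ i : ℕ, i ≤ n → ‖(i : ℂ) • t‖ ≤ ε := by
        intro i hi
        rw [norm_smul, Complex.norm_natCast] at hn ⊢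
        refine le_trans ?_ hn
        gcongr
      have h1 : ‖t‖ ≤ ε := by
        have := hle 1 (by omega)
        simpa using this
      rw [Function.iterate_succ_apply', ih (by omega) y, ← hadd t ((j : ℂ) • t) h1
        (hle j (by omega))]
      · congr 1
        push_cast
        rw [add_smul, one_smul, add_comm]
      · have h2 := hle (j + 1) hj
        have h3 : t + (j : ℂ) • t = ((j + 1 : ℕ) : ℂ) • t := by
          push_cast
          rw [add_smul, one_smul, add_comm]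
        rw [h3]
        exact h2
  have hB : ∀ (t : E) (n m : ℕ), 0 < n → 0 < m → ‖t‖ ≤ n * ε → ∀ y,
      (st ((n : ℂ)⁻¹ • t))^[n] y = (st (((n * m : ℕ) : ℂ)⁻¹ • t))^[n * m] y := by
    intro t n m hn hm ht y
    have hnC : (n : ℂ) ≠ 0 := by exact_mod_cast hn.ne'
    have hmC : (m : ℂ) ≠ 0 := by exact_mod_cast hm.ne'
    have hnR : (0 : ℝ) < n := by exact_mod_cast hn
    have h1 : ∀ y, (st (((n * m : ℕ) : ℂ)⁻¹ • t))^[m] y = st ((n : ℂ)⁻¹ • t) y := by
      intro y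
      have h2 : (m : ℂ) • (((n * m : ℕ) : ℂ)⁻¹ • t) = (n : ℂ)⁻¹ • t := by
        rw [smul_smul]
        congr 1
        push_cast
        field_simp
      rw [hA _ m (by
        rw [h2, norm_smul, norm_inv, Complex.norm_natCast, inv_mul_le_iff₀ hnR]
        exact ht) m le_rfl, h2]
    have h3 : (st (((n * m : ℕ) : ℂ)⁻¹ • t))^[m] = st ((n : ℂ)⁻¹ • t) := funext h1
    rw [mul_comm n m, Function.iterate_mul, mul_comm m n, h3]
  have hex : ∀ t : E, ∃ n : ℕ, 0 < n ∧ ‖t‖ ≤ n * ε := by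
    intro t
    obtain ⟨n, hn⟩ := exists_nat_gt (‖t‖ / ε)
    refine ⟨n + 1, Nat.succ_pos n, ?_⟩
    rw [div_lt_iff₀ hε] at hn
    push_cast
    linarith
  choose nn hnn hnε using hex
  have hC : ∀ (t : E) (n : ℕ), 0 < n → ‖t‖ ≤ n * ε → ∀ y,
      (st ((nn t : ℂ)⁻¹ • t))^[nn t] y = (st ((n : ℂ)⁻¹ • t))^[n] y := by
    intro t n hn ht y
    rw [hB t (nn t) n (hnn t) hn (hnε t), hB t n (nn t) hn (hnn t) ht, mul_comm]
  refine ⟨fun t y => (st ((nn t : ℂ)⁻¹ • t))^[nn t] y, fun t t' y => ?_, fun t ht y => ?_⟩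
  · obtain ⟨n, hn, hn2⟩ : ∃ n : ℕ, 0 < n ∧ ‖t‖ + ‖t'‖ ≤ n * ε := by
      obtain ⟨n, hn⟩ := exists_nat_gt ((‖t‖ + ‖t'‖) / ε)
      refine ⟨n + 1, Nat.succ_pos n, ?_⟩
      rw [div_lt_iff₀ hε] at hn
      push_cast
      linarith
    have hnR : (0 : ℝ) < n := by exact_mod_cast hn
    have ht : ‖t‖ ≤ n * ε := by linarith [norm_nonneg t']
    have ht' : ‖t'‖ ≤ n * ε := by linarith [norm_nonneg t]
    have htt : ‖t + t'‖ ≤ n * ε := (norm_add_le _ _).trans hn2
    simp only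
    rw [hC (t + t') n hn htt, hC t' n hn ht', hC t n hn ht]
    have hs : ∀ s : E, ‖s‖ ≤ n * ε → ‖(n : ℂ)⁻¹ • s‖ ≤ ε := by
      intro s hs
      rw [norm_smul, norm_inv, Complex.norm_natCast, inv_mul_le_iff₀ hnR]
      exact hs
    have h1 : st ((n : ℂ)⁻¹ • (t + t')) = st ((n : ℂ)⁻¹ • t) ∘ st ((n : ℂ)⁻¹ • t') := by
      funext y
      rw [smul_add]
      exact hadd _ _ (hs t ht) (hs t' ht') (by rw [← smul_add]; exact hs _ htt) y
    have h2 : Function.Commute (st ((n : ℂ)⁻¹ • t)) (st ((n : ℂ)⁻¹ • t')) := by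
      intro y
      rw [← hadd _ _ (hs t ht) (hs t' ht') (by rw [← smul_add]; exact hs _ htt), add_comm,
        hadd _ _ (hs t' ht') (hs t ht) (by rw [← smul_add, add_comm t' t]; exact hs _ htt)]
    rw [h1, h2.comp_iterate]
    rfl
  · simp only
    rw [hC t 1 one_pos (by simpa using ht)]
    simp

end loc

section act

variable {N : ℕ} {f : ℂ → Mat N} {D : Fin N → Dr (Fin N ⊕ Fin N)} {C : ℝ}

/-- the vector fields with flows for a long time -/
def Sm (C : ℝ) (V : Fin N → Dr (Fin N ⊕ Fin N)) : Prop := ∀ k, Rad (V k) (max 1 C + 1) 2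

/-- the space of curves -/
def Ws (f : ℂ → Mat N) : Type := {φ : ℂ → Mat N // Sol (Vs (Rel f)) univ φ}

theorem Ws.ext' (h : Dat f D C) {φ ψ : Ws f} {k : Fin N} (hk : φ.1 0 k k ≠ 0)
    (hk' : ψ.1 0 k k ≠ 0) (he : pr k φ.1 0 = pr k ψ.1 0) : φ = ψ := by
  apply Subtype.ext
  have h1 := h.unique isOpen_univ isOpen_univ φ.2 ψ.2 (mem_univ 0) (mem_univ 0) hk hk' he
  funext z
  exact holP_eqOn isOpen_univ isPreconnected_univ φ.2.1 ψ.2.1 (mem_univ 0) h1 (mem_univ z)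

theorem Ws.norm_le (h : Dat f D C) (φ : Ws f) {k : Fin N} (hk : φ.1 0 k k ≠ 0)
    (hK : chart k (φ.1 0) ∈ Kc k) : ‖pr k φ.1 0‖ ≤ max 1 C := by
  rw [pi_norm_le_iff_of_nonneg (by positivity)]
  have h1 := φ.2.2 0 (mem_univ 0) k hk
  rintro (l | l)
  · exact (norm_le_pi_norm (pr k φ.1 0 ∘ Sum.inl) l).trans (hK.2.trans (le_max_left _ _))
  · exact (norm_le_pi_norm (pr k φ.1 0 ∘ Sum.inr) l).trans
      ((h.bd _ _ h1 hK).trans (le_max_right _ _))

theorem exists_step (h : Dat f D C) {V : Fin N → Dr (Fin N ⊕ Fin N)} (hV : Cmp f V)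
    (hS : Sm C V) (φ : Ws f) : ∃ ψ : Ws f, ∀ k, φ.1 0 k k ≠ 0 → ‖pr k φ.1 0‖ ≤ max 1 C + 1 →
      ψ.1 0 k k ≠ 0 ∧ pr k ψ.1 0 = fl (V k) (pr k φ.1 0) 1 := by
  obtain ⟨i, hi, hiK⟩ := exists_max (φ.2.1.mem_PM (mem_univ (0 : ℂ)))
  have haB := φ.norm_le h hi hiK
  have ha : pr i φ.1 0 ∈ Vs (Rel f) i := φ.2.2 0 (mem_univ 0) i hi
  have hb : fl (V i) (pr i φ.1 0) 1 ∈ Vs (Rel f) i :=
    fl_mem (hV.pres i) (hS i) ha (by linarith) (by simp)
  obtain ⟨ψ, hψ, hψi, hψb⟩ := h.exists_sol hb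
  refine ⟨⟨ψ, hψ⟩, fun k hk hkB => ?_⟩
  obtain ⟨h1, h2⟩ := pr_cc isOpen_univ φ.2.1 (mem_univ 0) hi hk
  rw [h2] at hkB ⊢
  obtain ⟨h3, h4⟩ := fl_cc h hV (hS i) (hS k) ha (by linarith) h1 hkB (z := 1) (by simp)
  rw [← hψb] at h3
  have h5 : ψ 0 k k ≠ 0 := diag_of_inl (hψ.1.mem_PM (mem_univ 0)) hψi h3
  refine ⟨h5, ?_⟩
  change pr k ψ 0 = _
  rw [(pr_cc isOpen_univ hψ.1 (mem_univ 0) hψi h5).2, hψb, h4]

open Classical in
/-- the time-one flow of a small vector field -/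
noncomputable def stp (h : Dat f D C) (V : Fin N → Dr (Fin N ⊕ Fin N)) (φ : Ws f) : Ws f :=
  if hh : Cmp f V ∧ Sm C V then (exists_step h hh.1 hh.2 φ).choose else φ

theorem stp_spec (h : Dat f D C) {V : Fin N → Dr (Fin N ⊕ Fin N)} (hV : Cmp f V)
    (hS : Sm C V) (φ : Ws f) {k : Fin N} (hk : φ.1 0 k k ≠ 0) (hkB : ‖pr k φ.1 0‖ ≤ max 1 C + 1) :
    (stp h V φ).1 0 k k ≠ 0 ∧ pr k (stp h V φ).1 0 = fl (V k) (pr k φ.1 0) 1 := by
  have hh : Cmp f V ∧ Sm C V := ⟨hV, hS⟩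
  unfold stp
  rw [dif_pos hh]
  exact (exists_step h hh.1 hh.2 φ).choose_spec k hk hkB

theorem stp_add (h : Dat f D C) {V V' : Fin N → Dr (Fin N ⊕ Fin N)} (hV : Cmp f V)
    (hV' : Cmp f V') (hS : Sm C V) (hS' : Sm C V') (hSS : Sm C (V + V'))
    (hc : ∀ k G, ⁅V k, V' k⁆ G ∈ Rel f k) (φ : Ws f) :
    stp h (V + V') φ = stp h V (stp h V' φ) := by
  obtain ⟨i, hi, hiK⟩ := exists_max (φ.2.1.mem_PM (mem_univ (0 : ℂ)))
  have haB := φ.norm_le h hi hiK
  have ha : pr i φ.1 0 ∈ Vs (Rel f) i := φ.2.2 0 (mem_univ 0) i hi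
  obtain ⟨h1, h2⟩ := stp_spec h hV' hS' φ hi (by linarith)
  have h3 : ‖pr i (stp h V' φ).1 0‖ ≤ max 1 C + 1 := by
    rw [h2]
    have h4 := (hS' i).norm_fl (a := pr i φ.1 0) (by linarith) (z := 1) (by simp)
    have h5 := norm_le_norm_add_norm_sub' (fl (V' i) (pr i φ.1 0) 1) (pr i φ.1 0)
    linarith
  obtain ⟨h4, h5⟩ := stp_spec h hV hS (stp h V' φ) h1 h3
  obtain ⟨h6, h7⟩ := stp_spec h (hV.add hV') hSS φ hi (by linarith)
  refine Ws.ext' h h6 h4 ?_
  rw [h7, h5, h2]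
  exact (flow_add (hV.pres i) (hV'.pres i) (hc i) (by positivity) (hS i) (hS' i) ha haB).symm

theorem exists_small (C : ℝ) {q : ℕ} (V : Fin q → Fin N → Dr (Fin N ⊕ Fin N)) :
    ∃ ε : ℝ, 0 < ε ∧ ∀ t : Fin q → ℂ, ‖t‖ ≤ ε → Sm C (∑ b, t b • V b) := by
  choose M hM hMb using fun (b : Fin q) (k : Fin N) (l : Fin N ⊕ Fin N) =>
    exists_bd (V b k (X l)) (max 1 C + 1 + 1)
  obtain ⟨C0, hC0⟩ : ∃ C0 : ℝ, ∀ b k l, M b k l ≤ C0 := by
    obtain ⟨C0, hC0⟩ := Finite.exists_le fun p : Fin q × Fin N × (Fin N ⊕ Fin N) =>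
      M p.1 p.2.1 p.2.2
    exact ⟨C0, fun b k l => hC0 (b, k, l)⟩
  set B : ℝ := max 1 C + 1 with hB
  have hB1 : 0 < B := by positivity
  set C' : ℝ := 1 / (2 * (4 * (B + 1) * Real.exp 1)) with hC'
  have hC'0 : 0 < C' := by positivity
  have hden : 0 < q * |C0| + 1 := by positivity
  refine ⟨C' / (q * |C0| + 1), by positivity, fun t ht k => ⟨hB1.le, two_pos, C', hC'0, ?_, ?_⟩⟩
  · intro l a ha
    have h1 : (∑ b, t b • V b) k (X l) = ∑ b, t b • V b k (X l) := by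
      rw [Finset.sum_apply, dsum_apply]
      rfl
    rw [h1, map_sum]
    have h2 : ∀ b, ‖eval a (t b • V b k (X l))‖ ≤ C' / (q * |C0| + 1) * |C0| := by
      intro b
      rw [MvPolynomial.smul_eval, norm_mul]
      have h3 := hMb b k l a ha
      have h4 := (norm_le_pi_norm t b).trans ht
      have h5 : ‖eval a (V b k (X l))‖ ≤ |C0| := h3.trans ((hC0 b k l).trans (le_abs_self _))
      gcongr
    refine (norm_sum_le _ _).trans ((Finset.sum_le_sum fun b _ => h2 b).trans ?_)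
    rw [Finset.sum_const, Finset.card_univ, Fintype.card_fin, nsmul_eq_mul]
    rw [div_mul_eq_mul_div, mul_div_assoc', div_le_iff₀ hden]
    nlinarith [abs_nonneg C0]
  · rw [hC']
    have : 0 < Real.exp 1 := Real.exp_pos 1
    field_simp
    exact le_rfl

theorem stp_zero (h : Dat f D C) (hS : Sm C (0 : Fin N → Dr (Fin N ⊕ Fin N))) (φ : Ws f) :
    stp h 0 φ = φ := by
  obtain ⟨i, hi, hiK⟩ := exists_max (φ.2.1.mem_PM (mem_univ (0 : ℂ)))
  have haB := φ.norm_le h hi hiK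
  obtain ⟨h1, h2⟩ := stp_spec h Cmp.zero hS φ hi (by linarith)
  refine Ws.ext' h h1 hi ?_
  rw [h2]
  funext l
  change gs _ _ _ _ = _
  unfold gs
  rw [tsum_eq_single 0]
  · simp [cf_zero]
  · intro k hk
    obtain ⟨j, rfl⟩ := Nat.exists_eq_succ_of_ne_zero hk
    unfold cf
    rw [Nat.succ_eq_add_one, Function.iterate_succ_apply']
    simp

/-- **The action of a vector group on the space of curves.** -/
theorem exists_act (h : Dat f D C) {q : ℕ} {V : Fin q → Fin N → Dr (Fin N ⊕ Fin N)}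
    (hV : ∀ b, Cmp f (V b)) (hc : ∀ b b' k G, ⁅V b k, V b' k⁆ G ∈ Rel f k) :
    ∃ (act : (Fin q → ℂ) → Ws f → Ws f) (ε : ℝ), 0 < ε ∧
      (∀ t t' φ, act (t + t') φ = act t (act t' φ)) ∧
      (∀ t : Fin q → ℂ, ‖t‖ ≤ ε → Sm C (∑ b, t b • V b)) ∧
      ∀ t : Fin q → ℂ, ‖t‖ ≤ ε → ∀ φ, act t φ = stp h (∑ b, t b • V b) φ := by
  obtain ⟨ε, hε, hsm⟩ := exists_small C V
  have hz : (∑ b, (0 : Fin q → ℂ) b • V b) = 0 := by simp
  have hcomm : ∀ (t t' : Fin q → ℂ) k G, ⁅(∑ b, t b • V b) k, (∑ b, t' b • V b) k⁆ G ∈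
      Rel f k := by
    intro t t' k G
    have e1 : ∀ (s : Fin q → ℂ) (H : Rn N), (∑ b, s b • V b) k H = ∑ b, MvPolynomial.C (s b) * V b k H := by
      intro s H
      rw [Finset.sum_apply, dsum_apply]
      refine Finset.sum_congr rfl fun b _ => ?_
      rw [Pi.smul_apply, Derivation.smul_apply, MvPolynomial.smul_eq_C_mul]
    have e2 : ∀ (W : Dr (Fin N ⊕ Fin N)) (c : ℂ) (H : Rn N), W (MvPolynomial.C c * H) = MvPolynomial.C c * W H := by
      intro W c H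
      rw [← MvPolynomial.smul_eq_C_mul, Derivation.map_smul, MvPolynomial.smul_eq_C_mul]
    have e3 : ⁅(∑ b, t b • V b) k, (∑ b, t' b • V b) k⁆ G =
        ∑ b, ∑ b', MvPolynomial.C (t b) * (MvPolynomial.C (t' b') * ⁅V b k, V b' k⁆ G) := by
      rw [Derivation.commutator_apply, e1 t' G, e1 t G, map_sum, map_sum]
      have e4 : ∀ x, (∑ b, t b • V b) k (MvPolynomial.C (t' x) * V x k G) =
          ∑ b, MvPolynomial.C (t b) * (MvPolynomial.C (t' x) * V b k (V x k G)) := by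
        intro x
        rw [e2, e1, Finset.mul_sum]
        exact Finset.sum_congr rfl fun b _ => by ring
      have e5 : ∀ x, (∑ b, t' b • V b) k (MvPolynomial.C (t x) * V x k G) =
          ∑ b, MvPolynomial.C (t x) * (MvPolynomial.C (t' b) * V b k (V x k G)) := by
        intro x
        rw [e2, e1, Finset.mul_sum]
      rw [Finset.sum_congr rfl fun x _ => e4 x, Finset.sum_congr rfl fun x _ => e5 x,
        Finset.sum_comm, ← Finset.sum_sub_distrib]
      refine Finset.sum_congr rfl fun b _ => ?_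
      rw [← Finset.sum_sub_distrib]
      refine Finset.sum_congr rfl fun b' _ => ?_
      rw [Derivation.commutator_apply]
      ring
    rw [e3]
    exact Ideal.sum_mem _ fun b _ => Ideal.sum_mem _ fun b' _ =>
      Ideal.mul_mem_left _ _ (Ideal.mul_mem_left _ _ (hc _ _ k G))
  obtain ⟨act, h1, h2⟩ := exists_action (E := Fin q → ℂ)
    (st := fun t φ => stp h (∑ b, t b • V b) φ) hε
    (fun φ => by
      simp only [hz]
      refine stp_zero h ?_ φ
      rw [← hz]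
      exact hsm 0 (by simpa using hε.le))
    (fun t t' ht ht' htt φ => by
      have h3 : (∑ b, (t + t') b • V b) = (∑ b, t b • V b) + ∑ b, t' b • V b := by
        rw [← Finset.sum_add_distrib]
        exact Finset.sum_congr rfl fun b _ => by rw [Pi.add_apply, add_smul]
      simp only [h3]
      refine stp_add h (Cmp.sum hV t) (Cmp.sum hV t') (hsm t ht) (hsm t' ht') ?_
        (fun k G => hcomm t t' k G) φ
      rw [← h3]
      exact hsm _ htt)
  exact ⟨act, ε, hε, h1, hsm, h2⟩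

end act

end Run7.h418
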