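import Pool.Agent.Run7.h418.Cmp

/-!
The flow of a sum of commuting vector fields.
-/

set_option autoImplicit false

open MvPolynomial Metric Set Filter Topology

namespace Run7.h418

section add

variable {τ : Type} [Fintype τ]

/-- the mixed Taylor coefficients -/
noncomputable def m2 (U U' : Dr τ) (G : MvPolynomial τ ℂ) (a : τ → ℂ) (p : ℕ × ℕ) : ℂ :=
  eval a (U'^[p.2] (U^[p.1] G)) / (p.1.factorial * p.2.factorial)

omit [Fintype τ] in
theorem m2_add (U U' : Dr τ) (G H : MvPolynomial τ ℂ) (a : τ → ℂ) (p : ℕ × ℕ) :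
    m2 U U' (G + H) a p = m2 U U' G a p + m2 U U' H a p := by
  unfold m2
  rw [iter_add, iter_add, map_add, add_div]

omit [Fintype τ] in
theorem iter_mem {I : Ideal (MvPolynomial τ ℂ)} {U : Dr τ} (hU : ∀ G ∈ I, U G ∈ I) (k : ℕ)
    {G : MvPolynomial τ ℂ} (hG : G ∈ I) : U^[k] G ∈ I := by
  induction k with
  | zero => exact hG
  | succ k ih =>
    rw [Function.iterate_succ_apply']
    exact hU _ ih

omit [Fintype τ] in
theorem comm_iter {I : Ideal (MvPolynomial τ ℂ)} {U U' : Dr τ} (hU : ∀ G ∈ I, U G ∈ I)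
    (hc : ∀ G, ⁅U, U'⁆ G ∈ I) (n : ℕ) (G : MvPolynomial τ ℂ) :
    U' (U^[n] G) - U^[n] (U' G) ∈ I := by
  induction n with
  | zero => simp
  | succ n ih =>
    rw [Function.iterate_succ_apply', Function.iterate_succ_apply']
    have h1 := hU _ ih
    have h2 := hc (U^[n] G)
    rw [Derivation.commutator_apply] at h2
    rw [map_sub] at h1
    have h3 : U' (U (U^[n] G)) - U (U^[n] (U' G)) = (U (U' (U^[n] G)) - U (U^[n] (U' G))) -
        (U (U' (U^[n] G)) - U' (U (U^[n] G))) := by ring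
    rw [h3]
    exact sub_mem h1 h2

omit [Fintype τ] in
theorem m2_sum {I : Ideal (MvPolynomial τ ℂ)} {U U' : Dr τ} (hU : ∀ G ∈ I, U G ∈ I)
    (hU' : ∀ G ∈ I, U' G ∈ I) (hc : ∀ G, ⁅U, U'⁆ G ∈ I) {a : τ → ℂ} (ha : ∀ G ∈ I, eval a G = 0)
    (k : ℕ) : ∀ G, ∑ p ∈ Finset.HasAntidiagonal.antidiagonal k, m2 U U' G a p =
      cf (U + U') G a k := by
  induction k with
  | zero =>
    intro G
    simp [cf_zero, m2]
  | succ k ih =>
    intro G
    have h1 : ((k : ℂ) + 1) ≠ 0 := by exact_mod_cast k.succ_ne_zero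
    apply mul_left_cancel₀ h1
    rw [cf_succ, ← ih, Derivation.add_apply]
    simp only [m2_add, Finset.sum_add_distrib]
    rw [Finset.mul_sum]
    have e1 : ∑ p ∈ Finset.HasAntidiagonal.antidiagonal k, m2 U U' (U G) a p =
        ∑ p ∈ Finset.HasAntidiagonal.antidiagonal (k + 1), (p.1 : ℂ) * m2 U U' G a p := by
      rw [Finset.Nat.antidiagonal_succ, Finset.sum_cons]
      simp only [Nat.cast_zero, zero_mul, zero_add, Finset.sum_map]
      refine Finset.sum_congr rfl fun p _ => ?_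
      have h2 : ((p.1 : ℂ) + 1) ≠ 0 := by exact_mod_cast p.1.succ_ne_zero
      have h3 : (p.1.factorial : ℂ) ≠ 0 := by exact_mod_cast p.1.factorial_ne_zero
      have h4 : (p.2.factorial : ℂ) ≠ 0 := by exact_mod_cast p.2.factorial_ne_zero
      simp only [m2, Function.Embedding.prodMap, Function.Embedding.coeFn_mk, Prod.map,
        Function.Embedding.refl_apply, Nat.succ_eq_add_one, Function.iterate_succ_apply,
        Nat.factorial_succ]
      push_cast
      field_simp
    have e2 : ∑ p ∈ Finset.HasAntidiagonal.antidiagonal k, m2 U U' (U' G) a p =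
        ∑ p ∈ Finset.HasAntidiagonal.antidiagonal (k + 1), (p.2 : ℂ) * m2 U U' G a p := by
      rw [Finset.Nat.antidiagonal_succ', Finset.sum_cons]
      simp only [Nat.cast_zero, zero_mul, zero_add, Finset.sum_map]
      refine Finset.sum_congr rfl fun p _ => ?_
      have h2 : ((p.2 : ℂ) + 1) ≠ 0 := by exact_mod_cast p.2.succ_ne_zero
      have h3 : (p.1.factorial : ℂ) ≠ 0 := by exact_mod_cast p.1.factorial_ne_zero
      have h4 : (p.2.factorial : ℂ) ≠ 0 := by exact_mod_cast p.2.factorial_ne_zero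
      have h5 : eval a (U'^[p.2] (U^[p.1] (U' G))) = eval a (U'^[p.2] (U' (U^[p.1] G))) := by
        have h6 := iter_mem hU' p.2 (comm_iter hU hc p.1 G)
        have h7 := ha _ h6
        have h8 := iter_add U' p.2 (U' (U^[p.1] G) - U^[p.1] (U' G)) (U^[p.1] (U' G))
        rw [sub_add_cancel] at h8
        rw [h8, map_add, h7, zero_add]
      simp only [m2, Function.Embedding.prodMap, Function.Embedding.coeFn_mk, Prod.map,
        Function.Embedding.refl_apply, Nat.succ_eq_add_one, Function.iterate_succ_apply,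
        Nat.factorial_succ, h5]
      push_cast
      field_simp
    rw [e1, e2, ← Finset.sum_add_distrib]
    refine Finset.sum_congr rfl fun p hp => ?_
    have h2 : (p.1 : ℂ) + p.2 = k + 1 := by
      have := Finset.HasAntidiagonal.mem_antidiagonal.1 hp
      exact_mod_cast this
    rw [← h2]
    ring

theorem Rad.mono_B {D : Dr τ} {B B' ρ : ℝ} (h : Rad D B ρ) (h0 : 0 ≤ B') (hB : B' ≤ B) :
    Rad D B' ρ := by
  obtain ⟨C, hC, h1, h2⟩ := h.bd
  have h3 := h.pos
  refine ⟨h0, h.pos, C, hC, fun l => (h1 l).mono (by linarith), le_trans ?_ h2⟩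
  have h4 : 0 < Real.exp 1 := Real.exp_pos 1
  have h5 : 4 * (B' + 1) * Real.exp 1 * C ≤ 4 * (B + 1) * Real.exp 1 * C := by gcongr
  exact mul_le_mul_of_nonneg_left h5 h3.le

/-- the flow of a sum of commuting vector fields -/
theorem flow_add {I : Ideal (MvPolynomial τ ℂ)} {U U' : Dr τ} (hU : ∀ G ∈ I, U G ∈ I)
    (hU' : ∀ G ∈ I, U' G ∈ I) (hc : ∀ G, ⁅U, U'⁆ G ∈ I) {B : ℝ} (hB : 0 ≤ B)
    (hR : Rad U (B + 1) 2) (hR' : Rad U' (B + 1) 2) {a : τ → ℂ}
    (ha : ∀ G ∈ I, eval a G = 0) (haB : ‖a‖ ≤ B) :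
    fl U (fl U' a 1) 1 = fl (U + U') a 1 := by
  have hR'0 := hR'.mono_B hB (by linarith)
  have hb : ‖fl U' a 1‖ ≤ B + 1 := by
    have h1 := hR'0.norm_fl haB (z := 1) (by simp)
    have h2 := norm_le_norm_add_norm_sub' (fl U' a 1) a
    linarith
  funext l
  set G : MvPolynomial τ ℂ := X l with hG
  change gs U G (fl U' a 1) 1 = gs (U + U') G a 1
  unfold gs
  simp only [one_pow, mul_one]
  have h1 : ∀ n, cf U G (fl U' a 1) n = ∑' m, m2 U U' G a (n, m) := by
    intro n
    unfold cf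
    rw [hR'0.eval_fl _ haB (by simp)]
    unfold gs
    rw [← tsum_div_const]
    refine tsum_congr fun m => ?_
    unfold m2 cf
    rw [one_pow, mul_one, div_div, mul_comm (m.factorial : ℂ)]
  -- the bounds
  obtain ⟨M, hM, hGM⟩ := exists_bd G (B + 1 + 1)
  obtain ⟨C, hC, hCU, hC2⟩ := hR.bd
  obtain ⟨C', hC', hCU', hC2'⟩ := hR'.bd
  set q : ℝ := Real.exp 1 * C with hq
  set q' : ℝ := Real.exp 1 * C' with hq'
  have he : 0 < Real.exp 1 := Real.exp_pos 1
  have hq0 : 0 ≤ q := by positivity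
  have hq'0 : 0 ≤ q' := by positivity
  have hlt : ∀ c : ℝ, 0 < c → 2 * (4 * (B + 1 + 1) * Real.exp 1 * c) ≤ 1 →
      Real.exp 1 * c < 1 := by
    intro c hc h2
    have h3 : 0 < Real.exp 1 * c := by positivity
    have h4 : 2 * (4 * (B + 1 + 1) * Real.exp 1 * c) = (8 * B + 16) * (Real.exp 1 * c) := by ring
    rw [h4] at h2
    nlinarith [mul_nonneg hB h3.le]
  have hq1 : q < 1 := hlt C hC hC2
  have hq1' : q' < 1 := hlt C' hC' hC2'
  have hbd : ∀ n, Bd (U^[n] G) (B + 1) (n.factorial * (M * q ^ n)) := by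
    intro n b hb
    have h2 := cf_bd U hC hM.le hGM hCU hb n
    unfold cf at h2
    rw [norm_div, Complex.norm_natCast, div_le_iff₀ (by positivity)] at h2
    linarith
  have hxb : ∀ p : ℕ × ℕ, ‖m2 U U' G a p‖ ≤ M * q ^ p.1 * q' ^ p.2 := by
    rintro ⟨n, m⟩
    have h2 := cf_bd U' hC' (by positivity) (hbd n) (fun l => (hCU' l).mono (by linarith)) haB m
    unfold m2
    unfold cf at h2
    have h3 : ‖eval a (U'^[m] (U^[n] G)) / ((n.factorial : ℂ) * m.factorial)‖ =
        ‖eval a (U'^[m] (U^[n] G)) / (m.factorial : ℂ)‖ / n.factorial := by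
      rw [norm_div, norm_div, norm_mul, Complex.norm_natCast, Complex.norm_natCast, div_div,
        mul_comm (m.factorial : ℝ)]
    simp only
    rw [h3, div_le_iff₀ (by positivity)]
    refine h2.trans (le_of_eq ?_)
    ring
  have hsum : Summable fun p : ℕ × ℕ => m2 U U' G a p := by
    refine Summable.of_norm_bounded (g := fun p : ℕ × ℕ => M * q ^ p.1 * q' ^ p.2) ?_ hxb
    have h2 := (summable_geometric_of_lt_one hq0 hq1).mul_left M
    have h3 := summable_geometric_of_lt_one hq'0 hq1'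
    exact h2.mul_of_nonneg h3 (fun n => by positivity) (fun n => by positivity)
  simp only [h1]
  rw [← hsum.tsum_prod, ← Finset.HasAntidiagonal.sigmaAntidiagonalEquivProd.tsum_eq
    (fun p : ℕ × ℕ => m2 U U' G a p)]
  have hsum2 : Summable fun x : (Σ k : ℕ, Finset.HasAntidiagonal.antidiagonal k) =>
      m2 U U' G a (Finset.HasAntidiagonal.sigmaAntidiagonalEquivProd x) :=
    (Finset.HasAntidiagonal.sigmaAntidiagonalEquivProd.summable_iff).2 hsum
  rw [hsum2.tsum_sigma]
  refine tsum_congr fun k => ?_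
  rw [← m2_sum hU hU' hc ha k G, tsum_fintype]
  exact Finset.sum_coe_sort (Finset.HasAntidiagonal.antidiagonal k) fun p => m2 U U' G a p

end add

end Run7.h418
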