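import Mathlib
import Pool.Agent.TH126.C8_FG

/-!
Derivations and integral closures.
-/

set_option autoImplicit false

namespace Run7.h418

section ring

variable {R : Type*} [Ring R]

/-- the inner derivation -/
def dx (x T : R) : R := x * T - T * x

theorem dx_mul {x y : R} (hz : dx x y * x = x * dx x y) (T : R) (m : ℕ) :
    (dx x)^[m + 1] (y * T) = y * (dx x)^[m + 1] T + (m + 1) • (dx x y * (dx x)^[m] T) := by
  induction m with
  | zero =>
    simp only [zero_add, Function.iterate_one, Function.iterate_zero, id_eq, one_smul]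
    unfold dx
    noncomm_ring
  | succ m ih =>
    rw [Function.iterate_succ_apply', ih, Function.iterate_succ_apply' (dx x) (m + 1) T,
      Function.iterate_succ_apply' (dx x) m T]
    set S := (dx x)^[m] T
    have h1 : ∀ U V : R, dx x (U + V) = dx x U + dx x V := fun U V => by unfold dx; noncomm_ring
    have h2 : ∀ (k : ℕ) (U : R), dx x (k • U) = k • dx x U := fun k U => by
      unfold dx
      rw [smul_mul_assoc, mul_smul_comm, smul_sub]
    have h3 : ∀ U : R, dx x (y * U) = y * dx x U + dx x y * U := fun U => by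
      unfold dx; noncomm_ring
    have h4 : ∀ U : R, dx x (dx x y * U) = dx x y * dx x U := fun U => by
      have h5 : dx x (dx x y * U) = x * dx x y * U - dx x y * U * x := by
        unfold dx; noncomm_ring
      rw [h5, ← hz]
      generalize dx x y = z
      unfold dx
      noncomm_ring
    rw [h1, h2, h3, h4]
    rw [add_smul (m + 1) 1, one_smul]
    abel

theorem dx_pow {x y : R} (hz : dx x y * x = x * dx x y) (n : ℕ) :
    (dx x)^[n] (y ^ n) = n.factorial • dx x y ^ n ∧ (dx x)^[n + 1] (y ^ n) = 0 := by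
  have h0 : dx x 0 = 0 := by unfold dx; simp
  induction n with
  | zero =>
    refine ⟨by simp, ?_⟩
    simp only [zero_add, Function.iterate_one, pow_zero]
    unfold dx
    simp
  | succ n ih =>
    refine ⟨?_, ?_⟩
    · rw [pow_succ', dx_mul hz, ih.1, ih.2, mul_zero, zero_add, mul_smul_comm, smul_smul,
        ← pow_succ', Nat.factorial_succ]
    · rw [pow_succ', dx_mul hz, Function.iterate_succ_apply' _ (n + 1), ih.2, h0, mul_zero,
        mul_zero, smul_zero, add_zero]

end ring

section der

open nonZeroDivisors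

variable {M : Type} [Field M] [Algebra ℂ M]

theorem seidenberg_pow {A : Subalgebra ℂ M} {δ : Derivation ℂ M M} (hδ : ∀ a ∈ A, δ a ∈ A)
    {b c : M} (hb : ∀ n : ℕ, c * b ^ n ∈ A) (n : ℕ) : c ^ 2 * (δ b) ^ n ∈ A := by
  let x : Module.End ℂ M := LinearMap.mulLeft ℂ b
  let y : Module.End ℂ M := (δ : M →ₗ[ℂ] M)
  have hz : dx x y = -LinearMap.mulLeft ℂ (δ b) := by
    unfold dx
    refine LinearMap.ext fun m => ?_
    change b * δ m - δ (b * m) = -(δ b * m)
    rw [δ.leibniz, smul_eq_mul, smul_eq_mul]
    ring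
  have hzx : dx x y * x = x * dx x y := by
    rw [hz]
    refine LinearMap.ext fun m => ?_
    change -(δ b * (b * m)) = b * -(δ b * m)
    ring
  have hP : ∀ (m : ℕ) (T : Module.End ℂ M), (∀ l j : ℕ, c * b ^ l * T (c * b ^ j) ∈ A) →
      ∀ l j : ℕ, c * b ^ l * ((dx x)^[m] T) (c * b ^ j) ∈ A := by
    intro m
    induction m with
    | zero => exact fun T hT => hT
    | succ m ih =>
      intro T hT l j
      rw [Function.iterate_succ_apply]
      refine ih (dx x T) (fun l j => ?_) l j
      have h1 : dx x T (c * b ^ j) = b * T (c * b ^ j) - T (b * (c * b ^ j)) := rfl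
      have h2 : c * b ^ l * dx x T (c * b ^ j) =
          c * b ^ (l + 1) * T (c * b ^ j) - c * b ^ l * T (c * b ^ (j + 1)) := by
        rw [h1, show b * (c * b ^ j) = c * b ^ (j + 1) by ring]
        ring
      rw [h2]
      exact sub_mem (hT _ _) (hT _ _)
  have hyn : ∀ (n : ℕ) (a : M), a ∈ A → (y ^ n) a ∈ A := by
    intro n
    induction n with
    | zero => exact fun a ha => ha
    | succ n ih =>
      intro a ha
      rw [pow_succ']
      exact hδ _ (ih a ha)
  have h1 := hP n (y ^ n) (fun l j => mul_mem (hb l) (hyn n _ (hb j))) 0 0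
  rw [(dx_pow hzx n).1, hz] at h1
  have h2 : ∀ (n : ℕ) (m : M), ((-LinearMap.mulLeft ℂ (δ b) : Module.End ℂ M) ^ n) m =
      (-δ b) ^ n * m := by
    intro n
    induction n with
    | zero => intro m; simp
    | succ n ih =>
      intro m
      rw [pow_succ', Module.End.mul_apply, ih]
      change -(δ b * ((-δ b) ^ n * m)) = _
      ring
  rw [LinearMap.smul_apply, h2, pow_zero, mul_one, nsmul_eq_mul] at h1
  have h3 : c ^ 2 * (δ b) ^ n = algebraMap ℂ M (((n.factorial : ℂ) * (-1) ^ n)⁻¹) *
      (c * ((n.factorial : M) * ((-δ b) ^ n * c))) := by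
    have : CharZero M := charZero_of_injective_algebraMap (algebraMap ℂ M).injective
    have h4 : (n.factorial : M) ≠ 0 := Nat.cast_ne_zero.2 n.factorial_ne_zero
    have h5 : ((-1 : M) ^ n) ≠ 0 := pow_ne_zero _ (by simp)
    rw [map_inv₀, map_mul, map_natCast, map_pow, map_neg, map_one, neg_pow (δ b) n]
    field_simp
  rw [h3]
  exact mul_mem (A.algebraMap_mem _) h1

/-- Seidenberg's theorem: derivations preserve the integral closure -/
theorem seidenberg {A : Subalgebra ℂ M} (hfg : A.FG)
    (hfrac : ∀ f : M, ∃ a b : M, a ∈ A ∧ b ∈ A ∧ b ≠ 0 ∧ f * b = a) {δ : Derivation ℂ M M}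
    (hδ : ∀ a ∈ A, δ a ∈ A) {b : M} (hb : IsIntegral A b) : IsIntegral A (δ b) := by
  have hfr : IsFractionRing A M := by
    refine IsFractionRing.of_field A M fun z => ?_
    obtain ⟨a, b, ha, hb, hb0, hab⟩ := hfrac z
    refine ⟨⟨a, ha⟩, ⟨b, hb⟩, ?_⟩
    change z = a / b
    rw [← hab, mul_div_cancel_right₀ _ hb0]
  have hft : Algebra.FiniteType ℂ A := (Subalgebra.fg_iff_finiteType _).1 hfg
  have hnoe : IsNoetherianRing A := Algebra.FiniteType.isNoetherianRing ℂ A
  obtain ⟨r, hr, hr'⟩ := hb.isAlmostIntegral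
  have hrA : ∀ n : ℕ, (r : M) * b ^ n ∈ A := by
    intro n
    obtain ⟨a, ha⟩ := hr' n
    have : (r : M) * b ^ n = (a : M) := ha.symm
    rw [this]
    exact a.2
  have h1 : IsAlmostIntegral A (δ b) := by
    refine ⟨r ^ 2, pow_mem hr 2, fun n => ⟨⟨_, seidenberg_pow hδ hrA n⟩, rfl⟩⟩
  exact h1.isIntegral

/-- the conductor is not zero -/
theorem exists_conductor [Algebra.EssFiniteType ℂ M] {A : Subalgebra ℂ M} (hfg : A.FG)
    (hfrac : ∀ f : M, ∃ a b : M, a ∈ A ∧ b ∈ A ∧ b ≠ 0 ∧ f * b = a) :
    ∃ c ∈ A, c ≠ 0 ∧ ∀ b : M, IsIntegral A b → c * b ∈ A := by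
  classical
  have halg : ∀ f : M, IsAlgebraic A f := by
    intro f
    obtain ⟨a, b, ha, hb, hb0, hab⟩ := hfrac f
    refine ⟨Polynomial.C (⟨b, hb⟩ : A) * Polynomial.X - Polynomial.C ⟨a, ha⟩, ?_, ?_⟩
    · intro h0
      have h1 := congrArg (fun p => Polynomial.coeff p 1) h0
      simp only [Polynomial.coeff_sub, Polynomial.coeff_C_mul, Polynomial.coeff_X_one, mul_one,
        Polynomial.coeff_C_succ, sub_zero, Polynomial.coeff_zero] at h1
      exact hb0 (congrArg Subtype.val h1)
    · rw [map_sub, map_mul, Polynomial.aeval_C, Polynomial.aeval_C, Polynomial.aeval_X]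
      change b * f - a = 0
      rw [← hab]
      ring
  have hB := Pool.Agent.TH126.C8_FG.integralClosure_fg A hfg halg
  have hft : Algebra.FiniteType ℂ A := (Subalgebra.fg_iff_finiteType _).1 hfg
  have hBft : Algebra.FiniteType ℂ (integralClosure A M) := (Subalgebra.fg_iff_finiteType _).1 hB
  have hBA : Algebra.FiniteType A (integralClosure A M) :=
    Algebra.FiniteType.of_restrictScalars_finiteType ℂ A _
  have hfin : Module.Finite A (integralClosure A M) := Algebra.IsIntegral.finite
  obtain ⟨s, hs⟩ := hfin.fg_top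
  choose p q hp hq hq0 hpq using hfrac
  have hqA : ∏ y ∈ s, q (y : M) ∈ A := prod_mem fun y _ => hq _
  refine ⟨∏ y ∈ s, q (y : M), hqA, Finset.prod_ne_zero_iff.2 fun y _ => hq0 _, fun b hb => ?_⟩
  have h1 : (⟨b, hb⟩ : integralClosure A M) ∈ Submodule.span A (s : Set (integralClosure A M)) := by
    rw [hs]
    trivial
  have h2 : ∀ y : integralClosure A M, y ∈ Submodule.span A (s : Set (integralClosure A M)) →
      (∏ y ∈ s, q (y : M)) * (y : M) ∈ A := by
    intro y hy
    induction hy using Submodule.span_induction with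
    | mem y hy =>
      rw [← Finset.prod_erase_mul s _ hy, mul_assoc, mul_comm (q (y : M)), hpq]
      exact mul_mem (prod_mem fun y _ => hq _) (hp _)
    | zero =>
      change _ * (0 : M) ∈ A
      rw [mul_zero]
      exact zero_mem A
    | add y z _ _ hy hz =>
      change _ * ((y : M) + z) ∈ A
      rw [mul_add]
      exact add_mem hy hz
    | smul a y _ hy =>
      change _ * ((a : M) * y) ∈ A
      rw [mul_left_comm]
      exact mul_mem a.2 hy
  exact h2 _ h1

end der

section rows

/-- a family of vectors without common zeros contains a basis -/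
theorem exists_rows {𝕜 : Type} [Field 𝕜] {κ : Type} {w : ℕ} (r : κ → Fin w → 𝕜)
    (h : ∀ x : Fin w → 𝕜, (∀ j, ∑ c, r j c * x c = 0) → x = 0) :
    ∃ a : Fin w → κ, (Matrix.of fun b c => r (a b) c).det ≠ 0 := by
  obtain ⟨κ', a, ha, hspan, hli⟩ := exists_linearIndependent' 𝕜 r
  have htop : Submodule.span 𝕜 (Set.range r) = ⊤ := by
    by_contra hne
    obtain ⟨φ, hφ, hφ0⟩ := Submodule.exists_le_ker_of_lt_top _ (lt_top_iff_ne_top.2 hne)
    apply hφ
    have h1 : (fun c => φ (Pi.single c 1)) = 0 := by
      apply h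
      intro j
      have h2 : φ (r j) = 0 := hφ0 (Submodule.subset_span ⟨j, rfl⟩)
      have h3 : r j = ∑ c, r j c • (Pi.single c 1 : Fin w → 𝕜) := by
        funext d
        simp [Finset.sum_apply, Pi.single_apply]
      rw [h3, map_sum] at h2
      simpa only [map_smul, smul_eq_mul] using h2
    refine LinearMap.pi_ext fun c t => ?_
    have h4 : (Pi.single c t : Fin w → 𝕜) = t • Pi.single c 1 := by
      rw [← Pi.single_smul, smul_eq_mul, mul_one]
    rw [h4, map_smul, LinearMap.zero_apply, show φ (Pi.single c 1) = 0 from congrFun h1 c,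
      smul_zero]
  let B := Module.Basis.mk hli (by rw [hspan, htop])
  have hcard : Module.finrank 𝕜 (Fin w → 𝕜) = w := by simp
  have hfin : Finite κ' := Module.Finite.finite_basis B
  have : Fintype κ' := Fintype.ofFinite κ'
  have hc : Fintype.card κ' = w := by
    rw [← hcard]
    exact (Module.finrank_eq_card_basis B).symm
  let e : Fin w ≃ κ' := (finCongr hc.symm).trans (Fintype.equivFin κ').symm
  refine ⟨fun b => a (e b), ?_⟩
  have h5 : LinearIndependent 𝕜 (fun b : Fin w => r (a (e b))) := hli.comp e e.injective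
  have h6 : LinearIndependent 𝕜 (Matrix.of fun b c => r (a (e b)) c).row := h5
  rw [Matrix.linearIndependent_rows_iff_isUnit, Matrix.isUnit_iff_isUnit_det] at h6
  exact h6.ne_zero

end rows

end Run7.h418
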