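import Pool.Agent.Run7.h418.Fld
import Pool.Agent.Run7.h418.Sei
import Pool.Agent.Y191.Base

/-!
Derivations of the field of the curve.
-/

set_option autoImplicit false

open MvPolynomial

namespace Run7.h418

open Pool.Agent.Y190.OP

section alg

variable {N : ℕ} {f : ℂ → Mat N} {D : Fin N → Dr (Fin N ⊕ Fin N)} {C : ℝ} {M : Type} [Field M]
  [Algebra ℂ M] {ev : Fin N → Rn N →ₐ[ℂ] M} {δ : Derivation ℂ M M}

theorem fg_range (φ : Rn N →ₐ[ℂ] M) : φ.range.FG := by
  have : Algebra.FiniteType ℂ φ.range :=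
    Algebra.FiniteType.of_surjective φ.rangeRestrict φ.rangeRestrict_surjective
  exact (Subalgebra.fg_iff_finiteType _).2 this

theorem IsFd.fr (hM : IsFd f D ev δ) {k : Fin N} (hk : ∃ z, f z k k ≠ 0) (m : M) :
    ∃ a b : M, a ∈ (ev k).range ∧ b ∈ (ev k).range ∧ b ≠ 0 ∧ m * b = a := by
  obtain ⟨p, q, hq, hpq⟩ := hM.frac k hk m
  exact ⟨ev k p, ev k q, ⟨p, rfl⟩, ⟨q, rfl⟩, hq, hpq⟩

theorem IsFd.ess (hM : IsFd f D ev δ) {k : Fin N} (hk : ∃ z, f z k k ≠ 0) :
    Algebra.EssFiniteType ℂ M := by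
  have h1 : IsFractionRing (ev k).range M := by
    refine IsFractionRing.of_field (ev k).range M fun z => ?_
    obtain ⟨a, b, ha, hb, hb0, hab⟩ := hM.fr hk z
    refine ⟨⟨a, ha⟩, ⟨b, hb⟩, ?_⟩
    change z = a / b
    rw [← hab, mul_div_cancel_right₀ _ hb0]
  have h2 : Algebra.FiniteType ℂ (ev k).range := (Subalgebra.fg_iff_finiteType _).1 (fg_range _)
  have h3 : Algebra.EssFiniteType (ev k).range M :=
    Algebra.EssFiniteType.of_isLocalization M (nonZeroDivisors (ev k).range)
  exact Algebra.EssFiniteType.comp ℂ (ev k).range M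

/-- derivations of the field are induced by polynomial vector fields, up to denominators -/
theorem IsFd.exists_lift (hM : IsFd f D ev δ) {k : Fin N} (hk : ∃ z, f z k k ≠ 0)
    (v : Derivation ℂ M M) : ∃ (q : Rn N) (E : Dr (Fin N ⊕ Fin N)), ev k q ≠ 0 ∧
      ∀ G, ev k (E G) = ev k q * v (ev k G) := by
  classical
  choose p q hq hpq using fun l => hM.frac k hk (v (ev k (X l)))
  refine ⟨∏ l, q l, mkDerivation ℂ fun l => (∏ l' ∈ Finset.univ.erase l, q l') * p l, ?_,
    fun G => ?_⟩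
  · rw [map_prod]
    exact Finset.prod_ne_zero_iff.2 fun l _ => hq l
  · induction G using MvPolynomial.induction_on with
    | C c =>
      rw [← MvPolynomial.algebraMap_eq, Derivation.map_algebraMap, map_zero, AlgHom.commutes,
        Derivation.map_algebraMap, mul_zero]
    | add p q hp hq => rw [map_add, map_add, hp, hq, map_add, map_add, mul_add]
    | mul_X p' l hp =>
      have h1 : (∏ l' ∈ Finset.univ.erase l, q l') * q l = ∏ l, q l :=
        Finset.prod_erase_mul _ _ (Finset.mem_univ l)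
      rw [Derivation.leibniz, mkDerivation_X, map_add, smul_eq_mul, smul_eq_mul, map_mul, map_mul,
        map_mul, hp, map_mul, Derivation.leibniz, smul_eq_mul, smul_eq_mul, ← hpq, ← h1, map_mul]
      ring

/-- derivations which commute with `δ` preserve the coordinate rings -/
theorem IsFd.pres (h : Dat f D C) (hM : IsFd f D ev δ) {v : Derivation ℂ M M} (hv : ⁅δ, v⁆ = 0)
    {k : Fin N} (hk : ∃ z, f z k k ≠ 0) : ∀ a ∈ (ev k).range, v a ∈ (ev k).range := by
  set I : Ideal (Rn N) :=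
    { carrier := {q | ∀ G, ev k q * v (ev k G) ∈ (ev k).range}
      add_mem' := fun {a b} ha hb G => by rw [map_add, add_mul]; exact add_mem (ha G) (hb G)
      zero_mem' := fun G => by rw [map_zero, zero_mul]; exact zero_mem _
      smul_mem' := fun c a ha G => by
        rw [smul_eq_mul, map_mul, mul_assoc]
        exact mul_mem ⟨c, rfl⟩ (ha G) } with hI
  have hcomm : ∀ x, δ (v x) = v (δ x) := by
    intro x
    have h1 := congrArg (fun w : Derivation ℂ M M => w x) hv
    simp only [Derivation.commutator_apply, Derivation.coe_zero, Pi.zero_apply] at h1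
    exact sub_eq_zero.1 h1
  have h1 : Rel f k ≤ I := fun q hq G => by
    rw [(hM.ker k hk q).2 hq, zero_mul]
    exact zero_mem _
  have h2 : ∀ q ∈ I, D k q ∈ I := by
    intro q hq G
    obtain ⟨G', hG'⟩ := hq G
    obtain ⟨G'', hG''⟩ := hq (D k G)
    have h3 : ev k (D k q) * v (ev k G) = ev k (D k G') - ev k G'' := by
      have h4 := congrArg δ hG'
      rw [Derivation.leibniz, smul_eq_mul, smul_eq_mul, hcomm] at h4
      have h5 : δ (ev k G') = ev k (D k G') := hM.der k hk G'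
      have h6 : δ (ev k q) = ev k (D k q) := hM.der k hk q
      have h7 : δ (ev k G) = ev k (D k G) := hM.der k hk G
      have h8 : ev k G'' = ev k q * v (ev k (D k G)) := hG''
      have h9 : δ (ev k G') = ev k q * v (δ (ev k G)) + v (ev k G) * δ (ev k q) := h4
      rw [h5, h6, h7] at h9
      rw [h9, h8]
      ring
    rw [h3, ← map_sub]
    exact ⟨_, rfl⟩
  have h3 : I ≠ Rel f k := by
    obtain ⟨q, E, hq, hE⟩ := hM.exists_lift hk v
    intro h4
    have h5 : q ∈ I := fun G => ⟨E G, hE G⟩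
    rw [h4] at h5
    exact hq ((hM.ker k hk q).2 h5)
  have h4 : I = ⊤ := by
    by_contra h5
    exact h3 (h.simple h1 h2 h5)
  rintro a ⟨G, rfl⟩
  have h5 : (1 : Rn N) ∈ I := by rw [h4]; trivial
  have h6 := h5 G
  rw [map_one, one_mul] at h6
  exact h6

/-- the coordinate rings are integrally closed -/
theorem IsFd.normal (h : Dat f D C) (hM : IsFd f D ev δ) {k : Fin N} (hk : ∃ z, f z k k ≠ 0)
    (b : M) (hb : IsIntegral (ev k).range b) : b ∈ (ev k).range := by
  have hess := hM.ess hk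
  obtain ⟨c, hc, hc0, hcb⟩ := exists_conductor (fg_range (ev k)) (hM.fr hk)
  have hδ : ∀ a ∈ (ev k).range, δ a ∈ (ev k).range := by
    rintro a ⟨G, rfl⟩
    exact ⟨D k G, (hM.der k hk G).symm⟩
  set I : Ideal (Rn N) :=
    { carrier := {q | ∀ b : M, IsIntegral (ev k).range b → ev k q * b ∈ (ev k).range}
      add_mem' := fun {a b} ha hb x hx => by
        rw [map_add, add_mul]
        exact add_mem (ha x hx) (hb x hx)
      zero_mem' := fun x _ => by rw [map_zero, zero_mul]; exact zero_mem _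
      smul_mem' := fun c a ha x hx => by
        rw [smul_eq_mul, map_mul, mul_assoc]
        exact mul_mem ⟨c, rfl⟩ (ha x hx) } with hI
  have h1 : Rel f k ≤ I := fun q hq x _ => by
    rw [(hM.ker k hk q).2 hq, zero_mul]
    exact zero_mem _
  have h2 : ∀ q ∈ I, D k q ∈ I := by
    intro q hq x hx
    have h3 := hδ _ (hq x hx)
    rw [Derivation.leibniz, smul_eq_mul, smul_eq_mul, hM.der k hk] at h3
    have h4 := hq _ (seidenberg (fg_range (ev k)) (hM.fr hk) hδ hx)
    have h5 : ev k (D k q) * x = (ev k q * δ x + x * ev k (D k q)) - ev k q * δ x := by ring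
    rw [h5]
    exact sub_mem h3 h4
  have h3 : I ≠ Rel f k := by
    obtain ⟨q, rfl⟩ := hc
    intro h4
    have h5 : q ∈ I := hcb
    rw [h4] at h5
    exact hc0 ((hM.ker k hk q).2 h5)
  have h4 : I = ⊤ := by
    by_contra h5
    exact h3 (h.simple h1 h2 h5)
  have h5 : (1 : Rn N) ∈ I := by rw [h4]; trivial
  have h6 := h5 b hb
  rw [map_one, one_mul] at h6
  exact h6

/-- the relative form -/
noncomputable def lam (ei : Rn N →ₐ[ℂ] M) (P : Rn N) (H : MvPolynomial (Fin N) ℂ)
    (v : Derivation ℂ M M) : M :=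
  (∑ k, ei (pderiv (Sum.inr k) P) * v (ei (X (Sum.inl k)))) / ei (rename Sum.inl H)

theorem lam_add (ei : Rn N →ₐ[ℂ] M) (P : Rn N) (H : MvPolynomial (Fin N) ℂ)
    (v w : Derivation ℂ M M) : lam ei P H (v + w) = lam ei P H v + lam ei P H w := by
  unfold lam
  rw [← add_div, ← Finset.sum_add_distrib]
  congr 1
  exact Finset.sum_congr rfl fun k _ => by rw [Derivation.add_apply]; ring

theorem lam_smul (ei : Rn N →ₐ[ℂ] M) (P : Rn N) (H : MvPolynomial (Fin N) ℂ) (c : M)
    (v : Derivation ℂ M M) : lam ei P H (c • v) = c * lam ei P H v := by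
  unfold lam
  rw [← mul_div_assoc, Finset.mul_sum]
  congr 1
  exact Finset.sum_congr rfl fun k _ => by rw [Derivation.smul_apply, smul_eq_mul]; ring

theorem lam_sum (ei : Rn N →ₐ[ℂ] M) (P : Rn N) (H : MvPolynomial (Fin N) ℂ) {w : ℕ}
    (c : Fin w → M) (E : Fin w → Derivation ℂ M M) :
    lam ei P H (∑ b, c b • E b) = ∑ b, c b * lam ei P H (E b) := by
  have h0 : lam ei P H 0 = 0 := by
    unfold lam
    simp
  have h1 : ∀ s : Finset (Fin w), lam ei P H (∑ b ∈ s, c b • E b) =
      ∑ b ∈ s, c b * lam ei P H (E b) := by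
    intro s
    induction s using Finset.cons_induction with
    | empty => simpa using h0
    | cons a s ha ih => rw [Finset.sum_cons, Finset.sum_cons, lam_add, lam_smul, ih]
  exact h1 _

theorem lam_mul (ei : Rn N →ₐ[ℂ] M) {P : Rn N} {H : MvPolynomial (Fin N) ℂ}
    (hH : ei (rename Sum.inl H) ≠ 0) (v : Derivation ℂ M M) :
    ∑ k, ei (pderiv (Sum.inr k) P) * v (ei (X (Sum.inl k))) = ei (rename Sum.inl H) *
      lam ei P H v := (mul_div_cancel₀ _ hH).symm

end alg

section frame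

variable {n : ℕ} {f : ℂ → Mat (n + 1)} {D : Fin (n + 1) → Dr (Fin (n + 1) ⊕ Fin (n + 1))} {C : ℝ}
  {M : Type} [Field M] [Algebra ℂ M] {ev : Fin (n + 1) → Rn (n + 1) →ₐ[ℂ] M}
  {δ : Derivation ℂ M M}

/-- the relative forms are invariant -/
theorem IsFd.lam_comm (hM : IsFd f D ev δ) {i : Fin (n + 1)} (hi : ∃ z, f z i i ≠ 0)
    {P : Rn (n + 1)} {H : MvPolynomial (Fin (n + 1)) ℂ} (hH : ev i (rename Sum.inl H) ≠ 0)
    (hT : ∀ E : Dr (Fin (n + 1) ⊕ Fin (n + 1)), (∀ G ∈ Rel f i, E G ∈ Rel f i) →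
      Tm (D i) (HH H) (th P H) E 1 ∈ Rel f i)
    (v : Derivation ℂ M M) : lam (ev i) P H ⁅δ, v⁆ = δ (lam (ev i) P H v) := by
  obtain ⟨q, E, hq, hE⟩ := hM.exists_lift hi v
  have hEp : ∀ G ∈ Rel f i, E G ∈ Rel f i := fun G hG =>
    (hM.ker i hi _).1 (by rw [hE, (hM.ker i hi G).2 hG, map_zero, mul_zero])
  have h1 := (hM.ker i hi _).2 (hT E hEp)
  unfold Tm at h1
  have h2 : (Lie (D i))^[1] (th P H) = Lie (D i) (th P H) := rfl
  have h3 : (D i)^[1] (HH H) = D i (HH H) := rfl
  rw [h2, h3, Lie_pair, map_sub, map_mul, map_mul, map_sub, ← hM.der i hi, ← hM.der i hi] at h1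
  have hpair : ∀ (E' : Dr (Fin (n + 1) ⊕ Fin (n + 1))), ev i (pairE (th P H) E') =
      ev i (rename Sum.inl H) * ∑ k, ev i (pderiv (Sum.inr k) P) * ev i (E' (X (Sum.inl k))) := by
    intro E'
    unfold pairE th
    rw [Fintype.sum_sum_type]
    simp only [Sum.elim_inl, Sum.elim_inr, zero_mul, Finset.sum_const_zero, add_zero, map_sum,
      map_mul]
    rw [Finset.mul_sum]
    exact Finset.sum_congr rfl fun k _ => by ring
  have hh : ev i (HH H) = ev i (rename Sum.inl H) ^ 2 := by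
    unfold HH
    rw [map_pow]
  have ht : ev i (pairE (th P H) E) = ev i q * (ev i (rename Sum.inl H) ^ 2 *
      lam (ev i) P H v) := by
    rw [hpair]
    have h4 : ∑ k, ev i (pderiv (Sum.inr k) P) * ev i (E (X (Sum.inl k))) =
        ev i q * ∑ k, ev i (pderiv (Sum.inr k) P) * v (ev i (X (Sum.inl k))) := by
      rw [Finset.mul_sum]
      exact Finset.sum_congr rfl fun k _ => by rw [hE]; ring
    rw [h4, lam_mul _ hH]
    ring
  have ht' : ev i (pairE (th P H) ⁅D i, E⁆) = δ (ev i q) * (ev i (rename Sum.inl H) ^ 2 *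
      lam (ev i) P H v) + ev i q * (ev i (rename Sum.inl H) ^ 2 * lam (ev i) P H ⁅δ, v⁆) := by
    rw [hpair]
    have h4 : ∑ k, ev i (pderiv (Sum.inr k) P) * ev i (⁅D i, E⁆ (X (Sum.inl k))) =
        δ (ev i q) * ∑ k, ev i (pderiv (Sum.inr k) P) * v (ev i (X (Sum.inl k))) +
        ev i q * ∑ k, ev i (pderiv (Sum.inr k) P) * ⁅δ, v⁆ (ev i (X (Sum.inl k))) := by
      rw [Finset.mul_sum, Finset.mul_sum, ← Finset.sum_add_distrib]
      refine Finset.sum_congr rfl fun k _ => ?_
      rw [Derivation.commutator_apply, Derivation.commutator_apply, map_sub, hE, ← hM.der i hi,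
        hE, ← hM.der i hi, Derivation.leibniz, smul_eq_mul, smul_eq_mul]
      ring
    rw [h4, lam_mul _ hH, lam_mul _ hH]
    ring
  rw [ht, ht', hh, Derivation.leibniz, Derivation.leibniz, smul_eq_mul, smul_eq_mul, smul_eq_mul,
    smul_eq_mul] at h1
  have h5 : ev i q * ev i (rename Sum.inl H) ^ 4 *
      (lam (ev i) P H ⁅δ, v⁆ - δ (lam (ev i) P H v)) = 0 := by
    linear_combination -h1
  have h6 := (mul_eq_zero.1 h5).resolve_left (mul_ne_zero hq (pow_ne_zero _ hH))
  exact sub_eq_zero.1 h6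

end frame

end Run7.h418
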