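import Pool.Agent.Run7.h418.Orb
import Pool.Agent.Q93.MC.Osg

/-!
The flows of a linear family of vector fields depend analytically on the parameters.
-/

set_option autoImplicit false

open MvPolynomial Metric Set Filter Topology

namespace Run7.h418

section ana

variable {τ : Type} {q : ℕ}

theorem eval_iter_sum (U : Dr τ) (a : τ → ℂ) (j : ℕ) : ∀ (cc : Fin q → ℂ)
    (H : Fin q → MvPolynomial τ ℂ), eval a (U^[j] (∑ b, cc b • H b)) =
      ∑ b, cc b * eval a (U^[j] (H b)) := by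
  induction j with
  | zero =>
    intro cc H
    simp only [Function.iterate_zero, id_eq, map_sum, MvPolynomial.smul_eval]
  | succ j ih =>
    intro cc H
    simp only [Function.iterate_succ_apply]
    rw [map_sum]
    simp only [Derivation.map_smul]
    exact ih cc fun b => U (H b)

theorem diff_iter (W : Fin q → Dr τ) (a : τ → ℂ) (j : ℕ) : ∀ G : MvPolynomial τ ℂ,
    Differentiable ℂ fun t : Fin q → ℂ => eval a ((∑ b, t b • W b : Dr τ)^[j] G) := by
  induction j with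
  | zero => intro G; exact differentiable_const (eval a G)
  | succ j ih =>
    intro G
    have h1 : (fun t : Fin q → ℂ => eval a ((∑ b, t b • W b : Dr τ)^[j + 1] G)) =
        fun t => ∑ b, t b * eval a ((∑ b, t b • W b : Dr τ)^[j] (W b G)) := by
      funext t
      rw [Function.iterate_succ_apply, ← eval_iter_sum, dsum_apply]
      rfl
    rw [h1]
    refine Differentiable.fun_sum fun b _ => ?_
    exact (differentiable_apply b).mul (ih _)

variable [Fintype τ]

theorem diff_fl_t {W : Fin q → Dr τ} {B ε ρ : ℝ} (hW : ∀ t : Fin q → ℂ, ‖t‖ ≤ ε →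
    Rad (∑ b, t b • W b) B ρ) (hρ : 1 ≤ ρ) (hB0 : 0 ≤ B) {a : τ → ℂ} (ha : ‖a‖ ≤ B) (l : τ) :
    DifferentiableOn ℂ (fun t : Fin q → ℂ => fl (∑ b, t b • W b) a 1 l) (ball 0 (ε / 2)) := by
  obtain ⟨M, hM, hG⟩ := exists_bd (X l : MvPolynomial τ ℂ) (B + 1)
  obtain ⟨h1, h2⟩ := quarter hB0
  refine Pool.Agent.Helper540.differentiableOn_of_uniform_limit (f := fun (N : ℕ)
    (t : Fin q → ℂ) => ∑ k ∈ Finset.range N, cf (∑ b, t b • W b) (X l) a k * (1 : ℂ) ^ k)
    (fun N => ?_) ?_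
  · refine DifferentiableOn.fun_sum fun k _ => ?_
    refine DifferentiableOn.mul_const ?_ _
    have h4 := diff_iter W a k (X l)
    have h3 : Differentiable ℂ fun t : Fin q → ℂ =>
        eval a ((∑ b, t b • W b : Dr τ)^[k] (X l)) / (k.factorial : ℂ) := by
      simp only [div_eq_mul_inv]
      exact h4.mul_const _
    exact h3.differentiableOn
  · refine tendstoUniformlyOn_tsum_nat (u := fun k => M * (1 / (4 * (B + 1))) ^ k)
      ((summable_geometric_of_lt_one h2 h1).mul_left M) fun k t ht => ?_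
    exact (hW t (mem_ball_zero_iff.1 ht).le).cf_le hM.le hG ha (by simpa using hρ) k

/-- the flow depends analytically on the parameters -/
theorem ana_fl {W : Fin q → Dr τ} {B ε ρ : ℝ} (hε : 0 < ε) (hW : ∀ t : Fin q → ℂ, ‖t‖ ≤ ε →
    Rad (∑ b, t b • W b) B ρ) (hρ : 1 ≤ ρ) (hB0 : 0 ≤ B) {a : τ → ℂ} (ha : ‖a‖ ≤ B) (l : τ) :
    AnalyticAt ℂ (fun t : Fin q → ℂ => fl (∑ b, t b • W b) a 1 l) 0 := by
  refine Pool.Agent.Q93.MC.analyticAt_of_differentiable q 0 (ε / 4) (by positivity) _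
    fun z hz => ?_
  have h1 : z ∈ ball (0 : Fin q → ℂ) (ε / 2) := by
    rw [mem_ball_zero_iff]
    refine lt_of_le_of_lt (b := ε / 4) ?_ (by linarith)
    rw [pi_norm_le_iff_of_nonneg (by positivity)]
    intro i
    have := hz i
    rwa [Pi.zero_apply, mem_closedBall_zero_iff] at this
  exact (diff_fl_t hW hρ hB0 ha l z h1).differentiableAt (isOpen_ball.mem_nhds h1)

omit [Fintype τ] in
theorem sum_smul_single (W : Fin q → Dr τ) (s : ℂ) (e : Fin q → ℂ) :
    ∑ b, (s • e) b • W b = s • ∑ b, e b • W b := by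
  rw [Finset.smul_sum]
  exact Finset.sum_congr rfl fun b _ => by rw [Pi.smul_apply, smul_smul, smul_eq_mul]

/-- the derivative of the flow -/
theorem fderiv_fl {W : Fin q → Dr τ} {B ε ρ : ℝ} (hε : 0 < ε) (hW : ∀ t : Fin q → ℂ, ‖t‖ ≤ ε →
    Rad (∑ b, t b • W b) B ρ) (hρ : 1 ≤ ρ) (hB0 : 0 ≤ B) {a : τ → ℂ} (ha : ‖a‖ ≤ B) (l : τ)
    (e : Fin q → ℂ) :
    fderiv ℂ (fun t : Fin q → ℂ => fl (∑ b, t b • W b) a 1 l) 0 e =
      ∑ b, e b * eval a (W b (X l)) := by
  have h1 := (ana_fl hε hW hρ hB0 ha l).differentiableAt.hasFDerivAt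
  have h2 : HasDerivAt (fun s : ℂ => s • e) e 0 := by
    have := (hasDerivAt_id (0 : ℂ)).smul_const e
    simpa using this
  have h3 : HasFDerivAt (fun t : Fin q → ℂ => fl (∑ b, t b • W b) a 1 l)
      (fderiv ℂ (fun t : Fin q → ℂ => fl (∑ b, t b • W b) a 1 l) 0) ((fun s : ℂ => s • e) 0) := by
    simpa using h1
  have h4 := h3.comp_hasDerivAt 0 h2
  obtain ⟨ρ', hρ'⟩ := exists_rad (∑ b, e b • W b) hB0
  have h5 := hρ'.hasDerivAt_fl ha (z := 0) (by simpa using hρ'.pos) l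
  have h6 : (fun t : Fin q → ℂ => fl (∑ b, t b • W b) a 1 l) ∘ (fun s : ℂ => s • e) =
      fun s => fl (∑ b, e b • W b) a s l := by
    funext s
    rw [Function.comp_apply, sum_smul_single, fl_smul, mul_one]
  rw [h6] at h4
  rw [h4.unique h5, fl_zero, dsum_apply, map_sum]
  refine Finset.sum_congr rfl fun b _ => ?_
  rw [Derivation.smul_apply, MvPolynomial.smul_eval]

end ana

section inv

/-- the inverse function theorem -/
theorem inv_fun {E : Type} [NormedAddCommGroup E] [NormedSpace ℂ E] [FiniteDimensional ℂ E]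
    {Θ : E → E} {a : E} (h : AnalyticAt ℂ Θ a) (hinj : ∀ x, fderiv ℂ Θ a x = 0 → x = 0) :
    (∃ N ∈ 𝓝 a, InjOn Θ N) ∧ map Θ (𝓝 a) = 𝓝 (Θ a) := by
  have hcomp : CompleteSpace E := FiniteDimensional.complete ℂ E
  have hi : Function.Injective (fderiv ℂ Θ a : E →ₗ[ℂ] E) :=
    (injective_iff_map_eq_zero _).2 hinj
  let e : E ≃L[ℂ] E := (LinearEquiv.ofInjectiveEndo (fderiv ℂ Θ a : E →ₗ[ℂ] E)
    hi).toContinuousLinearEquiv
  have he : (e : E →L[ℂ] E) = fderiv ℂ Θ a := by
    ext x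
    rfl
  have hs : HasStrictFDerivAt Θ (e : E →L[ℂ] E) a := by
    rw [he]
    exact h.hasStrictFDerivAt
  refine ⟨⟨(hs.toOpenPartialHomeomorph Θ).source,
    (hs.toOpenPartialHomeomorph Θ).open_source.mem_nhds
      (hs.mem_toOpenPartialHomeomorph_source), ?_⟩, hs.map_nhds_eq_of_equiv⟩
  have := (hs.toOpenPartialHomeomorph Θ).injOn
  rwa [hs.toOpenPartialHomeomorph_coe] at this

end inv

end Run7.h418
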