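import Pool.Agent.Run7.h418.Wsp

/-!
Averages of the logarithm of the norm of a lift of a curve.
-/

set_option autoImplicit false

open Metric Set Filter Topology Real

namespace Run7.h418

open Pool.Agent.Y190.OP

section lg

variable {N : ℕ}

/-- the square of the euclidean norm -/
noncomputable def sq (u : Fin N → ℂ) : ℝ := ∑ l, ‖u l‖ ^ 2

/-- the logarithm of the square of the euclidean norm -/
noncomputable def lg (u : Fin N → ℂ) : ℝ := Real.log (sq u)

theorem sq_nonneg (u : Fin N → ℂ) : 0 ≤ sq u := Finset.sum_nonneg fun _ _ => by positivity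

theorem sq_pos {u : Fin N → ℂ} (hu : u ≠ 0) : 0 < sq u := by
  refine lt_of_le_of_ne (sq_nonneg u) fun h => ?_
  have h1 : nsq u = 0 := by
    rw [nsq_eq]
    have : (∑ l, ‖u l‖ ^ 2 : ℝ) = 0 := h.symm
    rw [this]
    simp
  exact nsq_ne hu h1

theorem sq_smul (c : ℂ) (u : Fin N → ℂ) : sq (c • u) = ‖c‖ ^ 2 * sq u := by
  unfold sq
  rw [Finset.mul_sum]
  refine Finset.sum_congr rfl fun l _ => ?_
  rw [Pi.smul_apply, smul_eq_mul, norm_mul, mul_pow]

theorem continuous_sq : Continuous (sq : (Fin N → ℂ) → ℝ) := by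
  unfold sq
  fun_prop

theorem continuousAt_lg {u : Fin N → ℂ} (hu : u ≠ 0) : ContinuousAt lg u :=
  continuous_sq.continuousAt.log (sq_pos hu).ne'

theorem lg_smul {c : ℂ} (hc : c ≠ 0) {u : Fin N → ℂ} (hu : u ≠ 0) :
    lg (c • u) = 2 * Real.log ‖c‖ + lg u := by
  unfold lg
  rw [sq_smul, Real.log_mul (by positivity) (sq_pos hu).ne', Real.log_pow]
  norm_num

theorem norm_sq_le (u : Fin N → ℂ) : ‖u‖ ^ 2 ≤ sq u := by
  rcases isEmpty_or_nonempty (Fin N) with hN | hN
  · have : u = 0 := Subsingleton.elim _ _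
    rw [this]
    simp [sq]
  · obtain ⟨i, hi⟩ := Finite.exists_max fun i => ‖u i‖
    have h1 : ‖u‖ ≤ ‖u i‖ := (pi_norm_le_iff_of_nonneg (norm_nonneg _)).2 hi
    calc ‖u‖ ^ 2 ≤ ‖u i‖ ^ 2 := by gcongr
      _ ≤ sq u := Finset.single_le_sum (f := fun l => ‖u l‖ ^ 2) (fun _ _ => by positivity)
          (Finset.mem_univ i)

theorem sq_le (u : Fin N → ℂ) : sq u ≤ N * ‖u‖ ^ 2 := by
  unfold sq
  calc ∑ l, ‖u l‖ ^ 2 ≤ ∑ _l : Fin N, ‖u‖ ^ 2 := by
        refine Finset.sum_le_sum fun l _ => ?_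
        gcongr
        exact norm_le_pi_norm u l
    _ = N * ‖u‖ ^ 2 := by simp

end lg

section av

/-- the average on a circle with centre 0 -/
noncomputable abbrev av (r : ℝ) (f : ℂ → ℝ) : ℝ := circleAverage f 0 r

theorem ci {r : ℝ} (hr : 0 ≤ r) {f : ℂ → ℝ} (hf : ContinuousOn f (sphere 0 r)) :
    CircleIntegrable f 0 r := hf.circleIntegrable hr

theorem av_mono {r : ℝ} (hr : 0 ≤ r) {f g : ℂ → ℝ} (hf : ContinuousOn f (sphere 0 r))
    (hg : ContinuousOn g (sphere 0 r)) (h : ∀ z ∈ sphere (0 : ℂ) r, f z ≤ g z) :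
    av r f ≤ av r g := by
  refine circleAverage_mono (ci hr hf) (ci hr hg) ?_
  rw [abs_of_nonneg hr]
  exact h

theorem av_congr {r : ℝ} (hr : 0 ≤ r) {f g : ℂ → ℝ} (h : ∀ z ∈ sphere (0 : ℂ) r, f z = g z) :
    av r f = av r g := by
  refine circleAverage_congr_sphere ?_
  rw [abs_of_nonneg hr]
  exact h

theorem av_add {r : ℝ} (hr : 0 ≤ r) {f g : ℂ → ℝ} (hf : ContinuousOn f (sphere 0 r))
    (hg : ContinuousOn g (sphere 0 r)) : av r (fun z => f z + g z) = av r f + av r g :=
  circleAverage_fun_add (ci hr hf) (ci hr hg)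

theorem av_sub {r : ℝ} (hr : 0 ≤ r) {f g : ℂ → ℝ} (hf : ContinuousOn f (sphere 0 r))
    (hg : ContinuousOn g (sphere 0 r)) : av r (fun z => f z - g z) = av r f - av r g :=
  circleAverage_fun_sub (ci hr hf) (ci hr hg)

theorem av_const (r c : ℝ) : av r (fun _ => c) = c := circleAverage_const c 0 r

theorem av_mul (r c : ℝ) (f : ℂ → ℝ) : av r (fun z => c * f z) = c * av r f := by
  have := circleAverage_fun_smul (a := c) (f := f) (c := 0) (R := r)
  simpa [smul_eq_mul] using this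

/-- the mean value property of holomorphic functions -/
theorem av_log {r : ℝ} (hr : 0 ≤ r) {U : Set ℂ} (hU : IsOpen U) (hrU : closedBall 0 r ⊆ U)
    {g : ℂ → ℂ} (hg : DifferentiableOn ℂ g U) (h0 : ∀ z ∈ U, g z ≠ 0) :
    av r (fun z => Real.log ‖g z‖) = Real.log ‖g 0‖ := by
  refine InnerProductSpace.HarmonicOnNhd.circleAverage_eq (f := fun z => Real.log ‖g z‖) ?_
  intro z hz
  rw [abs_of_nonneg hr] at hz
  exact ((hg.analyticAt (hU.mem_nhds (hrU hz))).harmonicAt_log_norm (h0 z (hrU hz)))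

/-- Fubini's theorem -/
theorem av_swap {r ε : ℝ} (hr : 0 ≤ r) (hε : 0 ≤ ε) {g : ℂ → ℂ → ℝ}
    (hg : ContinuousOn (fun p : ℂ × ℂ => g p.1 p.2) (sphere 0 r ×ˢ sphere 0 ε)) :
    av r (fun z => av ε (fun s => g z s)) = av ε (fun s => av r (fun z => g z s)) := by
  have hc : Continuous fun p : ℝ × ℝ => g (circleMap 0 r p.1) (circleMap 0 ε p.2) := by
    refine hg.comp_continuous (f := fun p : ℝ × ℝ => (circleMap 0 r p.1, circleMap 0 ε p.2))
      (by fun_prop) fun p => ⟨?_, ?_⟩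
    · exact circleMap_mem_sphere 0 hr _
    · exact circleMap_mem_sphere 0 hε _
  unfold av circleAverage
  simp only [smul_eq_mul, intervalIntegral.integral_const_mul]
  congr 2
  refine MeasureTheory.intervalIntegral_intervalIntegral_swap ?_
  exact (hc.continuousOn.integrableOn_compact (isCompact_uIcc.prod isCompact_uIcc)).mono_set
    (Set.prod_mono uIoc_subset_uIcc uIoc_subset_uIcc)

end av

section lift

variable {N : ℕ}

/-- the growth of the lift `Λ` -/
noncomputable def tr (r : ℝ) (Λ : ℂ → Fin N → ℂ) : ℝ := av r (fun z => lg (Λ z)) - lg (Λ 0)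

/-- holomorphic lifts -/
def IsLift (U : Set ℂ) (φ : ℂ → Mat N) (Λ : ℂ → Fin N → ℂ) : Prop :=
  DifferentiableOn ℂ Λ U ∧ ∀ z ∈ U, Λ z ≠ 0 ∧ φ z = Phi (Λ z)

theorem IsLift.holP {U : Set ℂ} (hU : IsOpen U) {φ : ℂ → Mat N} {Λ : ℂ → Fin N → ℂ}
    (h : IsLift U φ Λ) : HolP U φ := fun _ hz => ⟨U, Λ, hU, hz, h.1, h.2⟩

theorem IsLift.continuousOn_lg {U : Set ℂ} {φ : ℂ → Mat N} {Λ : ℂ → Fin N → ℂ}
    (h : IsLift U φ Λ) : ContinuousOn (fun z => lg (Λ z)) U := fun z hz =>
  (continuousAt_lg (h.2 z hz).1).comp_continuousWithinAt (h.1.continuousOn z hz)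

theorem tr_congr {r : ℝ} (hr : 0 ≤ r) {U : Set ℂ} (hU : IsOpen U) (hrU : closedBall 0 r ⊆ U)
    {φ : ℂ → Mat N} {Λ Λ' : ℂ → Fin N → ℂ} (h : IsLift U φ Λ) (h' : IsLift U φ Λ') :
    tr r Λ = tr r Λ' := by
  have h1 : ∀ z, ∃ c : ℂ, z ∈ U → c ≠ 0 ∧ Λ z = c • Λ' z := by
    intro z
    by_cases hz : z ∈ U
    · obtain ⟨c, hc, hc'⟩ := Phi_inj (h'.2 z hz).1 (h.2 z hz).1
        ((h'.2 z hz).2.symm.trans (h.2 z hz).2)
      exact ⟨c, fun _ => ⟨hc, hc'⟩⟩
    · exact ⟨0, fun h => absurd h hz⟩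
  choose c hc using h1
  have hcd : DifferentiableOn ℂ c U := by
    intro z hz
    obtain ⟨k, hk⟩ := Function.ne_iff.1 (h'.2 z hz).1
    have hd : ∀ k, DifferentiableAt ℂ (fun w => Λ w k) z := fun k =>
      differentiableAt_pi.1 (h.1.differentiableAt (hU.mem_nhds hz)) k
    have hd' : ∀ k, DifferentiableAt ℂ (fun w => Λ' w k) z := fun k =>
      differentiableAt_pi.1 (h'.1.differentiableAt (hU.mem_nhds hz)) k
    refine (((hd k).div (hd' k) hk).congr_of_eventuallyEq ?_).differentiableWithinAt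
    filter_upwards [hU.mem_nhds hz, (hd' k).continuousAt.eventually_ne hk] with w hw hwk
    have h2 := congrFun (hc w hw).2 k
    rw [Pi.smul_apply, smul_eq_mul] at h2
    rw [Pi.div_apply, h2, mul_div_cancel_right₀ _ hwk]
  have hlg : ∀ z ∈ U, lg (Λ z) = 2 * Real.log ‖c z‖ + lg (Λ' z) := by
    intro z hz
    rw [(hc z hz).2, lg_smul (hc z hz).1 (h'.2 z hz).1]
  have hs : sphere (0 : ℂ) r ⊆ U := sphere_subset_closedBall.trans hrU
  have h0 : (0 : ℂ) ∈ U := hrU (mem_closedBall_self hr)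
  have hcl : ContinuousOn (fun z => 2 * Real.log ‖c z‖) (sphere 0 r) := by
    refine ContinuousOn.mul continuousOn_const ?_
    exact ContinuousOn.log ((hcd.continuousOn.mono hs).norm) fun z hz =>
      norm_ne_zero_iff.2 (hc z (hs hz)).1
  unfold tr
  rw [hlg 0 h0, av_congr hr (fun z hz => hlg z (hs hz)),
    av_add hr hcl (h'.continuousOn_lg.mono hs), av_mul,
    av_log hr hU hrU hcd (fun z hz => (hc z hz).1)]
  ring

/-- the pairing -/
noncomputable def pair (u l : Fin N → ℂ) : ℂ := ∑ k, u k * l k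

/-- the denominator of the normalised lift -/
noncomputable def dn (l : Fin N → ℂ) (M : Mat N) : ℂ :=
  ∑ j, ∑ k, l j * M j k * (starRingEnd ℂ) (l k)

/-- the normalised lift -/
noncomputable def nl (l : Fin N → ℂ) (M : Mat N) : Fin N → ℂ :=
  fun j => (∑ k, M j k * (starRingEnd ℂ) (l k)) / dn l M

theorem pair_smul (c : ℂ) (u l : Fin N → ℂ) : pair (c • u) l = c * pair u l := by
  unfold pair
  rw [Finset.mul_sum]
  exact Finset.sum_congr rfl fun k _ => by rw [Pi.smul_apply, smul_eq_mul, mul_assoc]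

theorem dn_Phi (l u : Fin N → ℂ) :
    dn l (Phi u) = pair u l * (starRingEnd ℂ) (pair u l) / nsq u := by
  unfold dn Phi pair
  rw [map_sum, Finset.sum_mul_sum, Finset.sum_div]
  refine Finset.sum_congr rfl fun j _ => ?_
  rw [Finset.sum_div]
  refine Finset.sum_congr rfl fun k _ => ?_
  rw [map_mul]
  ring

theorem dn_ne {l u : Fin N → ℂ} (hu : u ≠ 0) : dn l (Phi u) ≠ 0 ↔ pair u l ≠ 0 := by
  rw [dn_Phi, div_ne_zero_iff, mul_ne_zero_iff]
  constructor
  · rintro ⟨⟨h, -⟩, -⟩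
    exact h
  · intro h
    exact ⟨⟨h, by rwa [Ne, map_eq_zero]⟩, nsq_ne hu⟩

theorem nl_Phi {l u : Fin N → ℂ} (hu : u ≠ 0) (h : pair u l ≠ 0) :
    nl l (Phi u) = (pair u l)⁻¹ • u := by
  funext j
  have h1 : ∑ k, Phi u j k * (starRingEnd ℂ) (l k) =
      u j * (starRingEnd ℂ) (pair u l) / nsq u := by
    unfold Phi pair
    rw [map_sum, Finset.mul_sum, Finset.sum_div]
    refine Finset.sum_congr rfl fun k _ => ?_
    rw [map_mul]
    ring
  have h2 := nsq_ne hu
  have h3 : (starRingEnd ℂ) (pair u l) ≠ 0 := by rwa [Ne, map_eq_zero]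
  rw [nl, h1, dn_Phi, Pi.smul_apply, smul_eq_mul]
  field_simp

theorem continuous_dn : Continuous fun p : (Fin N → ℂ) × Mat N => dn p.1 p.2 := by
  unfold dn
  refine continuous_finsetSum _ fun j _ => continuous_finsetSum _ fun k _ => ?_
  have h1 : Continuous fun p : (Fin N → ℂ) × Mat N => p.1 j := (continuous_apply j).comp continuous_fst
  have h2 : Continuous fun p : (Fin N → ℂ) × Mat N => p.2 j k :=
    (continuous_apply_apply j k).comp continuous_snd
  have h3 : Continuous fun p : (Fin N → ℂ) × Mat N => (starRingEnd ℂ) (p.1 k) :=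
    Complex.continuous_conj.comp ((continuous_apply k).comp continuous_fst)
  exact (h1.mul h2).mul h3

theorem continuousAt_nl {p : (Fin N → ℂ) × Mat N} (hp : dn p.1 p.2 ≠ 0) :
    ContinuousAt (fun p : (Fin N → ℂ) × Mat N => nl p.1 p.2) p := by
  rw [continuousAt_pi]
  intro j
  unfold nl
  refine ContinuousAt.div ?_ continuous_dn.continuousAt hp
  refine Continuous.continuousAt ?_
  refine continuous_finsetSum _ fun k _ => ?_
  have h2 : Continuous fun p : (Fin N → ℂ) × Mat N => p.2 j k :=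
    (continuous_apply_apply j k).comp continuous_snd
  have h3 : Continuous fun p : (Fin N → ℂ) × Mat N => (starRingEnd ℂ) (p.1 k) :=
    Complex.continuous_conj.comp ((continuous_apply k).comp continuous_fst)
  exact h2.mul h3

theorem nl_spec {l : Fin N → ℂ} {M : Mat N} (hM : M ∈ PM) (h : dn l M ≠ 0) :
    nl l M ≠ 0 ∧ M = Phi (nl l M) ∧ pair (nl l M) l = 1 := by
  obtain ⟨u, hu, rfl⟩ := hM
  have h1 := (dn_ne hu).1 h
  rw [nl_Phi hu h1]
  refine ⟨smul_ne_zero (inv_ne_zero h1) hu, (Phi_smul (inv_ne_zero h1) u).symm, ?_⟩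
  rw [pair_smul, inv_mul_cancel₀ h1]

/-- the normalised lift is a holomorphic lift -/
theorem isLift_nl {U : Set ℂ} (hU : IsOpen U) {φ : ℂ → Mat N} (hφ : HolP U φ)
    {l : ℂ → Fin N → ℂ} (hl : DifferentiableOn ℂ l U) (h : ∀ z ∈ U, dn (l z) (φ z) ≠ 0) :
    IsLift U φ (fun z => nl (l z) (φ z)) := by
  constructor
  · intro z hz
    obtain ⟨G, hG, -, hev⟩ := HolP.nhds hφ hz
    have h1 : (fun z => nl (l z) (φ z)) =ᶠ[𝓝 z] fun w => (pair (G w) (l w))⁻¹ • G w := by
      filter_upwards [hev, hU.mem_nhds hz] with w hw hwU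
      rw [hw.2]
      refine nl_Phi hw.1 ((dn_ne hw.1).1 ?_)
      rw [← hw.2]
      exact h w hwU
    refine (DifferentiableAt.congr_of_eventuallyEq ?_ h1).differentiableWithinAt
    have hlz : DifferentiableAt ℂ l z := hl.differentiableAt (hU.mem_nhds hz)
    have h2 : DifferentiableAt ℂ (fun w => pair (G w) (l w)) z := by
      unfold pair
      refine DifferentiableAt.fun_sum fun k _ => ?_
      exact (differentiableAt_pi.1 hG k).mul (differentiableAt_pi.1 hlz k)
    refine (h2.inv ?_).smul hG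
    have h3 := hev.self_of_nhds
    refine (dn_ne h3.1).1 ?_
    rw [← h3.2]
    exact h z hz
  · intro z hz
    obtain ⟨h1, h2, -⟩ := nl_spec (hφ.mem_PM hz) (h z hz)
    exact ⟨h1, h2⟩

/-- holomorphic functions without common zeros -/
def Cop (R : ℝ) (g h : ℂ → ℂ) : Prop :=
  ∃ α β : ℂ → ℂ, DifferentiableOn ℂ α (ball 0 R) ∧ DifferentiableOn ℂ β (ball 0 R) ∧
    ∀ z ∈ ball (0 : ℂ) R, α z * g z + β z * h z = 1

theorem Cop.mul {R : ℝ} {g g' h : ℂ → ℂ} (hg : Differentiable ℂ g) (hh : Differentiable ℂ h)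
    (hg' : Differentiable ℂ g')
    (h1 : Cop R g h) (h2 : Cop R g' h) : Cop R (fun z => g z * g' z) h := by
  obtain ⟨α, β, hα, hβ, he⟩ := h1
  obtain ⟨α', β', hα', hβ', he'⟩ := h2
  refine ⟨fun z => α z * α' z, fun z => α z * g z * β' z + β z * (α' z * g' z) +
    β z * β' z * h z, hα.mul hα', ?_, fun z hz => ?_⟩
  · exact (((hα.mul hg.differentiableOn).mul hβ').add
      (hβ.mul (hα'.mul hg'.differentiableOn))).add ((hβ.mul hβ').mul hh.differentiableOn)
  · linear_combination (α z * g z + β z * h z) * he' z hz + he z hz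

theorem Cop.lin {R : ℝ} {h : ℂ → ℂ} (hh : Differentiable ℂ h) {a : ℂ} (ha : h a ≠ 0) :
    Cop R (fun z => z - a) h := by
  have h1 : Differentiable ℂ (dslope h a) := by
    have := (Complex.differentiableOn_dslope (f := h) (c := a) univ_mem).2 hh.differentiableOn
    exact differentiableOn_univ.1 this
  refine ⟨fun z => -(dslope h a z / h a), fun _ => (h a)⁻¹,
    ((h1.div_const _).neg).differentiableOn, differentiableOn_const _, fun z _ => ?_⟩
  have h2 := sub_smul_dslope h a z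
  rw [smul_eq_mul] at h2
  field_simp
  linear_combination -h2

theorem Cop.pow {R : ℝ} {g h : ℂ → ℂ} (hg : Differentiable ℂ g) (hh : Differentiable ℂ h)
    (h1 : Cop R g h) (n : ℕ) : Cop R (fun z => g z ^ n) h := by
  induction n with
  | zero =>
    exact ⟨fun _ => 1, fun _ => 0, differentiableOn_const _, differentiableOn_const _,
      fun z _ => by simp⟩
  | succ n ih =>
    have := Cop.mul (hg.pow n) hh hg ih h1
    simpa [pow_succ] using this

theorem cop_of_finite {R : ℝ} {h : ℂ → ℂ} (hh : Differentiable ℂ h) (Z : Finset ℂ) :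
    ∀ g : ℂ → ℂ, Differentiable ℂ g → (∃ z, g z ≠ 0) → (∀ z ∈ ball (0 : ℂ) R, g z = 0 → z ∈ Z) →
      (∀ z ∈ Z, h z ≠ 0) → Cop R g h := by
  classical
  induction Z using Finset.induction_on with
  | empty =>
    intro g hg _ hgZ _
    refine ⟨fun z => (g z)⁻¹, fun _ => 0, ?_, differentiableOn_const _, fun z hz => ?_⟩
    · exact hg.differentiableOn.inv fun z hz h0 => by simpa using hgZ z hz h0
    · have h0 : g z ≠ 0 := fun h0 => by simpa using hgZ z hz h0
      field_simp
      ring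
  | insert a Z haZ ih =>
    intro g hg hg0 hgZ hhZ
    obtain ⟨p, hp⟩ := hg.analyticAt a
    have hp0 : p ≠ 0 := by
      intro h0
      have h1 := hp.locally_zero_iff.2 h0
      obtain ⟨z, hz⟩ := hg0
      exact hz (entire_zero hg h1 z)
    set g1 : ℂ → ℂ := (Function.swap dslope a)^[p.order] g with hg1
    have hg1d : Differentiable ℂ g1 := by
      have h2 : ∀ n : ℕ, Differentiable ℂ ((Function.swap dslope a)^[n] g) := by
        intro n
        induction n with
        | zero => exact hg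
        | succ n ihn =>
          rw [Function.iterate_succ_apply']
          have := (Complex.differentiableOn_dslope (c := a) univ_mem).2 ihn.differentiableOn
          exact differentiableOn_univ.1 this
      exact h2 _
    have hfac : ∀ z, g z = (z - a) ^ p.order * g1 z := fun z => by
      have := hp.eq_pow_order_mul_iterate_dslope z
      rwa [smul_eq_mul] at this
    have hg1a : g1 a ≠ 0 := hp.iterate_dslope_fslope_ne_zero hp0
    have h3 : Cop R g1 h := by
      refine ih g1 hg1d ⟨a, hg1a⟩ (fun z hz h0 => ?_) fun z hz => hhZ z (Finset.mem_insert_of_mem hz)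
      have h4 := hgZ z hz (by rw [hfac, h0, mul_zero])
      rcases Finset.mem_insert.1 h4 with rfl | h4
      · exact absurd h0 hg1a
      · exact h4
    have h4 : Cop R (fun z => (z - a) ^ p.order) h :=
      Cop.pow (by fun_prop) hh (Cop.lin hh (hhZ a (Finset.mem_insert_self _ _))) _
    have h5 := Cop.mul (by fun_prop) hh hg1d h4 h3
    have h6 : g = fun z => (z - a) ^ p.order * g1 z := funext hfac
    rw [h6]
    exact h5

theorem zeros_finite {g : ℂ → ℂ} (hg : Differentiable ℂ g) (h0 : ∃ z, g z ≠ 0) (R : ℝ) :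
    {z : ℂ | z ∈ closedBall 0 R ∧ g z = 0}.Finite := by
  by_contra hinf
  have hinf' : {z : ℂ | z ∈ closedBall 0 R ∧ g z = 0}.Infinite := hinf
  obtain ⟨x, -, hx⟩ := hinf'.exists_accPt_of_subset_isCompact (isCompact_closedBall 0 R)
    (fun z hz => hz.1)
  have h1 : ∃ᶠ z in 𝓝[≠] x, g z = 0 := by
    rw [accPt_iff_frequently] at hx
    rw [frequently_nhdsWithin_iff]
    exact hx.mono fun z hz => ⟨hz.2.2, hz.1⟩
  have h2 := (hg.analyticAt x).frequently_zero_iff_eventually_zero.1 h1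
  obtain ⟨z, hz⟩ := h0
  exact hz (entire_zero hg h2 z)

/-- **Partners**: a holomorphic curve in the dual space -/
theorem exists_partner {G : ℂ → Fin N → ℂ} (hG : Differentiable ℂ G) (h0 : ∀ z, G z ≠ 0)
    (R : ℝ) : ∃ l : ℂ → Fin N → ℂ, DifferentiableOn ℂ l (ball 0 R) ∧
      ∀ z ∈ ball (0 : ℂ) R, pair (G z) (l z) = 1 := by
  have hpd : ∀ l : Fin N → ℂ, Differentiable ℂ fun z => pair (G z) l := by
    intro l
    unfold pair
    refine Differentiable.fun_sum fun k _ => ?_
    exact (differentiable_pi.1 hG k).mul_const _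
  have h1 : ∃ l : Fin N → ℂ, pair (G 0) l ≠ 0 := by
    refine ⟨fun k => (starRingEnd ℂ) (G 0 k), ?_⟩
    have h2 := nsq_ne (h0 0)
    exact h2
  obtain ⟨l, hl⟩ := h1
  have hZ := zeros_finite (hpd l) ⟨0, hl⟩ R
  have : Finite {z : ℂ | z ∈ closedBall 0 R ∧ pair (G z) l = 0} := hZ
  obtain ⟨f, hf⟩ := Module.exists_dual_forall_apply_ne_zero (K := ℂ)
    (fun z : {z : ℂ | z ∈ closedBall 0 R ∧ pair (G z) l = 0} => G z) (fun z => h0 z)
  set l' : Fin N → ℂ := fun k => f (Pi.single k 1) with hl'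
  have hfl : ∀ v, f v = pair v l' := by
    intro v
    conv_lhs => rw [← Finset.univ_sum_single v]
    rw [map_sum]
    refine Finset.sum_congr rfl fun k _ => ?_
    have : Pi.single k (v k) = v k • (Pi.single k 1 : Fin N → ℂ) := by
      rw [← Pi.single_smul, smul_eq_mul, mul_one]
    rw [this, map_smul, smul_eq_mul]
  obtain ⟨α, β, hα, hβ, he⟩ := cop_of_finite (R := R) (hpd l') hZ.toFinset
    (fun z => pair (G z) l) (hpd l) ⟨0, hl⟩ (fun z hz hz0 => by
      rw [Set.Finite.mem_toFinset]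
      exact ⟨ball_subset_closedBall hz, hz0⟩) (fun z hz => by
      rw [Set.Finite.mem_toFinset] at hz
      rw [← hfl]
      exact hf ⟨z, hz⟩)
  refine ⟨fun z => α z • l + β z • l', ?_, fun z hz => ?_⟩
  · exact (hα.smul_const l).add (hβ.smul_const l')
  · rw [← he z hz]
    unfold pair
    rw [Finset.mul_sum, Finset.mul_sum, ← Finset.sum_add_distrib]
    refine Finset.sum_congr rfl fun k _ => ?_
    simp only [Pi.add_apply, Pi.smul_apply, smul_eq_mul]
    ring

end lift

end Run7.h418
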