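import Pool.Agent.Run7.h418.Avg

/-!
The maximum principle for the growth of the curves of a family.
-/

set_option autoImplicit false

open Metric Set Filter Topology Real

namespace Run7.h418

open Pool.Agent.Y190.OP

variable {N : ℕ}

/-- complex conjugate vector -/
noncomputable def cj (u : Fin N → ℂ) : Fin N → ℂ := fun k => (starRingEnd ℂ) (u k)

theorem pair_cj (u : Fin N → ℂ) : pair u (cj u) = ((sq u : ℝ) : ℂ) := by
  have h := nsq_eq u
  unfold nsq at h
  exact h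

theorem pair_sub (u v l : Fin N → ℂ) : pair (u - v) l = pair u l - pair v l := by
  unfold pair
  rw [← Finset.sum_sub_distrib]
  exact Finset.sum_congr rfl fun k _ => by rw [Pi.sub_apply, sub_mul]

theorem norm_sq_add (a b : ℂ) :
    ‖a‖ ^ 2 = ‖b‖ ^ 2 + ‖a - b‖ ^ 2 + 2 * ((a - b) * (starRingEnd ℂ) b).re := by
  rw [Complex.sq_norm, Complex.sq_norm, Complex.sq_norm, Complex.normSq_apply,
    Complex.normSq_apply, Complex.normSq_apply]
  simp only [Complex.sub_re, Complex.sub_im, Complex.mul_re, Complex.conj_re, Complex.conj_im]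
  ring

/-- Pythagoras -/
theorem sq_add (u v : Fin N → ℂ) : sq u = sq v + sq (u - v) + 2 * (pair (u - v) (cj v)).re := by
  unfold sq pair cj
  rw [Complex.re_sum, Finset.mul_sum, ← Finset.sum_add_distrib, ← Finset.sum_add_distrib]
  exact Finset.sum_congr rfl fun k _ => norm_sq_add _ _

/-- the square of the cosine of the angle -/
noncomputable def an (M M' : Mat N) : ℂ := ∑ j, ∑ k, M j k * M' k j

theorem dn_cj {x : Fin N → ℂ} (hx : x ≠ 0) (M : Mat N) :
    dn (cj x) M = nsq x * an M (Phi x) := by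
  have h := nsq_ne hx
  unfold dn an Phi cj
  rw [Finset.mul_sum]
  refine Finset.sum_congr rfl fun j _ => ?_
  rw [Finset.mul_sum]
  refine Finset.sum_congr rfl fun k _ => ?_
  rw [Complex.conj_conj]
  field_simp

theorem an_self {M : Mat N} (hM : M ∈ PM) : an M M = 1 := by
  obtain ⟨u, hu, rfl⟩ := hM
  have h1 := dn_cj hu (Phi u)
  have h2 := nsq_ne hu
  rw [dn_Phi, show pair u (cj u) = nsq u from rfl] at h1
  have h3 : (starRingEnd ℂ) (nsq u) = nsq u := by
    rw [nsq_eq, Complex.conj_ofReal]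
  rw [h3] at h1
  field_simp at h1
  exact h1.symm

theorem continuous_an : Continuous fun p : Mat N × Mat N => an p.1 p.2 := by
  unfold an
  refine continuous_finsetSum _ fun j _ => continuous_finsetSum _ fun k _ => ?_
  exact ((continuous_apply_apply j k).comp continuous_fst).mul
    ((continuous_apply_apply k j).comp continuous_snd)

theorem sq_nl {l : Fin N → ℂ} {M : Mat N} (hM : M ∈ PM) (h : dn l M ≠ 0) :
    sq (nl l M) * ‖dn l M‖ = 1 := by
  obtain ⟨u, hu, rfl⟩ := hM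
  have h1 := (dn_ne hu).1 h
  rw [nl_Phi hu h1, dn_Phi, sq_smul, norm_div, norm_mul, norm_inv]
  have h2 : ‖(starRingEnd ℂ) (pair u l)‖ = ‖pair u l‖ := Complex.norm_conj _
  have h3 : ‖nsq u‖ = sq u := by
    rw [nsq_eq, Complex.norm_real, Real.norm_of_nonneg]
    · rfl
    · exact sq_nonneg u
  rw [h2, h3]
  have h4 := sq_pos hu
  have h5 : ‖pair u l‖ ≠ 0 := norm_ne_zero_iff.2 h1
  field_simp

/-- the mean value property -/
theorem av_re {r R : ℝ} (hr : 0 ≤ r) (hrR : r < R) {g : ℂ → ℂ}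
    (hg : DifferentiableOn ℂ g (ball 0 R)) : av r (fun z => (g z).re) = (g 0).re := by
  have h1 : DiffContOnCl ℂ g (ball 0 |r|) := by
    refine DifferentiableOn.diffContOnCl ?_
    refine hg.mono fun z hz => ?_
    have h2 := closure_ball_subset_closedBall hz
    rw [abs_of_nonneg hr, mem_closedBall_zero_iff] at h2
    exact mem_ball_zero_iff.2 (h2.trans_lt hrR)
  have h2 : CircleIntegrable g 0 r := by
    refine ContinuousOn.circleIntegrable hr ?_
    refine hg.continuousOn.mono fun z hz => ?_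
    rw [mem_sphere_zero_iff_norm] at hz
    exact mem_ball_zero_iff.2 (by rw [hz]; exact hrR)
  have h3 := Complex.reCLM.circleAverage_comp_comm h2
  rw [h1.circleAverage] at h3
  exact h3

theorem av_norm_sq {r R : ℝ} (hr : 0 ≤ r) (hrR : r < R) {g : ℂ → ℂ}
    (hg : DifferentiableOn ℂ g (ball 0 R)) : ‖g 0‖ ^ 2 ≤ av r (fun z => ‖g z‖ ^ 2) := by
  have hs : sphere (0 : ℂ) r ⊆ ball 0 R := fun z hz => by
    rw [mem_sphere_zero_iff_norm] at hz
    exact mem_ball_zero_iff.2 (by rw [hz]; exact hrR)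
  have hc := hg.continuousOn.mono hs
  have h1 : av r (fun z => 2 * (g z * (starRingEnd ℂ) (g 0)).re - ‖g 0‖ ^ 2) ≤
      av r (fun z => ‖g z‖ ^ 2) := by
    refine av_mono hr (by fun_prop) (by fun_prop) fun z _ => ?_
    have h2 := norm_sq_add (g z) (g 0)
    have h3 : ((g z - g 0) * (starRingEnd ℂ) (g 0)).re =
        (g z * (starRingEnd ℂ) (g 0)).re - ‖g 0‖ ^ 2 := by
      rw [sub_mul, Complex.sub_re, Complex.mul_conj, Complex.ofReal_re, Complex.normSq_eq_norm_sq]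
    rw [h3] at h2
    nlinarith [_root_.sq_nonneg ‖g z - g 0‖]
  rw [av_sub hr (by fun_prop) (by fun_prop), av_const, av_mul,
    av_re hr hrR (hg.mul_const _)] at h1
  have h3 : (g 0 * (starRingEnd ℂ) (g 0)).re = ‖g 0‖ ^ 2 := by
    rw [Complex.mul_conj, Complex.ofReal_re, Complex.normSq_eq_norm_sq]
  rw [h3] at h1
  linarith

theorem av_deriv {r R : ℝ} (hr : 0 ≤ r) (hrR : r < R) {b : ℂ → ℂ}
    (hb : DifferentiableOn ℂ b (ball 0 R)) (h0 : b 0 = 0) :
    r ^ 2 * ‖deriv b 0‖ ^ 2 ≤ av r (fun z => ‖b z‖ ^ 2) := by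
  have hR : 0 < R := hr.trans_lt hrR
  have hg : DifferentiableOn ℂ (dslope b 0) (ball 0 R) :=
    (Complex.differentiableOn_dslope (ball_mem_nhds 0 hR)).2 hb
  have h1 := av_norm_sq hr hrR hg
  rw [dslope_same] at h1
  have h2 : av r (fun z => ‖b z‖ ^ 2) = r ^ 2 * av r (fun z => ‖dslope b 0 z‖ ^ 2) := by
    rw [← av_mul]
    refine av_congr hr fun z hz => ?_
    rw [mem_sphere_zero_iff_norm] at hz
    have h3 := sub_smul_dslope b 0 z
    rw [smul_eq_mul, h0, sub_zero, sub_zero] at h3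
    rw [← h3, norm_mul, hz, mul_pow]
  rw [h2]
  gcongr

theorem log_ge {t : ℝ} (h0 : 0 ≤ t) (h1 : t ≤ 1) : t / 2 ≤ Real.log (1 + t) := by
  have h2 : Real.log (1 + t)⁻¹ ≤ (1 + t)⁻¹ - 1 := Real.log_le_sub_one_of_pos (by positivity)
  rw [Real.log_inv] at h2
  have h3 : (1 + t)⁻¹ - 1 ≤ -(t / 2) := by
    have : (1 + t)⁻¹ ≤ 1 - t / 2 := by
      rw [inv_le_iff_one_le_mul₀ (by positivity)]
      nlinarith
    linarith
  linarith

/-- lower bound for the growth -/
theorem low {ε R : ℝ} (hε : 0 < ε) (hεR : ε < R) {ψ : ℂ → Mat N} (hψ : HolP (ball 0 R) ψ)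
    {i : Fin N} (hi : ψ 0 i i ≠ 0) (hK : chart i (ψ 0) ∈ Kc i)
    (han : ∀ s ∈ ball (0 : ℂ) R, 1 / 2 ≤ ‖an (ψ s) (ψ 0)‖) {Λ : ℂ → Fin N → ℂ}
    (hΛ : IsLift (ball 0 R) ψ Λ) :
    ε ^ 2 * ‖deriv (fun s => chart i (ψ s)) 0‖ ^ 2 ≤ 8 * N * tr ε Λ := by
  have hR : 0 < R := hε.trans hεR
  have h0R : (0 : ℂ) ∈ ball (0 : ℂ) R := mem_ball_self hR
  set x : Fin N → ℂ := chart i (ψ 0) with hx
  have hxi : x i = 1 := PM.chart_self hi
  have hx0 : x ≠ 0 := PM.chart_ne hi
  have hxP : Phi x = ψ 0 := PM.Phi_chart (hψ.mem_PM h0R) hi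
  set q : ℝ := sq x with hq
  have hq0 : 0 < q := sq_pos hx0
  have hq1 : 1 ≤ q := by
    have h1 : ‖x i‖ ^ 2 ≤ q := Finset.single_le_sum (f := fun l => ‖x l‖ ^ 2)
      (fun _ _ => by positivity) (Finset.mem_univ i)
    rw [hxi, norm_one, one_pow] at h1
    exact h1
  have hqN : q ≤ N := by
    refine (sq_le x).trans ?_
    have h1 : ‖x‖ ^ 2 ≤ 1 := by
      have := hK.2
      have h2 := norm_nonneg x
      nlinarith
    have h2 : (0 : ℝ) ≤ N := Nat.cast_nonneg N
    nlinarith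
  have hnq : ‖nsq x‖ = q := by
    rw [nsq_eq, Complex.norm_real, Real.norm_of_nonneg]
    · rfl
    · exact sq_nonneg x
  have hdn : ∀ s ∈ ball (0 : ℂ) R, dn (cj x) (ψ s) ≠ 0 := by
    intro s hs
    rw [dn_cj hx0, hxP]
    refine mul_ne_zero (nsq_ne hx0) ?_
    intro h
    have := han s hs
    rw [h, norm_zero] at this
    linarith
  set V : ℂ → Fin N → ℂ := fun s => nl (cj x) (ψ s) with hV
  have hVL : IsLift (ball 0 R) ψ V := isLift_nl isOpen_ball hψ (differentiableOn_const _) hdn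
  have hVspec : ∀ s ∈ ball (0 : ℂ) R, pair (V s) (cj x) = 1 ∧ sq (V s) ≤ 2 / q := by
    intro s hs
    refine ⟨(nl_spec (hψ.mem_PM hs) (hdn s hs)).2.2, ?_⟩
    have h1 := sq_nl (hψ.mem_PM hs) (hdn s hs)
    rw [dn_cj hx0, hxP, norm_mul, hnq] at h1
    have h2 := han s hs
    rw [le_div_iff₀ hq0]
    have h3 : 0 ≤ sq (V s) := sq_nonneg _
    have h4 : sq (V s) * (q * ‖an (ψ s) (ψ 0)‖) = 1 := h1
    nlinarith [mul_nonneg h3 hq0.le]
  have hV0 : V 0 = ((q : ℂ))⁻¹ • x := by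
    have h1 : pair x (cj x) ≠ 0 := by
      rw [pair_cj]
      exact_mod_cast hq0.ne'
    change nl (cj x) (ψ 0) = _
    rw [← hxP, nl_Phi hx0 h1, pair_cj]
  set b : ℂ → Fin N → ℂ := fun s => V s - V 0 with hb
  have hcross : ∀ s ∈ ball (0 : ℂ) R, (pair (V s - V 0) (cj (V 0))).re = 0 := by
    intro s hs
    have h1 : pair (V s - V 0) (cj x) = 0 := by
      rw [pair_sub, (hVspec s hs).1, (hVspec 0 h0R).1, sub_self]
    have h2 : pair (V s - V 0) (cj (V 0)) = (starRingEnd ℂ) ((q : ℂ))⁻¹ * pair (V s - V 0) (cj x) := by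
      unfold pair cj
      rw [Finset.mul_sum]
      refine Finset.sum_congr rfl fun k _ => ?_
      rw [hV0, Pi.smul_apply, smul_eq_mul, map_mul]
      ring
    rw [h2, h1, mul_zero, Complex.zero_re]
  have hsqV0 : sq (V 0) = q⁻¹ := by
    rw [hV0, sq_smul, norm_inv, Complex.norm_real, Real.norm_of_nonneg hq0.le, ← hq]
    field_simp
  have hsqV : ∀ s ∈ ball (0 : ℂ) R, sq (V s) = q⁻¹ + sq (b s) := by
    intro s hs
    rw [sq_add (V s) (V 0), hcross s hs, hsqV0, mul_zero, add_zero]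
  have hbq : ∀ s ∈ ball (0 : ℂ) R, q * sq (b s) ≤ 1 := by
    intro s hs
    have h1 := (hVspec s hs).2
    rw [hsqV s hs] at h1
    have h2 : q * (q⁻¹ + sq (b s)) ≤ q * (2 / q) := mul_le_mul_of_nonneg_left h1 hq0.le
    have h3 : q * (2 / q) = 2 := by field_simp
    have h4 : q * (q⁻¹ + sq (b s)) = 1 + q * sq (b s) := by
      rw [mul_add, mul_inv_cancel₀ hq0.ne']
    linarith
  have hlgV : ∀ s ∈ ball (0 : ℂ) R, lg (V 0) + q * sq (b s) / 2 ≤ lg (V s) := by
    intro s hs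
    have h1 : sq (V s) = sq (V 0) * (1 + q * sq (b s)) := by
      rw [hsqV s hs, hsqV0]
      field_simp
    unfold lg
    have h2 : 0 ≤ q * sq (b s) := mul_nonneg hq0.le (sq_nonneg _)
    rw [h1, Real.log_mul (by rw [hsqV0]; positivity) (by positivity)]
    have h3 := log_ge h2 (hbq s hs)
    linarith
  have hsph : sphere (0 : ℂ) ε ⊆ ball 0 R := fun z hz => by
    rw [mem_sphere_zero_iff_norm] at hz
    exact mem_ball_zero_iff.2 (by rw [hz]; exact hεR)
  have hbd : DifferentiableOn ℂ b (ball 0 R) := hVL.1.sub_const _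
  have hbk : ∀ k, DifferentiableOn ℂ (fun s => b s k) (ball 0 R) := fun k =>
    differentiableOn_pi.1 hbd k
  have hbc : ∀ k, ContinuousOn (fun s => ‖b s k‖ ^ 2) (sphere 0 ε) := fun k =>
    (((hbk k).continuousOn.mono hsph).norm).pow 2
  have hbsq : ContinuousOn (fun s => sq (b s)) (sphere 0 ε) := by
    unfold sq
    exact continuousOn_finsetSum _ fun k _ => hbc k
  have havsq : ε ^ 2 * sq (deriv b 0) ≤ av ε (fun s => sq (b s)) := by
    have h1 : av ε (fun s => sq (b s)) = ∑ k, av ε (fun s => ‖b s k‖ ^ 2) := by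
      unfold sq
      exact circleAverage_fun_sum fun k _ => ci hε.le (hbc k)
    rw [h1]
    unfold sq
    rw [Finset.mul_sum]
    refine Finset.sum_le_sum fun k _ => ?_
    have h2 := av_deriv hε.le hεR (hbk k) (by simp [hb])
    have h3 : deriv (fun s => b s k) 0 = deriv b 0 k := by
      have h4 := (hbd.differentiableAt (ball_mem_nhds 0 hR)).hasDerivAt
      exact ((hasDerivAt_pi.1 h4) k).deriv
    rw [h3] at h2
    exact h2
  have htr : q / 2 * (ε ^ 2 * sq (deriv b 0)) ≤ tr ε Λ := by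
    rw [tr_congr hε.le isOpen_ball (closedBall_subset_ball hεR) hΛ hVL]
    have h1 : av ε (fun s => lg (V 0) + q / 2 * sq (b s)) ≤ av ε (fun s => lg (V s)) := by
      refine av_mono hε.le (continuousOn_const.add (continuousOn_const.mul hbsq))
        (hVL.continuousOn_lg.mono hsph) fun s hs => ?_
      have := hlgV s (hsph hs)
      linarith
    rw [av_add (f := fun _ => lg (V 0)) (g := fun s => q / 2 * sq (b s)) hε.le continuousOn_const
      (continuousOn_const.mul hbsq), av_const, av_mul] at h1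
    unfold tr
    have h2 : q / 2 * (ε ^ 2 * sq (deriv b 0)) ≤ q / 2 * av ε (fun s => sq (b s)) := by gcongr
    linarith
  have hVi : ∀ s ∈ ball (0 : ℂ) R, V s i ≠ 0 ↔ ψ s i i ≠ 0 := by
    intro s hs
    rw [(hVL.2 s hs).2]
    exact (Phi_diag_ne (hVL.2 s hs).1).symm
  have hη : ‖deriv (fun s => chart i (ψ s)) 0‖ ≤ 2 * q * ‖deriv b 0‖ := by
    have hVd : DifferentiableAt ℂ V 0 := hVL.1.differentiableAt (ball_mem_nhds 0 hR)
    have hVdk : ∀ k, HasDerivAt (fun s => V s k) (deriv V 0 k) 0 := fun k =>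
      (hasDerivAt_pi.1 hVd.hasDerivAt) k
    have hVi0 : V 0 i = (q : ℂ)⁻¹ := by
      rw [hV0, Pi.smul_apply, hxi, smul_eq_mul, mul_one]
    have hqc : (q : ℂ) ≠ 0 := by exact_mod_cast hq0.ne'
    have hVi0' : V 0 i ≠ 0 := by rw [hVi0]; exact inv_ne_zero hqc
    have h1 : (fun s => chart i (ψ s)) =ᶠ[𝓝 0] fun s k => V s k / V s i := by
      filter_upwards [ball_mem_nhds (0 : ℂ) hR, (hVdk i).continuousAt.eventually_ne hVi0']
        with s hs hsi
      rw [(hVL.2 s hs).2, chart_Phi (hVL.2 s hs).1 hsi]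
      funext k
      rw [Pi.smul_apply, smul_eq_mul, div_eq_inv_mul]
    have h2 : HasDerivAt (fun s k => V s k / V s i) (fun k => (deriv V 0 k * V 0 i -
        V 0 k * deriv V 0 i) / V 0 i ^ 2) 0 :=
      hasDerivAt_pi.2 fun k => (hVdk k).div (hVdk i) hVi0'
    have h3 : deriv b 0 = deriv V 0 := by
      change deriv (fun s => V s - V 0) 0 = _
      rw [deriv_sub_const]
    rw [h1.deriv_eq, h2.deriv, h3, pi_norm_le_iff_of_nonneg (by positivity)]
    intro k
    have h4 : (deriv V 0 k * V 0 i - V 0 k * deriv V 0 i) / V 0 i ^ 2 =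
        (q : ℂ) * (deriv V 0 k - x k * deriv V 0 i) := by
      rw [hVi0, hV0, Pi.smul_apply, smul_eq_mul]
      field_simp
    rw [h4, norm_mul, Complex.norm_real, Real.norm_of_nonneg hq0.le]
    have h5 : ‖deriv V 0 k - x k * deriv V 0 i‖ ≤ 2 * ‖deriv V 0‖ := by
      calc ‖deriv V 0 k - x k * deriv V 0 i‖ ≤ ‖deriv V 0 k‖ + ‖x k * deriv V 0 i‖ :=
            norm_sub_le _ _
        _ = ‖deriv V 0 k‖ + ‖x k‖ * ‖deriv V 0 i‖ := by rw [norm_mul]
        _ ≤ ‖deriv V 0‖ + 1 * ‖deriv V 0‖ := by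
            gcongr
            · exact norm_le_pi_norm _ k
            · exact (norm_le_pi_norm x k).trans hK.2
            · exact norm_le_pi_norm _ i
        _ = 2 * ‖deriv V 0‖ := by ring
    calc q * ‖deriv V 0 k - x k * deriv V 0 i‖ ≤ q * (2 * ‖deriv V 0‖) := by gcongr
      _ = 2 * q * ‖deriv V 0‖ := by ring
  have hsq' : 0 ≤ sq (deriv b 0) := sq_nonneg _
  calc ε ^ 2 * ‖deriv (fun s => chart i (ψ s)) 0‖ ^ 2
      ≤ ε ^ 2 * (2 * q * ‖deriv b 0‖) ^ 2 := by gcongr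
    _ = 4 * q ^ 2 * ε ^ 2 * ‖deriv b 0‖ ^ 2 := by ring
    _ ≤ 4 * q ^ 2 * ε ^ 2 * sq (deriv b 0) := by
        gcongr
        exact norm_sq_le _
    _ = 8 * q * (q / 2 * (ε ^ 2 * sq (deriv b 0))) := by ring
    _ ≤ 8 * q * tr ε Λ := by gcongr
    _ ≤ 8 * N * tr ε Λ := by
        have h1 : 0 ≤ tr ε Λ := le_trans (by positivity) htr
        gcongr

end Run7.h418
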