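import Pool.Agent.Run7.h418.Avg2

/-!
The maximum principle for the growth of the curves of a family, II.
-/

set_option autoImplicit false

open Metric Set Filter Topology Real

namespace Run7.h418

open Pool.Agent.Y190.OP

variable {N : ℕ}

attribute [local irreducible] dn nl an

theorem ev_compact {F : Filter ℕ} {K : Set ℂ} (hK : IsCompact K) {P : ℕ → ℂ → Prop}
    (h : ∀ z ∈ K, ∀ᶠ p : ℕ × ℂ in F ×ˢ 𝓝 z, P p.1 p.2) : ∀ᶠ k in F, ∀ z ∈ K, P k z := by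
  have h1 : {p : ℕ × ℂ | P p.1 p.2} ∈ F ×ˢ 𝓝ˢ K := hK.mem_prod_nhdsSet_of_forall h
  obtain ⟨t1, ht1, t2, ht2, hsub⟩ := mem_prod_iff.1 h1
  filter_upwards [ht1] with k hk z hz
  exact hsub (⟨hk, subset_of_mem_nhdsSet ht2 hz⟩ : (k, z) ∈ t1 ×ˢ t2)

theorem tendsto_dn {α : Type} {F : Filter α} {u : α → Fin N → ℂ} {M : α → Mat N}
    {u0 : Fin N → ℂ} {M0 : Mat N} (hu : Tendsto u F (𝓝 u0)) (hM : Tendsto M F (𝓝 M0)) :
    Tendsto (fun x => dn (u x) (M x)) F (𝓝 (dn u0 M0)) := by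
  have h1 : Tendsto (fun x => (u x, M x)) F (𝓝 (u0, M0)) := hu.prodMk_nhds hM
  have h2 : Tendsto (fun p : (Fin N → ℂ) × Mat N => dn p.1 p.2) (𝓝 (u0, M0))
      (𝓝 (dn u0 M0)) := continuous_dn.tendsto (u0, M0)
  exact h2.comp h1

theorem tendsto_lg_nl {α : Type} {F : Filter α} {u : α → Fin N → ℂ} {M : α → Mat N}
    {u0 : Fin N → ℂ} {M0 : Mat N} (hu : Tendsto u F (𝓝 u0)) (hM : Tendsto M F (𝓝 M0))
    (hd : dn u0 M0 ≠ 0) (hne : nl u0 M0 ≠ 0) :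
    Tendsto (fun x => lg (nl (u x) (M x))) F (𝓝 (lg (nl u0 M0))) := by
  have h1 : Tendsto (fun x => (u x, M x)) F (𝓝 (u0, M0)) := hu.prodMk_nhds hM
  have h2 : Tendsto (fun p : (Fin N → ℂ) × Mat N => nl p.1 p.2) (𝓝 (u0, M0))
      (𝓝 (nl u0 M0)) := continuousAt_nl (p := (u0, M0)) hd
  have h3 : Tendsto (fun x => nl (u x) (M x)) F (𝓝 (nl u0 M0)) := h2.comp h1
  exact (continuousAt_lg hne).tendsto.comp h3

theorem isLift_chart {U : Set ℂ} {ψ : ℂ → Mat N} (hψ : HolP U ψ) {i : Fin N}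
    (hi : ∀ s ∈ U, ψ s i i ≠ 0) : IsLift U ψ (fun s => chart i (ψ s)) :=
  ⟨fun s hs => (hψ.diff_chart hs (hi s hs)).differentiableWithinAt, fun s hs =>
    ⟨PM.chart_ne (hi s hs), (PM.Phi_chart (hψ.mem_PM hs) (hi s hs)).symm⟩⟩

theorem IsLift.mono {U V : Set ℂ} {φ : ℂ → Mat N} {Λ : ℂ → Fin N → ℂ} (h : IsLift U φ Λ)
    (hV : V ⊆ U) : IsLift V φ Λ := ⟨h.1.mono hV, fun z hz => h.2 z (hV hz)⟩

/-- upper bound for the growth -/
theorem upp {ε R C : ℝ} (hε : 0 < ε) (hεR : ε < R) {ψ : ℂ → Mat N} (hψ : HolP (ball 0 R) ψ)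
    {i : Fin N} (hi : ∀ s ∈ ball (0 : ℂ) R, ψ s i i ≠ 0)
    (hC : ∀ s ∈ ball (0 : ℂ) R, ‖chart i (ψ s) - chart i (ψ 0)‖ ≤ C * ‖s‖) {Λ : ℂ → Fin N → ℂ}
    (hΛ : IsLift (ball 0 R) ψ Λ) : tr ε Λ ≤ N * C ^ 2 * ε ^ 2 := by
  have hR : 0 < R := hε.trans hεR
  have h0R : (0 : ℂ) ∈ ball (0 : ℂ) R := mem_ball_self hR
  set x : ℂ → Fin N → ℂ := fun s => chart i (ψ s) with hx
  have hxL : IsLift (ball 0 R) ψ x := isLift_chart hψ hi
  rw [tr_congr hε.le isOpen_ball (closedBall_subset_ball hεR) hΛ hxL]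
  have hsph : sphere (0 : ℂ) ε ⊆ ball 0 R := fun z hz => by
    rw [mem_sphere_zero_iff_norm] at hz
    exact mem_ball_zero_iff.2 (by rw [hz]; exact hεR)
  set q : ℝ := sq (x 0) with hq
  have hq0 : 0 < q := sq_pos (PM.chart_ne (hi 0 h0R))
  have hq1 : 1 ≤ q := by
    have h1 : ‖x 0 i‖ ^ 2 ≤ q := Finset.single_le_sum (f := fun l => ‖x 0 l‖ ^ 2)
      (fun _ _ => by positivity) (Finset.mem_univ i)
    have h2 : x 0 i = 1 := PM.chart_self (hi 0 h0R)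
    rw [h2, norm_one, one_pow] at h1
    exact h1
  have hxd : DifferentiableOn ℂ (fun s => x s - x 0) (ball 0 R) := hxL.1.sub_const _
  have hp : DifferentiableOn ℂ (fun s => pair (x s - x 0) (cj (x 0))) (ball 0 R) := by
    unfold pair
    refine DifferentiableOn.fun_sum fun k _ => ?_
    exact (differentiableOn_pi.1 hxd k).mul_const _
  have hpc : ContinuousOn (fun s => (pair (x s - x 0) (cj (x 0))).re) (sphere 0 ε) :=
    Complex.continuous_re.comp_continuousOn (hp.continuousOn.mono hsph)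
  have h1 : ∀ s ∈ ball (0 : ℂ) R, lg (x s) ≤ lg (x 0) +
      (N * C ^ 2 * ‖s‖ ^ 2 + 2 * (pair (x s - x 0) (cj (x 0))).re / q) := by
    intro s hs
    have hxs : 0 < sq (x s) := sq_pos (hxL.2 s hs).1
    have h2 : lg (x s) = lg (x 0) + Real.log (sq (x s) / q) := by
      unfold lg
      rw [Real.log_div hxs.ne' hq0.ne']
      ring
    rw [h2]
    gcongr
    refine (Real.log_le_sub_one_of_pos (by positivity)).trans ?_
    rw [sq_add (x s) (x 0), ← hq, add_div, add_div, div_self hq0.ne']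
    have h3 : sq (x s - x 0) / q ≤ N * C ^ 2 * ‖s‖ ^ 2 := by
      calc sq (x s - x 0) / q ≤ sq (x s - x 0) := div_le_self (sq_nonneg _) hq1
        _ ≤ N * ‖x s - x 0‖ ^ 2 := sq_le _
        _ ≤ N * (C * ‖s‖) ^ 2 := by
            gcongr
            exact hC s hs
        _ = N * C ^ 2 * ‖s‖ ^ 2 := by ring
    linarith
  have h2 : av ε (fun s => lg (x s)) ≤ av ε (fun s => lg (x 0) +
      (N * C ^ 2 * ε ^ 2 + 2 / q * (pair (x s - x 0) (cj (x 0))).re)) := by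
    refine av_mono hε.le (hxL.continuousOn_lg.mono hsph)
      (continuousOn_const.add (continuousOn_const.add (continuousOn_const.mul hpc)))
      fun s hs => ?_
    refine (h1 s (hsph hs)).trans (le_of_eq ?_)
    rw [mem_sphere_zero_iff_norm] at hs
    rw [hs]
    ring
  rw [av_add (f := fun _ => lg (x 0))
      (g := fun s => N * C ^ 2 * ε ^ 2 + 2 / q * (pair (x s - x 0) (cj (x 0))).re) hε.le
      continuousOn_const (continuousOn_const.add (continuousOn_const.mul hpc)),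
    av_add (f := fun _ => N * C ^ 2 * ε ^ 2)
      (g := fun s => 2 / q * (pair (x s - x 0) (cj (x 0))).re) hε.le continuousOn_const
      (continuousOn_const.mul hpc), av_const, av_const, av_mul, av_re hε.le hεR hp] at h2
  have h3 : pair (x 0 - x 0) (cj (x 0)) = 0 := by
    rw [sub_self]
    unfold pair
    simp
  rw [h3, Complex.zero_re, mul_zero, add_zero] at h2
  unfold tr
  linarith

open Classical in
/-- the growth of a curve -/
noncomputable def Tr (r : ℝ) (φ : ℂ → Mat N) : ℝ :=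
  if h : HolP univ φ then tr r (zero_free h).choose else 0

theorem Tr_eq {r : ℝ} (hr : 0 ≤ r) {φ : ℂ → Mat N} (hφ : HolP univ φ) {U : Set ℂ}
    (hU : IsOpen U) (hrU : closedBall 0 r ⊆ U) {Λ : ℂ → Fin N → ℂ} (hΛ : IsLift U φ Λ) :
    Tr r φ = tr r Λ := by
  unfold Tr
  rw [dif_pos hφ]
  obtain ⟨h1, h2, h3⟩ := (zero_free hφ).choose_spec
  refine tr_congr hr hU hrU ⟨h1.differentiableOn, fun z _ => ⟨h2 z, h3 z⟩⟩ hΛ

/-- continuity of averages with parameters -/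
theorem av_cont {ε : ℝ} (hε : 0 ≤ ε) {A : Set ℂ} {g : ℂ → ℂ → ℝ}
    (hg : ContinuousOn (fun p : ℂ × ℂ => g p.1 p.2) (A ×ˢ sphere 0 ε)) :
    ContinuousOn (fun z => av ε (fun s => g z s)) A := by
  rw [continuousOn_iff_continuous_domRestrict]
  unfold av circleAverage
  refine Continuous.const_smul (M := ℝ) (g := fun z : A => ∫ θ in 0..2 * π, g z (circleMap 0 ε θ))
    ?_ _
  refine intervalIntegral.continuous_parametric_intervalIntegral_of_continuous'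
    (f := fun (z : A) (θ : ℝ) => g z (circleMap 0 ε θ)) ?_ _ _
  refine hg.comp_continuous (f := fun p : A × ℝ => ((p.1 : ℂ), circleMap 0 ε p.2))
    (by fun_prop) fun p => ⟨p.1.2, ?_⟩
  exact circleMap_mem_sphere 0 hε _

/-- the inequality of the averages -/
theorem main_av {Φ : ℂ → ℂ → Mat N} {r ε0 : ℝ} (hr : 0 < r) (hε0 : 0 < ε0)
    (h1 : ∀ s ∈ ball (0 : ℂ) ε0, HolP univ fun z => Φ z s)
    (h2 : ∀ z, HolP (ball 0 ε0) fun s => Φ z s)
    (h3 : ContinuousOn (fun p : ℂ × ℂ => Φ p.1 p.2) (univ ×ˢ ball 0 ε0))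
    (hmax : ∀ s ∈ ball (0 : ℂ) ε0, Tr r (fun z => Φ z s) ≤ Tr r (fun z => Φ z 0)) :
    ∃ ε1 > 0, ε1 ≤ ε0 ∧ ∃ L : ℂ → ℂ → Fin N → ℂ,
      (∀ z ∈ closedBall (0 : ℂ) r, IsLift (ball 0 ε1) (fun s => Φ z s) (L z)) ∧
      ∀ ε, 0 < ε → ε < ε1 → ContinuousOn (fun z => tr ε (L z)) (sphere 0 r) ∧
        av r (fun z => tr ε (L z)) ≤ tr ε (L 0) := by
  have h00 : (0 : ℂ) ∈ ball (0 : ℂ) ε0 := mem_ball_self hε0
  obtain ⟨G, hG, hG0, hGφ⟩ := zero_free (h1 0 h00)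
  obtain ⟨l, hl, hpair⟩ := exists_partner hG hG0 (r + 2)
  set K : Set ℂ := closedBall 0 (r + 1) with hK
  set B : Set ℂ := ball 0 (r + 2) with hB
  have hKB : K ⊆ B := closedBall_subset_ball (by linarith)
  have hdc : ContinuousOn (fun p : ℂ × ℂ => dn (l p.1) (Φ p.1 p.2)) (B ×ˢ ball 0 ε0) := by
    have h4 : ContinuousOn (fun p : ℂ × ℂ => (l p.1, Φ p.1 p.2)) (B ×ˢ ball 0 ε0) := by
      refine ContinuousOn.prodMk ?_ (h3.mono (Set.prod_mono (subset_univ _) le_rfl))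
      exact hl.continuousOn.comp continuousOn_fst fun p hp => hp.1
    exact Continuous.comp_continuousOn (g := fun p : (Fin N → ℂ) × Mat N => dn p.1 p.2)
      (f := fun p : ℂ × ℂ => (l p.1, Φ p.1 p.2)) continuous_dn h4
  have hBo : IsOpen (B ×ˢ ball (0 : ℂ) ε0) := IsOpen.prod isOpen_ball isOpen_ball
  set d : ℂ × ℂ → ℂ := fun p => dn (l p.1) (Φ p.1 p.2) with hd
  have hopen : IsOpen (B ×ˢ ball (0 : ℂ) ε0 ∩ d ⁻¹' {0}ᶜ) :=
    hdc.isOpen_inter_preimage hBo isOpen_compl_singleton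
  have hsub : K ×ˢ ({0} : Set ℂ) ⊆ B ×ˢ ball (0 : ℂ) ε0 ∩ d ⁻¹' {0}ᶜ := by
    rintro ⟨z, s⟩ ⟨hz, hs⟩
    have hs0 : s = 0 := hs
    have hz' : z ∈ K := hz
    rw [hs0]
    have h4 : d (z, 0) ≠ 0 := by
      rw [hd]
      change dn (l z) (Φ z 0) ≠ 0
      rw [hGφ z, dn_ne (hG0 z), hpair z (hKB hz')]
      exact one_ne_zero
    exact ⟨⟨hKB hz', h00⟩, h4⟩
  obtain ⟨u, v, hu, hv, hKu, h0v, huv⟩ := generalized_tube_lemma (isCompact_closedBall 0 (r + 1))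
    isCompact_singleton hopen hsub
  obtain ⟨ε1, hε1, hε1v⟩ := Metric.isOpen_iff.1 hv 0 (h0v rfl)
  have hdn : ∀ z ∈ K, ∀ s ∈ ball (0 : ℂ) (min ε1 ε0), dn (l z) (Φ z s) ≠ 0 := by
    intro z hz s hs
    have h4 : (z, s) ∈ u ×ˢ v := ⟨hKu hz, hε1v (ball_subset_ball (min_le_left _ _) hs)⟩
    have h5 : d (z, s) ≠ 0 := (huv h4).2
    exact h5
  have hmin : 0 < min ε1 ε0 := lt_min hε1 hε0
  set L : ℂ → ℂ → Fin N → ℂ := fun z s => nl (l z) (Φ z s) with hL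
  have hb0 : ball (0 : ℂ) (min ε1 ε0) ⊆ ball 0 ε0 := ball_subset_ball (min_le_right _ _)
  have hr1 : ball (0 : ℂ) (r + 1) ⊆ K := ball_subset_closedBall
  have hLz : ∀ s ∈ ball (0 : ℂ) (min ε1 ε0), IsLift (ball 0 (r + 1)) (fun z => Φ z s)
      (fun z => L z s) := fun s hs => isLift_nl isOpen_ball ((h1 s (hb0 hs)).mono (subset_univ _))
    (hl.mono (hr1.trans hKB)) fun z hz => hdn z (hr1 hz) s hs
  have hLs : ∀ z ∈ K, IsLift (ball 0 (min ε1 ε0)) (fun s => Φ z s) (fun s => L z s) :=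
    fun z hz => isLift_nl isOpen_ball ((h2 z).mono hb0) (differentiableOn_const _)
      fun s hs => hdn z hz s hs
  have hcr : closedBall (0 : ℂ) r ⊆ ball 0 (r + 1) := closedBall_subset_ball (by linarith)
  refine ⟨min ε1 ε0, hmin, min_le_right _ _, L, fun z hz => hLs z (hr1 (hcr hz)),
    fun ε hε hεm => ?_⟩
  have hsε : sphere (0 : ℂ) ε ⊆ ball 0 (min ε1 ε0) := fun z hz => by
    rw [mem_sphere_zero_iff_norm] at hz
    exact mem_ball_zero_iff.2 (by rw [hz]; exact hεm)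
  have hsr : sphere (0 : ℂ) r ⊆ K := fun z hz => by
    rw [mem_sphere_zero_iff_norm] at hz
    exact mem_closedBall_zero_iff.2 (by rw [hz]; linarith)
  have h0K : (0 : ℂ) ∈ K := mem_closedBall_self (by linarith)
  have hm0 : (0 : ℂ) ∈ ball (0 : ℂ) (min ε1 ε0) := mem_ball_self hmin
  set g : ℂ → ℂ → ℝ := fun z s => lg (L z s) with hg
  have hgc : ContinuousOn (fun p : ℂ × ℂ => g p.1 p.2) (K ×ˢ ball 0 (min ε1 ε0)) := by
    intro p hp
    have h4 : ContinuousWithinAt (fun p : ℂ × ℂ => (l p.1, Φ p.1 p.2))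
        (K ×ˢ ball 0 (min ε1 ε0)) p := by
      refine ContinuousWithinAt.prodMk ?_ ((h3 p ⟨mem_univ _, hb0 hp.2⟩).mono
        (Set.prod_mono (subset_univ _) hb0))
      exact ((hl.continuousOn.mono hKB) p.1 hp.1).comp continuousWithinAt_fst fun q hq => hq.1
    have h5 := (continuousAt_nl (p := (l p.1, Φ p.1 p.2)) (hdn _ hp.1 _ hp.2)).comp_continuousWithinAt
      (f := fun p : ℂ × ℂ => (l p.1, Φ p.1 p.2)) h4
    have h6 : ContinuousAt lg (L p.1 p.2) := continuousAt_lg ((hLs p.1 hp.1).2 p.2 hp.2).1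
    exact ContinuousAt.comp_continuousWithinAt (g := lg)
      (f := fun p : ℂ × ℂ => nl (l p.1) (Φ p.1 p.2)) h6 h5
  have hgs : ∀ z ∈ K, ContinuousOn (fun s => g z s) (ball 0 (min ε1 ε0)) := by
    intro z hz
    exact hgc.comp (f := fun s => (z, s)) (by fun_prop) fun s hs => ⟨hz, hs⟩
  have hgz : ∀ s ∈ ball (0 : ℂ) (min ε1 ε0), ContinuousOn (fun z => g z s) K := by
    intro s hs
    exact hgc.comp (f := fun z => (z, s)) (by fun_prop) fun z hz => ⟨hz, hs⟩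
  refine ⟨?_, ?_⟩
  · unfold tr
    refine ContinuousOn.sub ?_ ((hgz 0 hm0).mono hsr)
    exact av_cont hε.le (hgc.mono (Set.prod_mono hsr hsε))
  · have e1 : av r (fun z => tr ε (fun s => L z s)) =
        av ε (fun s => av r (fun z => g z s)) - av r (fun z => g z 0) := by
      unfold tr
      rw [av_sub (f := fun z => av ε (fun s => g z s)) (g := fun z => g z 0) hr.le
        (av_cont hε.le (hgc.mono (Set.prod_mono hsr hsε))) ((hgz 0 hm0).mono hsr),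
        av_swap hr.le hε.le (hgc.mono (Set.prod_mono hsr hsε))]
    have hswap : ContinuousOn (fun p : ℂ × ℂ => g p.2 p.1) (sphere 0 ε ×ˢ sphere 0 r) := by
      exact hgc.comp (f := fun p : ℂ × ℂ => (p.2, p.1)) (by fun_prop)
        fun p hp => ⟨hsr hp.2, hsε hp.1⟩
    have e2 : ∀ s ∈ sphere (0 : ℂ) ε, av r (fun z => g z s) ≤ av r (fun z => g z 0) - g 0 0 +
        g 0 s := by
      intro s hs
      have h4 := hmax s (hb0 (hsε hs))
      rw [Tr_eq hr.le (h1 s (hb0 (hsε hs))) isOpen_ball hcr (hLz s (hsε hs)),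
        Tr_eq hr.le (h1 0 h00) isOpen_ball hcr (hLz 0 hm0)] at h4
      unfold tr at h4
      have h5 : av r (fun z => lg (L z s)) - lg (L 0 s) ≤ av r (fun z => lg (L z 0)) - lg (L 0 0) :=
        h4
      linarith
    have e3 : av ε (fun s => av r (fun z => g z s)) ≤
        av ε (fun s => av r (fun z => g z 0) - g 0 0 + g 0 s) :=
      av_mono hε.le (av_cont hr.le (g := fun s z => g z s) hswap)
        (continuousOn_const.add ((hgs 0 h0K).mono hsε)) e2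
    rw [av_add (f := fun _ => av r (fun z => g z 0) - g 0 0) (g := fun s => g 0 s) hε.le
      continuousOn_const ((hgs 0 h0K).mono hsε), av_const] at e3
    rw [e1]
    change _ ≤ av ε (fun s => g 0 s) - g 0 0
    linarith

/-- the bound for the mean square -/
theorem mean_h {Φ : ℂ → ℂ → Mat N} {r ε0 : ℝ} (hr : 0 < r) (hε0 : 0 < ε0)
    (h1 : ∀ s ∈ ball (0 : ℂ) ε0, HolP univ fun z => Φ z s)
    (h2 : ∀ z, HolP (ball 0 ε0) fun s => Φ z s)
    (h3 : ContinuousOn (fun p : ℂ × ℂ => Φ p.1 p.2) (univ ×ˢ ball 0 ε0))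
    (hmax : ∀ s ∈ ball (0 : ℂ) ε0, Tr r (fun z => Φ z s) ≤ Tr r (fun z => Φ z 0))
    {h : ℂ → ℂ} (hh : Continuous h) {K C : ℝ}
    (hK : ∀ z i, Φ z 0 i i ≠ 0 → chart i (Φ z 0) ∈ Kc i →
      ‖h z‖ ≤ K * ‖deriv (fun s => chart i (Φ z s)) 0‖) {i0 : Fin N} (hi0 : Φ 0 0 i0 i0 ≠ 0)
    (hC : ∀ᶠ s in 𝓝 (0 : ℂ), ‖chart i0 (Φ 0 s) - chart i0 (Φ 0 0)‖ ≤ C * ‖s‖) :
    av r (fun z => ‖h z‖ ^ 2) ≤ 8 * N ^ 2 * K ^ 2 * C ^ 2 := by
  have h00 : (0 : ℂ) ∈ ball (0 : ℂ) ε0 := mem_ball_self hε0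
  obtain ⟨ε1, hε1, hε10, L, hL, hLav⟩ := main_av hr hε0 h1 h2 h3 hmax
  have hang : ∃ ε2 > 0, ∀ z ∈ closedBall (0 : ℂ) r, ∀ s ∈ ball (0 : ℂ) ε2,
      1 / 2 ≤ ‖an (Φ z s) (Φ z 0)‖ := by
    set d : ℂ × ℂ → ℝ := fun p => ‖an (Φ p.1 p.2) (Φ p.1 0)‖ with hd
    have hdc : ContinuousOn d (univ ×ˢ ball 0 ε0) := by
      have h4 : ContinuousOn (fun p : ℂ × ℂ => (Φ p.1 p.2, Φ p.1 0)) (univ ×ˢ ball 0 ε0) := by
        refine ContinuousOn.prodMk h3 ?_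
        exact h3.comp (f := fun p : ℂ × ℂ => (p.1, (0 : ℂ))) (by fun_prop)
          fun p _ => ⟨mem_univ _, h00⟩
      exact (Continuous.comp_continuousOn (g := fun p : Mat N × Mat N => an p.1 p.2)
        (f := fun p : ℂ × ℂ => (Φ p.1 p.2, Φ p.1 0)) continuous_an h4).norm
    have hopen : IsOpen (univ ×ˢ ball (0 : ℂ) ε0 ∩ d ⁻¹' Ioi (1 / 2)) :=
      hdc.isOpen_inter_preimage (isOpen_univ.prod isOpen_ball) isOpen_Ioi
    have hsub : closedBall (0 : ℂ) r ×ˢ ({0} : Set ℂ) ⊆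
        univ ×ˢ ball (0 : ℂ) ε0 ∩ d ⁻¹' Ioi (1 / 2) := by
      rintro ⟨z, s⟩ ⟨-, hs⟩
      have hs0 : s = 0 := hs
      rw [hs0]
      refine ⟨⟨mem_univ _, h00⟩, ?_⟩
      change 1 / 2 < ‖an (Φ z 0) (Φ z 0)‖
      rw [an_self ((h1 0 h00).mem_PM (mem_univ z)), norm_one]
      norm_num
    obtain ⟨u, v, hu, hv, hKu, h0v, huv⟩ := generalized_tube_lemma (isCompact_closedBall 0 r)
      isCompact_singleton hopen hsub
    obtain ⟨ε2, hε2, hε2v⟩ := Metric.isOpen_iff.1 hv 0 (h0v rfl)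
    refine ⟨ε2, hε2, fun z hz s hs => ?_⟩
    have h4 : (z, s) ∈ u ×ˢ v := ⟨hKu hz, hε2v hs⟩
    have h5 : 1 / 2 < d (z, s) := (huv h4).2
    exact h5.le
  obtain ⟨ε2, hε2, hang⟩ := hang
  have hdiag : ∀ᶠ s in 𝓝 (0 : ℂ), Φ 0 s i0 i0 ≠ 0 := ev_diag (h2 0) h00 hi0
  obtain ⟨ε3, hε3, hε3'⟩ := Metric.eventually_nhds_iff_ball.1 (hdiag.and hC)
  set R : ℝ := min ε1 (min ε2 ε3) with hR
  have hR0 : 0 < R := lt_min hε1 (lt_min hε2 hε3)
  have hR1 : R ≤ ε1 := min_le_left _ _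
  have hR2 : R ≤ ε2 := (min_le_right _ _).trans (min_le_left _ _)
  have hR3 : R ≤ ε3 := (min_le_right _ _).trans (min_le_right _ _)
  set ε : ℝ := R / 2 with hε
  have hε' : 0 < ε := by positivity
  have hεR : ε < R := by rw [hε]; linarith
  obtain ⟨hc, hav⟩ := hLav ε hε' (hεR.trans_le hR1)
  have hh2 : ∀ z ∈ sphere (0 : ℂ) r, ‖h z‖ ^ 2 ≤ K ^ 2 * (8 * N) / ε ^ 2 * tr ε (L z) := by
    intro z hz
    have hz' : z ∈ closedBall (0 : ℂ) r := sphere_subset_closedBall hz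
    obtain ⟨i, hi, hiK⟩ := exists_max ((h1 0 h00).mem_PM (mem_univ z))
    have h4 := low hε' hεR ((h2 z).mono (ball_subset_ball (hR1.trans hε10))) hi hiK
      (fun s hs => hang z hz' s (ball_subset_ball hR2 hs))
      ((hL z hz').mono (ball_subset_ball hR1))
    have h5 := hK z i hi hiK
    calc ‖h z‖ ^ 2 ≤ (K * ‖deriv (fun s => chart i (Φ z s)) 0‖) ^ 2 := by gcongr
      _ = K ^ 2 / ε ^ 2 * (ε ^ 2 * ‖deriv (fun s => chart i (Φ z s)) 0‖ ^ 2) := by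
          field_simp
      _ ≤ K ^ 2 / ε ^ 2 * (8 * N * tr ε (L z)) := by gcongr
      _ = _ := by ring
  have h0 : tr ε (L 0) ≤ N * C ^ 2 * ε ^ 2 := by
    refine upp hε' hεR ((h2 0).mono (ball_subset_ball (hR1.trans hε10))) (i := i0)
      (fun s hs => (hε3' s (ball_subset_ball hR3 hs)).1)
      (fun s hs => (hε3' s (ball_subset_ball hR3 hs)).2)
      ((hL 0 (mem_closedBall_self hr.le)).mono (ball_subset_ball hR1))
  calc av r (fun z => ‖h z‖ ^ 2) ≤ av r (fun z => K ^ 2 * (8 * N) / ε ^ 2 * tr ε (L z)) :=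
        av_mono hr.le (by fun_prop) (continuousOn_const.mul hc) hh2
    _ = K ^ 2 * (8 * N) / ε ^ 2 * av r (fun z => tr ε (L z)) := av_mul _ _ _
    _ ≤ K ^ 2 * (8 * N) / ε ^ 2 * (N * C ^ 2 * ε ^ 2) := by
        gcongr
        exact hav.trans h0
    _ = 8 * N ^ 2 * K ^ 2 * C ^ 2 := by
        field_simp

/-- continuity of the growth -/
theorem Tr_tendsto {𝓤 : Ultrafilter ℕ} {φ : ℕ → ℂ → Mat N} {ψ : ℂ → Mat N} {r : ℝ} (hr : 0 < r)
    (hφ : ∀ k, HolP univ (φ k)) (hψ : HolP univ ψ) (hc : CConv (𝓤 : Filter ℕ) univ φ ψ) :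
    Tendsto (fun k => Tr r (φ k)) 𝓤 (𝓝 (Tr r ψ)) := by
  obtain ⟨G, hG, hG0, hGφ⟩ := zero_free hψ
  obtain ⟨l, hl, hpair⟩ := exists_partner hG hG0 (r + 2)
  have hlc : ∀ z ∈ ball (0 : ℂ) (r + 2), ContinuousAt l z := fun z hz =>
    (hl.differentiableAt (isOpen_ball.mem_nhds hz)).continuousAt
  have hdz : ∀ z ∈ ball (0 : ℂ) (r + 2), dn (l z) (ψ z) ≠ 0 := by
    intro z hz
    rw [hGφ z, dn_ne (hG0 z), hpair z hz]
    exact one_ne_zero
  have ht1 : ∀ z ∈ ball (0 : ℂ) (r + 2), Tendsto (fun p : ℕ × ℂ => l p.2)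
      ((𝓤 : Filter ℕ) ×ˢ 𝓝 z) (𝓝 (l z)) := fun z hz => (hlc z hz).tendsto.comp tendsto_snd
  have ht2 : ∀ z ∈ ball (0 : ℂ) (r + 2), Tendsto (fun p : ℕ × ℂ => φ p.1 p.2)
      ((𝓤 : Filter ℕ) ×ˢ 𝓝 z) (𝓝 (ψ z)) := fun z _ => hc z (mem_univ z)
  have hev1 : ∀ᶠ k in (𝓤 : Filter ℕ), ∀ z ∈ closedBall (0 : ℂ) (r + 1),
      dn (l z) (φ k z) ≠ 0 := by
    refine ev_compact (isCompact_closedBall (0 : ℂ) (r + 1)) fun z hz => ?_
    have hz' : z ∈ ball (0 : ℂ) (r + 2) := closedBall_subset_ball (by linarith) hz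
    exact (tendsto_dn (ht1 z hz') (ht2 z hz')).eventually_ne (hdz z hz')
  have hclose : ∀ δ > 0, ∀ᶠ k in (𝓤 : Filter ℕ), ∀ z ∈ closedBall (0 : ℂ) r,
      |lg (nl (l z) (φ k z)) - lg (nl (l z) (ψ z))| ≤ δ := by
    intro δ hδ
    refine ev_compact (isCompact_closedBall (0 : ℂ) r)
      (P := fun k z => |lg (nl (l z) (φ k z)) - lg (nl (l z) (ψ z))| ≤ δ) fun z hz => ?_
    have hz' : z ∈ ball (0 : ℂ) (r + 2) := closedBall_subset_ball (by linarith) hz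
    have hne : nl (l z) (ψ z) ≠ 0 := (nl_spec (hψ.mem_PM (mem_univ z)) (hdz z hz')).1
    have h2 : Tendsto (fun p : ℕ × ℂ => lg (nl (l p.2) (φ p.1 p.2)))
        ((𝓤 : Filter ℕ) ×ˢ 𝓝 z) (𝓝 (lg (nl (l z) (ψ z)))) :=
      tendsto_lg_nl (ht1 z hz') (ht2 z hz') (hdz z hz') hne
    have h3 : Tendsto (fun p : ℕ × ℂ => lg (nl (l p.2) (ψ p.2)))
        ((𝓤 : Filter ℕ) ×ˢ 𝓝 z) (𝓝 (lg (nl (l z) (ψ z)))) :=
      tendsto_lg_nl (ht1 z hz') ((hψ.continuousAt (mem_univ z)).tendsto.comp tendsto_snd)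
        (hdz z hz') hne
    have h4 := (h2.sub h3).abs
    rw [sub_self, abs_zero] at h4
    exact h4.eventually_le_const hδ
  have hcr : closedBall (0 : ℂ) r ⊆ ball 0 (r + 1) := closedBall_subset_ball (by linarith)
  have hr1 : ball (0 : ℂ) (r + 1) ⊆ closedBall 0 (r + 1) := ball_subset_closedBall
  have hr2 : ball (0 : ℂ) (r + 1) ⊆ ball 0 (r + 2) := ball_subset_ball (by linarith)
  have hLψ : IsLift (ball 0 (r + 1)) ψ (fun z => nl (l z) (ψ z)) :=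
    isLift_nl isOpen_ball (hψ.mono (subset_univ _)) (hl.mono hr2) fun z hz => hdz z (hr2 hz)
  rw [Metric.tendsto_nhds]
  intro δ hδ
  filter_upwards [hev1, hclose (δ / 4) (by positivity)] with k hk1 hk2
  have hLk : IsLift (ball 0 (r + 1)) (φ k) (fun z => nl (l z) (φ k z)) :=
    isLift_nl isOpen_ball ((hφ k).mono (subset_univ _)) (hl.mono hr2) fun z hz => hk1 z (hr1 hz)
  rw [Tr_eq hr.le (hφ k) isOpen_ball hcr hLk, Tr_eq hr.le hψ isOpen_ball hcr hLψ, Real.dist_eq]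
  unfold tr
  have hs : sphere (0 : ℂ) r ⊆ ball 0 (r + 1) := sphere_subset_closedBall.trans hcr
  have hc1 := hLk.continuousOn_lg.mono hs
  have hc2 := hLψ.continuousOn_lg.mono hs
  have h0 := hk2 0 (mem_closedBall_self hr.le)
  have h1 : av r (fun z => lg (nl (l z) (φ k z))) ≤ av r (fun z => lg (nl (l z) (ψ z))) + δ / 4 := by
    have h2 : av r (fun z => lg (nl (l z) (φ k z))) ≤
        av r (fun z => lg (nl (l z) (ψ z)) + δ / 4) :=
      av_mono hr.le hc1 (hc2.add continuousOn_const) fun z hz => by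
        have := (abs_le.1 (hk2 z (sphere_subset_closedBall hz))).2
        linarith
    rwa [av_add (f := fun z => lg (nl (l z) (ψ z))) (g := fun _ => δ / 4) hr.le hc2
      continuousOn_const, av_const] at h2
  have h2 : av r (fun z => lg (nl (l z) (ψ z))) ≤ av r (fun z => lg (nl (l z) (φ k z))) + δ / 4 := by
    have h3 : av r (fun z => lg (nl (l z) (ψ z))) ≤
        av r (fun z => lg (nl (l z) (φ k z)) + δ / 4) :=
      av_mono hr.le hc2 (hc1.add continuousOn_const) fun z hz => by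
        have := (abs_le.1 (hk2 z (sphere_subset_closedBall hz))).1
        linarith
    rwa [av_add (f := fun z => lg (nl (l z) (φ k z))) (g := fun _ => δ / 4) hr.le hc1
      continuousOn_const, av_const] at h3
  obtain ⟨h3, h4⟩ := abs_le.1 h0
  rw [abs_lt]
  constructor <;> linarith

/-- a curve with the largest growth -/
theorem Dat.exists_Tr {f : ℂ → Mat N} {D : Fin N → Dr (Fin N ⊕ Fin N)} {C : ℝ} (h : Dat f D C)
    {r : ℝ} (hr : 0 < r) : ∃ φ, Sol (Vs (Rel f)) univ φ ∧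
      ∀ ψ, Sol (Vs (Rel f)) univ ψ → Tr r ψ ≤ Tr r φ := by
  set A : Set ℝ := {t | ∃ φ, Sol (Vs (Rel f)) univ φ ∧ t = Tr r φ} with hA
  have hne : A.Nonempty := ⟨_, f, sol_self h.hol, rfl⟩
  set 𝓤 : Ultrafilter ℕ := hyperfilter ℕ with h𝓤
  have h𝓤t : (𝓤 : Filter ℕ) ≤ atTop := by
    rw [← Nat.cofinite_eq_atTop]
    exact hyperfilter_le_cofinite
  have hbdd : BddAbove A := by
    by_contra hcon
    have h1 : ∀ k : ℕ, ∃ φ, Sol (Vs (Rel f)) univ φ ∧ (k : ℝ) < Tr r φ := by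
      intro k
      rw [not_bddAbove_iff] at hcon
      obtain ⟨t, ⟨φ, hφ, rfl⟩, hk⟩ := hcon k
      exact ⟨φ, hφ, hk⟩
    choose φ hφ hφk using h1
    obtain ⟨ψ, hψ, hc⟩ := h.compact (𝓤 := 𝓤) hφ
    have h2 := Tr_tendsto hr (fun k => (hφ k).1) hψ.1 hc
    have h3 : ∀ᶠ k : ℕ in (𝓤 : Filter ℕ), Tr r ψ + 1 ≤ k :=
      h𝓤t (tendsto_natCast_atTop_atTop.eventually_ge_atTop _)
    have h4 := h2.eventually_lt_const (lt_add_one (Tr r ψ))
    obtain ⟨k, hk1, hk2⟩ := (h3.and h4).exists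
    linarith [hφk k]
  have h1 : ∀ k : ℕ, ∃ φ, Sol (Vs (Rel f)) univ φ ∧ sSup A - 1 / ((k : ℝ) + 1) < Tr r φ := by
    intro k
    obtain ⟨t, ⟨φ, hφ, rfl⟩, ht⟩ := exists_lt_of_lt_csSup hne
      (show sSup A - 1 / ((k : ℝ) + 1) < sSup A by
        have : 0 < 1 / ((k : ℝ) + 1) := by positivity
        linarith)
    exact ⟨φ, hφ, ht⟩
  choose φ hφ hφk using h1
  obtain ⟨ψ, hψ, hc⟩ := h.compact (𝓤 := 𝓤) hφ
  have h2 := Tr_tendsto hr (fun k => (hφ k).1) hψ.1 hc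
  have h3 : Tendsto (fun k : ℕ => sSup A - 1 / ((k : ℝ) + 1)) 𝓤 (𝓝 (sSup A)) := by
    have h4 := tendsto_one_div_add_atTop_nhds_zero_nat (𝕜 := ℝ)
    have h5 := (tendsto_const_nhds (x := sSup A)).sub (h4.mono_left h𝓤t)
    rwa [sub_zero] at h5
  have h4 : sSup A ≤ Tr r ψ := le_of_tendsto_of_tendsto h3 h2
    (Eventually.of_forall fun k => (hφk k).le)
  exact ⟨ψ, hψ, fun φ' hφ' => (le_csSup hbdd ⟨φ', hφ', rfl⟩).trans h4⟩

end Run7.h418
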