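import Pool.Agent.Run7.h418.Geo

/-!
Bounds for tangent vectors, and Liouville's theorem for symmetric differentials.
-/

set_option autoImplicit false

open MvPolynomial Metric Set Filter Topology

namespace Run7.h418

open Pool.Agent.Y190.OP Pool.Agent.W602.GT Pool.Agent.N155

variable {n : ℕ} {ι κ : Type} {F : ι → MvPolynomial (Fin (n + 1)) ℂ}
  {σ : κ → (Fin (n + 1) → ℂ) → (Fin (n + 1) → ℂ) → ℂ} {m : κ → ℕ}

/-- a derivation is determined by the partial derivatives -/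
theorem der_sum {R τ A : Type} [CommRing R] [Fintype τ] [AddCommGroup A]
    [Module (MvPolynomial τ R) A] [Module R A] [IsScalarTower R (MvPolynomial τ R) A]
    (E : Derivation R (MvPolynomial τ R) A) (G : MvPolynomial τ R) :
    E G = ∑ k, pderiv k G • E (X k) := by
  classical
  induction G using MvPolynomial.induction_on with
  | C c =>
    rw [← MvPolynomial.algebraMap_eq, Derivation.map_algebraMap]
    simp
  | add p q hp hq =>
    rw [map_add, hp, hq, ← Finset.sum_add_distrib]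
    exact Finset.sum_congr rfl fun k _ => by rw [map_add, add_smul]
  | mul_X p l hp =>
    rw [E.leibniz, hp, Finset.smul_sum]
    have h1 : ∀ k, pderiv k (p * X l : MvPolynomial τ R) • E (X k) =
        (X l : MvPolynomial τ R) • pderiv k p • E (X k) + (if k = l then p • E (X l) else 0) := by
      intro k
      rw [pderiv_mul, add_smul, mul_comm (pderiv k p), mul_smul]
      congr 1
      by_cases hkl : k = l
      · subst hkl
        rw [pderiv_X_self, mul_one, if_pos rfl]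
      · rw [pderiv_X_of_ne (Ne.symm hkl), mul_zero, zero_smul, if_neg hkl]
    simp only [h1, Finset.sum_add_distrib, Finset.sum_ite_eq', Finset.mem_univ, if_true]
    rw [add_comm]

/-- the tangent vectors in the chart `i` -/
def Tg (F : ι → MvPolynomial (Fin (n + 1)) ℂ) (i : Fin (n + 1)) :
    Set (Fin (n + 1) ⊕ Fin (n + 1) → ℂ) :=
  {a | a (Sum.inl i) = 1 ∧ a (Sum.inr i) = 0 ∧ (∀ j, eval (a ∘ Sum.inl) (F j) = 0) ∧
    Tan F (a ∘ Sum.inl) (a ∘ Sum.inr)}

/-- the values of the symmetric differentials -/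
def sg (σ : κ → (Fin (n + 1) → ℂ) → (Fin (n + 1) → ℂ) → ℂ) (j : κ)
    (a : Fin (n + 1) ⊕ Fin (n + 1) → ℂ) : ℂ := σ j (a ∘ Sum.inl) (a ∘ Sum.inr)

theorem Tg.cone {i : Fin (n + 1)} {a : Fin (n + 1) ⊕ Fin (n + 1) → ℂ} (ha : a ∈ Tg F i) :
    a ∘ Sum.inl ∈ Cone F := by
  refine mem_cone.2 ⟨?_, ha.2.2.1⟩
  intro h0
  have := congrFun h0 i
  rw [Function.comp_apply, ha.1] at this
  exact one_ne_zero this

theorem isClosed_Tg (i : Fin (n + 1)) : IsClosed (Tg F i) := by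
  have hc1 : Continuous fun a : Fin (n + 1) ⊕ Fin (n + 1) → ℂ => a ∘ Sum.inl := by
    fun_prop
  have h1 : IsClosed {a : Fin (n + 1) ⊕ Fin (n + 1) → ℂ | a (Sum.inl i) = 1} :=
    isClosed_eq (continuous_apply _) continuous_const
  have h2 : IsClosed {a : Fin (n + 1) ⊕ Fin (n + 1) → ℂ | a (Sum.inr i) = 0} :=
    isClosed_eq (continuous_apply _) continuous_const
  have h3 : IsClosed {a : Fin (n + 1) ⊕ Fin (n + 1) → ℂ | ∀ j, eval (a ∘ Sum.inl) (F j) = 0} :=
    (isClosed_zero F).preimage hc1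
  have h4 : IsClosed {a : Fin (n + 1) ⊕ Fin (n + 1) → ℂ | Tan F (a ∘ Sum.inl) (a ∘ Sum.inr)} := by
    have : {a : Fin (n + 1) ⊕ Fin (n + 1) → ℂ | Tan F (a ∘ Sum.inl) (a ∘ Sum.inr)} =
        ⋂ j, {a | ∑ k, eval (a ∘ Sum.inl) (pderiv k (F j)) * a (Sum.inr k) = 0} := by
      ext a
      simp only [mem_iInter]
      rfl
    rw [this]
    refine isClosed_iInter fun j => isClosed_eq ?_ continuous_const
    refine continuous_finsetSum _ fun k _ => ?_
    exact ((continuous_eval' _).comp hc1).mul (continuous_apply _)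
  exact h1.inter (h2.inter (h3.inter h4))

theorem sg_rep (hσ : ∀ j, SymForm F (m j) (σ j)) (j : κ) {x : Fin (n + 1) → ℂ}
    (hx : x ∈ Cone F) :
    ∃ (P : Rn (n + 1)) (H : MvPolynomial (Fin (n + 1)) ℂ), eval x H ≠ 0 ∧
      ∀ x' ∈ Cone F, eval x' H ≠ 0 → ∀ v, Tan F x' v →
        σ j x' v = eval (Sum.elim x' v) P / eval x' H := (hσ j).alg x hx

theorem continuousOn_sg (hσ : ∀ j, SymForm F (m j) (σ j)) (j : κ) (i : Fin (n + 1)) :
    ContinuousOn (sg σ j) (Tg F i) := by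
  intro a ha
  obtain ⟨P, H, hH, hrep⟩ := sg_rep hσ j (Tg.cone ha)
  have hc1 : Continuous fun a : Fin (n + 1) ⊕ Fin (n + 1) → ℂ => a ∘ Sum.inl := by
    fun_prop
  have h1 : ContinuousAt (fun a : Fin (n + 1) ⊕ Fin (n + 1) → ℂ =>
      eval a P / eval (a ∘ Sum.inl) H) a :=
    (continuous_eval' P).continuousAt.div ((continuous_eval' H).comp hc1).continuousAt hH
  have h2 : ∀ᶠ b in 𝓝 a, eval (b ∘ Sum.inl) H ≠ 0 :=
    ((continuous_eval' H).comp hc1).continuousAt.eventually_ne hH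
  have h3 : ∀ b ∈ Tg F i, eval (b ∘ Sum.inl) H ≠ 0 →
      sg σ j b = eval b P / eval (b ∘ Sum.inl) H := by
    intro b hb hbH
    have := hrep _ (Tg.cone hb) hbH _ hb.2.2.2
    rwa [Sum.elim_comp_inl_inr] at this
  refine (h1.continuousWithinAt).congr_of_eventuallyEq ?_ (h3 a ha hH)
  filter_upwards [self_mem_nhdsWithin, mem_nhdsWithin_of_mem_nhds h2] with b hb hbH
  exact h3 b hb hbH

/-- the tangent vectors of bounded length -/
def Tb (F : ι → MvPolynomial (Fin (n + 1)) ℂ) (i : Fin (n + 1)) (R : ℝ) :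
    Set (Fin (n + 1) ⊕ Fin (n + 1) → ℂ) :=
  {a | a ∈ Tg F i ∧ a ∘ Sum.inl ∈ Kc i ∧ ‖a ∘ Sum.inr‖ ≤ R}

theorem isCompact_Tb (i : Fin (n + 1)) (R : ℝ) : IsCompact (Tb F i R) := by
  have hc1 : Continuous fun a : Fin (n + 1) ⊕ Fin (n + 1) → ℂ => a ∘ Sum.inl := by
    fun_prop
  have hc2 : Continuous fun a : Fin (n + 1) ⊕ Fin (n + 1) → ℂ => a ∘ Sum.inr := by
    fun_prop
  have hcl : IsClosed (Tb F i R) :=
    (isClosed_Tg i).inter (((isCompact_Kc i).isClosed.preimage hc1).inter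
      (isClosed_le (continuous_norm.comp hc2) continuous_const))
  refine (isCompact_closedBall (0 : Fin (n + 1) ⊕ Fin (n + 1) → ℂ) (max 1 R)).of_isClosed_subset
    hcl ?_
  rintro a ⟨-, h1, h2⟩
  rw [mem_closedBall_zero_iff, pi_norm_le_iff_of_nonneg (by positivity)]
  rintro (k | k)
  · exact (norm_le_pi_norm (a ∘ Sum.inl) k).trans (h1.2.trans (le_max_left _ _))
  · exact (norm_le_pi_norm (a ∘ Sum.inr) k).trans (h2.trans (le_max_right _ _))

theorem sg_bounded (hσ : ∀ j, SymForm F (m j) (σ j)) (j : κ) (i : Fin (n + 1)) (R : ℝ) :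
    ∃ C : ℝ, ∀ a ∈ Tb F i R, ‖sg σ j a‖ ≤ C :=
  (isCompact_Tb i R).exists_bound_of_continuousOn ((continuousOn_sg hσ j i).mono fun _ h => h.1)

theorem not_mult {i : Fin (n + 1)} {x v : Fin (n + 1) → ℂ} (hx : x i = 1) (hv : v i = 0)
    (h0 : v ≠ 0) (c : ℂ) : v ≠ c • x := by
  intro h
  apply h0
  have h1 := congrFun h i
  rw [Pi.smul_apply, hv, hx, smul_eq_mul, mul_one] at h1
  rw [h, ← h1, zero_smul]

theorem Tan.add {x v w : Fin (n + 1) → ℂ} (hv : Tan F x v) (hw : Tan F x w) :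
    Tan F x (v + w) := by
  intro j
  have h1 := hv j
  have h2 := hw j
  simp only [Pi.add_apply, mul_add, Finset.sum_add_distrib]
  rw [h1, h2, add_zero]

theorem Tan.smul {x v : Fin (n + 1) → ℂ} (hv : Tan F x v) (c : ℂ) : Tan F x (c • v) := by
  intro j
  have h1 := hv j
  simp only [Pi.smul_apply, smul_eq_mul]
  have : ∑ k, eval x (pderiv k (F j)) * (c * v k) =
      c * ∑ k, eval x (pderiv k (F j)) * v k := by
    rw [Finset.mul_sum]
    exact Finset.sum_congr rfl fun k _ => by ring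
  rw [this, h1, mul_zero]

/-- symmetric differentials have no common zeros -/
theorem exists_ne_zero (hσ : ∀ j, SymForm F (m j) (σ j)) (him : Immersive F σ)
    {x v : Fin (n + 1) → ℂ} (hx : x ∈ Cone F) (hv : Tan F x v) (hne : ∀ c : ℂ, v ≠ c • x) :
    ∃ j, σ j x v ≠ 0 := by
  obtain ⟨j, hj⟩ := him x hx v v hv hv hne hne
  refine ⟨j, fun h0 => hj ?_⟩
  have h1 : (fun t : ℂ => σ j x (v + t • v)) = fun _ => 0 := by
    funext t
    have h2 : v + t • v = (1 + t) • v := by rw [add_smul, one_smul]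
    rw [h2, (hσ j).deg x hx v hv, h0, mul_zero]
  rw [h1, deriv_const]

/-- bounded values of the symmetric differentials -/
theorem exists_bound_v [Finite κ] (hm : ∀ j, 0 < m j) (hσ : ∀ j, SymForm F (m j) (σ j))
    (him : Immersive F σ) (i : Fin (n + 1)) (R : ℝ) :
    ∃ C : ℝ, ∀ a ∈ Tg F i, a ∘ Sum.inl ∈ Kc i → (∀ j, ‖sg σ j a‖ ≤ R) → ‖a ∘ Sum.inr‖ ≤ C := by
  cases nonempty_fintype κ
  set S : Set (Fin (n + 1) ⊕ Fin (n + 1) → ℂ) := {a | a ∈ Tb F i 1 ∧ ‖a ∘ Sum.inr‖ = 1} with hS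
  have hc2 : Continuous fun a : Fin (n + 1) ⊕ Fin (n + 1) → ℂ => a ∘ Sum.inr := by
    fun_prop
  have hSc : IsCompact S := (isCompact_Tb i 1).inter_right
    (isClosed_eq (continuous_norm.comp hc2) continuous_const)
  have hpos : ∀ a ∈ S, 0 < ∑ j, ‖sg σ j a‖ := by
    rintro a ⟨⟨ha, -, -⟩, ha1⟩
    have h0 : a ∘ Sum.inr ≠ 0 := by
      intro h0
      rw [h0, norm_zero] at ha1
      exact zero_ne_one ha1
    obtain ⟨j, hj⟩ := exists_ne_zero hσ him (Tg.cone ha) ha.2.2.2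
      (not_mult (i := i) ha.1 ha.2.1 h0)
    exact Finset.sum_pos' (fun _ _ => norm_nonneg _) ⟨j, Finset.mem_univ _, norm_pos_iff.2 hj⟩
  have hcont : ContinuousOn (fun a => (∑ j, ‖sg σ j a‖)⁻¹) S := by
    refine ContinuousOn.inv₀ ?_ fun a ha => (hpos a ha).ne'
    exact continuousOn_finsetSum _ fun j _ =>
      ((continuousOn_sg hσ j i).mono fun _ h => h.1.1).norm
  obtain ⟨L, hL⟩ := hSc.exists_bound_of_continuousOn hcont
  refine ⟨max 1 (L * (Fintype.card κ * R)), fun a ha haK haR => ?_⟩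
  by_contra hcon
  push Not at hcon
  obtain ⟨h1, h2⟩ := max_lt_iff.1 hcon
  set t : ℝ := ‖a ∘ Sum.inr‖ with ht
  have ht0 : 0 < t := by linarith
  have htc : (t : ℂ) ≠ 0 := by exact_mod_cast ht0.ne'
  set b : Fin (n + 1) ⊕ Fin (n + 1) → ℂ :=
    Sum.elim (a ∘ Sum.inl) ((t : ℂ)⁻¹ • (a ∘ Sum.inr)) with hb
  have hbl : b ∘ Sum.inl = a ∘ Sum.inl := Sum.elim_comp_inl _ _
  have hbr : b ∘ Sum.inr = (t : ℂ)⁻¹ • (a ∘ Sum.inr) := Sum.elim_comp_inr _ _
  have hbn : ‖b ∘ Sum.inr‖ = 1 := by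
    rw [hbr, norm_smul, norm_inv, Complex.norm_real, Real.norm_of_nonneg ht0.le, ← ht,
      inv_mul_cancel₀ ht0.ne']
  have hbT : b ∈ Tg F i := by
    refine ⟨?_, ?_, ?_, ?_⟩
    · change (b ∘ Sum.inl) i = 1
      rw [hbl]
      exact ha.1
    · change (b ∘ Sum.inr) i = 0
      rw [hbr, Pi.smul_apply]
      have : (a ∘ Sum.inr) i = 0 := ha.2.1
      rw [this, smul_zero]
    · rw [hbl]
      exact ha.2.2.1
    · rw [hbl, hbr]
      exact ha.2.2.2.smul _
  have hbS : b ∈ S := ⟨⟨hbT, hbl ▸ haK, hbn.le⟩, hbn⟩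
  have h3 := hL b hbS
  rw [norm_inv, Real.norm_of_nonneg (hpos b hbS).le] at h3
  have h4 : ∀ j, ‖sg σ j b‖ ≤ R / t := by
    intro j
    have h5 : sg σ j b = (t : ℂ)⁻¹ ^ m j * sg σ j a := by
      unfold sg
      rw [hbl, hbr, (hσ j).deg _ (Tg.cone ha) _ ha.2.2.2]
    rw [h5, norm_mul, norm_pow, norm_inv, Complex.norm_real, Real.norm_of_nonneg ht0.le]
    have h6 : t⁻¹ ^ m j ≤ t⁻¹ := by
      have h7 : t⁻¹ ≤ 1 := inv_le_one_of_one_le₀ h1.le
      calc t⁻¹ ^ m j ≤ t⁻¹ ^ 1 := pow_le_pow_of_le_one (by positivity) h7 (hm j)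
        _ = t⁻¹ := pow_one _
    have h8 := haR j
    have h9 : 0 ≤ R := (norm_nonneg _).trans h8
    calc t⁻¹ ^ m j * ‖sg σ j a‖ ≤ t⁻¹ * R := by gcongr
      _ = R / t := by rw [div_eq_inv_mul]
  have h5 : ∑ j, ‖sg σ j b‖ ≤ Fintype.card κ * (R / t) := by
    calc ∑ j, ‖sg σ j b‖ ≤ ∑ _j : κ, R / t := Finset.sum_le_sum fun j _ => h4 j
      _ = _ := by rw [Finset.sum_const, nsmul_eq_mul, Finset.card_univ]
  have h6 := hpos b hbS
  have hL0 : 0 ≤ L := (inv_nonneg.2 h6.le).trans h3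
  have h7 : 1 ≤ L * ∑ j, ‖sg σ j b‖ := by
    rw [← inv_mul_cancel₀ h6.ne']
    gcongr
  have h8 : 1 ≤ L * (Fintype.card κ * (R / t)) := h7.trans (by gcongr)
  have h9 : t ≤ L * (Fintype.card κ * R) := by
    have h10 : L * (Fintype.card κ * (R / t)) = (L * (Fintype.card κ * R)) / t := by ring
    rw [h10, le_div_iff₀ ht0, one_mul] at h8
    exact h8
  linarith

/-- the coordinates of a curve in `X` -/
theorem pr_Tg (hF : ∀ j, IsForm (F j)) {U : Set ℂ} (hU : IsOpen U) {φ : ℂ → Mat (n + 1)}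
    (h : HolP U φ) (hT : ∀ z ∈ U, φ z ∈ TF F) {z : ℂ} (hz : z ∈ U) {i : Fin (n + 1)}
    (hi : φ z i i ≠ 0) : pr i φ z ∈ Tg F i := by
  have hev := ev_holP hU hz h hi
  refine ⟨PM.chart_self hi, ?_, ?_, ?_⟩
  · have h1 := hasDerivAt_chart h hz hi i
    have h2 : (fun w => pr i φ w (Sum.inl i)) =ᶠ[𝓝 z] fun _ => 1 := by
      filter_upwards [hev] with w hw
      exact PM.chart_self hw.2
    rw [← h1.deriv, h2.deriv_eq, deriv_const]
  · exact (mem_cone.1 (chart_cone hF (hT z hz) hi)).2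
  · intro j
    have h1 : (fun w => eval (chart i (φ w)) (F j)) =ᶠ[𝓝 z] fun _ => 0 := by
      filter_upwards [hev] with w hw
      exact (mem_cone.1 (chart_cone hF (hT w hw.1) hw.2)).2 j
    have h2 : HasDerivAt (fun w => eval (chart i (φ w)) (F j))
        (∑ k, eval (chart i (φ z)) (pderiv k (F j)) * pr i φ z (Sum.inr k)) z := by
      set v : Fin (n + 1) → ℂ := fun k => pr i φ z (Sum.inr k) with hv
      set E : Dr (Fin (n + 1)) := mkDerivation ℂ fun k => C (v k) with hE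
      have h3 := hasDerivAt_eval E (γ := fun w => chart i (φ w)) (z := z) (fun k => by
        have h4 := hasDerivAt_chart h hz hi k
        rw [hE, mkDerivation_X, eval_C]
        exact h4) (F j)
      refine h3.congr_deriv ?_
      rw [der_sum E (F j), map_sum]
      refine Finset.sum_congr rfl fun k _ => ?_
      rw [smul_eq_mul, map_mul, hE, mkDerivation_X, eval_C]
    have h3 := h2.deriv
    rw [h1.deriv_eq, deriv_const] at h3
    exact h3.symm

end Run7.h418
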