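import Pool.Agent.Run7.h418.Emb
import Pool.Agent.Run7.h418.Ext

/-!
The derivations which commute with the derivation of the curve commute, when the transcendence
degree is minimal.
-/

set_option autoImplicit false

open MvPolynomial Metric Set Filter Topology

namespace Run7.h418

open Pool.Agent.Y190.OP Pool.Agent.W602.GT Pool.Agent.N155

section cen

variable {n : ℕ} {ι κ : Type} {F : ι → MvPolynomial (Fin (n + 1)) ℂ}
  {σ : κ → (Fin (n + 1) → ℂ) → (Fin (n + 1) → ℂ) → ℂ} {m : κ → ℕ} {c : κ → ℂ}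
  {f : ℂ → Mat (n + 1)} {D : Fin (n + 1) → Dr (Fin (n + 1) ⊕ Fin (n + 1))} {C : ℝ}
  {act : (Fin 1 → ℂ) → Ws f → Ws f} {ε : ℝ} {U : Fin (n + 1) → Dr (Fin (n + 1) ⊕ Fin (n + 1))}
  {M : Type} [Field M] [Algebra ℂ M] {ev : Fin (n + 1) → Rn (n + 1) →ₐ[ℂ] M}
  {δ : Derivation ℂ M M}

/-- the constants of the derivation of the curve -/
theorem IsFd.ker_const (h : Dat f D C) (hM : IsFd f D ev δ) {i : Fin (n + 1)}
    (hi : ∃ z, f z i i ≠ 0) {g : M} (hg : δ g = 0) : ∃ c : ℂ, g = algebraMap ℂ M c := by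
  refine hM.const h hi fun k hk => ?_
  set I : Ideal (Rn (n + 1)) :=
    { carrier := {q | ev k q * g ∈ (ev k).range}
      add_mem' := fun {a b} ha hb => by
        change ev k (a + b) * g ∈ (ev k).range
        rw [map_add, add_mul]
        exact add_mem ha hb
      zero_mem' := by
        change ev k 0 * g ∈ (ev k).range
        rw [map_zero, zero_mul]
        exact zero_mem _
      smul_mem' := fun c a ha => by
        change ev k (c • a) * g ∈ (ev k).range
        rw [smul_eq_mul, map_mul, mul_assoc]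
        exact mul_mem ⟨c, rfl⟩ ha } with hI
  have h1 : Rel f k ≤ I := fun q hq => by
    change ev k q * g ∈ (ev k).range
    rw [(hM.ker k hk q).2 hq, zero_mul]
    exact zero_mem _
  have h2 : ∀ q ∈ I, D k q ∈ I := by
    rintro q ⟨r, hr⟩
    refine ⟨D k r, ?_⟩
    have h3 : ev k r = ev k q * g := hr
    have h4 := congrArg δ h3
    rw [Derivation.leibniz, hg, smul_zero, zero_add, smul_eq_mul, hM.der k hk, hM.der k hk] at h4
    change ev k (D k r) = _
    rw [h4, mul_comm]
  have h3 : I ≠ Rel f k := by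
    obtain ⟨p, q, hq, hpq⟩ := hM.frac k hk g
    intro h4
    have h5 : q ∈ I := ⟨p, by rw [mul_comm, hpq]; rfl⟩
    rw [h4] at h5
    exact hq ((hM.ker k hk q).2 h5)
  have h4 : I = ⊤ := by
    by_contra h5
    exact h3 (h.simple h1 h2 h5)
  have h5 : (1 : Rn (n + 1)) ∈ I := by rw [h4]; trivial
  have h6 : ev k 1 * g ∈ (ev k).range := h5
  rwa [map_one, one_mul] at h6

/-- **The coordinate rings are simple for the vector fields which commute.** -/
theorem usimple [Finite κ] (hF : ∀ j, IsForm (F j)) (hm : ∀ j, 0 < m j)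
    (hσ : ∀ j, SymForm F (m j) (σ j)) (him : Immersive F σ) {w : ℕ} (hlow : Low F σ w)
    (h : Dat f D C) (hV : ∀ i, Vs (Rel f) i ⊆ Ep F σ c i) (hM : IsFd f D ev δ)
    (hw : Algebra.trdeg ℂ M = w) {u : Derivation ℂ M M} (hδu : ⁅δ, u⁆ = 0) (hu : u ≠ 0)
    (hU : ∀ k, (∃ z, f z k k ≠ 0) → ∀ G, ev k (U k G) = u (ev k G))
    (hC : Cmp f U) (hA : IsAct f C (fun _ : Fin 1 => U) act ε) {l : Fin (n + 1)}
    {I : Ideal (Rn (n + 1))} (hI : Rel f l ≤ I) (hIU : ∀ G ∈ I, U l G ∈ I) (hne : I ≠ ⊤) :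
    I ≤ Rel f l := by
  have hVC : ∀ b, Cmp f ((fun _ : Fin 1 => U) b) := fun _ => hC
  obtain ⟨a, ha⟩ := exists_point hne
  have haV : a ∈ Vs (Rel f) l := fun G hG => ha G (hI hG)
  obtain ⟨φ0, hφ0, hφl, hφa⟩ := h.exists_sol haV
  set φ : Ws f := ⟨φ0, hφ0⟩ with hφ
  obtain ⟨c', f', D', C', k, -, -, -, hky, hkf, -, hdense, -⟩ :=
    exists_emb hF hm hσ him hlow h hV hM hw hδu hu hU hC hA φ
  have hlf : ∃ z, f z l l ≠ 0 := chart_of_mem haV
  have hhol : HolP univ (orb act e1 φ) := hA.orb_hol h hVC φ e1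
  have h0 : act ((0 : ℂ) • e1) φ = φ := by rw [zero_smul, hA.zero h]
  have hl0 : (act ((0 : ℂ) • e1) φ).1 0 l l ≠ 0 := by rw [h0]; exact hφl
  obtain ⟨hl1, hsol⟩ := hA.sol h hVC φ e1 0 hl0
  rw [sum_e1] at hsol
  intro G hG
  have hG0 : (fun s : ℂ => eval (pr l (act (s • e1) φ).1 0) G) =ᶠ[𝓝 0] fun _ => (0 : ℂ) := by
    refine eq_of_iter ?_ analyticAt_const fun j => ?_
    · exact analyticAt_eval (γ := fun s => pr l (act (s • e1) φ).1 0)
        (fun r => hsol.analyticAt r) G
    · have h1 := hsol.iter j G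
      refine h1.trans ?_
      rw [h0]
      change eval (pr l φ0 0) _ = _
      rw [hφa, ha _ (iter_mem hIU j hG)]
      rcases j with _ | j
      · simp
      · simp
  obtain ⟨e, G', hG', hGe⟩ := hM.homog h hkf hlf G
  have hky' := ev_chart hhol hky 0
  obtain ⟨s1, hs1k, hs1⟩ := (hky'.and (mem_nhdsWithin_of_mem_nhds
    (hl1.and hG0).eventually_nhds)).exists
  have h1 : G' ∈ Rel f k := by
    refine hdense s1 hs1k G' ?_
    filter_upwards [hs1, ev_diag hhol (mem_univ s1) hs1k] with s hs hsk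
    obtain ⟨hsl, hsG⟩ := hs
    obtain ⟨h2, h3⟩ := pr_cc isOpen_univ (act (s • e1) φ).2.1 (mem_univ (0 : ℂ)) hsk hsl
    rw [hG' _ h2, ← h3, hsG, mul_zero]
  rw [← hM.ker k hkf, hGe] at h1
  rw [← hM.ker l hlf]
  exact (mul_eq_zero.1 h1).resolve_left (pow_ne_zero _ (hM.X_ne h hkf hlf))

/-- **The frame for a vector field which commutes.** -/
theorem exists_frame_u [Finite κ] (hF : ∀ j, IsForm (F j)) (hm : ∀ j, 0 < m j)
    (hσ : ∀ j, SymForm F (m j) (σ j)) (him : Immersive F σ) {w : ℕ} (hlow : Low F σ w)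
    (h : Dat f D C) (hV : ∀ i, Vs (Rel f) i ⊆ Ep F σ c i) (hM : IsFd f D ev δ)
    (hw : Algebra.trdeg ℂ M = w) {u : Derivation ℂ M M} (hδu : ⁅δ, u⁆ = 0) (hu : u ≠ 0)
    (hU : ∀ k, (∃ z, f z k k ≠ 0) → ∀ G, ev k (U k G) = u (ev k G))
    (hC : Cmp f U) (hA : IsAct f C (fun _ : Fin 1 => U) act ε) :
    ∃ (z : Fin w → M) (v : Fin w → Derivation ℂ M M), IsTranscendenceBasis ℂ z ∧
      (∀ s, ⁅u, v s⁆ = 0) ∧
      (Matrix.of fun s t => v s (z t) : Matrix (Fin w) (Fin w) M).det ≠ 0 := by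
  obtain ⟨c', f', D', C', k, hDat', hV', hk', hky, hkf, hker, -, hder⟩ :=
    exists_emb hF hm hσ him hlow h hV hM hw hδu hu hU hC hA ⟨f, sol_self h.hol⟩
  obtain ⟨M', hM'f, hM'a, ev', δ', i', hi', hM', -, hfr'⟩ := exists_frame hDat' hσ him hV'
  obtain ⟨j, hj⟩ := exists_lift_field (ev' k) ((ev k).comp (tht (U k))) (hM'.frac k hk')
    (fun G => by rw [hM'.ker k hk', hker, AlgHom.comp_apply, hM.ker k hkf])
  let _ : Algebra M' M := j.toAlgebra
  have hjm : ∀ x, algebraMap M' M x = j x := fun x => rfl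
  have htow : IsScalarTower ℂ M' M := IsScalarTower.of_algebraMap_eq fun x => (j.commutes x).symm
  have hch : CharZero M' := charZero_of_injective_algebraMap (algebraMap ℂ M').injective
  have hwle := hlow c' f' D' C' hDat' hV' M' hM'f hM'a ev' δ' hM'
  obtain ⟨w', x', hx'⟩ := exists_tb (ev' k) (hM'.fr hk')
  have hw' := tb_card hx'
  have hadd := trdeg_add_eq ℂ M' (A := M)
  rw [hw', hw] at hadd
  rw [hw'] at hwle
  have hww : w ≤ w' := by exact_mod_cast hwle
  have hle2 : (w' : Cardinal) ≤ w := by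
    rw [← hadd]
    exact le_self_add
  have hww2 : w' ≤ w := by exact_mod_cast hle2
  obtain rfl : w' = w := le_antisymm hww2 hww
  have htr0 : Algebra.trdeg M' M = 0 := by
    obtain ⟨r, hr⟩ := Cardinal.lt_aleph0.1 (show Algebra.trdeg M' M < Cardinal.aleph0 from by
      refine lt_of_le_of_lt (b := ((w' : ℕ) : Cardinal)) ?_ Cardinal.natCast_lt_aleph0
      rw [← hadd]
      exact le_add_self)
    rw [hr] at hadd
    have h1 : w' + r = w' := by exact_mod_cast hadd
    rw [hr]
    have : r = 0 := by omega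
    rw [this, Nat.cast_zero]
  have halg : Algebra.IsAlgebraic M' M := trdeg_eq_zero_iff.1 htr0
  have hsep : Algebra.IsSeparable M' M := inferInstance
  have het : Algebra.FormallyEtale M' M := Algebra.FormallyEtale.of_isSeparable M' M
  set z' : Fin w' → M' := fun t => ev' k (x' t) with hz'
  have hz : IsTranscendenceBasis ℂ (fun t => algebraMap M' M (z' t)) := by
    have h1 : AlgebraicIndependent ℂ (fun t => algebraMap M' M (z' t)) :=
      hx'.1.map' (f := IsScalarTower.toAlgHom ℂ M' M) (algebraMap M' M).injective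
    refine h1.isTranscendenceBasis_of_trdeg_le_of_finite ?_
    rw [hw, Cardinal.mk_fin]
  obtain ⟨v', hv'1, hv'2⟩ := hfr' w' z' hx'
  choose v hv using fun s => der_etale (L := M) (v' s)
  -- the derivation `u` extends `δ'`
  have hu' : ∀ x, u (algebraMap M' M x) = algebraMap M' M (δ' x) := by
    have h1 : ∀ G, u (algebraMap M' M (ev' k G)) = algebraMap M' M (δ' (ev' k G)) := by
      intro G
      rw [hM'.der k hk', hjm, hjm, hj, hj, AlgHom.comp_apply, AlgHom.comp_apply, ← hU k hkf]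
      have h2 := (hM.ker k hkf _).2 (hder G)
      rw [map_sub, sub_eq_zero] at h2
      exact h2.symm
    intro x
    obtain ⟨p, q, hq, hpq⟩ := hM'.frac k hk' x
    have h2 := congrArg (fun y => u (algebraMap M' M y)) hpq
    have h3 := congrArg (fun y => algebraMap M' M (δ' y)) hpq
    simp only [map_mul, Derivation.leibniz, smul_eq_mul, map_add] at h2 h3
    rw [h1, h1] at h2
    have hq' : algebraMap M' M (ev' k q) ≠ 0 := (_root_.map_ne_zero _).2 hq
    have h4 : algebraMap M' M (ev' k q) * (u (algebraMap M' M x) - algebraMap M' M (δ' x)) = 0 := by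
      linear_combination h2 - h3
    exact sub_eq_zero.1 ((mul_eq_zero.1 h4).resolve_left hq')
  refine ⟨fun t => algebraMap M' M (z' t), v, hz, fun s => der_zero hz fun t => ?_, ?_⟩
  · rw [Derivation.commutator_apply, hv, hu', hu', hv, ← map_sub]
    have h1 := congrArg (fun d : Derivation ℂ M' M' => d (z' t)) (hv'1 s)
    simp only [Derivation.commutator_apply, Derivation.coe_zero, Pi.zero_apply] at h1
    rw [h1, map_zero]
  · have h1 : (Matrix.of fun s t => v s (algebraMap M' M (z' t)) :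
        Matrix (Fin w') (Fin w') M) = (algebraMap M' M).mapMatrix
          (Matrix.of fun s t => v' s (z' t)) := by
      ext s t
      rw [RingHom.mapMatrix_apply, Matrix.map_apply, Matrix.of_apply, Matrix.of_apply, hv]
    rw [h1, ← RingHom.map_det]
    exact (_root_.map_ne_zero _).2 hv'2

end cen

end Run7.h418
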