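import Pool.Agent.Run7.h418.Cen

/-!
The derivations which commute with the derivation of the curve commute, when the transcendence
degree is minimal.
-/

set_option autoImplicit false

open MvPolynomial Metric Set Filter Topology

namespace Run7.h418

open Pool.Agent.Y190.OP Pool.Agent.W602.GT Pool.Agent.N155

section com

variable {n : ℕ} {ι κ : Type} {F : ι → MvPolynomial (Fin (n + 1)) ℂ}
  {σ : κ → (Fin (n + 1) → ℂ) → (Fin (n + 1) → ℂ) → ℂ} {m : κ → ℕ} {c : κ → ℂ}
  {f : ℂ → Mat (n + 1)} {D : Fin (n + 1) → Dr (Fin (n + 1) ⊕ Fin (n + 1))} {C : ℝ}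
  {M : Type} [Field M] [Algebra ℂ M] {ev : Fin (n + 1) → Rn (n + 1) →ₐ[ℂ] M}
  {δ : Derivation ℂ M M}

/-- coefficients of derivations which commute with `δ` -/
theorem IsFd.comb_const (h : Dat f D C) (hM : IsFd f D ev δ) {i : Fin (n + 1)}
    (hi : ∃ z, f z i i ≠ 0) {w : ℕ} {z : Fin w → M} (hz : IsTranscendenceBasis ℂ z)
    {v : Fin w → Derivation ℂ M M} (hv : ∀ s, ⁅δ, v s⁆ = 0)
    (hdet : (Matrix.of fun s t => v s (z t) : Matrix (Fin w) (Fin w) M).det ≠ 0)
    {d : Derivation ℂ M M} (hd : ⁅δ, d⁆ = 0) :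
    ∃ g : Fin w → ℂ, d = ∑ a, algebraMap ℂ M (g a) • v a := by
  obtain ⟨g, hg⟩ := frame_comb hz hdet d
  have h1 : ∑ a, δ (g a) • v a = 0 := by
    rw [← hd]
    conv_rhs => rw [hg, lie_sum_der]
    refine Finset.sum_congr rfl fun a _ => ?_
    rw [hv, smul_zero, add_zero]
  have h2 := frame_indep hdet h1
  choose g' hg' using fun a => hM.ker_const h hi (congrFun h2 a)
  refine ⟨g', ?_⟩
  rw [hg]
  exact Finset.sum_congr rfl fun a _ => by rw [hg']

/-- **Commutativity.** -/
theorem comm_of_min [Finite κ] (hF : ∀ j, IsForm (F j)) (hm : ∀ j, 0 < m j)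
    (hσ : ∀ j, SymForm F (m j) (σ j)) (him : Immersive F σ) {w : ℕ} (hlow : Low F σ w)
    (h : Dat f D C) (hV : ∀ i, Vs (Rel f) i ⊆ Ep F σ c i) (hM : IsFd f D ev δ)
    (hw : Algebra.trdeg ℂ M = w) {z0 : Fin w → M} (hz0 : IsTranscendenceBasis ℂ z0)
    {v0 : Fin w → Derivation ℂ M M} (hv0 : ∀ s, ⁅δ, v0 s⁆ = 0)
    (hdet0 : (Matrix.of fun s t => v0 s (z0 t) : Matrix (Fin w) (Fin w) M).det ≠ 0)
    {u : Derivation ℂ M M} (hu : ⁅δ, u⁆ = 0) (a0 : Fin w) : ⁅u, v0 a0⁆ = 0 := by
  classical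
  by_cases hu0 : u = 0
  · rw [hu0, zero_lie]
  obtain ⟨i, hi0⟩ := PM.exists_diag (h.hol.mem_PM (mem_univ (0 : ℂ)))
  have hi : ∃ z, f z i i ≠ 0 := ⟨0, hi0⟩
  obtain ⟨U, hU⟩ := hM.exists_V (fun k hk => hM.pres h hu hk)
  have hC : Cmp f U := Cmp.of_der h hM hU
  obtain ⟨act, ε, hA⟩ := exists_isAct h (V := fun _ : Fin 1 => U) (fun _ => hC)
    (fun _ _ k G => by rw [lie_self]; exact zero_mem _)
  obtain ⟨z1, v1, hz1, hv1, hdet1⟩ := exists_frame_u hF hm hσ him hlow h hV hM hw hu hu0 hU hC hA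
  -- the structure constants
  have hN : ∀ a, ∃ g : Fin w → ℂ, ⁅u, v0 a⁆ = ∑ b, algebraMap ℂ M (g b) • v0 b := by
    intro a
    refine hM.comb_const h hi hz0 hv0 hdet0 ?_
    rw [leibniz_lie, hu, hv0, zero_lie, lie_zero, add_zero]
  choose N hN using hN
  have hG : ∀ s, ∃ g : Fin w → M, v1 s = ∑ a, g a • v0 a := fun s => frame_comb hz0 hdet0 (v1 s)
  choose G hG using hG
  have hrel : ∀ s b, u (G s b) = -∑ a, G s a * algebraMap ℂ M (N a b) := by
    intro s b
    have h1 := hv1 s
    rw [hG s, lie_sum_der] at h1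
    have h2 : ∑ b, (u (G s b) + ∑ a, G s a * algebraMap ℂ M (N a b)) • v0 b = 0 := by
      rw [← h1]
      simp only [add_smul, Finset.sum_add_distrib]
      congr 1
      simp only [hN, Finset.smul_sum, Finset.sum_smul]
      rw [Finset.sum_comm]
      exact Finset.sum_congr rfl fun a _ => Finset.sum_congr rfl fun b _ => by rw [smul_smul]
    have h3 := congrFun (frame_indep hdet0 h2) b
    exact eq_neg_of_add_eq_zero_left h3
  have hreg : ∀ l, (∃ z, f z l l ≠ 0) → ∀ s a, G s a ∈ (ev l).range := by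
    intro l hl
    set I : Ideal (Rn (n + 1)) :=
      { carrier := {q | ∀ s a, ev l q * G s a ∈ (ev l).range}
        add_mem' := fun {x y} hx hy s a => by
          rw [map_add, add_mul]
          exact add_mem (hx s a) (hy s a)
        zero_mem' := fun s a => by
          rw [map_zero, zero_mul]
          exact zero_mem _
        smul_mem' := fun c x hx s a => by
          rw [smul_eq_mul, map_mul, mul_assoc]
          exact mul_mem ⟨c, rfl⟩ (hx s a) } with hI
    have h1 : Rel f l ≤ I := fun q hq s a => by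
      rw [(hM.ker l hl q).2 hq, zero_mul]
      exact zero_mem _
    have h2 : ∀ q ∈ I, U l q ∈ I := by
      intro q hq s b
      obtain ⟨r, hr⟩ := hq s b
      have hr' : ev l r = ev l q * G s b := hr
      have h3 := congrArg u hr'
      rw [Derivation.leibniz, smul_eq_mul, smul_eq_mul, ← hU l hl, ← hU l hl] at h3
      have h4 : ev l (U l q) * G s b = ev l (U l r) - ev l q * u (G s b) := by
        rw [h3]
        ring
      rw [h4, hrel, mul_neg, sub_neg_eq_add, Finset.mul_sum]
      refine add_mem ⟨_, rfl⟩ (sum_mem fun a _ => ?_)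
      rw [← mul_assoc]
      exact mul_mem (hq s a) (Subalgebra.algebraMap_mem _ _)
    have h3 : ¬ I ≤ Rel f l := by
      intro h4
      choose p q hq hpq using fun x : Fin w × Fin w => hM.frac l hl (G x.1 x.2)
      have h5 : ∏ x, q x ∈ I := by
        intro s a
        have h6 : (∏ x ∈ Finset.univ.erase (s, a), q x) * q (s, a) = ∏ x, q x :=
          Finset.prod_erase_mul _ _ (Finset.mem_univ _)
        refine ⟨(∏ x ∈ Finset.univ.erase (s, a), q x) * p (s, a), ?_⟩
        change ev l _ = _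
        rw [← h6, map_mul, map_mul, ← hpq (s, a)]
        ring
      have h6 := (hM.ker l hl _).2 (h4 h5)
      rw [map_prod] at h6
      exact Finset.prod_ne_zero_iff.2 (fun x _ => hq x) h6
    have h4 : I = ⊤ := by
      by_contra h5
      exact h3 (usimple hF hm hσ him hlow h hV hM hw hu hu0 hU hC hA h1 h2 h5)
    intro s a
    have h5 : (1 : Rn (n + 1)) ∈ I := by rw [h4]; trivial
    have h6 := h5 s a
    rwa [map_one, one_mul] at h6
  have hcst : ∀ s a, ∃ x : ℂ, G s a = algebraMap ℂ M x := fun s a =>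
    hM.const h hi fun l hl => hreg l hl s a
  have hG0 : (Matrix.of G).det ≠ 0 := by
    intro h0
    apply hdet1
    have h1 : (Matrix.of fun s t => v1 s (z1 t) : Matrix (Fin w) (Fin w) M) =
        Matrix.of G * Matrix.of fun a t => v0 a (z1 t) := by
      ext s t
      rw [Matrix.mul_apply, Matrix.of_apply, hG s, sum_smul_apply]
      rfl
    rw [h1, Matrix.det_mul, h0, zero_mul]
  have hN0 : ∀ a b, algebraMap ℂ M (N a b) = 0 := by
    intro a b
    have h1 : (Matrix.of G).mulVec (fun a => algebraMap ℂ M (N a b)) = 0 := by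
      funext s
      obtain ⟨x, hx⟩ := hcst s b
      have h2 := hrel s b
      rw [hx, Derivation.map_algebraMap] at h2
      have h3 : ∑ a, G s a * algebraMap ℂ M (N a b) = 0 := neg_eq_zero.1 h2.symm
      exact h3
    exact congrFun (Matrix.eq_zero_of_mulVec_eq_zero hG0 h1) a
  rw [hN]
  exact Finset.sum_eq_zero fun b _ => by rw [hN0, zero_smul]

end com

end Run7.h418
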