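import Pool.Agent.N155.Defs

/-!
Symmetric differentials on projective varieties.
-/

set_option autoImplicit false

open Pool.Agent.W602.GT

namespace Run7.h418

variable {n : ℕ} {ι κ : Type}

/-- The vector `v` is tangent at the point `x` to the cone `{F = 0}`, in the sense of Zariski:
`∑ ∂(F i)/∂x_k (x) v_k = 0` for all `i`. -/
def Tan (F : ι → MvPolynomial (Fin (n + 1)) ℂ) (x v : Fin (n + 1) → ℂ) : Prop :=
  ∀ i, ∑ k, MvPolynomial.eval x (MvPolynomial.pderiv k (F i)) * v k = 0

/-- `σ` is a regular symmetric differential of degree `m` on the projective scheme `X = {F = 0}`: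
the values `σ x v`, for points `x` of the cone over `X` and tangent vectors `v` at `x`, are near
each point of `X` quotients of polynomials in `x`, `v` and polynomials in `x`, they are homogeneous
of degree `m` in `v`, and they only depend on the point of projective space and the tangent vector
there which are given by `x` and `v` : `σ (c x) (c (v + a x)) = σ x v`. -/
structure SymForm (F : ι → MvPolynomial (Fin (n + 1)) ℂ) (m : ℕ)
    (σ : (Fin (n + 1) → ℂ) → (Fin (n + 1) → ℂ) → ℂ) : Prop where
  twist : ∀ x ∈ Cone F, ∀ v, Tan F x v → ∀ c a : ℂ, c ≠ 0 → σ (c • x) (c • (v + a • x)) = σ x v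
  deg : ∀ x ∈ Cone F, ∀ v, Tan F x v → ∀ c : ℂ, σ x (c • v) = c ^ m * σ x v
  alg : ∀ x ∈ Cone F, ∃ (P : MvPolynomial (Fin (n + 1) ⊕ Fin (n + 1)) ℂ)
    (H : MvPolynomial (Fin (n + 1)) ℂ), MvPolynomial.eval x H ≠ 0 ∧
      ∀ x' ∈ Cone F, MvPolynomial.eval x' H ≠ 0 → ∀ v, Tan F x' v →
        σ x' v = MvPolynomial.eval (Sum.elim x' v) P / MvPolynomial.eval x' H

/-- The symmetric differentials `σ j` on the projective scheme `X = {F = 0}` are immersive: for all
points `x` of `X` and all nonzero tangent vectors `v`, `w` of `X` at `x`, the derivative of some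
`σ j` at `v` in the direction of `w` is not zero. (For example, this holds if `X` is smooth and
`σ 1, …, σ r` generate the symmetric power `Sᵐ Ω` of the cotangent bundle for some `m > 0`.) -/
def Immersive (F : ι → MvPolynomial (Fin (n + 1)) ℂ)
    (σ : κ → (Fin (n + 1) → ℂ) → (Fin (n + 1) → ℂ) → ℂ) : Prop :=
  ∀ x ∈ Cone F, ∀ v w, Tan F x v → Tan F x w → (∀ c : ℂ, v ≠ c • x) → (∀ c : ℂ, w ≠ c • x) →
    ∃ j, deriv (fun t : ℂ => σ j x (v + t • w)) 0 ≠ 0

end Run7.h418
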