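import Pool.Agent.Run7.h418.Fam2

/-!
The derivatives of the symmetric differentials in the direction of a family.
-/

set_option autoImplicit false

open Metric Set Filter Topology MvPolynomial

namespace Run7.h418

open Pool.Agent.Y190.OP Pool.Agent.W602.GT Pool.Agent.N155

variable {n : ℕ} {ι κ : Type} {F : ι → MvPolynomial (Fin (n + 1)) ℂ}
  {σ : κ → (Fin (n + 1) → ℂ) → (Fin (n + 1) → ℂ) → ℂ} {m : κ → ℕ} {c : κ → ℂ}

/-- the derivative of `σ j` in the direction of `η` -/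
noncomputable def ds (σ : κ → (Fin (n + 1) → ℂ) → (Fin (n + 1) → ℂ) → ℂ) (j : κ)
    (a : Fin (n + 1) ⊕ Fin (n + 1) → ℂ) (η : Fin (n + 1) → ℂ) : ℂ :=
  deriv (fun t : ℂ => σ j (a ∘ Sum.inl) (a ∘ Sum.inr + t • η)) 0

/-- the symmetric differential `σ j` is `P / H` where `H ≠ 0` -/
def Rep (F : ι → MvPolynomial (Fin (n + 1)) ℂ)
    (σ : κ → (Fin (n + 1) → ℂ) → (Fin (n + 1) → ℂ) → ℂ) (j : κ) (P : Rn (n + 1))
    (H : MvPolynomial (Fin (n + 1)) ℂ) : Prop :=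
  ∀ x' ∈ Cone F, eval x' H ≠ 0 → ∀ v, Tan F x' v → σ j x' v = eval (Sum.elim x' v) P / eval x' H

theorem ds_hasDeriv {j : κ} {i : Fin (n + 1)} {a : Fin (n + 1) ⊕ Fin (n + 1) → ℂ}
    (ha : a ∈ Tg F i) {η : Fin (n + 1) → ℂ} (hη : Tan F (a ∘ Sum.inl) η) {P : Rn (n + 1)}
    {H : MvPolynomial (Fin (n + 1)) ℂ} (hrep : Rep F σ j P H) (hH : eval (a ∘ Sum.inl) H ≠ 0)
    (t : ℂ) : HasDerivAt (fun t : ℂ => σ j (a ∘ Sum.inl) (a ∘ Sum.inr + t • η))
      ((∑ k, eval (Sum.elim (a ∘ Sum.inl) (a ∘ Sum.inr + t • η)) (pderiv (Sum.inr k) P) * η k) /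
        eval (a ∘ Sum.inl) H) t := by
  have h2 : (fun t : ℂ => σ j (a ∘ Sum.inl) (a ∘ Sum.inr + t • η)) = fun t =>
      eval (Sum.elim (a ∘ Sum.inl) (a ∘ Sum.inr + t • η)) P / eval (a ∘ Sum.inl) H := by
    funext t
    exact hrep _ (Tg.cone ha) hH _ (ha.2.2.2.add (hη.smul t))
  rw [h2]
  have h3 := hasDerivAt_eval' (γ := fun t : ℂ => Sum.elim (a ∘ Sum.inl) (a ∘ Sum.inr + t • η))
    (γ' := Sum.elim 0 η) (z := t) (fun l => by
      rcases l with k | k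
      · exact hasDerivAt_const _ _
      · have := ((hasDerivAt_id t).mul_const (η k)).const_add (a (Sum.inr k))
        simpa using this) P
  have h4 : ∑ l, eval (Sum.elim (a ∘ Sum.inl) (a ∘ Sum.inr + t • η)) (pderiv l P) *
      (Sum.elim 0 η : Fin (n + 1) ⊕ Fin (n + 1) → ℂ) l =
      ∑ k, eval (Sum.elim (a ∘ Sum.inl) (a ∘ Sum.inr + t • η)) (pderiv (Sum.inr k) P) * η k := by
    rw [Fintype.sum_sum_type]
    simp only [Sum.elim_inl, Sum.elim_inr, Pi.zero_apply, mul_zero, Finset.sum_const_zero,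
      zero_add]
  rw [h4] at h3
  exact h3.div_const _

theorem ds_rep {j : κ} {i : Fin (n + 1)} {a : Fin (n + 1) ⊕ Fin (n + 1) → ℂ}
    (ha : a ∈ Tg F i) {η : Fin (n + 1) → ℂ} (hη : Tan F (a ∘ Sum.inl) η) {P : Rn (n + 1)}
    {H : MvPolynomial (Fin (n + 1)) ℂ} (hrep : Rep F σ j P H) (hH : eval (a ∘ Sum.inl) H ≠ 0) :
    ds σ j a η = (∑ k, eval a (pderiv (Sum.inr k) P) * η k) / eval (a ∘ Sum.inl) H := by
  have h1 := (ds_hasDeriv ha hη hrep hH 0).deriv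
  rw [zero_smul, add_zero, Sum.elim_comp_inl_inr] at h1
  exact h1

theorem ds_bound (hσ : ∀ j, SymForm F (m j) (σ j)) (j : κ) (C : ℝ) :
    ∃ K : ℝ, 0 ≤ K ∧ ∀ i, ∀ a ∈ Tb F i C, ∀ η : Fin (n + 1) → ℂ, Tan F (a ∘ Sum.inl) η →
      η i = 0 → ‖ds σ j a η‖ ≤ K * ‖η‖ := by
  choose K hK using fun i => sg_bounded (F := F) hσ j i (C + 1)
  obtain ⟨K', hK'⟩ := Finite.exists_le K
  refine ⟨max K' 0, le_max_right _ _, fun i a ha η hη hηi => ?_⟩
  by_cases h0 : η = 0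
  · unfold ds
    rw [h0]
    simp
  have hs : 0 < ‖η‖ := norm_pos_iff.2 h0
  obtain ⟨P, H, hH, hrep⟩ := sg_rep hσ j (Tg.cone ha.1)
  have hd : Differentiable ℂ fun t : ℂ => σ j (a ∘ Sum.inl) (a ∘ Sum.inr + t • η) := fun t =>
    (ds_hasDeriv ha.1 hη hrep hH t).differentiableAt
  have h1 := Complex.norm_deriv_le_of_forall_mem_sphere_norm_le (c := (0 : ℂ)) (R := ‖η‖⁻¹)
    (C := max K' 0) (inv_pos.2 hs) hd.diffContOnCl (fun t ht => by
      rw [mem_sphere_zero_iff_norm] at ht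
      set b : Fin (n + 1) ⊕ Fin (n + 1) → ℂ := Sum.elim (a ∘ Sum.inl) (a ∘ Sum.inr + t • η) with hb
      have hbl : b ∘ Sum.inl = a ∘ Sum.inl := Sum.elim_comp_inl _ _
      have hbr : b ∘ Sum.inr = a ∘ Sum.inr + t • η := Sum.elim_comp_inr _ _
      have hbT : b ∈ Tb F i (C + 1) := by
        refine ⟨⟨?_, ?_, ?_, ?_⟩, ?_, ?_⟩
        · exact ha.1.1
        · change (b ∘ Sum.inr) i = 0
          rw [hbr, Pi.add_apply, Pi.smul_apply, hηi, smul_zero, add_zero]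
          exact ha.1.2.1
        · rw [hbl]
          exact ha.1.2.2.1
        · rw [hbl, hbr]
          exact ha.1.2.2.2.add (hη.smul t)
        · rw [hbl]
          exact ha.2.1
        · rw [hbr]
          refine (norm_add_le _ _).trans (add_le_add ha.2.2 ?_)
          rw [norm_smul, ht, inv_mul_cancel₀ hs.ne']
      have h2 := (hK i b hbT).trans (hK' i)
      unfold sg at h2
      rw [hbl, hbr] at h2
      exact h2.trans (le_max_left _ _))
  unfold ds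
  refine h1.trans (le_of_eq ?_)
  rw [div_inv_eq_mul]

theorem ds_cc (hσ : ∀ j, SymForm F (m j) (σ j)) {i k : Fin (n + 1)}
    {a : Fin (n + 1) ⊕ Fin (n + 1) → ℂ} (ha : a ∈ Tg F i) (hk : a (Sum.inl k) ≠ 0)
    {η : Fin (n + 1) → ℂ} (hη : Tan F (a ∘ Sum.inl) η) (j : κ) :
    ds σ j (cc k a) (fun l => (η l * a (Sum.inl k) - a (Sum.inl l) * η k) / a (Sum.inl k) ^ 2) =
      ds σ j a η := by
  unfold ds
  congr 1
  funext t
  rw [cc_comp_inl, cc_comp_inr k hk]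
  have h1 : (fun l => (η l * a (Sum.inl k) - a (Sum.inl l) * η k) / a (Sum.inl k) ^ 2) =
      (a (Sum.inl k))⁻¹ • (η + (-(η k / a (Sum.inl k))) • (a ∘ Sum.inl)) := by
    funext l
    simp only [Pi.smul_apply, Pi.add_apply, Function.comp_apply, smul_eq_mul]
    field_simp
    ring
  rw [h1, smul_comm t, ← smul_add]
  have h2 : a ∘ Sum.inr + (-(a (Sum.inr k) / a (Sum.inl k))) • (a ∘ Sum.inl) +
      t • (η + (-(η k / a (Sum.inl k))) • (a ∘ Sum.inl)) =
      (a ∘ Sum.inr + t • η) + (-(a (Sum.inr k) / a (Sum.inl k)) + t * (-(η k / a (Sum.inl k)))) •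
        (a ∘ Sum.inl) := by
    funext l
    simp only [Pi.smul_apply, Pi.add_apply, smul_eq_mul]
    ring
  rw [h2]
  exact (hσ j).twist _ (Tg.cone ha) _ (ha.2.2.2.add (hη.smul t)) _ _ (inv_ne_zero hk)

/-- the infinitesimal deformation of the affine coordinates -/
noncomputable def eta (y : ℂ → ℂ → Mat (n + 1)) (i : Fin (n + 1)) (z : ℂ) : Fin (n + 1) → ℂ :=
  fun k => Jd y i z (X (Sum.inl k))

theorem pderiv_inl_inl (k : Fin (n + 1)) (G : MvPolynomial (Fin (n + 1)) ℂ) :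
    pderiv (Sum.inl k) (rename (Sum.inl : Fin (n + 1) → Fin (n + 1) ⊕ Fin (n + 1)) G) =
      rename Sum.inl (pderiv k G) := by
  induction G using MvPolynomial.induction_on with
  | C c => simp
  | add p q hp hq => rw [map_add, map_add, hp, hq, map_add, map_add]
  | mul_X p l hp =>
    rw [map_mul, pderiv_mul, hp, rename_X, pderiv_mul, map_add, map_mul, map_mul, rename_X]
    congr 2
    by_cases hkl : k = l
    · subst hkl
      rw [pderiv_X_self, pderiv_X_self, map_one]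
    · rw [pderiv_X_of_ne (Ne.symm hkl), map_zero]
      exact pderiv_X_of_ne (by simpa using Ne.symm hkl)

section fam

variable {f : ℂ → Mat (n + 1)} {D : Fin (n + 1) → Dr (Fin (n + 1) ⊕ Fin (n + 1))} {C : ℝ}

theorem Jd_zero {y : ℂ → ℂ → Mat (n + 1)} {i : Fin (n + 1)} {z : ℂ}
    (hy : ∀ᶠ s in 𝓝 (0 : ℂ), Sol (Vs (Rel f)) univ (y s)) (hg : Good y z 0 i) {G : Rn (n + 1)}
    {e : ℂ} (hG : ∀ a ∈ Vs (Rel f) i, eval a G = e) : Jd y i z G = 0 := by
  unfold Jd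
  have h1 : (fun s => eval (pr i (y s) z) G) =ᶠ[𝓝 0] fun _ => e := by
    filter_upwards [hy, good_slice hg] with s hs hs2
    exact hG _ (hs.2 z (mem_univ z) i hs2.1)
  rw [h1.deriv_eq, deriv_const]

theorem eta_Tan (hV : ∀ i, Vs (Rel f) i ⊆ Ep F σ c i) {y : ℂ → ℂ → Mat (n + 1)}
    {i : Fin (n + 1)} {z : ℂ} (hy : ∀ᶠ s in 𝓝 (0 : ℂ), Sol (Vs (Rel f)) univ (y s))
    (hg : Good y z 0 i) : Tan F (pr i (y 0) z ∘ Sum.inl) (eta y i z) ∧ eta y i z i = 0 := by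
  constructor
  · intro j
    have h1 : Jd y i z (rename Sum.inl (F j)) = 0 := Jd_zero hy hg (e := 0) fun a ha => by
      rw [eval_inl]
      exact (hV i ha).1.2.2.1 j
    rw [Jd_sum hg, Fintype.sum_sum_type] at h1
    simp only [pderiv_inl_inl, pderiv_inr_inl, map_zero, zero_mul, Finset.sum_const_zero,
      add_zero, eval_inl] at h1
    exact h1
  · exact Jd_zero hy hg (e := 1) fun a ha => by
      rw [eval_X]
      exact (hV i ha).1.1

theorem eta_cc {y : ℂ → ℂ → Mat (n + 1)} {i k : Fin (n + 1)} {z : ℂ}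
    (hy : ∀ᶠ s in 𝓝 (0 : ℂ), Sol (Vs (Rel f)) univ (y s))
    (hg : Good y z 0 i) (hk : y 0 z k k ≠ 0) :
    eta y k z = fun l => (eta y i z l * pr i (y 0) z (Sum.inl k) -
      pr i (y 0) z (Sum.inl l) * eta y i z k) / pr i (y 0) z (Sum.inl k) ^ 2 := by
  have hgk : Good y z 0 k := hg.change (hy.mono fun s hs => hs.1) hk
  have hk0 := (pr_cc isOpen_univ hy.self_of_nhds.1 (mem_univ z) hg.self_of_nhds.1 hk).1
  have hd := (good_slice hg).self_of_nhds.2
  have hdl : ∀ l, HasDerivAt (fun s => pr i (y s) z (Sum.inl l)) (eta y i z l) 0 := by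
    intro l
    unfold eta Jd
    simp only [eval_X]
    exact (differentiableAt_pi.1 hd (Sum.inl l)).hasDerivAt
  funext l
  have h1 : (fun s => eval (pr k (y s) z) (X (Sum.inl l))) =ᶠ[𝓝 0] fun s =>
      pr i (y s) z (Sum.inl l) / pr i (y s) z (Sum.inl k) := by
    filter_upwards [hy, good_slice hg, good_slice hgk] with s hs hs1 hs2
    rw [eval_X, (pr_cc isOpen_univ hs.1 (mem_univ z) hs1.1 hs2.1).2, cc_inl]
  change Jd y k z (X (Sum.inl l)) = _
  unfold Jd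
  rw [h1.deriv_eq, ((hdl l).fun_div (hdl k) hk0).deriv]

/-- the form -/
noncomputable def th (P : Rn (n + 1)) (H : MvPolynomial (Fin (n + 1)) ℂ) :
    Fin (n + 1) ⊕ Fin (n + 1) → Rn (n + 1) :=
  Sum.elim (fun k => rename Sum.inl H * pderiv (Sum.inr k) P) fun _ => 0

/-- the denominator of the form -/
noncomputable def HH (H : MvPolynomial (Fin (n + 1)) ℂ) : Rn (n + 1) := rename Sum.inl H ^ 2

theorem hat_th {y : ℂ → ℂ → Mat (n + 1)} {i : Fin (n + 1)} {z : ℂ}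
    (hV : ∀ i, Vs (Rel f) i ⊆ Ep F σ c i) (hy : ∀ᶠ s in 𝓝 (0 : ℂ), Sol (Vs (Rel f)) univ (y s))
    (hg : Good y z 0 i) {j : κ} {P : Rn (n + 1)} {H : MvPolynomial (Fin (n + 1)) ℂ}
    (hrep : Rep F σ j P H) :
    hat y i (th P H) z = eval (pr i (y 0) z) (HH H) * ds σ j (pr i (y 0) z) (eta y i z) := by
  have h1 : hat y i (th P H) z = eval (pr i (y 0) z ∘ Sum.inl) H *
      ∑ k, eval (pr i (y 0) z) (pderiv (Sum.inr k) P) * eta y i z k := by
    unfold hat th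
    rw [Fintype.sum_sum_type]
    simp only [Sum.elim_inl, Sum.elim_inr, map_zero, zero_mul, Finset.sum_const_zero, add_zero,
      map_mul, eval_inl]
    rw [Finset.mul_sum]
    exact Finset.sum_congr rfl fun k _ => by rw [mul_assoc]; rfl
  have h2 : eval (pr i (y 0) z) (HH H) = eval (pr i (y 0) z ∘ Sum.inl) H ^ 2 := by
    unfold HH
    rw [map_pow, eval_inl]
  rw [h1, h2]
  by_cases hH : eval (pr i (y 0) z ∘ Sum.inl) H = 0
  · rw [hH]
    ring
  · have ha : pr i (y 0) z ∈ Tg F i :=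
      (hV i (hy.self_of_nhds.2 z (mem_univ z) i hg.self_of_nhds.1)).1
    rw [ds_rep ha (eta_Tan hV hy hg).1 hrep hH]
    field_simp

/-- the entire function of a family -/
theorem exists_entire_ds (h : Dat f D C) (hσ : ∀ j, SymForm F (m j) (σ j))
    (hV : ∀ i, Vs (Rel f) i ⊆ Ep F σ c i) {y : ℂ → ℂ → Mat (n + 1)}
    (hy : ∀ᶠ s in 𝓝 (0 : ℂ), Sol (Vs (Rel f)) univ (y s))
    (hg : ∀ z i, y 0 z i i ≠ 0 → Good y z 0 i) (j : κ) :
    ∃ g : ℂ → ℂ, Differentiable ℂ g ∧ ∀ z i, y 0 z i i ≠ 0 →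
      g z = ds σ j (pr i (y 0) z) (eta y i z) := by
  have hy0 := hy.self_of_nhds
  choose ix hix using fun z => PM.exists_diag (hy0.1.mem_PM (mem_univ z))
  have hTg : ∀ z i, y 0 z i i ≠ 0 → pr i (y 0) z ∈ Tg F i := fun z i hi =>
    (hV i (hy0.2 z (mem_univ z) i hi)).1
  have hs : ∀ z i, y 0 z i i ≠ 0 → ds σ j (pr (ix z) (y 0) z) (eta y (ix z) z) =
      ds σ j (pr i (y 0) z) (eta y i z) := by
    intro z i hi
    obtain ⟨h1, h2⟩ := pr_cc isOpen_univ hy0.1 (mem_univ z) (hix z) hi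
    rw [eta_cc hy (hg z _ (hix z)) hi, h2]
    exact (ds_cc hσ (hTg z _ (hix z)) h1 (eta_Tan hV hy (hg z _ (hix z))).1 j).symm
  refine ⟨fun z => ds σ j (pr (ix z) (y 0) z) (eta y (ix z) z), fun z => ?_, hs⟩
  have hi := hix z
  obtain ⟨P, H, hH, hrep⟩ := sg_rep hσ j (Tg.cone (hTg z _ hi))
  have hrep' : Rep F σ j P H := hrep
  have hpr : ∀ l, AnalyticAt ℂ (fun w => pr (ix z) (y 0) w l) z := fun l =>
    analyticAt_pr isOpen_univ hy0.1 (mem_univ z) hi l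
  have hHH : AnalyticAt ℂ (fun w => eval (pr (ix z) (y 0) w) (HH H)) z := analyticAt_eval hpr _
  have hHH0 : eval (pr (ix z) (y 0) z) (HH H) ≠ 0 := by
    unfold HH
    rw [map_pow, eval_inl]
    exact pow_ne_zero 2 hH
  have h1 : DifferentiableAt ℂ (fun w => hat y (ix z) (th P H) w /
      eval (pr (ix z) (y 0) w) (HH H)) z :=
    (hat_deriv h hy (hg z _ hi) _).differentiableAt.fun_div hHH.differentiableAt hHH0
  refine h1.congr_of_eventuallyEq ?_
  filter_upwards [hHH.continuousAt.eventually_ne hHH0, ev_diag hy0.1 (mem_univ z) hi] with w hw hwi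
  rw [hs w _ hwi, hat_th hV hy (hg w _ hwi) hrep', mul_comm, mul_div_assoc, div_self hw, mul_one]

end fam

end Run7.h418
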