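import Pool.Agent.Run7.h418.Alg

/-!
Frames of derivations which commute with the derivation of the curve.
-/

set_option autoImplicit false

open MvPolynomial

namespace Run7.h418

open Pool.Agent.Y190.OP Pool.Agent.W602.GT Pool.Agent.N155

variable {n : ℕ} {ι κ : Type} {F : ι → MvPolynomial (Fin (n + 1)) ℂ}
  {σ : κ → (Fin (n + 1) → ℂ) → (Fin (n + 1) → ℂ) → ℂ} {m : κ → ℕ} {c : κ → ℂ}
  {f : ℂ → Mat (n + 1)} {D : Fin (n + 1) → Dr (Fin (n + 1) ⊕ Fin (n + 1))} {C : ℝ}
  {M : Type} [Field M] [Algebra ℂ M] {ev : Fin (n + 1) → Rn (n + 1) →ₐ[ℂ] M}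
  {δ : Derivation ℂ M M}

theorem chain {τ : Type} [Fintype τ] (ei : MvPolynomial τ ℂ →ₐ[ℂ] M) (v : Derivation ℂ M M)
    (G : MvPolynomial τ ℂ) : v (ei G) = ∑ l, ei (pderiv l G) * v (ei (X l)) := by
  classical
  induction G using MvPolynomial.induction_on with
  | C c =>
    rw [← MvPolynomial.algebraMap_eq, AlgHom.commutes, Derivation.map_algebraMap]
    simp
  | add p q hp hq =>
    rw [map_add, map_add, hp, hq, ← Finset.sum_add_distrib]
    exact Finset.sum_congr rfl fun k _ => by rw [map_add, map_add]; ring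
  | mul_X p l hp =>
    rw [map_mul, v.leibniz, hp, smul_eq_mul, smul_eq_mul, Finset.mul_sum]
    have h1 : ∀ k, ei (pderiv k (p * X l)) * v (ei (X k)) =
        ei (X l) * (ei (pderiv k p) * v (ei (X k))) +
          (if k = l then ei p * v (ei (X l)) else 0) := by
      intro k
      rw [pderiv_mul, map_add, map_mul, map_mul]
      by_cases hkl : k = l
      · subst hkl
        rw [pderiv_X_self, map_one, if_pos rfl]
        ring
      · rw [pderiv_X_of_ne (Ne.symm hkl), map_zero, if_neg hkl]
        ring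
    simp only [h1, Finset.sum_add_distrib, Finset.sum_ite_eq', Finset.mem_univ, if_true]
    rw [add_comm]

/-- the rows of the linear system -/
noncomputable def rw' (F : ι → MvPolynomial (Fin (n + 1)) ℂ) (P : κ → Rn (n + 1))
    (i : Fin (n + 1)) : (ι ⊕ (Unit ⊕ κ)) → Fin (n + 1) → Rn (n + 1) :=
  Sum.elim (fun j k => rename Sum.inl (pderiv k (F j)))
    (Sum.elim (fun _ k => if k = i then 1 else 0) fun j k => pderiv (Sum.inr k) (P j))

/-- the relative forms separate the derivations on the coordinates -/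
theorem sep (h : Dat f D C) (hM : IsFd f D ev δ) (him : Immersive F σ)
    (hV : ∀ i, Vs (Rel f) i ⊆ Ep F σ c i) {i : Fin (n + 1)} (hi : ∃ z, f z i i ≠ 0)
    {a : Fin (n + 1) ⊕ Fin (n + 1) → ℂ} (ha : a ∈ Vs (Rel f) i) {P : κ → Rn (n + 1)}
    {H : κ → MvPolynomial (Fin (n + 1)) ℂ} (hrep : ∀ j, Rep F σ j (P j) (H j))
    (hH : ∀ j, eval (a ∘ Sum.inl) (H j) ≠ 0) {v : Derivation ℂ M M}
    (hv : ∀ j, lam (ev i) (P j) (H j) v = 0) (k : Fin (n + 1)) :
    v (ev i (X (Sum.inl k))) = 0 := by
  have haT : a ∈ Tg F i := (hV i ha).1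
  obtain ⟨b, hb⟩ := exists_rows (fun J k => eval a (rw' F P i J k)) (by
    intro w hw
    by_contra hw0
    have hT : Tan F (a ∘ Sum.inl) w := by
      intro j
      have h1 := hw (Sum.inl j)
      simp only [rw', Sum.elim_inl, eval_inl] at h1
      exact h1
    have hwi : w i = 0 := by
      have h1 := hw (Sum.inr (Sum.inl ()))
      simp only [rw', Sum.elim_inl, Sum.elim_inr] at h1
      have h2 : ∀ k, (eval a) (if k = i then (1 : Rn (n + 1)) else 0) * w k =
          if k = i then w k else 0 := by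
        intro k
        by_cases hk : k = i
        · rw [if_pos hk, if_pos hk, map_one, one_mul]
        · rw [if_neg hk, if_neg hk, map_zero, zero_mul]
      simpa only [h2, Finset.sum_ite_eq', Finset.mem_univ, if_true] using h1
    obtain ⟨j, hj⟩ := him (a ∘ Sum.inl) (Tg.cone haT) (a ∘ Sum.inr) w haT.2.2.2 hT
      (not_mult haT.1 haT.2.1 (h.ne i a ha)) (not_mult haT.1 hwi hw0)
    apply hj
    have h1 := ds_rep haT hT (hrep j) (hH j)
    unfold ds at h1
    rw [h1]
    have h2 := hw (Sum.inr (Sum.inr j))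
    simp only [rw', Sum.elim_inr] at h2
    rw [h2, zero_div])
  have hdet : ev i (Matrix.of fun s k => rw' F P i (b s) k : Matrix (Fin (n + 1)) (Fin (n + 1))
      (Rn (n + 1))).det ≠ 0 := by
    intro h1
    apply hb
    have h2 := ha _ ((hM.ker i hi _).1 h1)
    rw [RingHom.map_det] at h2
    exact h2
  rw [AlgHom.map_det] at hdet
  have hrow : ∀ J, ∑ k, ev i (rw' F P i J k) * v (ev i (X (Sum.inl k))) = 0 := by
    rintro (j | u | j)
    · simp only [rw', Sum.elim_inl]
      have h1 : ev i (rename Sum.inl (F j)) = 0 := by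
        rw [hM.ker i hi]
        intro z hz
        rw [eval_inl]
        exact (hV i (fun G hG => hG z hz)).1.2.2.1 j
      have h2 := chain (ev i) v (rename Sum.inl (F j))
      rw [h1, map_zero, Fintype.sum_sum_type] at h2
      simp only [pderiv_inl_inl, pderiv_inr_inl, map_zero, zero_mul, Finset.sum_const_zero,
        add_zero] at h2
      exact h2.symm
    · simp only [rw', Sum.elim_inl, Sum.elim_inr]
      have h1 : ev i (X (Sum.inl i)) = 1 := by
        have h2 : ev i (X (Sum.inl i) - 1) = 0 := by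
          rw [hM.ker i hi]
          intro z hz
          rw [map_sub, eval_X, map_one, h.inl i _ (fun G hG => hG z hz), sub_self]
        rw [map_sub, map_one] at h2
        exact sub_eq_zero.1 h2
      have h2 : ∀ k, (ev i) (if k = i then (1 : Rn (n + 1)) else 0) * v (ev i (X (Sum.inl k))) =
          if k = i then v (ev i (X (Sum.inl k))) else 0 := by
        intro k
        by_cases hk : k = i
        · rw [if_pos hk, if_pos hk, map_one, one_mul]
        · rw [if_neg hk, if_neg hk, map_zero, zero_mul]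
      simp only [h2, Finset.sum_ite_eq', Finset.mem_univ, if_true]
      rw [h1, Derivation.map_one_eq_zero]
    · simp only [rw', Sum.elim_inr]
      have h1 := hv j
      unfold lam at h1
      have h2 : ev i (rename Sum.inl (H j)) ≠ 0 := by
        intro h3
        apply hH j
        rw [← eval_inl]
        exact ha _ ((hM.ker i hi _).1 h3)
      exact (div_eq_zero_iff.1 h1).resolve_right h2
  have hker := Matrix.eq_zero_of_mulVec_eq_zero hdet (v := fun k => v (ev i (X (Sum.inl k))))
    (by
      funext s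
      exact hrow (b s))
  exact congrFun hker k

theorem IsFd.der_ext (hM : IsFd f D ev δ) {i : Fin (n + 1)} (hi : ∃ z, f z i i ≠ 0)
    {v : Derivation ℂ M M} (hv : ∀ l, v (ev i (X l)) = 0) : v = 0 := by
  have h1 : ∀ G, v (ev i G) = 0 := by
    intro G
    rw [chain]
    exact Finset.sum_eq_zero fun l _ => by rw [hv, mul_zero]
  refine Derivation.ext fun x => ?_
  obtain ⟨p, q, hq, hpq⟩ := hM.frac i hi x
  have h2 := congrArg v hpq
  rw [v.leibniz, h1, h1, smul_zero, zero_add, smul_eq_mul] at h2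
  exact (mul_eq_zero.1 h2).resolve_left hq

/-- **The frame.** -/
theorem exists_frame (h : Dat f D C) (hσ : ∀ j, SymForm F (m j) (σ j)) (him : Immersive F σ)
    (hV : ∀ i, Vs (Rel f) i ⊆ Ep F σ c i) :
    ∃ (M : Type) (_ : Field M) (_ : Algebra ℂ M) (ev : Fin (n + 1) → Rn (n + 1) →ₐ[ℂ] M)
      (δ : Derivation ℂ M M) (i : Fin (n + 1)), (∃ z, f z i i ≠ 0) ∧ IsFd f D ev δ ∧
      (∀ v : Derivation ℂ M M, (∀ k, v (ev i (X (Sum.inl k))) = 0) → v = 0) ∧
      ∀ (w : ℕ) (z : Fin w → M), IsTranscendenceBasis ℂ z → ∃ v : Fin w → Derivation ℂ M M,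
        (∀ s, ⁅δ, v s⁆ = 0) ∧
        (Matrix.of fun s t => v s (z t) : Matrix (Fin w) (Fin w) M).det ≠ 0 := by
  classical
  obtain ⟨i, a, ha, hlim⟩ := exists_limit_point h hσ hV
  have haT : a ∈ Tg F i := (hV i ha).1
  have hi : ∃ z, f z i i ≠ 0 := by
    by_contra hcon
    push Not at hcon
    have h1 : (1 : Rn (n + 1)) ∈ Rel f i := fun z hz => absurd (hcon z) hz
    have h2 := ha _ h1
    rw [map_one] at h2
    exact one_ne_zero h2
  choose P H hH hrep using fun j => sg_rep hσ j (Tg.cone haT)
  have hHa : ∀ j, eval a (HH (H j)) ≠ 0 := by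
    intro j
    unfold HH
    rw [map_pow, eval_inl]
    exact pow_ne_zero 2 (hH j)
  obtain ⟨M, hMf, hMa, ev, δ, hM⟩ := h.exists_field hi
  have hHM : ∀ j, ev i (rename Sum.inl (H j)) ≠ 0 := by
    intro j h3
    apply hH j
    rw [← eval_inl]
    exact ha _ ((hM.ker i hi _).1 h3)
  have hcomm : ∀ j v, lam (ev i) (P j) (H j) ⁅δ, v⁆ = δ (lam (ev i) (P j) (H j) v) := fun j v =>
    hM.lam_comm hi (hHM j) (fun E hE => h.invariant ha (hHa j)
      (fun E hE k => hlim j (P j) (H j) (hrep j) E hE k) hE 1) v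
  have hsep : ∀ v : Derivation ℂ M M, (∀ j, lam (ev i) (P j) (H j) v = 0) →
      ∀ k, v (ev i (X (Sum.inl k))) = 0 := fun v hv =>
    sep h hM him hV hi ha hrep hH hv
  have hzero : ∀ v : Derivation ℂ M M, (∀ j, lam (ev i) (P j) (H j) v = 0) → v = 0 := by
    intro v hv
    refine hM.der_ext hi fun l => ?_
    rcases l with k | k
    · exact hsep v hv k
    · have h1 := hsep ⁅δ, v⁆ (fun j => by rw [hcomm, hv, map_zero]) k
      rw [Derivation.commutator_apply, hsep v hv k, map_zero, zero_sub, neg_eq_zero,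
        hM.der i hi, h.Dinl] at h1
      exact h1
  refine ⟨M, hMf, hMa, ev, δ, i, hi, hM, fun v hv => hzero v fun j => ?_, fun w z hz => ?_⟩
  · unfold lam
    rw [Finset.sum_eq_zero fun k _ => by rw [hv k, mul_zero], zero_div]
  · have hch : CharZero M := charZero_of_injective_algebraMap (algebraMap ℂ M).injective
    obtain ⟨E, hE⟩ := Pool.Agent.Y191.exists_dual hz.1
    have hsum : ∀ (μ : Fin w → M) t, (∑ s, μ s • E s) (z t) = μ t := by
      intro μ t
      have h1 : ∀ S : Finset (Fin w), (∑ s ∈ S, μ s • E s) (z t) = ∑ s ∈ S, μ s * E s (z t) := by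
        intro S
        induction S using Finset.cons_induction with
        | empty => simp
        | cons a s ha ih =>
          rw [Finset.sum_cons, Finset.sum_cons, Derivation.add_apply, Derivation.smul_apply, ih,
            smul_eq_mul]
      rw [h1]
      simp [hE]
    have hexp : ∀ v : Derivation ℂ M M, v = ∑ t, v (z t) • E t := by
      intro v
      rw [← sub_eq_zero]
      refine Derivation.ext fun x => ?_
      have hx : IsAlgebraic (IntermediateField.adjoin ℂ (Set.range z)) x :=
        hz.isAlgebraic_field.isAlgebraic x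
      refine Pool.Agent.Y191.der_alg0 _ (S := Set.range z) ?_ hx
      rintro _ ⟨t, rfl⟩
      rw [Derivation.sub_apply, hsum, sub_self]
    obtain ⟨b, hb⟩ := exists_rows (fun j t => lam (ev i) (P j) (H j) (E t)) (by
      intro μ hμ
      have h1 : ∑ t, μ t • E t = 0 := hzero _ fun j => by
        rw [lam_sum, ← hμ j]
        exact Finset.sum_congr rfl fun t _ => mul_comm _ _
      funext t
      have h2 := hsum μ t
      rw [h1] at h2
      exact h2.symm)
    set Λ : Matrix (Fin w) (Fin w) M := Matrix.of fun s t => lam (ev i) (P (b s)) (H (b s)) (E t)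
      with hΛ
    have hunit : IsUnit Λ.det := isUnit_iff_ne_zero.2 hb
    have hlv : ∀ s s', lam (ev i) (P (b s')) (H (b s')) (∑ t, Λ⁻¹ t s • E t) =
        (1 : Matrix (Fin w) (Fin w) M) s' s := by
      intro s s'
      rw [← Matrix.mul_nonsing_inv Λ hunit, Matrix.mul_apply, lam_sum]
      exact Finset.sum_congr rfl fun t _ => mul_comm _ _
    refine ⟨fun s => ∑ t, Λ⁻¹ t s • E t, fun s => ?_, ?_⟩
    · have h1 := hexp ⁅δ, ∑ t, Λ⁻¹ t s • E t⁆
      set μ : Fin w → M := fun t => ⁅δ, ∑ t, Λ⁻¹ t s • E t⁆ (z t) with hμ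
      have h2 : Λ.mulVec μ = 0 := by
        funext s'
        have h3 := hcomm (b s') (∑ t, Λ⁻¹ t s • E t)
        rw [hlv] at h3
        have h4 : δ ((1 : Matrix (Fin w) (Fin w) M) s' s) = 0 := by
          rw [Matrix.one_apply]
          by_cases hs : s' = s
          · rw [if_pos hs, Derivation.map_one_eq_zero]
          · rw [if_neg hs, map_zero]
        rw [h4, h1] at h3
        have h5 := lam_sum (ev i) (P (b s')) (H (b s')) μ E
        have h6 : (∑ t, μ t * lam (ev i) (P (b s')) (H (b s')) (E t)) = 0 := by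
          rw [← h5]
          exact h3
        change ∑ t, lam (ev i) (P (b s')) (H (b s')) (E t) * μ t = 0
        rw [← h6]
        exact Finset.sum_congr rfl fun t _ => mul_comm _ _
      have h3 := Matrix.eq_zero_of_mulVec_eq_zero hb h2
      rw [h1]
      refine Finset.sum_eq_zero fun t _ => ?_
      have h4 : ⁅δ, ∑ t, Λ⁻¹ t s • E t⁆ (z t) = 0 := congrFun h3 t
      rw [h4, zero_smul]
    · have h1 : (Matrix.of fun s t => (∑ t, Λ⁻¹ t s • E t) (z t) : Matrix (Fin w) (Fin w) M) =
          (Λ⁻¹).transpose := by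
        ext s t
        rw [Matrix.of_apply, hsum, Matrix.transpose_apply]
      rw [h1, Matrix.det_transpose]
      have h2 : IsUnit (Λ⁻¹).det := (Matrix.isUnit_nonsing_inv_det_iff).2 hunit
      exact h2.ne_zero

end Run7.h418
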