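import Pool.Agent.Run7.h418.Liou

/-!
The polynomial vector fields of the curves with constant values of the symmetric differentials.
-/

set_option autoImplicit false

open MvPolynomial Metric Set Filter Topology

namespace Run7.h418

open Pool.Agent.Y190.OP Pool.Agent.W602.GT Pool.Agent.N155

section gen

theorem hasDerivAt_eval' {τ : Type} [Fintype τ] {γ : ℂ → τ → ℂ} {γ' : τ → ℂ} {z : ℂ}
    (h : ∀ l, HasDerivAt (fun w => γ w l) (γ' l) z) (G : MvPolynomial τ ℂ) :
    HasDerivAt (fun w => eval (γ w) G) (∑ l, eval (γ z) (pderiv l G) * γ' l) z := by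
  set E : Dr τ := mkDerivation ℂ fun k => C (γ' k) with hE
  have h3 := hasDerivAt_eval E (γ := γ) (z := z) (fun k => by
    rw [hE, mkDerivation_X, eval_C]
    exact h k) G
  refine h3.congr_deriv ?_
  rw [der_sum E G, map_sum]
  refine Finset.sum_congr rfl fun k _ => ?_
  rw [smul_eq_mul, map_mul, hE, mkDerivation_X, eval_C]

theorem exists_point {τ : Type} [Finite τ] {I : Ideal (MvPolynomial τ ℂ)} (h : I ≠ ⊤) :
    ∃ a : τ → ℂ, ∀ G ∈ I, eval a G = 0 := by
  obtain ⟨M, hM, hIM⟩ := Ideal.exists_le_maximal I h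
  obtain ⟨a, ha⟩ := isMaximal_iff_eq_vanishingIdeal_singleton.1 hM
  refine ⟨a, fun G hG => ?_⟩
  have h1 := hIM hG
  rw [ha, mem_vanishingIdeal_singleton_iff] at h1
  exact (congrFun (MvPolynomial.aeval_eq_eval a) G).symm.trans h1

/-- the polynomials which vanish on `Z` -/
def Iz {τ : Type} (Z : Set (τ → ℂ)) : Ideal (MvPolynomial τ ℂ) where
  carrier := {G | ∀ a ∈ Z, eval a G = 0}
  add_mem' := fun {G H} hG hH z hz => by rw [map_add, hG z hz, hH z hz, add_zero]
  zero_mem' := fun z _ => map_zero _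
  smul_mem' := fun c G hG z hz => by rw [smul_eq_mul, map_mul, hG z hz, mul_zero]

end gen

section vf

variable {n : ℕ} {ι κ : Type} {F : ι → MvPolynomial (Fin (n + 1)) ℂ}
  {σ : κ → (Fin (n + 1) → ℂ) → (Fin (n + 1) → ℂ) → ℂ} {m : κ → ℕ} {c : κ → ℂ}

theorem eval_inl (a : Fin (n + 1) ⊕ Fin (n + 1) → ℂ) (G : MvPolynomial (Fin (n + 1)) ℂ) :
    eval a (rename Sum.inl G) = eval (a ∘ Sum.inl) G := by
  rw [eval_rename]

theorem pderiv_inr_inl (k : Fin (n + 1)) (G : MvPolynomial (Fin (n + 1)) ℂ) :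
    pderiv (Sum.inr k) (rename (Sum.inl : Fin (n + 1) → Fin (n + 1) ⊕ Fin (n + 1)) G) = 0 := by
  induction G using MvPolynomial.induction_on with
  | C c => simp
  | add p q hp hq => rw [map_add, map_add, hp, hq, add_zero]
  | mul_X p l hp =>
    rw [map_mul, pderiv_mul, hp, rename_X, pderiv_X_of_ne (by simp), zero_mul, mul_zero, add_zero]

/-- the polynomial of the tangent space -/
noncomputable def tanP (F : ι → MvPolynomial (Fin (n + 1)) ℂ) (j : ι) : Rn (n + 1) :=
  ∑ k, rename Sum.inl (pderiv k (F j)) * X (Sum.inr k)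

theorem eval_tanP (j : ι) (a : Fin (n + 1) ⊕ Fin (n + 1) → ℂ) :
    eval a (tanP F j) = ∑ k, eval (a ∘ Sum.inl) (pderiv k (F j)) * (a ∘ Sum.inr) k := by
  unfold tanP
  rw [map_sum]
  refine Finset.sum_congr rfl fun k _ => ?_
  rw [map_mul, eval_inl, eval_X]
  rfl

theorem pderiv_tanP (j : ι) (k : Fin (n + 1)) :
    pderiv (Sum.inr k) (tanP F j) = rename Sum.inl (pderiv k (F j)) := by
  unfold tanP
  rw [map_sum, Finset.sum_eq_single k]
  · rw [pderiv_mul, pderiv_inr_inl, zero_mul, zero_add, pderiv_X_self, mul_one]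
  · intro l _ hl
    rw [pderiv_mul, pderiv_inr_inl, zero_mul, zero_add, pderiv_X_of_ne (by simpa using hl),
      mul_zero]
  · intro h
    exact absurd (Finset.mem_univ k) h

/-- `Ep` is closed in the Zariski topology -/
theorem mem_Ep_of (hσ : ∀ j, SymForm F (m j) (σ j)) {i : Fin (n + 1)}
    {a : Fin (n + 1) ⊕ Fin (n + 1) → ℂ} (ha : ∀ G ∈ Iz (Ep F σ c i), eval a G = 0) :
    a ∈ Ep F σ c i := by
  have h1 : a (Sum.inl i) = 1 := by
    have := ha (X (Sum.inl i) - 1) (fun b hb => by rw [map_sub, eval_X, map_one, hb.1.1, sub_self])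
    rwa [map_sub, eval_X, map_one, sub_eq_zero] at this
  have h2 : a (Sum.inr i) = 0 := by
    have := ha (X (Sum.inr i)) (fun b hb => by rw [eval_X, hb.1.2.1])
    rwa [eval_X] at this
  have h3 : ∀ j, eval (a ∘ Sum.inl) (F j) = 0 := by
    intro j
    have := ha (rename Sum.inl (F j)) (fun b hb => by rw [eval_inl, hb.1.2.2.1 j])
    rwa [eval_inl] at this
  have h4 : Tan F (a ∘ Sum.inl) (a ∘ Sum.inr) := by
    intro j
    have := ha (tanP F j) (fun b hb => by rw [eval_tanP]; exact hb.1.2.2.2 j)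
    rwa [eval_tanP] at this
  have h5 : a ∈ Tg F i := ⟨h1, h2, h3, h4⟩
  refine ⟨h5, fun j => ?_⟩
  obtain ⟨P, H, hH, hrep⟩ := sg_rep hσ j (Tg.cone h5)
  have h6 : ∀ b ∈ Tg F i, eval (b ∘ Sum.inl) H ≠ 0 →
      sg σ j b = eval b P / eval (b ∘ Sum.inl) H := by
    intro b hb hbH
    have := hrep _ (Tg.cone hb) hbH _ hb.2.2.2
    rwa [Sum.elim_comp_inl_inr] at this
  have h7 := ha (rename Sum.inl H * (P - C (c j) * rename Sum.inl H)) (fun b hb => by
    rw [map_mul, map_sub, map_mul, eval_C, eval_inl]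
    by_cases hbH : eval (b ∘ Sum.inl) H = 0
    · rw [hbH, zero_mul]
    · have h8 := h6 b hb.1 hbH
      rw [hb.2 j] at h8
      rw [h8, div_mul_cancel₀ _ hbH, sub_self, mul_zero])
  rw [map_mul, map_sub, map_mul, eval_C, eval_inl] at h7
  have h8 := (mul_eq_zero.1 h7).resolve_left hH
  rw [h6 a h5 hH, div_eq_iff hH]
  exact sub_eq_zero.1 h8

/-- the gradients of the polynomials which vanish on `Ep` are all vectors -/
theorem grad_surj (hσ : ∀ j, SymForm F (m j) (σ j)) (hm : ∀ j, 0 < m j)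
    (him : Immersive F σ) (hc : ∃ j, c j ≠ 0) {i : Fin (n + 1)}
    {a : Fin (n + 1) ⊕ Fin (n + 1) → ℂ} (ha : a ∈ Ep F σ c i) (v : Fin (n + 1) → ℂ) :
    ∃ G ∈ Iz (Ep F σ c i), ∀ k, eval a (pderiv (Sum.inr k) G) = v k := by
  set S : Submodule ℂ (Fin (n + 1) → ℂ) :=
    { carrier := {v | ∃ G ∈ Iz (Ep F σ c i), ∀ k, eval a (pderiv (Sum.inr k) G) = v k}
      add_mem' := by
        rintro v w ⟨G, hG, hGv⟩ ⟨H, hH, hHw⟩
        exact ⟨G + H, add_mem hG hH, fun k => by rw [map_add, map_add, hGv, hHw]; rfl⟩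
      zero_mem' := ⟨0, zero_mem _, fun k => by simp⟩
      smul_mem' := by
        rintro r v ⟨G, hG, hGv⟩
        refine ⟨C r * G, Ideal.mul_mem_left _ _ hG, fun k => ?_⟩
        rw [pderiv_C_mul, map_mul, eval_C, hGv]
        rfl } with hS
  suffices hST : S = ⊤ by
    have : v ∈ S := by rw [hST]; trivial
    exact this
  by_contra hne
  obtain ⟨f, hf0, hf⟩ := Submodule.exists_le_ker_of_lt_top S (lt_top_iff_ne_top.2 hne)
  set w : Fin (n + 1) → ℂ := fun k => f (Pi.single k 1) with hw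
  have hfv : ∀ v, f v = ∑ k, v k * w k := by
    intro v
    conv_lhs => rw [← Finset.univ_sum_single v]
    rw [map_sum]
    refine Finset.sum_congr rfl fun k _ => ?_
    have : Pi.single k (v k) = v k • (Pi.single k 1 : Fin (n + 1) → ℂ) := by
      rw [← Pi.single_smul, smul_eq_mul, mul_one]
    rw [this, map_smul, smul_eq_mul]
  have hw0 : w ≠ 0 := by
    intro h0
    apply hf0
    refine LinearMap.ext fun v => ?_
    rw [hfv, h0]
    simp
  have hGw : ∀ G ∈ Iz (Ep F σ c i), ∑ k, eval a (pderiv (Sum.inr k) G) * w k = 0 := by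
    intro G hG
    have h1 : (fun k => eval a (pderiv (Sum.inr k) G)) ∈ S := ⟨G, hG, fun k => rfl⟩
    have h2 := hf h1
    rw [LinearMap.mem_ker, hfv] at h2
    exact h2
  have hTw : Tan F (a ∘ Sum.inl) w := by
    intro j
    have h1 := hGw (tanP F j) (fun b hb => by rw [eval_tanP]; exact hb.1.2.2.2 j)
    simp only [pderiv_tanP, eval_inl] at h1
    exact h1
  have hwi : w i = 0 := by
    have h1 := hGw (X (Sum.inr i)) (fun b hb => by rw [eval_X, hb.1.2.1])
    rw [Finset.sum_eq_single i] at h1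
    · rwa [pderiv_X_self, map_one, one_mul] at h1
    · intro k _ hk
      rw [pderiv_X_of_ne (by simpa using hk.symm), map_zero, zero_mul]
    · intro h
      exact absurd (Finset.mem_univ i) h
  have hξ : a ∘ Sum.inr ≠ 0 := by
    intro h0
    obtain ⟨j, hj⟩ := hc
    apply hj
    rw [← ha.2 j]
    unfold sg
    rw [h0]
    have h1 := (hσ j).deg _ (Tg.cone ha.1) 0 (by intro j; simp) 0
    rw [smul_zero, zero_pow (hm j).ne', zero_mul] at h1
    exact h1
  obtain ⟨j, hj⟩ := him _ (Tg.cone ha.1) _ w ha.1.2.2.2 hTw (not_mult (i := i) ha.1.1 ha.1.2.1 hξ)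
    (not_mult (i := i) ha.1.1 hwi hw0)
  apply hj
  obtain ⟨P, H, hH, hrep⟩ := sg_rep hσ j (Tg.cone ha.1)
  have h1 : ∑ k, eval a (pderiv (Sum.inr k) P) * w k = 0 := by
    have h2 := hGw (rename Sum.inl H * (P - C (c j) * rename Sum.inl H)) (fun b hb => by
      rw [map_mul, map_sub, map_mul, eval_C, eval_inl]
      by_cases hbH : eval (b ∘ Sum.inl) H = 0
      · rw [hbH, zero_mul]
      · have h8 := hrep _ (Tg.cone hb.1) hbH _ hb.1.2.2.2
        rw [Sum.elim_comp_inl_inr] at h8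
        have h9 := hb.2 j
        unfold sg at h9
        rw [h9] at h8
        rw [h8, div_mul_cancel₀ _ hbH, sub_self, mul_zero])
    have h3 : ∀ k, eval a (pderiv (Sum.inr k) (rename Sum.inl H *
        (P - C (c j) * rename Sum.inl H))) = eval (a ∘ Sum.inl) H *
          eval a (pderiv (Sum.inr k) P) := by
      intro k
      rw [pderiv_mul, pderiv_inr_inl, zero_mul, zero_add, map_sub, pderiv_C_mul, pderiv_inr_inl,
        mul_zero, sub_zero, map_mul, eval_inl]
    simp only [h3, mul_assoc] at h2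
    rw [← Finset.mul_sum] at h2
    exact (mul_eq_zero.1 h2).resolve_left hH
  have h2 : (fun t : ℂ => σ j (a ∘ Sum.inl) (a ∘ Sum.inr + t • w)) = fun t =>
      eval (Sum.elim (a ∘ Sum.inl) (a ∘ Sum.inr + t • w)) P / eval (a ∘ Sum.inl) H := by
    funext t
    exact hrep _ (Tg.cone ha.1) hH _ (ha.1.2.2.2.add (hTw.smul t))
  rw [h2]
  have h3 := hasDerivAt_eval' (γ := fun t : ℂ => Sum.elim (a ∘ Sum.inl) (a ∘ Sum.inr + t • w))
    (γ' := Sum.elim 0 w) (z := 0) (fun l => by
      rcases l with k | k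
      · exact hasDerivAt_const _ _
      · have := ((hasDerivAt_id (0 : ℂ)).mul_const (w k)).const_add (a (Sum.inr k))
        simpa using this) P
  have h4 : ∑ l, eval (Sum.elim (a ∘ Sum.inl) (a ∘ Sum.inr + (0 : ℂ) • w)) (pderiv l P) *
      (Sum.elim 0 w : Fin (n + 1) ⊕ Fin (n + 1) → ℂ) l = 0 := by
    rw [zero_smul, add_zero, Sum.elim_comp_inl_inr, Fintype.sum_sum_type]
    simp only [Sum.elim_inl, Sum.elim_inr, Pi.zero_apply, mul_zero, Finset.sum_const_zero,
      zero_add]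
    exact h1
  rw [h4] at h3
  have h5 := h3.div_const (eval (a ∘ Sum.inl) H)
  rw [zero_div] at h5
  exact h5.deriv

/-- polynomials which vanish on `Ep`, and curves -/
theorem ode_lin {U : Set ℂ} (hU : IsOpen U) {φ : ℂ → Mat (n + 1)} (h : Sol (Ep F σ c) U φ)
    {z : ℂ} (hz : z ∈ U) {i : Fin (n + 1)} (hi : φ z i i ≠ 0) {G : Rn (n + 1)}
    (hG : G ∈ Iz (Ep F σ c i)) :
    ∑ k, eval (pr i φ z) (pderiv (Sum.inr k) G) * deriv (fun w => pr i φ w (Sum.inr k)) z =
      eval (pr i φ z) (-∑ k, pderiv (Sum.inl k) G * X (Sum.inr k)) := by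
  have h1 := hasDerivAt_eval' (γ := fun w => pr i φ w) (γ' := Sum.elim (fun k =>
    pr i φ z (Sum.inr k)) fun k => deriv (fun w => pr i φ w (Sum.inr k)) z) (z := z) (fun l => by
      rcases l with k | k
      · exact hasDerivAt_chart h.1 hz hi k
      · exact (analyticAt_pr hU h.1 hz hi (Sum.inr k)).differentiableAt.hasDerivAt) G
  have h2 : (fun w => eval (pr i φ w) G) =ᶠ[𝓝 z] fun _ => 0 := by
    filter_upwards [ev_holP hU hz h.1 hi] with w hw
    exact hG _ (h.2 w hw.1 i hw.2)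
  have h3 := h1.deriv
  rw [h2.deriv_eq, deriv_const, Fintype.sum_sum_type] at h3
  simp only [Sum.elim_inl, Sum.elim_inr] at h3
  rw [map_neg, map_sum]
  simp only [map_mul, eval_X]
  linear_combination -h3

/-- The second derivatives of the coordinates are polynomials in the coordinates and their
derivatives. -/
theorem exists_ode (hσ : ∀ j, SymForm F (m j) (σ j))
    (hm : ∀ j, 0 < m j) (him : Immersive F σ) (hc : ∃ j, c j ≠ 0) (i k : Fin (n + 1)) :
    ∃ p : Rn (n + 1), ∀ (U : Set ℂ) (φ : ℂ → Mat (n + 1)), IsOpen U → Sol (Ep F σ c) U φ →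
      ∀ z ∈ U, φ z i i ≠ 0 → deriv (fun w => pr i φ w (Sum.inr k)) z = eval (pr i φ z) p := by
  set 𝔠 : Ideal (Rn (n + 1)) :=
    { carrier := {H | ∃ Q : Rn (n + 1), ∀ (U : Set ℂ) (φ : ℂ → Mat (n + 1)), IsOpen U →
        Sol (Ep F σ c) U φ → ∀ z ∈ U, φ z i i ≠ 0 →
          eval (pr i φ z) H * deriv (fun w => pr i φ w (Sum.inr k)) z = eval (pr i φ z) Q}
      add_mem' := by
        rintro G H ⟨Q, hQ⟩ ⟨Q', hQ'⟩
        refine ⟨Q + Q', fun U φ hU hφ z hz hi => ?_⟩
        rw [map_add, map_add, add_mul, hQ U φ hU hφ z hz hi, hQ' U φ hU hφ z hz hi]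
      zero_mem' := ⟨0, fun U φ hU hφ z hz hi => by simp⟩
      smul_mem' := by
        rintro r G ⟨Q, hQ⟩
        refine ⟨r * Q, fun U φ hU hφ z hz hi => ?_⟩
        rw [smul_eq_mul, map_mul, map_mul, mul_assoc, hQ U φ hU hφ z hz hi] } with h𝔠
  suffices hT : 𝔠 = ⊤ by
    have h1 : (1 : Rn (n + 1)) ∈ 𝔠 := by rw [hT]; trivial
    obtain ⟨Q, hQ⟩ := h1
    refine ⟨Q, fun U φ hU hφ z hz hi => ?_⟩
    have := hQ U φ hU hφ z hz hi
    rwa [map_one, one_mul] at this
  by_contra hne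
  obtain ⟨a, ha⟩ := exists_point hne
  have haE : a ∈ Ep F σ c i := by
    refine mem_Ep_of hσ fun G hG => ha G ⟨0, fun U φ hU hφ z hz hi => ?_⟩
    rw [hG _ (hφ.2 z hz i hi), zero_mul, map_zero]
  choose G hG hGa using fun b : Fin (n + 1) => grad_surj hσ hm him hc haE (Pi.single b 1)
  set A : Matrix (Fin (n + 1)) (Fin (n + 1)) (Rn (n + 1)) :=
    fun b l => pderiv (Sum.inr l) (G b) with hA
  set v : Fin (n + 1) → Rn (n + 1) := fun b => -∑ l, pderiv (Sum.inl l) (G b) * X (Sum.inr l)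
    with hv
  have hdet : A.det ∈ 𝔠 := by
    refine ⟨∑ b, A.adjugate k b * v b, fun U φ hU hφ z hz hi => ?_⟩
    set y : Fin (n + 1) → ℂ := fun l => deriv (fun w => pr i φ w (Sum.inr l)) z with hy
    set e := (eval (pr i φ z)) with he
    have h1 : (e.mapMatrix A).mulVec y = fun b => e (v b) := by
      funext b
      exact ode_lin hU hφ hz hi (hG b)
    have h2 : (e.mapMatrix A.adjugate).mulVec ((e.mapMatrix A).mulVec y) = e A.det • y := by
      rw [Matrix.mulVec_mulVec, RingHom.map_adjugate, Matrix.adjugate_mul, ← RingHom.map_det,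
        Matrix.smul_mulVec, Matrix.one_mulVec]
    rw [h1] at h2
    have h3 := congrFun h2 k
    rw [Pi.smul_apply, smul_eq_mul] at h3
    rw [← h3, map_sum]
    simp only [map_mul]
    rfl
  have h1 := ha _ hdet
  rw [RingHom.map_det] at h1
  have h2 : (eval a).mapMatrix A = 1 := by
    ext b l
    rw [RingHom.mapMatrix_apply, Matrix.map_apply, hA]
    change eval a (pderiv (Sum.inr l) (G b)) = _
    rw [hGa, Matrix.one_apply, Pi.single_apply]
    simp only [eq_comm]
  rw [h2, Matrix.det_one] at h1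
  exact one_ne_zero h1

/-- The vector fields of the curves with constant values of the symmetric differentials. -/
theorem exists_vf (hσ : ∀ j, SymForm F (m j) (σ j))
    (hm : ∀ j, 0 < m j) (him : Immersive F σ) (hc : ∃ j, c j ≠ 0) (i : Fin (n + 1)) :
    ∃ D : Dr (Fin (n + 1) ⊕ Fin (n + 1)), (∀ k, D (X (Sum.inl k)) = X (Sum.inr k)) ∧
      ∀ (U : Set ℂ) (φ : ℂ → Mat (n + 1)), IsOpen U → Sol (Ep F σ c) U φ →
        ∀ z ∈ U, φ z i i ≠ 0 → SolAt D (pr i φ) z := by
  choose p hp using exists_ode hσ hm him hc i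
  refine ⟨mkDerivation ℂ (Sum.elim (fun k => X (Sum.inr k)) p), fun k => by
    rw [mkDerivation_X]; rfl, fun U φ hU hφ z hz hi => ?_⟩
  filter_upwards [ev_holP hU hz hφ.1 hi] with w hw l
  rw [mkDerivation_X]
  rcases l with k | k
  · rw [Sum.elim_inl, eval_X]
    exact hasDerivAt_chart hφ.1 hw.1 hw.2 k
  · rw [Sum.elim_inr, ← hp k U φ hU hφ w hw.1 hw.2]
    exact (analyticAt_pr hU hφ.1 hw.1 hw.2 (Sum.inr k)).differentiableAt.hasDerivAt

end vf

end Run7.h418
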