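import Pool.Agent.Run7.h418.Wsp

/-!
Existence of a curve with a maximal set of relations.
-/

set_option autoImplicit false

open MvPolynomial Metric Set Filter Topology

namespace Run7.h418

open Pool.Agent.Y190.OP Pool.Agent.W602.GT Pool.Agent.N155

variable {n : ℕ} {ι κ : Type} {F : ι → MvPolynomial (Fin (n + 1)) ℂ}
  {σ : κ → (Fin (n + 1) → ℂ) → (Fin (n + 1) → ℂ) → ℂ} {m : κ → ℕ} {c : κ → ℂ}

theorem Sol.sub {N : ℕ} {Z Z' : Fin N → Set (Fin N ⊕ Fin N → ℂ)} {U : Set ℂ} {φ : ℂ → Mat N}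
    (h : Sol Z U φ) (hZ : ∀ i, Z i ⊆ Z' i) : Sol Z' U φ :=
  ⟨h.1, fun z hz i hi => hZ i (h.2 z hz i hi)⟩

theorem Vs_sub (hσ : ∀ j, SymForm F (m j) (σ j)) {f : ℂ → Mat (n + 1)}
    (hf : Sol (Ep F σ c) univ f) (i : Fin (n + 1)) : Vs (Rel f) i ⊆ Ep F σ c i := fun _ ha =>
  mem_Ep_of hσ fun G hG => ha G fun z hi => hG _ (hf.2 z (mem_univ z) i hi)

/-- existence of a curve with a maximal set of relations -/
theorem exists_dat [Finite κ] (hσ : ∀ j, SymForm F (m j) (σ j)) (hm : ∀ j, 0 < m j)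
    (him : Immersive F σ) (hc : ∃ j, c j ≠ 0) {φ0 : ℂ → Mat (n + 1)}
    (hφ0 : Sol (Ep F σ c) univ φ0) :
    ∃ (f : ℂ → Mat (n + 1)) (D : Fin (n + 1) → Dr (Fin (n + 1) ⊕ Fin (n + 1))) (C : ℝ),
      Dat f D C ∧ ∀ i, Vs (Rel f) i ⊆ Ep F σ c i := by
  set S : Set (Fin (n + 1) → (Ideal (Rn (n + 1)))ᵒᵈ) :=
    {T | ∃ φ, Sol (Ep F σ c) univ φ ∧ T = fun i => OrderDual.toDual (Rel φ i)} with hS
  have hwf : WellFoundedLT (Fin (n + 1) → (Ideal (Rn (n + 1)))ᵒᵈ) := inferInstance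
  obtain ⟨T, ⟨f, hf, rfl⟩, hmin⟩ := hwf.wf.has_min S ⟨_, φ0, hφ0, rfl⟩
  have hV := Vs_sub hσ hf
  choose D hD1 hD2 using exists_vf hσ hm him hc
  obtain ⟨R, hR⟩ := Finite.exists_le fun j => ‖c j‖
  choose C hC using fun i => exists_bound_v hm hσ him i R
  obtain ⟨C', hC'⟩ := Finite.exists_le C
  refine ⟨f, D, C', ⟨hf.1, hD1, fun U φ hU hφ z hz i hi => hD2 i U φ hU (hφ.sub hV) z hz hi,
    fun i a ha => (hV i ha).1.1, fun i a ha => (hV i ha).1.2.1, fun i a ha h0 => ?_,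
    fun i a ha haK => ?_, fun φ hφ i => ?_⟩, hV⟩
  · obtain ⟨j, hj⟩ := hc
    apply hj
    have h1 := hV i ha
    rw [← h1.2 j]
    unfold sg
    rw [h0]
    have h2 := (hσ j).deg _ (Tg.cone h1.1) 0 (by intro j; simp) 0
    rw [smul_zero, zero_pow (hm j).ne', zero_mul] at h2
    exact h2
  · have h1 := hV i ha
    refine (hC i a h1.1 haK fun j => ?_).trans (hC' i)
    rw [h1.2 j]
    exact hR j
  · have h1 : ∀ i, Rel f i ≤ Rel φ i := fun i G hG z hz => hφ.2 z (mem_univ z) i hz G hG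
    have h2 := hmin _ ⟨φ, hφ.sub hV, rfl⟩
    by_contra hne
    apply h2
    rw [Pi.lt_def]
    refine ⟨fun k => h1 k, i, ?_⟩
    exact lt_of_le_of_ne (h1 i) fun he => hne (OrderDual.toDual.injective he)

end Run7.h418
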