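import Pool.Agent.Run7.h418.Fam
import Pool.Agent.Run7.h418.Mx

/-!
Infinitesimal deformations of a curve, and Lie derivatives of differential forms.
-/

set_option autoImplicit false

open Metric Set Filter Topology MvPolynomial

namespace Run7.h418

open Pool.Agent.Y190.OP

variable {N : ℕ}

section slices

theorem good_slice {y : ℂ → ℂ → Mat N} {z s : ℂ} {i : Fin N} (h : Good y z s i) :
    ∀ᶠ t in 𝓝 s, y t z i i ≠ 0 ∧ DifferentiableAt ℂ (fun t => pr i (y t) z) t := by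
  filter_upwards [eventually_slice2 h] with t ht
  refine ⟨ht.1, ?_⟩
  have h4 : DifferentiableAt ℂ (fun t : ℂ => (z, t)) t := by fun_prop
  exact DifferentiableAt.comp (g := fun p : ℂ × ℂ => pr i (y p.2) p.1)
    (f := fun t : ℂ => (z, t)) t ht.2 h4

theorem fam_holP {y : ℂ → ℂ → Mat N} {ρ : ℝ} (hy : ∀ s ∈ ball (0 : ℂ) ρ, HolP univ (y s))
    (hg : ∀ s ∈ ball (0 : ℂ) ρ, ∀ z k, y s z k k ≠ 0 → Good y z s k) (z : ℂ) :
    HolP (ball 0 ρ) (fun s => y s z) := by
  intro s hs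
  obtain ⟨i, hi⟩ := PM.exists_diag ((hy s hs).mem_PM (mem_univ z))
  have h1 : ∀ᶠ t in 𝓝 s, t ∈ ball (0 : ℂ) ρ ∧ y t z i i ≠ 0 ∧
      DifferentiableAt ℂ (fun t => pr i (y t) z) t :=
    Filter.Eventually.and (isOpen_ball.mem_nhds hs) (good_slice (hg s hs z i hi))
  obtain ⟨V, hV, hVo, hsV⟩ := _root_.mem_nhds_iff.1 h1
  refine ⟨V, fun t => chart i (y t z), hVo, hsV, fun t ht => ?_, fun t ht => ?_⟩
  · obtain ⟨-, -, h2⟩ := hV ht
    refine DifferentiableAt.differentiableWithinAt ?_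
    exact differentiableAt_pi.2 fun k => differentiableAt_pi.1 h2 (Sum.inl k)
  · obtain ⟨h2, h3, -⟩ := hV ht
    exact ⟨PM.chart_ne h3, (PM.Phi_chart ((hy t h2).mem_PM (mem_univ z)) h3).symm⟩

theorem fam_cont {y : ℂ → ℂ → Mat N} {ρ : ℝ} (hy : ∀ s ∈ ball (0 : ℂ) ρ, HolP univ (y s))
    (hg : ∀ s ∈ ball (0 : ℂ) ρ, ∀ z k, y s z k k ≠ 0 → Good y z s k) :
    ContinuousOn (fun p : ℂ × ℂ => y p.2 p.1) (univ ×ˢ ball 0 ρ) := by
  rintro ⟨z, s⟩ ⟨-, hs⟩
  have hs' : s ∈ ball (0 : ℂ) ρ := hs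
  refine ContinuousAt.continuousWithinAt ?_
  obtain ⟨i, hi⟩ := PM.exists_diag ((hy s hs').mem_PM (mem_univ z))
  have h1 := hg s hs' z i hi
  have h2 : ∀ᶠ p : ℂ × ℂ in 𝓝 (z, s), p.2 ∈ ball (0 : ℂ) ρ :=
    (continuous_snd.tendsto (z, s)).eventually (isOpen_ball.mem_nhds hs')
  have h3 : (fun p : ℂ × ℂ => y p.2 p.1) =ᶠ[𝓝 (z, s)] fun p => Phi (pr i (y p.2) p.1 ∘ Sum.inl) := by
    filter_upwards [h1, h2] with p hp hp2
    exact (PM.Phi_chart ((hy p.2 hp2).mem_PM (mem_univ p.1)) hp.1).symm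
  have h4 : ContinuousAt (fun p : ℂ × ℂ => pr i (y p.2) p.1 ∘ Sum.inl) (z, s) := by
    rw [continuousAt_pi]
    intro k
    exact (differentiableAt_pi.1 h1.self_of_nhds.2 (Sum.inl k)).continuousAt
  refine ContinuousAt.congr ?_ h3.symm
  have h5 : ContinuousAt (Phi : (Fin N → ℂ) → Mat N) (pr i (y s) z ∘ Sum.inl) :=
    continuousAt_Phi (PM.chart_ne hi)
  exact ContinuousAt.comp (g := (Phi : (Fin N → ℂ) → Mat N))
    (f := fun p : ℂ × ℂ => pr i (y p.2) p.1 ∘ Sum.inl) (x := (z, s)) h5 h4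

end slices

section lie

variable {τ : Type} [Fintype τ]

/-- the pairing of a differential form and a vector field -/
noncomputable def pairE (θ : τ → MvPolynomial τ ℂ) (E : Dr τ) : MvPolynomial τ ℂ :=
  ∑ l, θ l * E (X l)

/-- the Lie derivative of a differential form -/
noncomputable def Lie (D : Dr τ) (θ : τ → MvPolynomial τ ℂ) : τ → MvPolynomial τ ℂ :=
  fun l => D (θ l) + ∑ m, θ m * pderiv l (D (X m))

theorem Lie_pair (D E : Dr τ) (θ : τ → MvPolynomial τ ℂ) :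
    pairE (Lie D θ) E = D (pairE θ E) - pairE θ ⁅D, E⁆ := by
  unfold pairE Lie
  have h1 : ∑ l, (∑ m, θ m * pderiv l (D (X m))) * E (X l) = ∑ m, θ m * E (D (X m)) := by
    simp only [Finset.sum_mul]
    rw [Finset.sum_comm]
    refine Finset.sum_congr rfl fun m _ => ?_
    rw [der_sum E (D (X m)), Finset.mul_sum]
    exact Finset.sum_congr rfl fun l _ => by rw [smul_eq_mul]; ring
  simp only [add_mul, Finset.sum_add_distrib]
  rw [h1, map_sum, ← sub_eq_zero, ← Finset.sum_sub_distrib, ← Finset.sum_add_distrib,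
    ← Finset.sum_sub_distrib]
  refine Finset.sum_eq_zero fun m _ => ?_
  rw [D.leibniz, Derivation.commutator_apply, smul_eq_mul, smul_eq_mul]
  ring

end lie

section inf

variable {f : ℂ → Mat N} {D : Fin N → Dr (Fin N ⊕ Fin N)} {C : ℝ}

/-- the derivative of a function in the direction of the family -/
noncomputable def Jd (y : ℂ → ℂ → Mat N) (i : Fin N) (z : ℂ) (G : Rn N) : ℂ :=
  deriv (fun s => eval (pr i (y s) z) G) 0

/-- the value of a form on the infinitesimal deformation -/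
noncomputable def hat (y : ℂ → ℂ → Mat N) (i : Fin N) (θ : Fin N ⊕ Fin N → Rn N) (z : ℂ) : ℂ :=
  ∑ l, eval (pr i (y 0) z) (θ l) * Jd y i z (X l)

theorem Jd_sum {y : ℂ → ℂ → Mat N} {i : Fin N} {z : ℂ} (hg : Good y z 0 i) (G : Rn N) :
    Jd y i z G = ∑ l, eval (pr i (y 0) z) (pderiv l G) * Jd y i z (X l) := by
  have hd := (good_slice hg).self_of_nhds.2
  have h1 := hasDerivAt_eval' (γ := fun s => pr i (y s) z) (z := 0)
    (γ' := fun l => Jd y i z (X l)) (fun l => by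
      unfold Jd
      simp only [eval_X]
      exact (differentiableAt_pi.1 hd l).hasDerivAt) G
  exact h1.deriv

theorem diff_eval {E τ : Type} [NormedAddCommGroup E] [NormedSpace ℂ E] [Fintype τ]
    {g : E → τ → ℂ} {p : E} (hg : DifferentiableAt ℂ g p) (G : MvPolynomial τ ℂ) :
    DifferentiableAt ℂ (fun q => eval (g q) G) p := by
  induction G using MvPolynomial.induction_on with
  | C c => simp
  | add p q hp hq => simp only [map_add]; exact hp.add hq
  | mul_X p l hp => simp only [map_mul, eval_X]; exact hp.mul (differentiableAt_pi.1 hg l)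

theorem Jd_deriv (h : Dat f D C) {y : ℂ → ℂ → Mat N}
    (hy : ∀ᶠ s in 𝓝 (0 : ℂ), Sol (Vs (Rel f)) univ (y s)) {i : Fin N} {z : ℂ}
    (hg : Good y z 0 i) (G : Rn N) :
    HasDerivAt (fun w => Jd y i w G) (Jd y i z (D i G)) z := by
  have h1 : ∀ᶠ p : ℂ × ℂ in 𝓝 (z, 0), DifferentiableAt ℂ
      (fun p : ℂ × ℂ => eval (pr i (y p.2) p.1) G) p := by
    filter_upwards [hg] with p hp
    exact diff_eval hp.2 G
  have h2 := mixed h1
  have h3 : (fun t => deriv (fun w => eval (pr i (y t) w) G) z) =ᶠ[𝓝 0]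
      fun t => eval (pr i (y t) z) (D i G) := by
    filter_upwards [hy, good_slice hg] with t ht ht2
    have h4 := h.ode univ (y t) isOpen_univ ht z (mem_univ z) i ht2.1
    exact (hasDerivAt_eval (D i) h4.self_of_nhds G).deriv
  have h5 : deriv (fun t => deriv (fun w => (fun p : ℂ × ℂ => eval (pr i (y p.2) p.1) G) (w, t)) z) 0
      = Jd y i z (D i G) := by
    unfold Jd
    exact h3.deriv_eq
  rw [h5] at h2
  exact h2

theorem hat_deriv (h : Dat f D C) {y : ℂ → ℂ → Mat N}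
    (hy : ∀ᶠ s in 𝓝 (0 : ℂ), Sol (Vs (Rel f)) univ (y s)) {i : Fin N} {z : ℂ}
    (hg : Good y z 0 i) (θ : Fin N ⊕ Fin N → Rn N) :
    HasDerivAt (hat y i θ) (hat y i (Lie (D i) θ) z) z := by
  have hz := h.ode univ (y 0) isOpen_univ hy.self_of_nhds z (mem_univ z) i hg.self_of_nhds.1
  have h1 : HasDerivAt (hat y i θ) (∑ l, (eval (pr i (y 0) z) (D i (θ l)) * Jd y i z (X l) +
      eval (pr i (y 0) z) (θ l) * Jd y i z (D i (X l)))) z := by
    unfold hat
    refine HasDerivAt.fun_sum fun l _ => ?_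
    exact (hasDerivAt_eval (D i) hz.self_of_nhds (θ l)).mul (Jd_deriv h hy hg (X l))
  refine h1.congr_deriv ?_
  unfold hat Lie
  simp only [map_add, map_sum, map_mul, add_mul, Finset.sum_add_distrib]
  congr 1
  simp only [Finset.sum_mul]
  rw [Finset.sum_comm]
  refine Finset.sum_congr rfl fun m _ => ?_
  rw [Jd_sum hg (D i (X m)), Finset.mul_sum]
  exact Finset.sum_congr rfl fun l _ => by ring

theorem hat_iter (h : Dat f D C) {y : ℂ → ℂ → Mat N}
    (hy : ∀ᶠ s in 𝓝 (0 : ℂ), Sol (Vs (Rel f)) univ (y s)) {i : Fin N} {z : ℂ}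
    (hg : Good y z 0 i) (m : ℕ) : ∀ θ : Fin N ⊕ Fin N → Rn N,
    iteratedDeriv m (hat y i θ) z = hat y i ((Lie (D i))^[m] θ) z := by
  have hgev : ∀ᶠ w in 𝓝 z, Good y w 0 i := eventually_slice1 hg.eventually_nhds
  induction m with
  | zero => intro θ; simp
  | succ m ih =>
    intro θ
    rw [iteratedDeriv_succ', Function.iterate_succ_apply, ← ih (Lie (D i) θ)]
    apply Filter.EventuallyEq.iteratedDeriv_eq
    filter_upwards [hgev] with w hw
    exact (hat_deriv h hy hw θ).deriv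

/-- the value at the starting point -/
theorem hat_zero {y : ℂ → ℂ → Mat N} {i : Fin N} {E : Dr (Fin N ⊕ Fin N)} {B ρ : ℝ}
    {a : Fin N ⊕ Fin N → ℂ} (hR : Rad E B ρ) (haB : ‖a‖ < B)
    (hy : ∀ s ∈ ball (0 : ℂ) ρ, pr i (y s) 0 = fl E a s) (θ : Fin N ⊕ Fin N → Rn N) :
    hat y i θ 0 = eval a (pairE θ E) := by
  have h0 : (0 : ℂ) ∈ ball (0 : ℂ) ρ := mem_ball_self hR.pos
  unfold hat pairE
  rw [map_sum, hy 0 h0, fl_zero]
  refine Finset.sum_congr rfl fun l _ => ?_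
  rw [map_mul]
  congr 1
  unfold Jd
  have h1 : (fun s => eval (pr i (y s) 0) (X l)) =ᶠ[𝓝 0] fun s => fl E a s l := by
    filter_upwards [isOpen_ball.mem_nhds h0] with s hs
    rw [hy s hs, eval_X]
  rw [h1.deriv_eq, (hR.hasDerivAt_fl haB.le (by simpa using hR.pos) l).deriv, fl_zero]

end inf

end Run7.h418
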