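import Pool.Agent.Run7.h418.Ds
import Pool.Agent.Run7.h418.Avg3

/-!
The limit of the curves with maximal growth.
-/

set_option autoImplicit false

open Metric Set Filter Topology MvPolynomial

namespace Run7.h418

open Pool.Agent.Y190.OP Pool.Agent.W602.GT Pool.Agent.N155

theorem norm_circleAverage_le {g : ℂ → ℂ} {r : ℝ} :
    ‖Real.circleAverage g 0 r‖ ≤ av r (fun z => ‖g z‖) := by
  unfold av Real.circleAverage
  rw [norm_smul, smul_eq_mul, Real.norm_of_nonneg (by positivity)]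
  gcongr
  exact intervalIntegral.norm_integral_le_integral_norm (by positivity)

/-- functions with bounded mean square -/
theorem cauchy_diff {g : ℂ → ℂ} (hg : Differentiable ℂ g) {r B : ℝ} (hr : 2 ≤ r)
    (hB : av r (fun z => ‖g z‖ ^ 2) ≤ B) {z : ℂ} (hz : ‖z‖ ≤ 1) : ‖g z - g 0‖ ≤ (1 + B) / r := by
  have hr0 : 0 < r := by linarith
  have hr' : |r| = r := abs_of_pos hr0
  have hdc : DiffContOnCl ℂ g (ball 0 |r|) := hg.diffContOnCl
  have h1 := hdc.circleAverage_smul_div (w := z)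
    (by rw [hr', mem_ball_zero_iff]; linarith)
  have h2 := hdc.circleAverage
  have hne : ∀ w ∈ sphere (0 : ℂ) r, w - z ≠ 0 := by
    intro w hw h0
    rw [mem_sphere_zero_iff_norm] at hw
    rw [sub_eq_zero] at h0
    rw [h0] at hw
    linarith
  have hc1 : ContinuousOn (fun w => ((w - 0) / (w - z)) • g w) (sphere 0 r) := by
    have hc0 : ContinuousOn (fun w : ℂ => (w - 0) / (w - z)) (sphere 0 r) :=
      ContinuousOn.div (by fun_prop) (by fun_prop) hne
    exact hc0.smul hg.continuous.continuousOn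
  have h3 : g z - g 0 = Real.circleAverage (fun w => ((w - 0) / (w - z)) • g w - g w) 0 r := by
    rw [Real.circleAverage_fun_sub (hc1.circleIntegrable hr0.le)
      (hg.continuous.continuousOn.circleIntegrable hr0.le), h1, h2]
  rw [h3]
  refine norm_circleAverage_le.trans ?_
  have h4 : ∀ w ∈ sphere (0 : ℂ) r, ‖((w - 0) / (w - z)) • g w - g w‖ ≤
      1 / r * (1 + ‖g w‖ ^ 2) := by
    intro w hw
    have hw0 := hne w hw
    rw [mem_sphere_zero_iff_norm] at hw
    have h5 : ((w - 0) / (w - z)) • g w - g w = z / (w - z) * g w := by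
      rw [smul_eq_mul]
      field_simp
      ring
    rw [h5, norm_mul, norm_div]
    have h6 : r / 2 ≤ ‖w - z‖ := by
      have := norm_sub_norm_le w z
      rw [hw] at this
      linarith
    have h7 : ‖z‖ / ‖w - z‖ ≤ 2 / r := by
      rw [div_le_div_iff₀ (by linarith) hr0]
      nlinarith [norm_nonneg z]
    have h8 : ‖g w‖ ≤ (1 + ‖g w‖ ^ 2) / 2 := by nlinarith [_root_.sq_nonneg (‖g w‖ - 1)]
    calc ‖z‖ / ‖w - z‖ * ‖g w‖ ≤ 2 / r * ((1 + ‖g w‖ ^ 2) / 2) := by gcongr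
      _ = 1 / r * (1 + ‖g w‖ ^ 2) := by ring
  have hcg : ContinuousOn (fun w => ‖g w‖ ^ 2) (sphere (0 : ℂ) r) :=
    (hg.continuous.norm.pow 2).continuousOn
  have h5 : av r (fun w => ‖((w - 0) / (w - z)) • g w - g w‖) ≤
      av r (fun w => 1 / r * (1 + ‖g w‖ ^ 2)) :=
    av_mono hr0.le ((hc1.sub hg.continuous.continuousOn).norm)
      (continuousOn_const.mul (continuousOn_const.add hcg)) h4
  refine h5.trans ?_
  rw [av_mul, av_add (f := fun _ => (1 : ℝ)) hr0.le continuousOn_const hcg, av_const]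
  calc 1 / r * (1 + av r fun w => ‖g w‖ ^ 2) ≤ 1 / r * (1 + B) := by gcongr
    _ = (1 + B) / r := by ring

variable {n : ℕ} {ι κ : Type} {F : ι → MvPolynomial (Fin (n + 1)) ℂ}
  {σ : κ → (Fin (n + 1) → ℂ) → (Fin (n + 1) → ℂ) → ℂ} {m : κ → ℕ} {c : κ → ℂ}

section dat

variable {N : ℕ} {f : ℂ → Mat N} {D : Fin N → Dr (Fin N ⊕ Fin N)} {C : ℝ}

/-- the curves are given by the flow -/
theorem Dat.pr_fl (h : Dat f D C) {i : Fin N} {φ : ℂ → Mat N} (hφ : Sol (Vs (Rel f)) univ φ)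
    (hi : φ 0 i i ≠ 0) {B ρ : ℝ} (hR : Rad (D i) B ρ) (hB : ‖pr i φ 0‖ ≤ B) :
    ∀ w ∈ ball (0 : ℂ) ρ, φ w i i ≠ 0 ∧ pr i φ w = fl (D i) (pr i φ 0) w := by
  have h6 := hφ.2 0 (mem_univ 0) i hi
  obtain ⟨h7, h8⟩ := h.chart_sol (U := ball 0 ρ) isOpen_ball (i := i)
    (γ := fun z => fl (D i) (pr i φ 0) z) (fun z hz =>
      fl_mem (fun G hG => h.stab hG) hR h6 hB (mem_ball_zero_iff.1 hz).le) (fun z hz l =>
      hR.hasDerivAt_fl hB (mem_ball_zero_iff.1 hz) l)
  have h0 : (0 : ℂ) ∈ ball (0 : ℂ) ρ := mem_ball_self hR.pos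
  obtain ⟨h9, h10⟩ := h8 0 h0
  have h11 := h.unique isOpen_univ isOpen_ball hφ h7 (mem_univ 0) h0 hi h9
    (by rw [h10, fl_zero])
  have h12 := h.eqOn isOpen_univ isOpen_ball convex_univ (convex_ball _ _) hφ h7 (mem_univ 0)
    h0 h11
  intro w hw
  have h13 : φ =ᶠ[𝓝 w] fun z => Phi (fl (D i) (pr i φ 0) z ∘ Sum.inl) := by
    filter_upwards [isOpen_ball.mem_nhds hw] with x hx
    exact h12 ⟨mem_univ x, hx⟩
  obtain ⟨h14, h15⟩ := h8 w hw
  refine ⟨?_, ?_⟩
  · rw [h13.eq_of_nhds]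
    exact h14
  · rw [pr_congr h13, h15]

end dat

/-- the obstruction to the invariance of the form -/
noncomputable def Tm {τ : Type} [Fintype τ] (D : Dr τ) (H : MvPolynomial τ ℂ)
    (θ : τ → MvPolynomial τ ℂ) (E : Dr τ) (k : ℕ) : MvPolynomial τ ℂ :=
  H * pairE ((Lie D)^[k] θ) E - D^[k] H * pairE θ E

section lim

variable {f : ℂ → Mat (n + 1)} {D : Fin (n + 1) → Dr (Fin (n + 1) ⊕ Fin (n + 1))} {C : ℝ}

/-- the estimate for a curve with maximal growth -/
theorem Tm_bound (h : Dat f D C) (hσ : ∀ j, SymForm F (m j) (σ j))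
    (hV : ∀ i, Vs (Rel f) i ⊆ Ep F σ c i) {i : Fin (n + 1)}
    {E : Dr (Fin (n + 1) ⊕ Fin (n + 1))} (hE : ∀ G ∈ Rel f i, E G ∈ Rel f i) {j : κ}
    {P : Rn (n + 1)} {H : MvPolynomial (Fin (n + 1)) ℂ} (hrep : Rep F σ j P H) (k : ℕ) (B : ℝ) :
    ∃ M : ℝ, ∀ (r : ℝ) (φ : ℂ → Mat (n + 1)), 2 ≤ r → Sol (Vs (Rel f)) univ φ →
      φ 0 i i ≠ 0 → ‖pr i φ 0‖ < B →
      (∀ ψ, Sol (Vs (Rel f)) univ ψ → Tr r ψ ≤ Tr r φ) →
      ‖eval (pr i φ 0) (Tm (D i) (HH H) (th P H) E k)‖ ≤ M / r := by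
  rcases le_or_gt B 0 with hB0 | hB0
  · refine ⟨0, fun r φ _ _ _ hB _ => absurd ((norm_nonneg _).trans_lt hB) (not_lt.2 hB0)⟩
  obtain ⟨ρE, hRE⟩ := exists_rad E hB0.le
  obtain ⟨ρD, hRD⟩ := exists_rad (D i) hB0.le
  obtain ⟨K, hK0, hK⟩ := ds_bound (F := F) hσ j C
  obtain ⟨MH, hMH0, hMH⟩ := exists_bd (HH H) (B + 1)
  choose MX hMX0 hMX using fun l => exists_bd (E (X l)) B
  obtain ⟨CE, hCE⟩ := Finite.exists_le MX
  set C0 : ℝ := |CE| + 1 with hC0
  set A : ℝ := 8 * ((n + 1 : ℕ) : ℝ) ^ 2 * K ^ 2 * C0 ^ 2 with hA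
  set ρ' : ℝ := min ρD 1 / 2 with hρ'
  have hρ'0 : 0 < ρ' := by
    have := hRD.pos
    positivity
  have hρ'D : ρ' < ρD := by
    have h1 : min ρD 1 ≤ ρD := min_le_left _ _
    have h2 : 0 < min ρD 1 := lt_min hRD.pos one_pos
    rw [hρ']
    linarith
  have hρ'1 : ρ' ≤ 1 := by
    have h1 : min ρD 1 ≤ 1 := min_le_right _ _
    rw [hρ']
    linarith
  refine ⟨k.factorial * (MH * MH * (1 + A)) / ρ' ^ k, fun r φ hr hφ hi hB hmax => ?_⟩
  set a := pr i φ 0 with ha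
  obtain ⟨y, hy0, hy, hgood⟩ := h.exists_family hφ hi hE hRE hB
  have h0E : (0 : ℂ) ∈ ball (0 : ℂ) ρE := mem_ball_self hRE.pos
  have hyev : ∀ᶠ s in 𝓝 (0 : ℂ), Sol (Vs (Rel f)) univ (y s) := by
    filter_upwards [isOpen_ball.mem_nhds h0E] with s hs
    exact (hy s hs).1
  have hg0 : ∀ z i, y 0 z i i ≠ 0 → Good y z 0 i := fun z i hi => hgood 0 h0E z i hi
  obtain ⟨g, hgd, hgs⟩ := exists_entire_ds h hσ hV hyev hg0 j
  have hmean : av r (fun z => ‖g z‖ ^ 2) ≤ A := by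
    refine mean_h (Φ := fun z s => y s z) (by linarith) hRE.pos (fun s hs => (hy s hs).1.1)
      (fun z => fam_holP (fun s hs => (hy s hs).1.1) hgood z)
      (fam_cont (fun s hs => (hy s hs).1.1) hgood) (fun s hs => ?_) hgd.continuous
      (fun z l hl hlK => ?_) (i0 := i) ?_ ?_
    · change Tr r (y s) ≤ Tr r (y 0)
      rw [hy0]
      exact hmax _ (hy s hs).1
    · rw [hgs z l hl]
      have hg1 := hg0 z l hl
      obtain ⟨h1, h2⟩ := eta_Tan hV hyev hg1
      have h3 : pr l (y 0) z ∈ Vs (Rel f) l := hyev.self_of_nhds.2 z (mem_univ z) l hl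
      have h4 : pr l (y 0) z ∈ Tb F l C := ⟨(hV l h3).1, hlK, h.bd l _ h3 hlK⟩
      refine (hK l _ h4 _ h1 h2).trans (le_of_eq ?_)
      congr 2
      have h5 := (good_slice hg1).self_of_nhds.2
      have h6 : HasDerivAt (fun s => chart l (y s z)) (eta y l z) 0 := by
        refine hasDerivAt_pi.2 fun q => ?_
        unfold eta Jd
        simp only [eval_X]
        exact (differentiableAt_pi.1 h5 (Sum.inl q)).hasDerivAt
      exact h6.deriv.symm
    · rw [hy0]
      exact hi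
    · have h1 : ∀ l, ∀ᶠ s in 𝓝 (0 : ℂ), ‖fl E a s l - fl E a 0 l‖ ≤ C0 * ‖s‖ := by
        intro l
        have h2 := hRE.hasDerivAt_fl hB.le (z := 0) (by simpa using hRE.pos) l
        have h3 := h2.isLittleO.def (c := 1) one_pos
        have h4 : ‖eval (fl E a 0) (E (X l))‖ ≤ |CE| := by
          rw [fl_zero]
          exact (hMX l a hB.le).trans ((hCE l).trans (le_abs_self _))
        filter_upwards [h3] with s hs
        rw [sub_zero, smul_eq_mul, one_mul] at hs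
        calc ‖fl E a s l - fl E a 0 l‖ =
            ‖(fl E a s l - fl E a 0 l - s * eval (fl E a 0) (E (X l))) +
              s * eval (fl E a 0) (E (X l))‖ := by ring_nf
          _ ≤ ‖fl E a s l - fl E a 0 l - s * eval (fl E a 0) (E (X l))‖ +
              ‖s * eval (fl E a 0) (E (X l))‖ := norm_add_le _ _
          _ ≤ ‖s‖ + ‖s‖ * |CE| := by
              rw [norm_mul]
              gcongr
          _ = C0 * ‖s‖ := by rw [hC0]; ring
      filter_upwards [Filter.eventually_all.2 fun l => h1 (Sum.inl l),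
        isOpen_ball.mem_nhds h0E] with s hs hsE
      rw [pi_norm_le_iff_of_nonneg (by positivity)]
      intro l
      have h2 : chart i (y s 0) l = fl E a s (Sum.inl l) := by
        rw [← pr_inl, (hy s hsE).2.2]
      have h3 : chart i (y 0 0) l = fl E a 0 (Sum.inl l) := by
        rw [← pr_inl, (hy 0 h0E).2.2]
      rw [Pi.sub_apply, h2, h3]
      exact hs l
  have hdiff : ∀ z : ℂ, ‖z‖ ≤ 1 → ‖g z - g 0‖ ≤ (1 + A) / r := fun z hz =>
    cauchy_diff hgd hr hmean hz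
  have hfl : ∀ w ∈ ball (0 : ℂ) ρD, y 0 w i i ≠ 0 ∧ pr i (y 0) w = fl (D i) a w := by
    rw [hy0]
    exact h.pr_fl hφ hi hRD hB.le
  have hγ0 : pr i (y 0) 0 = a := by rw [hy0]
  set G : ℂ → ℂ := fun w => eval a (HH H) * hat y i (th P H) w -
    eval (pr i (y 0) w) (HH H) * hat y i (th P H) 0 with hG
  have hD0 : (0 : ℂ) ∈ ball (0 : ℂ) ρD := mem_ball_self hRD.pos
  have hGeq : ∀ w ∈ ball (0 : ℂ) ρD,
      G w = eval a (HH H) * (eval (pr i (y 0) w) (HH H) * (g w - g 0)) := by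
    intro w hw
    have h1 := hfl w hw
    have h2 := hfl 0 hD0
    rw [hG]
    simp only
    rw [hat_th hV hyev (hg0 w i h1.1) hrep, hat_th hV hyev (hg0 0 i h2.1) hrep, hgs w i h1.1,
      hgs 0 i h2.1, hγ0]
    ring
  have hGbd : ∀ w ∈ sphere (0 : ℂ) ρ', ‖G w‖ ≤ MH * MH * (1 + A) / r := by
    intro w hw
    rw [mem_sphere_zero_iff_norm] at hw
    have hwD : w ∈ ball (0 : ℂ) ρD := mem_ball_zero_iff.2 (by rw [hw]; exact hρ'D)
    rw [hGeq w hwD, norm_mul, norm_mul]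
    have h1 : ‖eval a (HH H)‖ ≤ MH := hMH a (by linarith [hB])
    have h2 : ‖eval (pr i (y 0) w) (HH H)‖ ≤ MH := by
      refine hMH _ ?_
      rw [(hfl w hwD).2]
      have h3 := hRD.norm_fl hB.le (z := w) (by rw [hw]; exact hρ'D.le)
      calc ‖fl (D i) a w‖ = ‖(fl (D i) a w - a) + a‖ := by rw [sub_add_cancel]
        _ ≤ ‖fl (D i) a w - a‖ + ‖a‖ := norm_add_le _ _
        _ ≤ 1 / 2 + B := add_le_add h3 hB.le
        _ ≤ B + 1 := by linarith
    have h3 := hdiff w (by rw [hw]; exact hρ'1)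
    have hr0 : 0 < r := by linarith
    calc ‖eval a (HH H)‖ * (‖eval (pr i (y 0) w) (HH H)‖ * ‖g w - g 0‖)
        ≤ MH * (MH * ((1 + A) / r)) := by gcongr
      _ = MH * MH * (1 + A) / r := by ring
  have hGd : DifferentiableOn ℂ G (ball 0 ρD) := by
    intro w hw
    have h1 := hfl w hw
    refine DifferentiableAt.differentiableWithinAt ?_
    refine ((hat_deriv h hyev (hg0 w i h1.1) (th P H)).differentiableAt.const_mul _).sub ?_
    refine DifferentiableAt.mul_const ?_ _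
    exact (analyticAt_eval (fun l => analyticAt_pr isOpen_univ hyev.self_of_nhds.1 (mem_univ w)
      h1.1 l) _).differentiableAt
  have hcau := Complex.norm_iteratedDeriv_le_of_forall_mem_sphere_norm_le k hρ'0
    (hGd.diffContOnCl_ball (closedBall_subset_ball hρ'D)) hGbd
  have hiter : iteratedDeriv k G 0 = eval a (Tm (D i) (HH H) (th P H) E k) := by
    have h1 := hfl 0 hD0
    have hode := h.ode univ (y 0) isOpen_univ hyev.self_of_nhds 0 (mem_univ 0) i h1.1
    have hA1 : AnalyticAt ℂ (hat y i (th P H)) 0 := by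
      rw [Complex.analyticAt_iff_eventually_differentiableAt]
      filter_upwards [isOpen_ball.mem_nhds hD0] with w hw
      exact (hat_deriv h hyev (hg0 w i (hfl w hw).1) (th P H)).differentiableAt
    have hA2 : AnalyticAt ℂ (fun w => eval (pr i (y 0) w) (HH H)) 0 :=
      analyticAt_eval (fun l => analyticAt_pr isOpen_univ hyev.self_of_nhds.1 (mem_univ 0)
        h1.1 l) _
    have h2 : iteratedDeriv k G 0 = eval a (HH H) * iteratedDeriv k (hat y i (th P H)) 0 -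
        iteratedDeriv k (fun w => eval (pr i (y 0) w) (HH H)) 0 * hat y i (th P H) 0 := by
      have e1 : G = (fun w => eval a (HH H) * hat y i (th P H) w) -
          fun w => hat y i (th P H) 0 * eval (pr i (y 0) w) (HH H) := by
        funext w
        rw [hG, Pi.sub_apply]
        ring
      have c1 : ContDiffAt ℂ k (fun w => eval a (HH H) * hat y i (th P H) w) 0 :=
        (analyticAt_const.mul hA1).contDiffAt
      have c2 : ContDiffAt ℂ k (fun w => hat y i (th P H) 0 * eval (pr i (y 0) w) (HH H)) 0 :=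
        (analyticAt_const.mul hA2).contDiffAt
      rw [e1, iteratedDeriv_sub c1 c2, iteratedDeriv_const_mul_field,
        iteratedDeriv_const_mul_field]
      ring
    have hyE : ∀ s ∈ ball (0 : ℂ) ρE, pr i (y s) 0 = fl E a s := fun s hs => (hy s hs).2.2
    rw [h2, hat_iter h hyev (hg0 0 i h1.1), hat_zero hRE hB hyE, hat_zero hRE hB hyE,
      hode.iter k (HH H), hγ0]
    unfold Tm
    rw [map_sub, map_mul, map_mul]
  rw [← hiter]
  refine hcau.trans (le_of_eq ?_)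
  ring

/-- the limit point -/
theorem exists_limit_point (h : Dat f D C) (hσ : ∀ j, SymForm F (m j) (σ j))
    (hV : ∀ i, Vs (Rel f) i ⊆ Ep F σ c i) : ∃ i, ∃ a ∈ Vs (Rel f) i, ∀ (j : κ) (P : Rn (n + 1))
      (H : MvPolynomial (Fin (n + 1)) ℂ), Rep F σ j P H →
      ∀ E : Dr (Fin (n + 1) ⊕ Fin (n + 1)), (∀ G ∈ Rel f i, E G ∈ Rel f i) → ∀ k,
        eval a (Tm (D i) (HH H) (th P H) E k) = 0 := by
  choose φ hφ hmax using fun k : ℕ => h.exists_Tr (r := (k : ℝ) + 2) (by positivity)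
  choose ix hix hixK using fun k => exists_max ((hφ k).1.mem_PM (mem_univ (0 : ℂ)))
  set 𝓤 : Ultrafilter ℕ := hyperfilter ℕ with h𝓤
  have h𝓤t : (𝓤 : Filter ℕ) ≤ atTop := by
    rw [← Nat.cofinite_eq_atTop]
    exact hyperfilter_le_cofinite
  have hi : ∃ i, ∀ᶠ k in (𝓤 : Filter ℕ), ix k = i := by
    have h1 : (⋃ i ∈ (univ : Set (Fin (n + 1))), {k | ix k = i}) ∈ 𝓤 := by
      have : (⋃ i ∈ (univ : Set (Fin (n + 1))), {k | ix k = i}) = univ := by
        ext k
        simp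
      rw [this]
      exact univ_mem
    obtain ⟨i, -, hi⟩ := (Ultrafilter.finite_biUnion_mem_iff finite_univ).1 h1
    exact ⟨i, hi⟩
  obtain ⟨i, hi⟩ := hi
  set B : ℝ := max 1 C with hB
  have hak : ∀ᶠ k in (𝓤 : Filter ℕ), φ k 0 i i ≠ 0 ∧ pr i (φ k) 0 ∈ Vs (Rel f) i ∧
      ‖pr i (φ k) 0‖ ≤ B := by
    filter_upwards [hi] with k hk
    subst hk
    have h1 := (hφ k).2 0 (mem_univ 0) _ (hix k)
    refine ⟨hix k, h1, ?_⟩
    rw [pi_norm_le_iff_of_nonneg (by positivity)]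
    rintro (l | l)
    · exact (norm_le_pi_norm (pr (ix k) (φ k) 0 ∘ Sum.inl) l).trans
        ((hixK k).2.trans (le_max_left _ _))
    · exact (norm_le_pi_norm (pr (ix k) (φ k) 0 ∘ Sum.inr) l).trans
        ((h.bd _ _ h1 (hixK k)).trans (le_max_right _ _))
  have hlim : ∃ a, Tendsto (fun k => pr i (φ k) 0) 𝓤 (𝓝 a) := by
    have h1 : (𝓤.map (fun k => pr i (φ k) 0) : Filter (Fin (n + 1) ⊕ Fin (n + 1) → ℂ)) ≤
        𝓟 (closedBall 0 B) := by
      rw [Ultrafilter.coe_map, le_principal_iff, mem_map]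
      filter_upwards [hak] with k hk
      exact mem_closedBall_zero_iff.2 hk.2.2
    obtain ⟨a, -, ha⟩ := (isCompact_closedBall (0 : Fin (n + 1) ⊕ Fin (n + 1) → ℂ)
      B).ultrafilter_le_nhds (𝓤.map (fun k => pr i (φ k) 0)) h1
    exact ⟨a, ha⟩
  obtain ⟨a, ha⟩ := hlim
  have hev : ∀ G : Rn (n + 1), Tendsto (fun k => eval (pr i (φ k) 0) G) 𝓤 (𝓝 (eval a G)) :=
    fun G => ((continuous_eval' G).tendsto a).comp ha
  refine ⟨i, a, fun G hG => ?_, fun j P H hrep E hE k => ?_⟩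
  · refine tendsto_nhds_unique (hev G) (tendsto_const_nhds.congr' ?_)
    filter_upwards [hak] with k hk
    exact (hk.2.1 G hG).symm
  · obtain ⟨M, hM⟩ := Tm_bound h hσ hV hE hrep k (B + 1)
    have h1 : Tendsto (fun q : ℕ => M / ((q : ℝ) + 2)) 𝓤 (𝓝 0) := by
      have h2 : Tendsto (fun q : ℕ => (q : ℝ) + 2) atTop atTop :=
        tendsto_atTop_add_const_right _ _ tendsto_natCast_atTop_atTop
      exact (h2.const_div_atTop M).mono_left h𝓤t
    have h3 : Tendsto (fun q => eval (pr i (φ q) 0) (Tm (D i) (HH H) (th P H) E k)) 𝓤 (𝓝 0) := by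
      refine squeeze_zero_norm' ?_ h1
      filter_upwards [hak] with q hq
      refine hM _ (φ q) ?_ (hφ q) hq.1 (hq.2.2.trans_lt (lt_add_one B)) (hmax q)
      have : (0 : ℝ) ≤ q := Nat.cast_nonneg q
      linarith
    exact tendsto_nhds_unique (hev _) h3

end lim

end Run7.h418
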