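import Pool.Agent.Run7.h418.Act

/-!
Orbits of actions of vector groups on the space of curves.
-/

set_option autoImplicit false

open MvPolynomial Metric Set Filter Topology

namespace Run7.h418

open Pool.Agent.Y190.OP Pool.Agent.W602.GT Pool.Agent.N155

section fl

variable {τ : Type}

theorem iter_smul (s : ℂ) (U : Dr τ) (n : ℕ) (G : MvPolynomial τ ℂ) :
    (s • U)^[n] G = s ^ n • U^[n] G := by
  induction n with
  | zero => simp
  | succ n ih =>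
    rw [Function.iterate_succ_apply', Function.iterate_succ_apply', ih, Derivation.smul_apply,
      Derivation.map_smul, smul_smul, pow_succ, mul_comm]

theorem fl_smul (s z : ℂ) (U : Dr τ) (a : τ → ℂ) : fl (s • U) a z = fl U a (s * z) := by
  funext l
  change gs _ _ _ _ = gs _ _ _ _
  unfold gs
  refine tsum_congr fun k => ?_
  unfold cf
  rw [iter_smul, MvPolynomial.smul_eval, mul_pow]
  ring

theorem iter_sub_mem {I : Ideal (MvPolynomial τ ℂ)} {U U' : Dr τ} (hU : ∀ G ∈ I, U G ∈ I)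
    (h : ∀ G, U G - U' G ∈ I) (k : ℕ) (G : MvPolynomial τ ℂ) : U^[k] G - U'^[k] G ∈ I := by
  induction k with
  | zero => simp
  | succ k ih =>
    rw [Function.iterate_succ_apply', Function.iterate_succ_apply']
    have h1 : U (U^[k] G) - U' (U'^[k] G) = U (U^[k] G - U'^[k] G) +
        (U (U'^[k] G) - U' (U'^[k] G)) := by
      rw [map_sub]
      ring
    rw [h1]
    exact add_mem (hU _ ih) (h _)

/-- flows of congruent vector fields -/
theorem fl_congr {I : Ideal (MvPolynomial τ ℂ)} {U U' : Dr τ} (hU : ∀ G ∈ I, U G ∈ I)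
    (h : ∀ G, U G - U' G ∈ I) {a : τ → ℂ} (ha : ∀ G ∈ I, eval a G = 0) (z : ℂ) :
    fl U a z = fl U' a z := by
  funext l
  change gs _ _ _ _ = gs _ _ _ _
  unfold gs
  refine tsum_congr fun k => ?_
  unfold cf
  have h1 := ha _ (iter_sub_mem hU h k (X l))
  rw [map_sub, sub_eq_zero] at h1
  rw [h1]

theorem fl_zero_vf (a : τ → ℂ) (z : ℂ) : fl (0 : Dr τ) a z = a := by
  have h1 := fl_smul 0 z (0 : Dr τ) a
  rw [zero_mul, fl_zero, smul_zero] at h1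
  exact h1

end fl

section act

variable {N : ℕ} {f : ℂ → Mat N} {D : Fin N → Dr (Fin N ⊕ Fin N)} {C : ℝ}

theorem SolAt.congr {τ : Type} {U : Dr τ} {γ γ' : ℂ → τ → ℂ} {z : ℂ} (h : SolAt U γ z)
    (he : γ' =ᶠ[𝓝 z] γ) : SolAt U γ' z := by
  filter_upwards [h, he.eventually_nhds] with w hw hew l
  have h1 : (fun w => γ' w l) =ᶠ[𝓝 w] fun w => γ w l := by
    filter_upwards [hew] with x hx
    rw [hx]
  have h2 : γ' w = γ w := hew.self_of_nhds
  rw [h2]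
  exact (hw l).congr_of_eventuallyEq h1

/-- change of charts for solutions of compatible vector fields -/
theorem SolAt.cc {U : Fin N → Dr (Fin N ⊕ Fin N)} (hU : Cmp f U) {i k : Fin N}
    {γ : ℂ → Fin N ⊕ Fin N → ℂ} {s0 : ℂ} (h : SolAt (U i) γ s0)
    (hγ : ∀ᶠ s in 𝓝 s0, γ s ∈ Vs (Rel f) i) (hk : γ s0 (Sum.inl k) ≠ 0) :
    SolAt (U k) (fun s => Run7.h418.cc k (γ s)) s0 := by
  have hne : ∀ᶠ w in 𝓝 s0, γ w (Sum.inl k) ≠ 0 :=
    ((h.self_of_nhds) (Sum.inl k)).continuousAt.eventually_ne hk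
  filter_upwards [h, hγ, hne] with w hw hwV hwk m
  have h1 := hasDerivAt_eval (U i) hw (ccP k m)
  have h2 := hasDerivAt_eval (U i) hw (ccQ k m)
  have h3 := ccQ_ne hwk m
  have h4 := h1.fun_div h2 h3
  have h5 := hU.cmp i k _ hwV hwk m
  have h6 : (fun w => Run7.h418.cc k (γ w) m) = fun w =>
      eval (γ w) (ccP k m) / eval (γ w) (ccQ k m) := by
    funext w
    exact cc_eq k m _
  have h7 : eval (Run7.h418.cc k (γ w)) (U k (X m)) = (eval (γ w) (U i (ccP k m)) *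
      eval (γ w) (ccQ k m) - eval (γ w) (ccP k m) *
        eval (γ w) (U i (ccQ k m))) / eval (γ w) (ccQ k m) ^ 2 := by
    rw [eq_div_iff (pow_ne_zero 2 h3), h5]
  rw [h6]
  change HasDerivAt _ (eval (Run7.h418.cc k (γ w)) (U k (X m))) w
  rw [h7]
  exact h4

/-- an action of a vector group on the space of curves, given by vector fields -/
structure IsAct (f : ℂ → Mat N) (C : ℝ) {q : ℕ} (V : Fin q → Fin N → Dr (Fin N ⊕ Fin N))
    (act : (Fin q → ℂ) → Ws f → Ws f) (ε : ℝ) : Prop where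
  pos : 0 < ε
  add : ∀ t t' φ, act (t + t') φ = act t (act t' φ)
  sm : ∀ t : Fin q → ℂ, ‖t‖ ≤ ε → Sm C (∑ b, t b • V b)
  loc : ∀ t : Fin q → ℂ, ‖t‖ ≤ ε → ∀ (φ : Ws f) (k : Fin N), φ.1 0 k k ≠ 0 →
    ‖pr k φ.1 0‖ ≤ max 1 C + 1 → (act t φ).1 0 k k ≠ 0 ∧
      pr k (act t φ).1 0 = fl ((∑ b, t b • V b) k) (pr k φ.1 0) 1

theorem exists_isAct (h : Dat f D C) {q : ℕ} {V : Fin q → Fin N → Dr (Fin N ⊕ Fin N)}
    (hV : ∀ b, Cmp f (V b)) (hc : ∀ b b' k G, ⁅V b k, V b' k⁆ G ∈ Rel f k) :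
    ∃ (act : (Fin q → ℂ) → Ws f → Ws f) (ε : ℝ), IsAct f C V act ε := by
  obtain ⟨act, ε, hε, h1, h2, h3⟩ := exists_act h hV hc
  refine ⟨act, ε, hε, h1, h2, fun t ht φ k hk hkB => ?_⟩
  rw [h3 t ht]
  exact stp_spec h (Cmp.sum hV t) (h2 t ht) φ hk hkB

variable {q : ℕ} {V : Fin q → Fin N → Dr (Fin N ⊕ Fin N)} {act : (Fin q → ℂ) → Ws f → Ws f}
  {ε : ℝ}

theorem IsAct.zero (h : Dat f D C) (hA : IsAct f C V act ε) (φ : Ws f) : act 0 φ = φ := by
  obtain ⟨i, hi, hiK⟩ := exists_max (φ.2.1.mem_PM (mem_univ (0 : ℂ)))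
  have haB := φ.norm_le h hi hiK
  obtain ⟨h1, h2⟩ := hA.loc 0 (by simpa using hA.pos.le) φ i hi (by linarith)
  refine Ws.ext' h h1 hi ?_
  rw [h2]
  have h3 : (∑ b, (0 : Fin q → ℂ) b • V b) i = 0 := by simp
  rw [h3, fl_zero_vf]

/-- a chart around a point of an orbit -/
theorem IsAct.near (h : Dat f D C) (hA : IsAct f C V act ε) (φ : Ws f) (t0 : Fin q → ℂ) :
    ∃ i, (act t0 φ).1 0 i i ≠ 0 ∧ chart i ((act t0 φ).1 0) ∈ Kc i ∧
      ‖pr i (act t0 φ).1 0‖ ≤ max 1 C ∧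
      ∀ t, ‖t - t0‖ ≤ ε → (act t φ).1 0 i i ≠ 0 ∧
        pr i (act t φ).1 0 = fl ((∑ b, (t - t0) b • V b) i) (pr i (act t0 φ).1 0) 1 := by
  obtain ⟨i, hi, hiK⟩ := exists_max ((act t0 φ).2.1.mem_PM (mem_univ (0 : ℂ)))
  have haB := (act t0 φ).norm_le h hi hiK
  refine ⟨i, hi, hiK, haB, fun t ht => ?_⟩
  have h1 : act t φ = act (t - t0) (act t0 φ) := by
    rw [← hA.add, sub_add_cancel]
  rw [h1]
  exact hA.loc _ ht _ i hi (by linarith)

/-- orbits of one-parameter groups are solutions of the vector field -/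
theorem IsAct.sol (h : Dat f D C) (hV : ∀ b, Cmp f (V b)) (hA : IsAct f C V act ε) (φ : Ws f)
    (e : Fin q → ℂ) (s0 : ℂ) {k : Fin N} (hk : (act (s0 • e) φ).1 0 k k ≠ 0) :
    (∀ᶠ s in 𝓝 s0, (act (s • e) φ).1 0 k k ≠ 0) ∧
      SolAt ((∑ b, e b • V b) k) (fun s => pr k (act (s • e) φ).1 0) s0 := by
  obtain ⟨i, hi, hiK, haB, hnear⟩ := hA.near h φ (s0 • e)
  set a := pr i (act (s0 • e) φ).1 0 with ha
  set U : Fin N → Dr (Fin N ⊕ Fin N) := ∑ b, e b • V b with hU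
  have hUC : Cmp f U := Cmp.sum hV e
  have hsmall : ∀ᶠ s in 𝓝 s0, ‖s • e - s0 • e‖ ≤ ε := by
    have h1 : ContinuousAt (fun s : ℂ => ‖s • e - s0 • e‖) s0 := by fun_prop
    have h2 : ∀ᶠ s in 𝓝 s0, ‖s • e - s0 • e‖ < ε :=
      h1.eventually_lt_const (by simpa using hA.pos)
    filter_upwards [h2] with s hs
    exact hs.le
  have hfl : ∀ᶠ s in 𝓝 s0, (act (s • e) φ).1 0 i i ≠ 0 ∧
      pr i (act (s • e) φ).1 0 = fl (U i) a (s - s0) := by
    filter_upwards [hsmall] with s hs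
    obtain ⟨h1, h2⟩ := hnear _ hs
    refine ⟨h1, ?_⟩
    rw [h2]
    have h3 : (∑ b, (s • e - s0 • e) b • V b) i = (s - s0) • U i := by
      rw [hU, Finset.sum_apply, Finset.sum_apply, Finset.smul_sum]
      refine Finset.sum_congr rfl fun b _ => ?_
      rw [Pi.smul_apply, Pi.smul_apply, smul_smul]
      congr 1
      simp only [Pi.sub_apply, Pi.smul_apply, smul_eq_mul]
      ring
    rw [h3, fl_smul, mul_one]
  obtain ⟨ρ, hρ⟩ := exists_rad (U i) (B := max 1 C + 1) (by positivity)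
  have hsol : SolAt (U i) (fun s => pr i (act (s • e) φ).1 0) s0 := by
    have h1 := hρ.solAt (a := a) (by linarith) s0 (z := s0) (by simpa using hρ.pos)
    refine h1.congr ?_
    filter_upwards [hfl] with s hs
    exact hs.2
  have hmem : ∀ᶠ s in 𝓝 s0, pr i (act (s • e) φ).1 0 ∈ Vs (Rel f) i := by
    filter_upwards [hfl] with s hs
    exact (act (s • e) φ).2.2 0 (mem_univ 0) i hs.1
  obtain ⟨h1, h2⟩ := pr_cc isOpen_univ (act (s0 • e) φ).2.1 (mem_univ (0 : ℂ)) hi hk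
  have hne : ∀ᶠ s in 𝓝 s0, pr i (act (s • e) φ).1 0 (Sum.inl k) ≠ 0 :=
    ((hsol.self_of_nhds) (Sum.inl k)).continuousAt.eventually_ne h1
  have hk' : ∀ᶠ s in 𝓝 s0, (act (s • e) φ).1 0 k k ≠ 0 := by
    filter_upwards [hfl, hne] with s hs hs'
    exact diag_of_inl ((act (s • e) φ).2.1.mem_PM (mem_univ (0 : ℂ))) hs.1 hs'
  refine ⟨hk', (hsol.cc hUC hmem h1).congr ?_⟩
  filter_upwards [hfl, hk'] with s hs hs'
  exact (pr_cc isOpen_univ (act (s • e) φ).2.1 (mem_univ (0 : ℂ)) hs.1 hs').2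

/-- the image of an orbit -/
noncomputable def orb (act : (Fin q → ℂ) → Ws f → Ws f) (e : Fin q → ℂ) (φ : Ws f) (s : ℂ) :
    Mat N := (act (s • e) φ).1 0

theorem IsAct.pr_orb (h : Dat f D C) (hV : ∀ b, Cmp f (V b)) (hA : IsAct f C V act ε) (φ : Ws f)
    (e : Fin q → ℂ) (s : ℂ) {k : Fin N} (hk : orb act e φ s k k ≠ 0) :
    HasDerivAt (fun s => chart k (orb act e φ s)) (fun l =>
      eval (pr k (act (s • e) φ).1 0) ((∑ b, e b • V b) k (X (Sum.inl l)))) s := by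
  obtain ⟨-, h2⟩ := hA.sol h hV φ e s hk
  exact hasDerivAt_pi.2 fun l => h2.self_of_nhds (Sum.inl l)

theorem IsAct.orb_hol (h : Dat f D C) (hV : ∀ b, Cmp f (V b)) (hA : IsAct f C V act ε) (φ : Ws f)
    (e : Fin q → ℂ) : HolP univ (orb act e φ) := by
  intro s0 _
  obtain ⟨k, hk⟩ := PM.exists_diag ((act (s0 • e) φ).2.1.mem_PM (mem_univ (0 : ℂ)))
  obtain ⟨h1, -⟩ := hA.sol h hV φ e s0 hk
  obtain ⟨W, hW, hWo, hs0⟩ := _root_.mem_nhds_iff.1 h1
  refine ⟨W, fun s => chart k (orb act e φ s), hWo, hs0, fun s hs => ?_, fun s hs => ?_⟩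
  · exact (hA.pr_orb h hV φ e s (hW hs)).differentiableAt.differentiableWithinAt
  · have h2 : orb act e φ s ∈ PM := (act (s • e) φ).2.1.mem_PM (mem_univ (0 : ℂ))
    exact ⟨PM.chart_ne (hW hs), (PM.Phi_chart h2 (hW hs)).symm⟩

theorem IsAct.orb_bd (h : Dat f D C) (hV : ∀ b, Cmp f (V b)) (hA : IsAct f C V act ε)
    (e : Fin q → ℂ) : ∃ K : ℝ, ∀ (φ : Ws f) (s : ℂ), ‖fderiv ℝ (orb act e φ) s‖ ≤ K := by
  obtain ⟨A, hA0, hAb⟩ := norm_der N
  choose B hB0 hB using fun p : Fin N × Fin N =>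
    exists_bd ((∑ b, e b • V b) p.1 (X (Sum.inl p.2))) (max 1 C)
  obtain ⟨B', hB'⟩ := Finite.exists_le B
  refine ⟨A * |B'|, fun φ s => ?_⟩
  obtain ⟨i, hi, hiK⟩ := exists_max ((act (s • e) φ).2.1.mem_PM (mem_univ (0 : ℂ)))
  have haB := (act (s • e) φ).norm_le h hi hiK
  refine ((hAb univ _ isOpen_univ (hA.orb_hol h hV φ e) s (mem_univ s) i hi hiK).1).trans ?_
  rw [(hA.pr_orb h hV φ e s hi).deriv]
  gcongr
  rw [pi_norm_le_iff_of_nonneg (abs_nonneg _)]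
  intro l
  exact (hB (i, l) _ haB).trans ((hB' _).trans (le_abs_self _))

end act

end Run7.h418
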