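import Pool.Agent.Run7.h418.Ext
import Pool.Agent.Run7.h418.Orb

/-!
Generic smoothness: local coordinates at general points.
-/

set_option autoImplicit false

open MvPolynomial Metric Set Filter Topology

namespace Run7.h418

open Pool.Agent.Y190.OP Pool.Agent.W602.GT Pool.Agent.N155

/-- derivations of the field induced by polynomial vector fields -/
theorem exists_der {M τ : Type} [Field M] [Algebra ℂ M] (e : MvPolynomial τ ℂ →ₐ[ℂ] M)
    (hfr : ∀ m : M, ∃ p q, e q ≠ 0 ∧ m * e q = e p) {E : Dr τ} (hE : ∀ G, e G = 0 → e (E G) = 0) :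
    ∃ d : Derivation ℂ M M, ∀ G, d (e G) = e (E G) := by
  have hfr' : IsFractionRing e.range M := by
    refine IsFractionRing.of_field e.range M fun z => ?_
    obtain ⟨p, q, hq, hpq⟩ := hfr z
    refine ⟨⟨e p, p, rfl⟩, ⟨e q, q, rfl⟩, ?_⟩
    change z = e p / e q
    rw [← hpq, mul_div_cancel_right₀ _ hq]
  have het : Algebra.FormallyEtale e.range M :=
    Algebra.FormallyEtale.of_isLocalization (nonZeroDivisors e.range)
  have hs : Function.Surjective e.rangeRestrict := e.rangeRestrict_surjective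
  have hE' : ∀ G, e.rangeRestrict G = 0 → e.rangeRestrict (E G) = 0 := by
    intro G hG
    have h1 : e G = 0 := congrArg (fun x : e.range => (x : M)) hG
    exact Subtype.ext (hE G h1)
  obtain ⟨d, hd⟩ := der_etale (L := M) (Derivation.liftOfSurjective hs hE')
  refine ⟨d, fun G => ?_⟩
  have h1 := hd (e.rangeRestrict G)
  rw [Derivation.liftOfSurjective_apply hs hE'] at h1
  exact h1

section gen

variable {n : ℕ} {f : ℂ → Mat (n + 1)} {D : Fin (n + 1) → Dr (Fin (n + 1) ⊕ Fin (n + 1))} {C : ℝ}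
  {M : Type} [Field M] [Algebra ℂ M] {ev : Fin (n + 1) → Rn (n + 1) →ₐ[ℂ] M}
  {δ : Derivation ℂ M M}

/-- **Generic smoothness.** -/
theorem exists_gen (hM : IsFd f D ev δ) {w : ℕ} {z0 : Fin w → M}
    (hz0 : IsTranscendenceBasis ℂ z0) {v0 : Fin w → Derivation ℂ M M}
    (hdet0 : (Matrix.of fun s t => v0 s (z0 t) : Matrix (Fin w) (Fin w) M).det ≠ 0)
    {V : Fin w → Fin (n + 1) → Dr (Fin (n + 1) ⊕ Fin (n + 1))}
    (hV : ∀ b k, (∃ z, f z k k ≠ 0) → ∀ G, ev k (V b k G) = v0 b (ev k G)) {k : Fin (n + 1)}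
    (hk : ∃ z, f z k k ≠ 0) :
    ∃ (l : Fin w → Fin (n + 1) ⊕ Fin (n + 1)) (g : Fin (n + 1) ⊕ Fin (n + 1) → Rn (n + 1)),
      (∀ t, g t ∈ Rel f k ∨ ∃ s, g t = X (l s)) ∧
      (Matrix.of fun t t' => pderiv t' (g t)).det ∉ Rel f k ∧
      (Matrix.of fun b s => V b k (X (l s))).det ∉ Rel f k := by
  classical
  obtain ⟨l, hl⟩ := exists_rows (fun (t : Fin (n + 1) ⊕ Fin (n + 1)) (s : Fin w) =>
    v0 s (ev k (X t))) (by
      intro x hx
      refine frame_indep hdet0 (hM.der_ext hk fun t => ?_)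
      rw [sum_smul_apply, ← hx t]
      exact Finset.sum_congr rfl fun s _ => mul_comm _ _)
  have hl' : ((ev k).mapMatrix (Matrix.of fun b s => V b k (X (l s)))).det ≠ 0 := by
    have h1 : (ev k).mapMatrix (Matrix.of fun b s => V b k (X (l s))) =
        (Matrix.of fun b s => v0 s (ev k (X (l b)))).transpose := by
      ext b s
      rw [AlgHom.mapMatrix_apply, Matrix.map_apply, Matrix.of_apply, Matrix.transpose_apply,
        Matrix.of_apply, hV b k hk]
    rw [h1, Matrix.det_transpose]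
    exact hl
  have hcl : ∀ d : Derivation ℂ M M, (∀ s, d (ev k (X (l s))) = 0) → d = 0 := by
    intro d hd
    obtain ⟨g, hg⟩ := frame_comb hz0 hdet0 d
    have h1 : (Matrix.of fun b s => v0 s (ev k (X (l b)))).mulVec g = 0 := by
      funext b
      have h2 := hd b
      rw [hg, sum_smul_apply] at h2
      change ∑ s, v0 s (ev k (X (l b))) * g s = 0
      rw [← h2]
      exact Finset.sum_congr rfl fun s _ => mul_comm _ _
    have h3 := Matrix.eq_zero_of_mulVec_eq_zero hl h1
    rw [hg, h3]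
    simp
  let e : Fin (Fintype.card (Fin (n + 1) ⊕ Fin (n + 1))) ≃ Fin (n + 1) ⊕ Fin (n + 1) :=
    (Fintype.equivFin (Fin (n + 1) ⊕ Fin (n + 1))).symm
  let g0 : (Rel f k) ⊕ Fin w → Rn (n + 1) := Sum.elim (fun G => G.1) fun s => X (l s)
  obtain ⟨a, ha⟩ := exists_rows (fun (j : (Rel f k) ⊕ Fin w) (c : Fin (Fintype.card (Fin (n + 1) ⊕ Fin (n + 1)))) =>
    ev k (pderiv (e c) (g0 j))) (by
      intro x hx
      choose p q hq hpq using fun c => hM.frac k hk (x c)
      set Q : Rn (n + 1) := ∏ c, q c with hQ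
      have hQ0 : ev k Q ≠ 0 := by
        rw [hQ, map_prod]
        exact Finset.prod_ne_zero_iff.2 fun c _ => hq c
      set P : Fin (Fintype.card (Fin (n + 1) ⊕ Fin (n + 1))) → Rn (n + 1) := fun c => (∏ c' ∈ Finset.univ.erase c, q c') * p c
        with hP
      have hPx : ∀ c, ev k (P c) = ev k Q * x c := by
        intro c
        have h1 : (∏ c' ∈ Finset.univ.erase c, q c') * q c = Q :=
          Finset.prod_erase_mul _ _ (Finset.mem_univ c)
        rw [hP, ← h1, map_mul, map_mul, ← hpq c]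
        ring
      set E : Dr (Fin (n + 1) ⊕ Fin (n + 1)) := mkDerivation ℂ fun t => P (e.symm t) with hE
      have hEG : ∀ G, ev k (E G) = ev k Q * ∑ c, ev k (pderiv (e c) G) * x c := by
        intro G
        rw [der_sum E G, map_sum, Finset.mul_sum, ← e.sum_comp]
        refine Finset.sum_congr rfl fun c _ => ?_
        rw [smul_eq_mul, map_mul, hE, mkDerivation_X, Equiv.symm_apply_apply, hPx]
        ring
      obtain ⟨d, hd⟩ := exists_der (ev k) (hM.frac k hk) (E := E) (fun G hG => by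
        have h2 := hx (Sum.inl ⟨G, (hM.ker k hk G).1 hG⟩)
        rw [hEG]
        exact mul_eq_zero_of_right _ h2)
      have hd0 : d = 0 := hcl d fun s => by
        have h2 := hx (Sum.inr s)
        rw [hd, hEG]
        exact mul_eq_zero_of_right _ h2
      funext c
      have h1 := hd (X (e c))
      rw [hd0, hE, mkDerivation_X, Equiv.symm_apply_apply, hPx] at h1
      exact (mul_eq_zero.1 h1.symm).resolve_left hQ0)
  refine ⟨l, fun t => g0 (a (e.symm t)), fun t => ?_, fun hmem => ?_, fun hmem => ?_⟩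
  · change g0 (a (e.symm t)) ∈ Rel f k ∨ ∃ s, g0 (a (e.symm t)) = X (l s)
    generalize a (e.symm t) = j
    rcases j with G | s
    · exact Or.inl G.2
    · exact Or.inr ⟨s, rfl⟩
  · apply ha
    have h1 := (hM.ker k hk _).2 hmem
    rw [AlgHom.map_det] at h1
    have h2 : (ev k).mapMatrix (Matrix.of fun t t' => pderiv t' (g0 (a (e.symm t)))) =
        (Matrix.of fun b c => ev k (pderiv (e c) (g0 (a b)))).submatrix e.symm e.symm := by
      ext t t'
      rw [AlgHom.mapMatrix_apply, Matrix.map_apply, Matrix.of_apply, Matrix.submatrix_apply,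
        Matrix.of_apply, Equiv.apply_symm_apply]
    rw [h2, Matrix.det_submatrix_equiv_self] at h1
    exact h1
  · apply hl'
    have h1 := (hM.ker k hk _).2 hmem
    rwa [AlgHom.map_det] at h1

end gen

end Run7.h418
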