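import Pool.Agent.Run7.h418.Lift

/-!
Identity theorems: projectively holomorphic maps, and solutions of polynomial vector fields.
-/

set_option autoImplicit false

open MvPolynomial Metric Set Filter Topology

namespace Run7.h418

open Pool.Agent.Y190.OP Pool.Agent.W602.GT

variable {N : ℕ}

theorem holP_eqOn {U : Set ℂ} (hU : IsOpen U) (hUc : IsPreconnected U) {φ ψ : ℂ → Mat N}
    (hφ : HolP U φ) (hψ : HolP U ψ) {z0 : ℂ} (hz0 : z0 ∈ U) (h : φ =ᶠ[𝓝 z0] ψ) : EqOn φ ψ U := by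
  set u : Set ℂ := {z | φ =ᶠ[𝓝 z] ψ} with hu
  have huo : IsOpen u := isOpen_setOfPred_eventually_nhds
  have hsub : U ⊆ u := by
    refine hUc.subset_of_closure_inter_subset huo ⟨z0, hz0, h⟩ ?_
    rintro z ⟨hzu, hzU⟩
    have hne : (𝓝[u] z).NeBot := mem_closure_iff_nhdsWithin_neBot.1 hzu
    have e1 : ψ z = φ z := by
      have h1 : Tendsto φ (𝓝[u] z) (𝓝 (φ z)) :=
        (hφ.continuousAt hzU).tendsto.mono_left nhdsWithin_le_nhds
      have h2 : Tendsto ψ (𝓝[u] z) (𝓝 (ψ z)) :=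
        (hψ.continuousAt hzU).tendsto.mono_left nhdsWithin_le_nhds
      refine tendsto_nhds_unique h2 (h1.congr' ?_)
      filter_upwards [self_mem_nhdsWithin] with w hw
      exact Filter.EventuallyEq.eq_of_nhds hw
    obtain ⟨i, hi⟩ := PM.exists_diag (hφ.mem_PM hzU)
    have hi' : ψ z i i ≠ 0 := by rwa [e1]
    obtain ⟨r, hr, hball⟩ := Metric.eventually_nhds_iff_ball.1
      ((ev_holP hU hzU hφ hi).and (ev_holP hU hzU hψ hi'))
    have hAφ : AnalyticOnNhd ℂ (fun w => chart i (φ w)) (ball z r) := fun w hw =>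
      analyticAt_chart hU hφ (hball w hw).1.1 (hball w hw).1.2
    have hAψ : AnalyticOnNhd ℂ (fun w => chart i (ψ w)) (ball z r) := fun w hw =>
      analyticAt_chart hU hψ (hball w hw).1.1 (hball w hw).2.2
    obtain ⟨w, hwB, hwu⟩ := _root_.mem_closure_iff.1 hzu (ball z r) isOpen_ball (mem_ball_self hr)
    have h3 : EqOn (fun w => chart i (φ w)) (fun w => chart i (ψ w)) (ball z r) := by
      refine hAφ.eqOn_of_preconnected_of_eventuallyEq hAψ (convex_ball z r).isPreconnected hwB ?_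
      have h4 : φ =ᶠ[𝓝 w] ψ := hwu
      filter_upwards [h4] with x hx
      rw [hx]
    change φ =ᶠ[𝓝 z] ψ
    filter_upwards [ball_mem_nhds z hr] with x hx
    obtain ⟨⟨h5, h6⟩, -, h7⟩ := hball x hx
    rw [← PM.Phi_chart (hφ.mem_PM h5) h6, ← PM.Phi_chart (hψ.mem_PM h5) h7]
    exact congrArg Phi (h3 hx)
  intro z hz
  exact Filter.EventuallyEq.eq_of_nhds (hsub hz)

theorem eq_of_iter {f g : ℂ → ℂ} {z : ℂ} (hf : AnalyticAt ℂ f z) (hg : AnalyticAt ℂ g z)
    (h : ∀ k, iteratedDeriv k f z = iteratedDeriv k g z) : f =ᶠ[𝓝 z] g := by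
  have h1 := hf.hasFPowerSeriesAt
  have h2 := hg.hasFPowerSeriesAt
  have h3 : (fun n : ℕ => iteratedDeriv n f z / (n.factorial : ℂ)) =
      fun n : ℕ => iteratedDeriv n g z / (n.factorial : ℂ) := by
    funext n
    rw [h]
  rw [h3] at h1
  have h4 := h1.eventually_hasSum_sub
  have h5 := h2.eventually_hasSum_sub
  filter_upwards [h4, h5] with w h6 h7
  exact h6.unique h7

/-- `γ` is near `z` a solution of the vector field `D` -/
def SolAt {τ : Type} (D : Dr τ) (γ : ℂ → τ → ℂ) (z : ℂ) : Prop :=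
  ∀ᶠ w in 𝓝 z, ∀ l, HasDerivAt (fun w => γ w l) (eval (γ w) (D (X l))) w

theorem SolAt.analyticAt {τ : Type} [Finite τ] {D : Dr τ} {γ : ℂ → τ → ℂ} {z : ℂ}
    (h : SolAt D γ z) (l : τ) : AnalyticAt ℂ (fun w => γ w l) z := by
  rw [Complex.analyticAt_iff_eventually_differentiableAt]
  filter_upwards [h] with w hw
  exact (hw l).differentiableAt

theorem SolAt.iter {τ : Type} {D : Dr τ} {γ : ℂ → τ → ℂ} {z : ℂ} (h : SolAt D γ z) (k : ℕ) :
    ∀ G : MvPolynomial τ ℂ, iteratedDeriv k (fun w => eval (γ w) G) z = eval (γ z) (D^[k] G) := by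
  induction k with
  | zero => intro G; simp
  | succ k ih =>
    intro G
    rw [iteratedDeriv_succ', Function.iterate_succ_apply, ← ih (D G)]
    apply Filter.EventuallyEq.iteratedDeriv_eq
    filter_upwards [h] with w hw
    exact (hasDerivAt_eval D hw G).deriv

theorem SolAt.eq_of {τ : Type} [Finite τ] {D : Dr τ} {γ γ' : ℂ → τ → ℂ} {z : ℂ}
    (h : SolAt D γ z) (h' : SolAt D γ' z) (h0 : γ z = γ' z) : γ =ᶠ[𝓝 z] γ' := by
  have h1 : ∀ l, (fun w => γ w l) =ᶠ[𝓝 z] fun w => γ' w l := by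
    intro l
    refine eq_of_iter (h.analyticAt l) (h'.analyticAt l) fun k => ?_
    have h2 := h.iter k (X l)
    have h3 := h'.iter k (X l)
    simp only [eval_X] at h2 h3
    rw [h2, h3, h0]
  filter_upwards [Filter.eventually_all.2 h1] with w hw
  funext l
  exact hw l

theorem Rad.solAt {τ : Type} [Fintype τ] {D : Dr τ} {B ρ : ℝ} (h : Rad D B ρ)
    {a : τ → ℂ} (ha : ‖a‖ ≤ B) (z0 : ℂ) {z : ℂ} (hz : ‖z - z0‖ < ρ) :
    SolAt D (fun w => fl D a (w - z0)) z := by
  have h1 : ∀ᶠ w in 𝓝 z, ‖w - z0‖ < ρ :=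
    (continuous_norm.comp (continuous_id.sub continuous_const)).continuousAt.eventually_lt_const hz
  filter_upwards [h1] with w hw l
  have h2 := (h.hasDerivAt_fl ha hw l).comp_sub_const w z0
  exact h2

end Run7.h418
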