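import Pool.Agent.Run7.h418.Vf

/-!
The space of the curves which satisfy the relations of a curve with a maximal set of relations.
-/

set_option autoImplicit false

open MvPolynomial Metric Set Filter Topology

namespace Run7.h418

open Pool.Agent.Y190.OP Pool.Agent.W602.GT Pool.Agent.N155

variable {N : ℕ}

theorem isCompact_PM (N : ℕ) : IsCompact (PM : Set (Mat N)) := by
  have hne : ∀ u ∈ sphere (0 : Fin N → ℂ) 1, u ≠ 0 := by
    rintro u hu rfl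
    rw [mem_sphere, dist_self] at hu
    exact zero_ne_one hu
  have himg : (PM : Set (Mat N)) = Phi '' sphere (0 : Fin N → ℂ) 1 := by
    ext M
    constructor
    · rintro ⟨u, hu, rfl⟩
      have hn : (‖u‖ : ℂ) ≠ 0 := by
        have := norm_pos_iff.2 hu
        exact_mod_cast this.ne'
      refine ⟨(‖u‖ : ℂ)⁻¹ • u, ?_, Phi_smul (inv_ne_zero hn) u⟩
      rw [mem_sphere, dist_zero_right, norm_smul, norm_inv, Complex.norm_real, norm_norm]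
      exact inv_mul_cancel₀ (by exact_mod_cast hn)
    · rintro ⟨u, hu, rfl⟩
      exact ⟨u, hne u hu, rfl⟩
  rw [himg]
  exact (isCompact_sphere 0 1).image_of_continuousOn fun u hu =>
    (continuousAt_Phi (hne u hu)).continuousWithinAt

/-- `f` is a curve with a maximal set of relations, `D i` is the vector field of the curves which
satisfy the relations of `f`. -/
structure Dat (f : ℂ → Mat N) (D : Fin N → Dr (Fin N ⊕ Fin N)) (C : ℝ) : Prop where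
  hol : HolP univ f
  Dinl : ∀ i k, D i (X (Sum.inl k)) = X (Sum.inr k)
  ode : ∀ (U : Set ℂ) (φ : ℂ → Mat N), IsOpen U → Sol (Vs (Rel f)) U φ → ∀ z ∈ U, ∀ i,
    φ z i i ≠ 0 → SolAt (D i) (pr i φ) z
  inl : ∀ i, ∀ a ∈ Vs (Rel f) i, a (Sum.inl i) = 1
  inr : ∀ i, ∀ a ∈ Vs (Rel f) i, a (Sum.inr i) = 0
  ne : ∀ i, ∀ a ∈ Vs (Rel f) i, a ∘ Sum.inr ≠ 0
  bd : ∀ i, ∀ a ∈ Vs (Rel f) i, a ∘ Sum.inl ∈ Kc i → ‖a ∘ Sum.inr‖ ≤ C
  mx : ∀ φ, Sol (Vs (Rel f)) univ φ → ∀ i, Rel φ i = Rel f i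

theorem Sol.mono {Z : Fin N → Set (Fin N ⊕ Fin N → ℂ)} {U V : Set ℂ} {φ : ℂ → Mat N}
    (h : Sol Z U φ) (hV : V ⊆ U) : Sol Z V φ := ⟨h.1.mono hV, fun z hz => h.2 z (hV hz)⟩

theorem sol_self {f : ℂ → Mat N} (h : HolP univ f) : Sol (Vs (Rel f)) univ f :=
  ⟨h, fun z _ _ hi _ hG => hG z hi⟩

/-- the initial value determines the curve -/
theorem pr_congr {φ ψ : ℂ → Mat N} {z : ℂ} (h : φ =ᶠ[𝓝 z] ψ) (i : Fin N) :
    pr i φ z = pr i ψ z := by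
  unfold pr
  have h1 : (fun w => chart i (φ w)) =ᶠ[𝓝 z] fun w => chart i (ψ w) := by
    filter_upwards [h] with w hw
    rw [hw]
  rw [h1.deriv_eq, h.eq_of_nhds]

theorem holP_at_congr {φ ψ : ℂ → Mat N} {V : Set ℂ} {z : ℂ} (hψ : HolP V ψ)
    (hz : z ∈ V) (h : φ =ᶠ[𝓝 z] ψ) : ∃ (V : Set ℂ) (F : ℂ → Fin N → ℂ), IsOpen V ∧ z ∈ V ∧
      DifferentiableOn ℂ F V ∧ ∀ w ∈ V, F w ≠ 0 ∧ φ w = Phi (F w) := by
  obtain ⟨V', G, hV', hzV', hG, hψG⟩ := hψ z hz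
  obtain ⟨W, hW, hWo, hzW⟩ := _root_.mem_nhds_iff.1 h
  refine ⟨V' ∩ W, G, hV'.inter hWo, ⟨hzV', hzW⟩, hG.mono inter_subset_left, fun w hw => ?_⟩
  have h1 : φ w = ψ w := hW hw.2
  rw [h1]
  exact hψG w hw.1

theorem eq_of_germs {U : Set ℂ} {Z : Fin N → Set (Fin N ⊕ Fin N → ℂ)} {φ : ℂ → Mat N}
    (hgerm : ∀ z ∈ U, ∃ (V : Set ℂ) (ψ : ℂ → Mat N), z ∈ V ∧ Sol Z V ψ ∧ φ =ᶠ[𝓝 z] ψ) :
    Sol Z U φ := by
  constructor
  · intro z hz
    obtain ⟨V, ψ, hzV, hψ, h⟩ := hgerm z hz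
    exact holP_at_congr hψ.1 hzV h
  · intro z hz i hi
    obtain ⟨V, ψ, hzV, hψ, h⟩ := hgerm z hz
    rw [pr_congr h]
    exact hψ.2 z hzV i (by rwa [← h.eq_of_nhds])

section dat

variable {f : ℂ → Mat N} {D : Fin N → Dr (Fin N ⊕ Fin N)} {C : ℝ}

theorem Dat.stab (h : Dat f D C) {i : Fin N} {G : Rn N} (hG : G ∈ Rel f i) :
    D i G ∈ Rel f i := by
  intro z hi
  have h1 := (h.ode univ f isOpen_univ (sol_self h.hol) z (mem_univ z) i hi).self_of_nhds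
  have h2 := (hasDerivAt_eval (D i) h1 G).deriv
  have h3 : (fun w => eval (pr i f w) G) =ᶠ[𝓝 z] fun _ => 0 := by
    filter_upwards [ev_diag h.hol (mem_univ z) hi] with w hw
    exact hG w hw
  rw [h3.deriv_eq, deriv_const] at h2
  exact h2.symm

theorem Dat.stab_iter (h : Dat f D C) {i : Fin N} (k : ℕ) {G : Rn N} (hG : G ∈ Rel f i) :
    (D i)^[k] G ∈ Rel f i := by
  induction k with
  | zero => exact hG
  | succ k ih =>
    rw [Function.iterate_succ_apply']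
    exact h.stab ih

/-- flows of vector fields which preserve the relations -/
theorem fl_mem {I : Ideal (Rn N)} {E : Dr (Fin N ⊕ Fin N)} (hE : ∀ G ∈ I, E G ∈ I)
    {B ρ : ℝ} (hR : Rad E B ρ) {a : Fin N ⊕ Fin N → ℂ} (ha : ∀ G ∈ I, eval a G = 0)
    (haB : ‖a‖ ≤ B) {z : ℂ} (hz : ‖z‖ ≤ ρ) : ∀ G ∈ I, eval (fl E a z) G = 0 := by
  intro G hG
  rw [hR.eval_fl G haB hz]
  unfold gs
  have h1 : ∀ k, E^[k] G ∈ I := by
    intro k
    induction k with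
    | zero => exact hG
    | succ k ih =>
      rw [Function.iterate_succ_apply']
      exact hE _ ih
  have h2 : ∀ k, cf E G a k * z ^ k = 0 := by
    intro k
    unfold cf
    rw [ha _ (h1 k), zero_div, zero_mul]
  simp only [h2, tsum_zero]

/-- curves in a chart -/
theorem Dat.chart_sol (h : Dat f D C) {U : Set ℂ} (hU : IsOpen U) {i : Fin N}
    {γ : ℂ → Fin N ⊕ Fin N → ℂ} (hγ : ∀ z ∈ U, γ z ∈ Vs (Rel f) i)
    (hd : ∀ z ∈ U, ∀ l, HasDerivAt (fun w => γ w l) (eval (γ z) (D i (X l))) z) :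
    Sol (Vs (Rel f)) U (fun z => Phi (γ z ∘ Sum.inl)) ∧
      ∀ z ∈ U, Phi (γ z ∘ Sum.inl) i i ≠ 0 ∧ pr i (fun z => Phi (γ z ∘ Sum.inl)) z = γ z := by
  have hne : ∀ z ∈ U, γ z ∘ Sum.inl ≠ 0 := by
    intro z hz h0
    have h1 := h.inl i _ (hγ z hz)
    have h2 := congrFun h0 i
    rw [Function.comp_apply, h1] at h2
    exact one_ne_zero h2
  have hdiag : ∀ z ∈ U, Phi (γ z ∘ Sum.inl) i i ≠ 0 := by
    intro z hz
    rw [Phi_diag_ne (hne z hz), Function.comp_apply, h.inl i _ (hγ z hz)]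
    exact one_ne_zero
  have hch : ∀ z ∈ U, chart i (Phi (γ z ∘ Sum.inl)) = γ z ∘ Sum.inl := by
    intro z hz
    have h1 : (γ z ∘ Sum.inl) i = 1 := h.inl i _ (hγ z hz)
    rw [chart_Phi (hne z hz) (by rw [h1]; exact one_ne_zero), h1, inv_one, one_smul]
  have hol : HolP U (fun z => Phi (γ z ∘ Sum.inl)) := by
    intro z hz
    refine ⟨U, fun w => γ w ∘ Sum.inl, hU, hz, fun w hw => ?_, fun w hw => ⟨hne w hw, rfl⟩⟩
    refine DifferentiableAt.differentiableWithinAt ?_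
    exact differentiableAt_pi.2 fun k => (hd w hw (Sum.inl k)).differentiableAt
  have hpr : ∀ z ∈ U, pr i (fun z => Phi (γ z ∘ Sum.inl)) z = γ z := by
    intro z hz
    funext l
    rcases l with k | k
    · rw [pr_inl, hch z hz]
      rfl
    · have h1 := hasDerivAt_chart hol hz (hdiag z hz) k
      have h2 := hd z hz (Sum.inl k)
      rw [h.Dinl, eval_X] at h2
      have h3 : (fun w => pr i (fun z => Phi (γ z ∘ Sum.inl)) w (Sum.inl k)) =ᶠ[𝓝 z]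
          fun w => γ w (Sum.inl k) := by
        filter_upwards [hU.mem_nhds hz] with w hw
        rw [pr_inl, hch w hw]
        rfl
      rw [← h1.deriv, h3.deriv_eq, h2.deriv]
  refine ⟨⟨hol, fun z hz k hk => ?_⟩, fun z hz => ⟨hdiag z hz, hpr z hz⟩⟩
  obtain ⟨h1, h2⟩ := pr_cc hU hol hz (hdiag z hz) hk
  rw [h2]
  rw [hpr z hz] at h1 ⊢
  exact cc_mem h.hol (hγ z hz) h1

/-- the initial value determines the curve -/
theorem Dat.unique (h : Dat f D C) {U V : Set ℂ} (hU : IsOpen U) (hV : IsOpen V)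
    {φ ψ : ℂ → Mat N} (hφ : Sol (Vs (Rel f)) U φ) (hψ : Sol (Vs (Rel f)) V ψ) {z : ℂ}
    (hzU : z ∈ U) (hzV : z ∈ V) {i : Fin N} (hi : φ z i i ≠ 0) (hi' : ψ z i i ≠ 0)
    (he : pr i φ z = pr i ψ z) : φ =ᶠ[𝓝 z] ψ := by
  have h1 := h.ode U φ hU hφ z hzU i hi
  have h2 := h.ode V ψ hV hψ z hzV i hi'
  have h3 := h1.eq_of h2 he
  filter_upwards [h3, ev_holP hU hzU hφ.1 hi, ev_holP hV hzV hψ.1 hi'] with w hw hw1 hw2
  rw [← PM.Phi_chart (hφ.1.mem_PM hw1.1) hw1.2, ← PM.Phi_chart (hψ.1.mem_PM hw2.1) hw2.2]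
  congr 1
  funext k
  exact congrFun hw (Sum.inl k)

theorem cc_cc {i k : Fin N} {a : Fin N ⊕ Fin N → ℂ} (h1 : a (Sum.inl i) = 1)
    (h2 : a (Sum.inr i) = 0) (hk : a (Sum.inl k) ≠ 0) : cc i (cc k a) = a := by
  funext l
  rcases l with l | l
  · rw [cc_inl, cc_inl, cc_inl, h1]
    field_simp
  · rw [cc_inr, cc_inl, cc_inr, cc_inl, cc_inr, h1, h2]
    field_simp
    ring

theorem Dat.radii (h : Dat f D C) : ∃ ρ : ℝ, 0 < ρ ∧ ∀ i, ∀ a ∈ Vs (Rel f) i,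
    a ∘ Sum.inl ∈ Kc i → ∃ B, Rad (D i) B ρ ∧ ‖a‖ < B := by
  choose ρ hρ using fun i => exists_rad (D i) (B := max 1 C + 1) (by positivity)
  obtain ⟨δ, hδ, hδρ⟩ : ∃ δ : ℝ, 0 < δ ∧ ∀ i, δ ≤ ρ i := by
    rcases isEmpty_or_nonempty (Fin N) with hN | hN
    · exact ⟨1, one_pos, fun i => isEmptyElim i⟩
    · obtain ⟨i, hi⟩ := Finite.exists_min ρ
      exact ⟨ρ i, (hρ i).pos, hi⟩
  refine ⟨δ, hδ, fun i a ha haK => ⟨_, (hρ i).mono hδ (hδρ i), ?_⟩⟩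
  refine lt_of_le_of_lt ?_ (lt_add_one _)
  rw [pi_norm_le_iff_of_nonneg (by positivity)]
  rintro (k | k)
  · exact (norm_le_pi_norm (a ∘ Sum.inl) k).trans (haK.2.trans (le_max_left _ _))
  · exact (norm_le_pi_norm (a ∘ Sum.inr) k).trans ((h.bd i a ha haK).trans (le_max_right _ _))

/-- change to a chart with the largest coordinate -/
theorem Dat.exists_Kc (h : Dat f D C) {i : Fin N} {a : Fin N ⊕ Fin N → ℂ}
    (ha : a ∈ Vs (Rel f) i) : ∃ k, a (Sum.inl k) ≠ 0 ∧ cc k a ∈ Vs (Rel f) k ∧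
      cc k a ∘ Sum.inl ∈ Kc k := by
  have hne : a ∘ Sum.inl ≠ 0 := by
    intro h0
    have h2 := congrFun h0 i
    rw [Function.comp_apply, h.inl i a ha] at h2
    exact one_ne_zero h2
  obtain ⟨k, hk, hkK⟩ := exists_max (M := Phi (a ∘ Sum.inl)) ⟨_, hne, rfl⟩
  have h1 : a (Sum.inl k) ≠ 0 := (Phi_diag_ne hne).1 hk
  refine ⟨k, h1, cc_mem h.hol ha h1, ?_⟩
  rw [chart_Phi hne h1] at hkK
  have h2 : cc k a ∘ Sum.inl = (a (Sum.inl k))⁻¹ • (a ∘ Sum.inl) := by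
    funext l
    simp only [Function.comp_apply, cc_inl, Pi.smul_apply, smul_eq_mul]
    rw [div_eq_inv_mul]
  rw [h2]
  exact hkK

/-- local solutions, with a uniform radius -/
theorem Dat.exists_loc (h : Dat f D C) : ∃ ρ : ℝ, 0 < ρ ∧ ∀ i, ∀ a ∈ Vs (Rel f) i, ∀ z0 : ℂ,
    ∃ ψ : ℂ → Mat N, Sol (Vs (Rel f)) (ball z0 ρ) ψ ∧ ψ z0 i i ≠ 0 ∧ pr i ψ z0 = a := by
  obtain ⟨ρ, hρ, hR⟩ := h.radii
  refine ⟨ρ, hρ, fun i a ha z0 => ?_⟩
  obtain ⟨k, hk, hkV, hkK⟩ := h.exists_Kc ha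
  obtain ⟨B, hB, hBa⟩ := hR k _ hkV hkK
  have h1 := h.chart_sol (U := ball z0 ρ) isOpen_ball (i := k)
    (γ := fun z => fl (D k) (cc k a) (z - z0)) (fun z hz => by
      refine fl_mem (fun G hG => h.stab hG) hB hkV hBa.le ?_
      exact (mem_ball_iff_norm.1 hz).le) (fun z hz l => by
      have h2 := (hB.hasDerivAt_fl hBa.le (mem_ball_iff_norm.1 hz) l).comp_sub_const z z0
      exact h2)
  obtain ⟨h2, h3⟩ := h1
  obtain ⟨h4, h5⟩ := h3 z0 (mem_ball_self hρ)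
  rw [sub_self, fl_zero] at h4 h5
  have hcne : cc k a ∘ Sum.inl ≠ 0 := Kc_ne hkK
  have h6 : Phi (cc k a ∘ Sum.inl) i i ≠ 0 := by
    rw [Phi_diag_ne hcne, Function.comp_apply, cc_inl, h.inl i a ha]
    exact div_ne_zero one_ne_zero hk
  refine ⟨_, h2, ?_, ?_⟩
  · rw [sub_self, fl_zero]
    exact h6
  · have h7 : (fun z => Phi (fl (D k) (cc k a) (z - z0) ∘ Sum.inl)) z0 k k ≠ 0 := by
      change Phi (fl (D k) (cc k a) (z0 - z0) ∘ Sum.inl) k k ≠ 0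
      rw [sub_self, fl_zero]
      exact h4
    have h8 : (fun z => Phi (fl (D k) (cc k a) (z - z0) ∘ Sum.inl)) z0 i i ≠ 0 := by
      change Phi (fl (D k) (cc k a) (z0 - z0) ∘ Sum.inl) i i ≠ 0
      rw [sub_self, fl_zero]
      exact h6
    obtain ⟨-, h9⟩ := pr_cc isOpen_ball h2.1 (mem_ball_self hρ) h7 h8
    rw [h9, h5]
    exact cc_cc (h.inl i a ha) (h.inr i a ha) hk

theorem Dat.eqOn (_h : Dat f D C) {U V : Set ℂ} (hU : IsOpen U) (hV : IsOpen V)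
    (hUc : Convex ℝ U) (hVc : Convex ℝ V)
    {φ ψ : ℂ → Mat N} (hφ : Sol (Vs (Rel f)) U φ) (hψ : Sol (Vs (Rel f)) V ψ) {z : ℂ}
    (hzU : z ∈ U) (hzV : z ∈ V) (he : φ =ᶠ[𝓝 z] ψ) : EqOn φ ψ (U ∩ V) :=
  holP_eqOn (hU.inter hV) (hUc.inter hVc).isPreconnected (hφ.1.mono inter_subset_left)
    (hψ.1.mono inter_subset_right) ⟨hzU, hzV⟩ he

/-- extension of solutions -/
theorem Dat.exists_ext (h : Dat f D C) : ∃ ρ : ℝ, 0 < ρ ∧ ∀ (r : ℝ), 0 < r → ∀ φ : ℂ → Mat N,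
    Sol (Vs (Rel f)) (ball 0 r) φ → ∃ ψ : ℂ → Mat N, Sol (Vs (Rel f)) (ball 0 (r + ρ)) ψ ∧
      EqOn ψ φ (ball 0 r) := by
  obtain ⟨ρ, hρ, hloc⟩ := h.exists_loc
  refine ⟨ρ / 2, by positivity, fun r hr φ hφ => ?_⟩
  have h1 : ∀ b : ℂ, ∃ ψ : ℂ → Mat N, b ∈ ball (0 : ℂ) r →
      Sol (Vs (Rel f)) (ball b ρ) ψ ∧ φ =ᶠ[𝓝 b] ψ := by
    intro b
    by_cases hb : b ∈ ball (0 : ℂ) r
    · obtain ⟨i, hi⟩ := PM.exists_diag (hφ.1.mem_PM hb)
      obtain ⟨ψ, h2, h3, h4⟩ := hloc i _ (hφ.2 b hb i hi) b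
      exact ⟨ψ, fun _ => ⟨h2, h.unique isOpen_ball isOpen_ball hφ h2 hb (mem_ball_self hρ) hi h3
        h4.symm⟩⟩
    · exact ⟨φ, fun h => absurd h hb⟩
  choose ψ hψ using h1
  set q : ℝ := r / (r + ρ / 2) with hq
  have hq0 : 0 < q := by positivity
  have hqr : q * (r + ρ / 2) = r := by rw [hq]; field_simp
  have hq1 : q ≤ 1 := by
    rw [hq, div_le_one (by positivity)]
    linarith
  set β : ℂ → ℂ := fun w => (q : ℂ) * w with hβ
  have hβr : ∀ w ∈ ball (0 : ℂ) (r + ρ / 2), β w ∈ ball (0 : ℂ) r := by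
    intro w hw
    rw [mem_ball_zero_iff] at hw ⊢
    rw [hβ, norm_mul, Complex.norm_real, Real.norm_of_nonneg hq0.le, ← hqr]
    exact mul_lt_mul_of_pos_left hw hq0
  have hβw : ∀ w ∈ ball (0 : ℂ) (r + ρ / 2), ‖w - β w‖ < ρ / 2 := by
    intro w hw
    rw [mem_ball_zero_iff] at hw
    have h2 : w - β w = ((1 - q : ℝ) : ℂ) * w := by rw [hβ]; push_cast; ring
    rw [h2, norm_mul, Complex.norm_real, Real.norm_of_nonneg (by linarith)]
    have h3 : (1 - q) * (r + ρ / 2) = ρ / 2 := by linarith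
    rw [← h3]
    have h4 : 0 < 1 - q := by
      by_contra h5
      have h6 : 1 - q = 0 := by linarith
      rw [h6] at h3
      linarith
    exact mul_lt_mul_of_pos_left hw h4
  have hβl : ∀ w w', ‖β w - β w'‖ ≤ ‖w - w'‖ := by
    intro w w'
    have h2 : β w - β w' = (q : ℂ) * (w - w') := by rw [hβ]; ring
    rw [h2, norm_mul, Complex.norm_real, Real.norm_of_nonneg hq0.le]
    nlinarith [norm_nonneg (w - w')]
  have hφψ : ∀ b ∈ ball (0 : ℂ) r, EqOn φ (ψ b) (ball 0 r ∩ ball b ρ) := by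
    intro b hb
    obtain ⟨h2, h3⟩ := hψ b hb
    exact h.eqOn isOpen_ball isOpen_ball (convex_ball _ _) (convex_ball _ _) hφ h2 hb
      (mem_ball_self hρ) h3
  have hψψ : ∀ b ∈ ball (0 : ℂ) r, ∀ b' ∈ ball (0 : ℂ) r, ‖b - b'‖ < ρ →
      EqOn (ψ b) (ψ b') (ball b ρ ∩ ball b' ρ) := by
    intro b hb b' hb' hbb
    obtain ⟨h2, h3⟩ := hψ b hb
    obtain ⟨h2', -⟩ := hψ b' hb'
    have hbm : b ∈ ball b' ρ := mem_ball_iff_norm.2 hbb
    refine h.eqOn isOpen_ball isOpen_ball (convex_ball _ _) (convex_ball _ _) h2 h2'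
      (mem_ball_self hρ) hbm ?_
    have h4 : φ =ᶠ[𝓝 b] ψ b' := by
      filter_upwards [(isOpen_ball.inter isOpen_ball).mem_nhds
        (⟨hb, hbm⟩ : b ∈ ball (0 : ℂ) r ∩ ball b' ρ)] with w hw
      exact hφψ b' hb' hw
    exact h3.symm.trans h4
  refine ⟨fun w => ψ (β w) w, eq_of_germs fun w0 hw0 => ?_, fun w hw => ?_⟩
  · refine ⟨ball (β w0) ρ, ψ (β w0), ?_, (hψ _ (hβr w0 hw0)).1, ?_⟩
    · exact mem_ball_iff_norm.2 ((hβw w0 hw0).trans (by linarith))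
    · filter_upwards [isOpen_ball.mem_nhds hw0, ball_mem_nhds w0 (half_pos hρ)] with w hw hw1
      have hw2 : ‖w - w0‖ < ρ / 2 := mem_ball_iff_norm.1 hw1
      refine hψψ _ (hβr w hw) _ (hβr w0 hw0) ((hβl w w0).trans_lt (by linarith)) ⟨?_, ?_⟩
      · exact mem_ball_iff_norm.2 ((hβw w hw).trans (by linarith))
      · rw [mem_ball_iff_norm]
        calc ‖w - β w0‖ = ‖(w - w0) + (w0 - β w0)‖ := by ring_nf
          _ ≤ ‖w - w0‖ + ‖w0 - β w0‖ := norm_add_le _ _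
          _ < ρ / 2 + ρ / 2 := add_lt_add hw2 (hβw w0 hw0)
          _ = ρ := by ring
  · have hw' : w ∈ ball (0 : ℂ) (r + ρ / 2) := ball_subset_ball (by linarith) hw
    refine (hφψ _ (hβr w hw') ⟨hw, ?_⟩).symm
    exact mem_ball_iff_norm.2 ((hβw w hw').trans (by linarith))

/-- each point is the initial value of an entire curve -/
theorem Dat.exists_sol (h : Dat f D C) {i : Fin N} {a : Fin N ⊕ Fin N → ℂ}
    (ha : a ∈ Vs (Rel f) i) :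
    ∃ φ : ℂ → Mat N, Sol (Vs (Rel f)) univ φ ∧ φ 0 i i ≠ 0 ∧ pr i φ 0 = a := by
  obtain ⟨ρ, hρ, hloc⟩ := h.exists_loc
  obtain ⟨ρ', hρ', hext⟩ := h.exists_ext
  obtain ⟨ψ, hψ, hψi, hψa⟩ := hloc i a ha 0
  have h1 : ∀ n : ℕ, ∃ φ : ℂ → Mat N, Sol (Vs (Rel f)) (ball 0 (ρ + n * ρ')) φ ∧ φ =ᶠ[𝓝 0] ψ := by
    intro n
    induction n with
    | zero =>
      refine ⟨ψ, ?_, Filter.EventuallyEq.rfl⟩
      rw [Nat.cast_zero, zero_mul, add_zero]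
      exact hψ
    | succ n ih =>
      obtain ⟨φ, hφ, hφψ⟩ := ih
      obtain ⟨φ', hφ', he⟩ := hext (ρ + n * ρ') (by positivity) φ hφ
      refine ⟨φ', ?_, ?_⟩
      · have : ρ + ((n + 1 : ℕ) : ℝ) * ρ' = ρ + n * ρ' + ρ' := by push_cast; ring
        rw [this]
        exact hφ'
      · refine Filter.EventuallyEq.trans ?_ hφψ
        filter_upwards [ball_mem_nhds (0 : ℂ) (by positivity : 0 < ρ + n * ρ')] with w hw
        exact he hw
  have h2 : ∀ R : ℝ, ∃ φ : ℂ → Mat N, Sol (Vs (Rel f)) (ball 0 R) φ ∧ φ =ᶠ[𝓝 0] ψ := by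
    intro R
    obtain ⟨n, hn⟩ := exists_nat_ge (R / ρ')
    obtain ⟨φ, hφ, hφψ⟩ := h1 n
    refine ⟨φ, hφ.mono (ball_subset_ball ?_), hφψ⟩
    rw [div_le_iff₀ hρ'] at hn
    linarith
  choose Φ hΦ hΦψ using h2
  have h3 : ∀ R R' : ℝ, 0 < R → 0 < R' → EqOn (Φ R) (Φ R') (ball 0 R ∩ ball 0 R') := by
    intro R R' hR hR'
    exact h.eqOn isOpen_ball isOpen_ball (convex_ball _ _) (convex_ball _ _) (hΦ R) (hΦ R')
      (mem_ball_self hR) (mem_ball_self hR') ((hΦψ R).trans (hΦψ R').symm)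
  have h4 : ∀ z0 : ℂ, (fun w => Φ (‖w‖ + 1) w) =ᶠ[𝓝 z0] Φ (‖z0‖ + 1) := by
    intro z0
    filter_upwards [isOpen_ball.mem_nhds (mem_ball_zero_iff.2 (by linarith :
      ‖z0‖ < ‖z0‖ + 1))] with w hw
    exact h3 _ _ (by positivity) (by positivity) ⟨mem_ball_zero_iff.2 (by linarith), hw⟩
  have h5 : (fun w => Φ (‖w‖ + 1) w) =ᶠ[𝓝 0] ψ := (h4 0).trans (hΦψ _)
  refine ⟨fun w => Φ (‖w‖ + 1) w, eq_of_germs fun z0 _ => ⟨ball 0 (‖z0‖ + 1), Φ (‖z0‖ + 1),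
    mem_ball_zero_iff.2 (by linarith), hΦ _, h4 z0⟩, ?_, ?_⟩
  · have h6 : (fun w => Φ (‖w‖ + 1) w) 0 = ψ 0 := h5.eq_of_nhds
    rw [h6]
    exact hψi
  · rw [pr_congr h5]
    exact hψa

/-- `D`-simplicity -/
theorem Dat.simple (h : Dat f D C) {i : Fin N} {I : Ideal (Rn N)} (hI : Rel f i ≤ I)
    (hD : ∀ G ∈ I, D i G ∈ I) (hne : I ≠ ⊤) : I = Rel f i := by
  refine le_antisymm ?_ hI
  obtain ⟨a, ha⟩ := exists_point hne
  obtain ⟨φ, hφ, hi, hφa⟩ := h.exists_sol (i := i) (a := a) fun G hG => ha G (hI hG)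
  intro G hG
  rw [← h.mx φ hφ i]
  refine rel_of_near hφ.1 hi ?_
  have h1 := h.ode univ φ isOpen_univ hφ 0 (mem_univ 0) i hi
  refine eq_of_iter (g := fun _ => (0 : ℂ)) ?_ analyticAt_const fun k => ?_
  · exact analyticAt_eval (fun l => analyticAt_pr isOpen_univ hφ.1 (mem_univ 0) hi l) G
  · rw [h1.iter k G, hφa]
    have h2 : (D i)^[k] G ∈ I := by
      induction k with
      | zero => exact hG
      | succ k ih =>
        rw [Function.iterate_succ_apply']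
        exact hD _ ih
    rw [ha _ h2]
    rcases k with _ | k
    · simp
    · simp

/-- compactness -/
theorem Dat.compact (h : Dat f D C) {𝓤 : Ultrafilter ℕ} {φ : ℕ → ℂ → Mat N}
    (hφ : ∀ k, Sol (Vs (Rel f)) univ (φ k)) : ∃ ψ : ℂ → Mat N, Sol (Vs (Rel f)) univ ψ ∧
      CConv (𝓤 : Filter ℕ) univ φ ψ := by
  obtain ⟨A, hA, hAb⟩ := norm_der N
  obtain ⟨ψ, hψ, -, hc, -⟩ := exists_limit (isCompact_PM N) le_rfl (𝓤 := 𝓤) (h := φ) (K := A * C)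
    (fun k => (hφ k).1) (fun k z => (hφ k).1.mem_PM (mem_univ z)) (fun k z => by
      obtain ⟨i, hi, hiK⟩ := exists_max ((hφ k).1.mem_PM (mem_univ z))
      refine ((hAb univ _ isOpen_univ (hφ k).1 z (mem_univ z) i hi hiK).1).trans ?_
      have h1 := h.bd i _ ((hφ k).2 z (mem_univ z) i hi) hiK
      have h2 : pr i (φ k) z ∘ Sum.inr = deriv (fun w => chart i (φ k w)) z := rfl
      rw [h2] at h1
      gcongr)
  refine ⟨ψ, ⟨hψ, fun z _ i hi G hG => ?_⟩, hc⟩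
  obtain ⟨h1, h2⟩ := tendsto_pr (fun k => (hφ k).1) hψ hc hi
  have h3 : Tendsto (fun k => eval (pr i (φ k) z) G) 𝓤 (𝓝 (eval (pr i ψ z) G)) :=
    ((continuous_eval' G).tendsto _).comp h2
  refine tendsto_nhds_unique h3 (tendsto_const_nhds.congr' ?_)
  filter_upwards [h1] with k hk
  exact ((hφ k).2 z (mem_univ z) i hk G hG).symm

end dat

end Run7.h418
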