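import Pool.Agent.Run7.h418.Orb2

/-!
The curves of the orbits of a one-parameter group, when the transcendence degree is minimal.
-/

set_option autoImplicit false

open MvPolynomial Metric Set Filter Topology

namespace Run7.h418

open Pool.Agent.Y190.OP Pool.Agent.W602.GT Pool.Agent.N155

/-- the coordinates and their derivatives in the direction of `U` -/
noncomputable def tht {N : ℕ} (U : Dr (Fin N ⊕ Fin N)) : Rn N →ₐ[ℂ] Rn N :=
  aeval (Sum.elim (fun l => X (Sum.inl l)) fun l => U (X (Sum.inl l)))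

theorem eval_tht {N : ℕ} (U : Dr (Fin N ⊕ Fin N)) (a : Fin N ⊕ Fin N → ℂ) (G : Rn N) :
    eval a (tht U G) = eval (Sum.elim (a ∘ Sum.inl) fun l => eval a (U (X (Sum.inl l)))) G := by
  induction G using MvPolynomial.induction_on with
  | C c => rw [eval_C, tht, aeval_C, MvPolynomial.algebraMap_eq, eval_C]
  | add p q hp hq => rw [map_add, map_add, map_add, hp, hq]
  | mul_X p l hp =>
    rw [map_mul, map_mul, map_mul, hp, eval_X, tht, aeval_X]
    rcases l with l | l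
    · rw [Sum.elim_inl, Sum.elim_inl, eval_X]
      rfl
    · rw [Sum.elim_inr, Sum.elim_inr]

section emb

variable {n : ℕ} {ι κ : Type} {F : ι → MvPolynomial (Fin (n + 1)) ℂ}
  {σ : κ → (Fin (n + 1) → ℂ) → (Fin (n + 1) → ℂ) → ℂ} {m : κ → ℕ} {c : κ → ℂ}
  {f : ℂ → Mat (n + 1)} {D : Fin (n + 1) → Dr (Fin (n + 1) ⊕ Fin (n + 1))} {C : ℝ}
  {act : (Fin 1 → ℂ) → Ws f → Ws f} {ε : ℝ} {U : Fin (n + 1) → Dr (Fin (n + 1) ⊕ Fin (n + 1))}
  {M : Type} [Field M] [Algebra ℂ M] {ev : Fin (n + 1) → Rn (n + 1) →ₐ[ℂ] M}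
  {δ : Derivation ℂ M M}

/-- the direction of a one-parameter group -/
def e1 : Fin 1 → ℂ := fun _ => 1

theorem sum_e1 (U : Fin (n + 1) → Dr (Fin (n + 1) ⊕ Fin (n + 1))) :
    (∑ b, e1 b • (fun _ : Fin 1 => U) b) = U := by
  simp [e1]

/-- the coordinates of the orbit -/
theorem IsAct.pr_orb' (h : Dat f D C) (hC : Cmp f U) (hA : IsAct f C (fun _ : Fin 1 => U) act ε)
    (φ : Ws f) (s : ℂ) {k : Fin (n + 1)} (hk : orb act e1 φ s k k ≠ 0) (G : Rn (n + 1)) :
    eval (pr k (orb act e1 φ) s) G = eval (pr k (act (s • e1) φ).1 0) (tht (U k) G) := by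
  have h1 := hA.pr_orb h (fun _ => hC) φ e1 s hk
  rw [sum_e1] at h1
  rw [eval_tht]
  congr 2
  unfold pr
  rw [h1.deriv]
  rfl

/-- **Orbits are Zariski dense, and their curves.** -/
theorem exists_emb [Finite κ] (hF : ∀ j, IsForm (F j)) (hm : ∀ j, 0 < m j)
    (hσ : ∀ j, SymForm F (m j) (σ j)) (him : Immersive F σ) {w : ℕ} (hlow : Low F σ w)
    (h : Dat f D C) (hV : ∀ i, Vs (Rel f) i ⊆ Ep F σ c i) (hM : IsFd f D ev δ)
    (hw : Algebra.trdeg ℂ M = w) {u : Derivation ℂ M M} (hδu : ⁅δ, u⁆ = 0) (hu : u ≠ 0)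
    (hU : ∀ k, (∃ z, f z k k ≠ 0) → ∀ G, ev k (U k G) = u (ev k G))
    (hC : Cmp f U) (hA : IsAct f C (fun _ : Fin 1 => U) act ε) (φ : Ws f) :
    ∃ (c' : κ → ℂ) (f' : ℂ → Mat (n + 1)) (D' : Fin (n + 1) → Dr (Fin (n + 1) ⊕ Fin (n + 1)))
      (C' : ℝ) (k : Fin (n + 1)), Dat f' D' C' ∧ (∀ i, Vs (Rel f') i ⊆ Ep F σ c' i) ∧
      (∃ z, f' z k k ≠ 0) ∧ (∃ z, orb act e1 φ z k k ≠ 0) ∧ (∃ z, f z k k ≠ 0) ∧
      (∀ G, G ∈ Rel f' k ↔ tht (U k) G ∈ Rel f k) ∧
      (∀ s0, orb act e1 φ s0 k k ≠ 0 → ∀ G,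
        (∀ᶠ s in 𝓝 s0, eval (pr k (act (s • e1) φ).1 0) G = 0) → G ∈ Rel f k) ∧
      ∀ G, tht (U k) (D' k G) - U k (tht (U k) G) ∈ Rel f k := by
  classical
  have hVC : ∀ b, Cmp f ((fun _ : Fin 1 => U) b) := fun _ => hC
  set y := orb act e1 φ with hy
  obtain ⟨c', hc'⟩ := hA.orb_ep hF hσ h hV hVC φ e1
  -- the commutator
  have hDU : ∀ i G, ⁅D i, U i⁆ G ∈ Rel f i := by
    intro i G
    by_cases hi : ∃ z, f z i i ≠ 0
    · rw [← hM.ker i hi, Derivation.commutator_apply, map_sub, ← hM.der i hi, hU i hi, hU i hi,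
        ← hM.der i hi]
      have h1 := congrArg (fun w : Derivation ℂ M M => w (ev i G)) hδu
      simp only [Derivation.commutator_apply, Derivation.coe_zero, Pi.zero_apply] at h1
      exact h1
    · push Not at hi
      exact fun z hz => absurd (hi z) hz
  have hne : ¬ ∀ z, y z = y 0 := by
    intro h0
    obtain ⟨i, hi, h1⟩ := hA.orb_const h hVC φ e1 (by rw [sum_e1]; exact hDU) h0
    rw [sum_e1] at h1
    apply hu
    refine hM.der_ext hi fun l => ?_
    rw [← hU i hi, hM.ker i hi]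
    exact h1 l
  obtain ⟨f', D', C', hDat', hV', hle, hode⟩ := exists_dat_ge hσ hm him
    (const_ne hσ him hc' hne) hc'
  obtain ⟨k, hk0⟩ := PM.exists_diag (hDat'.hol.mem_PM (mem_univ (0 : ℂ)))
  have hk' : ∃ z, f' z k k ≠ 0 := ⟨0, hk0⟩
  have hky : ∃ z, y z k k ≠ 0 := by
    by_contra hcon
    push Not at hcon
    have h1 : (1 : Rn (n + 1)) ∈ Rel y k := fun z hz => absurd (hcon z) hz
    have h2 := hle k h1 0 hk0
    rw [map_one] at h2
    exact one_ne_zero h2
  have hkf : ∃ z, f z k k ≠ 0 := by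
    obtain ⟨z, hz⟩ := hky
    exact chart_of_mem ((act (z • e1) φ).2.2 0 (mem_univ 0) k hz)
  obtain ⟨M', hM'f, hM'a, ev', δ', hM'⟩ := hDat'.exists_field hk'
  have hwle := hlow c' f' D' C' hDat' hV' M' hM'f hM'a ev' δ' hM'
  obtain ⟨w', x', hx'⟩ := exists_tb (ev' k) (hM'.fr hk')
  have hww : w ≤ w' := by
    rw [tb_card hx'] at hwle
    exact_mod_cast hwle
  set x : Fin w → Rn (n + 1) := fun t => x' (Fin.castLE hww t) with hx
  have hxi : ∀ P : MvPolynomial (Fin w) ℂ, aeval x P ∈ Rel f' k → P = 0 := by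
    intro P hP
    have h1 : AlgebraicIndependent ℂ (fun t => ev' k (x t)) :=
      hx'.1.comp (Fin.castLE hww) (Fin.castLE_injective hww)
    refine algebraicIndependent_iff.1 h1 P ?_
    have h2 : ((ev' k).comp (aeval x) : MvPolynomial (Fin w) ℂ →ₐ[ℂ] M') =
        aeval fun t => ev' k (x t) := MvPolynomial.algHom_ext fun t => by simp
    rw [← h2, AlgHom.comp_apply, hM'.ker k hk']
    exact hP
  have hhol : HolP univ y := hA.orb_hol h hVC φ e1
  -- density
  have hdense : ∀ s0, y s0 k k ≠ 0 → ∀ G,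
      (∀ᶠ s in 𝓝 s0, eval (pr k (act (s • e1) φ).1 0) G = 0) → G ∈ Rel f k := by
    intro s0 hs0 G hG
    set R : Ideal (Rn (n + 1)) :=
      { carrier := {G | ∀ᶠ s in 𝓝 s0, eval (pr k (act (s • e1) φ).1 0) G = 0}
        add_mem' := fun {a b} ha hb => by
          filter_upwards [ha, hb] with s h1 h2
          rw [map_add, h1, h2, add_zero]
        zero_mem' := Eventually.of_forall fun s => map_zero _
        smul_mem' := fun c a ha => by
          filter_upwards [ha] with s h1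
          rw [smul_eq_mul, map_mul, h1, mul_zero] } with hR
    have hRel : ∀ G, tht (U k) G ∈ R → G ∈ Rel y k := by
      intro G hG
      refine rel_of_near hhol hs0 ?_
      filter_upwards [hG, ev_diag hhol (mem_univ s0) hs0] with s h1 h2
      rw [hA.pr_orb' h hC φ s h2]
      exact h1
    rw [← hM.ker k hkf]
    refine eq_zero_of_mem (ev k) (R := R) (fun a ha => ?_) (w := w)
      (x := fun t => tht (U k) (x t)) (fun P hP => ?_) hw hG
    · rw [hM.ker k hkf] at ha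
      filter_upwards [ev_diag hhol (mem_univ s0) hs0] with s h2
      exact (act (s • e1) φ).2.2 0 (mem_univ 0) k h2 a ha
    · have h2 : ((tht (U k)).comp (aeval x) : MvPolynomial (Fin w) ℂ →ₐ[ℂ] Rn (n + 1)) =
          aeval fun t => tht (U k) (x t) := MvPolynomial.algHom_ext fun t => by simp
      rw [← h2, AlgHom.comp_apply] at hP
      exact hxi P (hle k (hRel _ hP))
  obtain ⟨s0, hs0⟩ := hky
  refine ⟨c', f', D', C', k, hDat', hV', hk', ⟨s0, hs0⟩, hkf, fun G => ⟨fun hG => ?_, fun hG => ?_⟩,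
    hdense, fun G => ?_⟩
  · rw [← hM.ker k hkf]
    refine eq_zero_of_mem ((ev k).comp (tht (U k))) (R := Rel f' k) (fun a ha => ?_) (w := w)
      (x := x) hxi hw hG
    rw [AlgHom.comp_apply, hM.ker k hkf] at ha
    refine hle k fun z hz => ?_
    rw [hA.pr_orb' h hC φ z hz]
    exact (act (z • e1) φ).2.2 0 (mem_univ 0) k hz _ ha
  · refine hle k fun z hz => ?_
    rw [hA.pr_orb' h hC φ z hz]
    exact (act (z • e1) φ).2.2 0 (mem_univ 0) k hz _ hG
  · refine hdense s0 hs0 _ ?_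
    filter_upwards [ev_diag hhol (mem_univ s0) hs0] with s hs
    rw [map_sub, sub_eq_zero]
    have h1 := hasDerivAt_eval (D' k) (hode s k hs).self_of_nhds G
    have h2 := (hA.sol h hVC φ e1 s hs).2.self_of_nhds
    rw [sum_e1] at h2
    have h3 := hasDerivAt_eval (U k) h2 (tht (U k) G)
    have h4 : (fun s => eval (pr k y s) G) =ᶠ[𝓝 s]
        fun s => eval (pr k (act (s • e1) φ).1 0) (tht (U k) G) := by
      filter_upwards [ev_diag hhol (mem_univ s) hs] with s' hs'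
      exact hA.pr_orb' h hC φ s' hs' G
    have h5 := (h3.congr_of_eventuallyEq h4).unique h1
    rw [h5]
    exact (hA.pr_orb' h hC φ s hs _).symm

end emb

end Run7.h418
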