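import Pool.Agent.Run7.h418.Ident

/-!
Projective sets as compact sets of projection matrices; limits of curves; the norm of the derivative.
-/

set_option autoImplicit false

open MvPolynomial Metric Set Filter Topology

namespace Run7.h418

open Pool.Agent.Y190.OP Pool.Agent.W602.GT Pool.Agent.N155

section geo

variable {n : ℕ} {ι : Type} {F : ι → MvPolynomial (Fin (n + 1)) ℂ}

theorem val_ev (x : Fin (n + 1) → ℂ) (G : MvPolynomial (Fin (n + 1)) ℂ) : val x G = eval x G := by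
  unfold val
  exact congrFun (MvPolynomial.aeval_eq_eval x) G

theorem eval_hom {G : MvPolynomial (Fin (n + 1)) ℂ} {d : ℕ} (hG : G.IsHomogeneous d) (c : ℂ)
    (v : Fin (n + 1) → ℂ) : eval (c • v) G = c ^ d * eval v G := by
  simp only [MvPolynomial.eval_eq, Pi.smul_apply, smul_eq_mul]
  rw [Finset.mul_sum]
  refine Finset.sum_congr rfl fun s hs => ?_
  have hd : ∑ i, s i = d := by
    have := hG (mem_support_iff.mp hs)
    rw [← this, Finsupp.weight_apply, Finsupp.sum_fintype _ _ (fun _ => by simp)]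
    simp
  simp only [mul_pow]
  rw [Finset.prod_mul_distrib]
  have h3 : ∏ i ∈ s.support, c ^ s i = c ^ d := by
    rw [Finset.prod_pow_eq_pow_sum]
    congr 1
    rw [← hd]
    refine Finset.sum_subset (Finset.subset_univ _) fun i _ hi => ?_
    simpa using hi
  rw [h3]
  ring

theorem mem_cone {x : Fin (n + 1) → ℂ} : x ∈ Cone F ↔ x ≠ 0 ∧ ∀ i, eval x (F i) = 0 := by
  unfold Cone
  constructor
  · rintro ⟨h1, h2⟩
    exact ⟨h1, fun i => by rw [← val_ev]; exact h2 i⟩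
  · rintro ⟨h1, h2⟩
    exact ⟨h1, fun i => by rw [val_ev]; exact h2 i⟩

theorem cone_smul (hF : ∀ i, IsForm (F i)) {u : Fin (n + 1) → ℂ} (hu : u ∈ Cone F) {c : ℂ}
    (hc : c ≠ 0) : c • u ∈ Cone F := by
  rw [mem_cone] at hu ⊢
  refine ⟨smul_ne_zero hc hu.1, fun i => ?_⟩
  obtain ⟨e, he⟩ := hF i
  rw [eval_hom he, hu.2 i, mul_zero]

/-- the set of matrices of a projective set -/
def TF (F : ι → MvPolynomial (Fin (n + 1)) ℂ) : Set (Mat (n + 1)) := Phi '' Cone F

theorem TF_PM : TF F ⊆ PM := by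
  rintro M ⟨u, hu, rfl⟩
  exact ⟨u, hu.1, rfl⟩

theorem Phi_mem (hF : ∀ i, IsForm (F i)) {u : Fin (n + 1) → ℂ} (hu : u ≠ 0) :
    Phi u ∈ TF F ↔ u ∈ Cone F := by
  constructor
  · rintro ⟨v, hv, hvu⟩
    obtain ⟨c, hc, rfl⟩ := Phi_inj hv.1 hu hvu
    exact cone_smul hF hv hc
  · intro h
    exact ⟨u, h, rfl⟩

theorem chart_cone (hF : ∀ i, IsForm (F i)) {M : Mat (n + 1)} (hM : M ∈ TF F) {i : Fin (n + 1)}
    (hi : M i i ≠ 0) : chart i M ∈ Cone F := by
  obtain ⟨u, hu, rfl⟩ := hM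
  have h1 := (Phi_diag_ne hu.1).1 hi
  rw [chart_Phi hu.1 h1]
  exact cone_smul hF hu (inv_ne_zero h1)

theorem isClosed_zero (F : ι → MvPolynomial (Fin (n + 1)) ℂ) :
    IsClosed {u : Fin (n + 1) → ℂ | ∀ i, eval u (F i) = 0} := by
  have h1 : {u : Fin (n + 1) → ℂ | ∀ i, eval u (F i) = 0} = ⋂ i, {u | eval u (F i) = 0} := by
    ext u
    simp only [mem_iInter]
    rfl
  rw [h1]
  exact isClosed_iInter fun i => isClosed_eq (continuous_eval' _) continuous_const

theorem isCompact_TF (hF : ∀ i, IsForm (F i)) : IsCompact (TF F) := by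
  set S : Set (Fin (n + 1) → ℂ) := sphere 0 1 ∩ {u | ∀ i, eval u (F i) = 0} with hS
  have hSc : IsCompact S := (isCompact_sphere 0 1).inter_right (isClosed_zero F)
  have hne : ∀ u ∈ S, u ≠ 0 := by
    rintro u ⟨hu, -⟩ rfl
    rw [mem_sphere, dist_self] at hu
    exact zero_ne_one hu
  have himg : TF F = Phi '' S := by
    ext M
    constructor
    · rintro ⟨u, hu, rfl⟩
      have hn : (‖u‖ : ℂ) ≠ 0 := by
        have := norm_pos_iff.2 hu.1
        exact_mod_cast this.ne'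
      refine ⟨(‖u‖ : ℂ)⁻¹ • u, ⟨?_, fun i => ?_⟩, Phi_smul (inv_ne_zero hn) u⟩
      · rw [mem_sphere, dist_zero_right, norm_smul, norm_inv, Complex.norm_real, norm_norm]
        exact inv_mul_cancel₀ (by exact_mod_cast hn)
      · exact (mem_cone.1 (cone_smul hF hu (inv_ne_zero hn))).2 i
    · rintro ⟨u, hu, rfl⟩
      exact ⟨u, mem_cone.2 ⟨hne u hu, fun i => hu.2 i⟩, rfl⟩
  rw [himg]
  exact hSc.image_of_continuousOn fun u hu => (continuousAt_Phi (hne u hu)).continuousWithinAt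

end geo

section lim

variable {N : ℕ}

/-- limits of holomorphic functions -/
theorem CConv.an {l : Filter ℕ} [l.NeBot] {U : Set ℂ} {h : ℕ → ℂ → ℂ} {H : ℂ → ℂ}
    (hc : CConv l U h H) {z : ℂ} (hU : IsOpen U) (hz : z ∈ U)
    (hd : ∃ V ∈ 𝓝 z, ∀ᶠ n in l, DifferentiableOn ℂ (h n) V) :
    AnalyticAt ℂ H z ∧ Tendsto (fun n => deriv (h n) z) l (𝓝 (deriv H z)) := by
  obtain ⟨V, hV, hd⟩ := hd
  obtain ⟨W, hWV, hW, hzW⟩ := _root_.mem_nhds_iff.1 (inter_mem hV (hU.mem_nhds hz))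
  have h1 : CConv l W h H := fun w hw => hc w (hWV hw).2
  have h2 : ∀ᶠ n in l, DifferentiableOn ℂ (h n) W := by
    filter_upwards [hd] with n hn
    exact hn.mono fun w hw => (hWV hw).1
  have h3 := h1.locUnif hW
  refine ⟨(h3.differentiableOn h2 hW).analyticAt (hW.mem_nhds hzW), ?_⟩
  exact (h3.deriv h2 hW).tendsto_at hzW

/-- limits of curves -/
theorem exists_limit {T : Set (Mat N)} (hT : IsCompact T) (hTP : T ⊆ PM) {𝓤 : Ultrafilter ℕ}
    {h : ℕ → ℂ → Mat N} {K : ℝ} (hH : ∀ n, HolP univ (h n)) (hm : ∀ n z, h n z ∈ T)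
    (hb : ∀ n z, ‖fderiv ℝ (h n) z‖ ≤ K) :
    ∃ H : ℂ → Mat N, HolP univ H ∧ (∀ z, H z ∈ T) ∧ CConv (𝓤 : Filter ℕ) univ h H ∧
      ∀ z, Tendsto (fun n => fderiv ℝ (h n) z) 𝓤 (𝓝 (fderiv ℝ H z)) := by
  have hlim : ∀ z : ℂ, ∃ y ∈ T, Tendsto (fun n => h n z) 𝓤 (𝓝 y) := by
    intro z
    have h1 : (𝓤.map (fun n => h n z) : Filter (Mat N)) ≤ 𝓟 T := by
      rw [Ultrafilter.coe_map, le_principal_iff, mem_map]
      exact Eventually.of_forall fun n => hm n z
    obtain ⟨y, hy, hy'⟩ := hT.ultrafilter_le_nhds (𝓤.map (fun n => h n z)) h1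
    exact ⟨y, hy, hy'⟩
  choose H hHmem hHt using hlim
  have hK0 : 0 ≤ K := (norm_nonneg _).trans (hb 0 0)
  have hCC : CConv (𝓤 : Filter ℕ) univ h H := by
    intro z _
    rw [Metric.tendsto_nhds]
    intro ε hε
    have h2 := Metric.tendsto_nhds.1 (hHt z) (ε / 2) (by positivity)
    rw [eventually_prod_iff]
    refine ⟨_, h2, fun w => K * ‖w - z‖ < ε / 2, ?_, ?_⟩
    · have h5 : Tendsto (fun w => K * ‖w - z‖) (𝓝 z) (𝓝 0) := by
        have : Continuous fun w : ℂ => K * ‖w - z‖ := by fun_prop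
        have h6 := this.tendsto z
        simpa using h6
      exact h5.eventually_lt_const (by positivity)
    · intro n hn w hw
      have h6 : ‖h n w - h n z‖ ≤ K * ‖w - z‖ :=
        (convex_univ).norm_image_sub_le_of_norm_fderiv_le
          (fun x _ => (hH n).differentiableAt (mem_univ x))
          (fun x _ => hb n x) (mem_univ z) (mem_univ w)
      calc dist (h n w) (H z) ≤ dist (h n w) (h n z) + dist (h n z) (H z) := dist_triangle _ _ _
        _ < ε / 2 + ε / 2 := by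
            refine add_lt_add ?_ hn
            rw [dist_eq_norm]
            exact h6.trans_lt hw
        _ = ε := by ring
  have hl := holP_limit isOpen_univ hCC (Eventually.of_forall hH) (fun z _ => hTP (hHmem z))
  exact ⟨H, hl.1, hHmem, hCC, fun z => hl.2 z (mem_univ z)⟩

theorem contDiffAt_chart {M : Mat N} {i : Fin N} (hi : M i i ≠ 0) :
    ContDiffAt ℝ 1 (chart i) M := by
  rw [contDiffAt_pi]
  intro j
  unfold chart
  have h : ∀ j k, ContDiffAt ℝ 1 (fun M : Mat N => M j k) M := by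
    intro j k
    have h1 : ContDiff ℝ 1 fun M : Mat N => M j :=
      (ContinuousLinearMap.proj (R := ℝ) (φ := fun _ : Fin N => Fin N → ℂ) j).contDiff
    have h2 : ContDiff ℝ 1 fun v : Fin N → ℂ => v k :=
      (ContinuousLinearMap.proj (R := ℝ) (φ := fun _ : Fin N => ℂ) k).contDiff
    exact (h2.comp h1).contDiffAt
  simp only [div_eq_mul_inv]
  exact (h j i).mul ((h i i).inv hi)

/-- the chart vectors which are largest at `i` -/
def Kc (i : Fin N) : Set (Fin N → ℂ) := {x | x i = 1 ∧ ‖x‖ ≤ 1}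

theorem isCompact_Kc (i : Fin N) : IsCompact (Kc i) := by
  have h1 : Kc i = closedBall 0 1 ∩ {x | x i = 1} := by
    ext x
    simp [Kc, and_comm]
  rw [h1]
  exact (isCompact_closedBall 0 1).inter_right (isClosed_eq (continuous_apply i) continuous_const)

theorem Kc_ne {i : Fin N} {x : Fin N → ℂ} (hx : x ∈ Kc i) : x ≠ 0 := by
  rintro rfl
  exact zero_ne_one hx.1

theorem exists_max {M : Mat N} (hM : M ∈ PM) : ∃ i, M i i ≠ 0 ∧ chart i M ∈ Kc i := by
  obtain ⟨u, hu, rfl⟩ := hM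
  obtain ⟨j, hj⟩ := Function.ne_iff.1 hu
  have : Nonempty (Fin N) := ⟨j⟩
  obtain ⟨i, hi⟩ := Finite.exists_max fun i => ‖u i‖
  have hui : u i ≠ 0 := by
    intro h0
    have := hi j
    rw [h0, norm_zero] at this
    exact hj (norm_le_zero_iff.1 this)
  have h1 := (Phi_diag_ne hu).2 hui
  refine ⟨i, h1, PM.chart_self h1, ?_⟩
  rw [chart_Phi hu hui, pi_norm_le_iff_of_nonneg zero_le_one]
  intro k
  rw [Pi.smul_apply, smul_eq_mul, norm_mul, norm_inv, inv_mul_le_iff₀ (norm_pos_iff.2 hui), mul_one]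
  exact hi k

/-- the norms of the derivative -/
theorem norm_der (N : ℕ) : ∃ A : ℝ, 0 < A ∧ ∀ (U : Set ℂ) (φ : ℂ → Mat N), IsOpen U → HolP U φ →
    ∀ z ∈ U, ∀ i, φ z i i ≠ 0 → chart i (φ z) ∈ Kc i →
      ‖fderiv ℝ φ z‖ ≤ A * ‖deriv (fun w => chart i (φ w)) z‖ ∧
      ‖deriv (fun w => chart i (φ w)) z‖ ≤ A * ‖fderiv ℝ φ z‖ := by
  have h1 : ∀ i : Fin N, ∃ L : ℝ, ∀ x ∈ Kc i, ‖fderiv ℝ (Phi : (Fin N → ℂ) → Mat N) x‖ ≤ L :=
    fun i => (isCompact_Kc i).exists_bound_of_continuousOn fun x hx =>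
      (((contDiffAt_Phi (Kc_ne hx)).fderiv_right (m := 0) (by norm_num)).continuousAt).continuousWithinAt
  have h2 : ∀ i : Fin N, ∃ L : ℝ, ∀ x ∈ Kc i, ‖fderiv ℝ (chart i) (Phi x)‖ ≤ L := by
    intro i
    refine (isCompact_Kc i).exists_bound_of_continuousOn fun x hx => ?_
    have h3 : Phi x i i ≠ 0 := (Phi_diag_ne (Kc_ne hx)).2 (by rw [hx.1]; exact one_ne_zero)
    exact ((((contDiffAt_chart h3).fderiv_right (m := 0) (by norm_num)).continuousAt).comp
      (continuousAt_Phi (Kc_ne hx))).continuousWithinAt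
  choose L1 hL1 using h1
  choose L2 hL2 using h2
  obtain ⟨A1, hA1⟩ := Finite.exists_le L1
  obtain ⟨A2, hA2⟩ := Finite.exists_le L2
  refine ⟨max 1 (max A1 A2), by positivity, fun U φ hU hφ z hz i hi hK => ?_⟩
  have hP : Phi (chart i (φ z)) = φ z := PM.Phi_chart (hφ.mem_PM hz) hi
  have hd : HasFDerivAt (fun w => chart i (φ w))
      ((fderiv ℂ (fun w => chart i (φ w)) z).restrictScalars ℝ) z :=
    (hφ.diff_chart hz hi).hasFDerivAt.restrictScalars ℝ
  have hn : ‖(fderiv ℂ (fun w => chart i (φ w)) z).restrictScalars ℝ‖ =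
      ‖deriv (fun w => chart i (φ w)) z‖ := by
    rw [ContinuousLinearMap.norm_restrictScalars, norm_deriv_eq_norm_fderiv]
  constructor
  · have h3 : HasFDerivAt (Phi : (Fin N → ℂ) → Mat N) (fderiv ℝ Phi (chart i (φ z)))
        (chart i (φ z)) :=
      ((contDiffAt_Phi (Kc_ne hK)).differentiableAt (by norm_num)).hasFDerivAt
    have h4 := h3.comp z hd
    have h5 : φ =ᶠ[𝓝 z] Phi ∘ fun w => chart i (φ w) := by
      filter_upwards [ev_holP hU hz hφ hi] with w hw
      exact (PM.Phi_chart (hφ.mem_PM hw.1) hw.2).symm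
    rw [(h4.congr_of_eventuallyEq h5).fderiv]
    refine (ContinuousLinearMap.opNorm_comp_le _ _).trans ?_
    rw [hn]
    exact mul_le_mul_of_nonneg_right ((hL1 i _ hK).trans ((hA1 i).trans
      ((le_max_left _ _).trans (le_max_right _ _)))) (norm_nonneg _)
  · have h3 := (((contDiffAt_chart hi).differentiableAt (by norm_num)).hasFDerivAt).comp z
      (hφ.differentiableAt hz).hasFDerivAt
    have h4 := hd.unique h3
    rw [← hn, h4]
    refine (ContinuousLinearMap.opNorm_comp_le _ _).trans ?_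
    refine mul_le_mul_of_nonneg_right ?_ (norm_nonneg _)
    have h5 := hL2 i _ hK
    rw [hP] at h5
    exact h5.trans ((hA2 i).trans ((le_max_right _ _).trans (le_max_right _ _)))

/-- convergence of the coordinates and of their derivatives -/
theorem tendsto_pr {𝓤 : Ultrafilter ℕ} {h : ℕ → ℂ → Mat N} {H : ℂ → Mat N}
    (hh : ∀ n, HolP univ (h n)) (hH : HolP univ H) (hc : CConv (𝓤 : Filter ℕ) univ h H) {z : ℂ}
    {i : Fin N} (hi : H z i i ≠ 0) :
    (∀ᶠ n in (𝓤 : Filter ℕ), h n z i i ≠ 0) ∧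
      Tendsto (fun n => pr i (h n) z) 𝓤 (𝓝 (pr i H z)) := by
  have hcont : Continuous fun M : Mat N => M i i := continuous_apply_apply i i
  have h1 : ∀ᶠ p : ℕ × ℂ in (𝓤 : Filter ℕ) ×ˢ 𝓝 z, h p.1 p.2 i i ≠ 0 :=
    ((hcont.continuousAt.tendsto).comp (hc z (mem_univ z))).eventually_ne hi
  rw [eventually_prod_iff] at h1
  obtain ⟨pa, hpa, pb, hpb, hab⟩ := h1
  obtain ⟨V, hVs, hV, hzV⟩ := _root_.mem_nhds_iff.1 (hpb.and (ev_diag hH (mem_univ z) hi))
  have h2 : ∀ᶠ n in (𝓤 : Filter ℕ), ∀ w ∈ V, h n w i i ≠ 0 := by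
    filter_upwards [hpa] with n hn w hw
    exact hab hn (hVs hw).1
  have h3 : ∀ k, CConv (𝓤 : Filter ℕ) V (fun n w => chart i (h n w) k)
      (fun w => chart i (H w) k) := by
    intro k w hw
    have h4 := hc w (mem_univ w)
    have h5 : ContinuousAt (fun M : Mat N => chart i M k) (H w) :=
      (continuous_apply k).continuousAt.comp (continuousAt_chart (hVs hw).2)
    exact h5.tendsto.comp h4
  have h4 : ∀ k, ∀ᶠ n in (𝓤 : Filter ℕ), DifferentiableOn ℂ (fun w => chart i (h n w) k) V := by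
    intro k
    filter_upwards [h2] with n hn w hw
    exact ((differentiableAt_pi.1 ((hh n).diff_chart (mem_univ w) (hn w hw))) k).differentiableWithinAt
  refine ⟨by filter_upwards [h2] with n hn; exact hn z hzV, ?_⟩
  rw [tendsto_pi_nhds]
  rintro (k | k)
  · exact (h3 k).pointwise hzV
  · have h5 := (CConv.an (h3 k) hV hzV ⟨V, hV.mem_nhds hzV, h4 k⟩).2
    have h6 : (fun n => pr i (h n) z (Sum.inr k)) =ᶠ[𝓤] fun n => deriv (fun w => chart i (h n w) k) z := by
      filter_upwards [h2] with n hn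
      have h7 := (hasDerivAt_pi.1 ((hh n).diff_chart (mem_univ z) (hn z hzV)).hasDerivAt) k
      exact h7.deriv.symm
    have h8 : pr i H z (Sum.inr k) = deriv (fun w => chart i (H w) k) z :=
      ((hasDerivAt_pi.1 (hH.diff_chart (mem_univ z) hi).hasDerivAt) k).deriv.symm
    rw [h8]
    exact h5.congr' h6.symm

end lim

end Run7.h418
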