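import Pool.Agent.Run7.h418.Lim

/-!
Invariance of the differential forms.
-/

set_option autoImplicit false

open Metric Set Filter Topology MvPolynomial

namespace Run7.h418

open Pool.Agent.Y190.OP

section alg

variable {τ : Type} [Fintype τ]

theorem Tm_step (D E : Dr τ) (H : MvPolynomial τ ℂ) (θ : τ → MvPolynomial τ ℂ) (k : ℕ) :
    H * D (Tm D H θ E k) = H * Tm D H θ E (k + 1) + H * Tm D H θ ⁅D, E⁆ k + D H * Tm D H θ E k -
      D^[k] H * Tm D H θ E 1 := by
  have h1 := Lie_pair D E ((Lie D)^[k] θ)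
  have h2 := Lie_pair D E θ
  have h3 : (Lie D)^[k + 1] θ = Lie D ((Lie D)^[k] θ) := Function.iterate_succ_apply' _ _ _
  have h4 : D^[k + 1] H = D (D^[k] H) := Function.iterate_succ_apply' _ _ _
  have h5 : (Lie D)^[1] θ = Lie D θ := rfl
  have h6 : D^[1] H = D H := rfl
  unfold Tm
  rw [h3, h4, h5, h6, h1, h2, map_sub, D.leibniz, D.leibniz]
  simp only [smul_eq_mul]
  ring

end alg

section dat

variable {N : ℕ} {f : ℂ → Mat N} {D : Fin N → Dr (Fin N ⊕ Fin N)} {C : ℝ}

/-- the obstructions are relations -/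
theorem Dat.invariant (h : Dat f D C) {i : Fin N} {a : Fin N ⊕ Fin N → ℂ}
    (ha : a ∈ Vs (Rel f) i) {H : Rn N} {θ : Fin N ⊕ Fin N → Rn N} (hH : eval a H ≠ 0)
    (hT : ∀ E : Dr (Fin N ⊕ Fin N), (∀ G ∈ Rel f i, E G ∈ Rel f i) → ∀ k,
      eval a (Tm (D i) H θ E k) = 0) {E : Dr (Fin N ⊕ Fin N)}
    (hE : ∀ G ∈ Rel f i, E G ∈ Rel f i) (k : ℕ) : Tm (D i) H θ E k ∈ Rel f i := by
  set S : Set (Rn N) := {G | G ∈ Rel f i ∨ ∃ E : Dr (Fin N ⊕ Fin N),
    (∀ G ∈ Rel f i, E G ∈ Rel f i) ∧ ∃ k, G = Tm (D i) H θ E k} with hS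
  set T : Ideal (Rn N) := Ideal.span S with hT'
  have hmemT : ∀ (E : Dr (Fin N ⊕ Fin N)), (∀ G ∈ Rel f i, E G ∈ Rel f i) → ∀ k,
      Tm (D i) H θ E k ∈ T := fun E hE k => Ideal.subset_span (Or.inr ⟨E, hE, k, rfl⟩)
  have hTa : ∀ G ∈ T, eval a G = 0 := by
    intro G hG
    induction hG using Submodule.span_induction with
    | mem G hG =>
      rcases hG with hG | ⟨E, hE, k, rfl⟩
      · exact ha G hG
      · exact hT E hE k
    | zero => exact map_zero _
    | add x y _ _ hx hy => rw [map_add, hx, hy, add_zero]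
    | smul c x _ hx => rw [smul_eq_mul, map_mul, hx, mul_zero]
  have hTD : ∀ G ∈ T, H * D i G ∈ T := by
    intro G hG
    induction hG using Submodule.span_induction with
    | mem G hG =>
      rcases hG with hG | ⟨E, hE, k, rfl⟩
      · exact Ideal.mul_mem_left _ _ (Ideal.subset_span (Or.inl (h.stab hG)))
      · rw [Tm_step]
        have hDE : ∀ G ∈ Rel f i, ⁅D i, E⁆ G ∈ Rel f i := by
          intro G hG
          rw [Derivation.commutator_apply]
          exact sub_mem (h.stab (hE G hG)) (hE _ (h.stab hG))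
        exact sub_mem (add_mem (add_mem (Ideal.mul_mem_left _ _ (hmemT E hE _))
          (Ideal.mul_mem_left _ _ (hmemT _ hDE _))) (Ideal.mul_mem_left _ _ (hmemT E hE _)))
          (Ideal.mul_mem_left _ _ (hmemT E hE _))
    | zero => rw [map_zero, mul_zero]; exact zero_mem _
    | add x y _ _ hx hy => rw [map_add, mul_add]; exact add_mem hx hy
    | smul c x hx hDx =>
      rw [smul_eq_mul, Derivation.leibniz, smul_eq_mul, smul_eq_mul, mul_add]
      refine add_mem ?_ ?_
      · have : H * (c * D i x) = c * (H * D i x) := by ring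
        rw [this]
        exact Ideal.mul_mem_left _ _ hDx
      · have : H * (x * D i c) = (H * D i c) * x := by ring
        rw [this]
        exact Ideal.mul_mem_left _ _ hx
  set T' : Ideal (Rn N) :=
    { carrier := {G | ∃ q : ℕ, H ^ q * G ∈ T}
      add_mem' := by
        rintro x y ⟨q, hq⟩ ⟨q', hq'⟩
        refine ⟨q + q', ?_⟩
        have : H ^ (q + q') * (x + y) = H ^ q' * (H ^ q * x) + H ^ q * (H ^ q' * y) := by
          rw [pow_add]; ring
        rw [this]
        exact add_mem (Ideal.mul_mem_left _ _ hq) (Ideal.mul_mem_left _ _ hq')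
      zero_mem' := ⟨0, by rw [mul_zero]; exact zero_mem _⟩
      smul_mem' := by
        rintro c x ⟨q, hq⟩
        refine ⟨q, ?_⟩
        have : H ^ q * (c • x) = c * (H ^ q * x) := by rw [smul_eq_mul]; ring
        rw [this]
        exact Ideal.mul_mem_left _ _ hq } with hT''
  have hRelT : Rel f i ≤ T' := fun G hG => ⟨0, by
    rw [pow_zero, one_mul]
    exact Ideal.subset_span (Or.inl hG)⟩
  have hD' : ∀ G ∈ T', D i G ∈ T' := by
    rintro G ⟨q, hq⟩
    refine ⟨q + 1, ?_⟩
    have h1 := hTD _ hq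
    rw [Derivation.leibniz, Derivation.leibniz_pow] at h1
    have h2 : H ^ (q + 1) * D i G = H * (H ^ q • D i G + G • (q • H ^ (q - 1) • D i H)) -
        q • D i H * (H ^ q * G) := by
      simp only [smul_eq_mul, nsmul_eq_mul]
      rcases Nat.eq_zero_or_pos q with rfl | hq0
      · simp
      · obtain ⟨q', rfl⟩ := Nat.exists_eq_succ_of_ne_zero hq0.ne'
        simp only [Nat.succ_eq_add_one, Nat.add_sub_cancel, pow_succ]
        ring
    rw [h2]
    exact sub_mem h1 (Ideal.mul_mem_left _ _ hq)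
  have hne : T' ≠ ⊤ := by
    intro htop
    have h1 : (1 : Rn N) ∈ T' := by rw [htop]; trivial
    obtain ⟨q, hq⟩ := h1
    have h2 := hTa _ hq
    rw [mul_one, map_pow] at h2
    exact pow_ne_zero q hH h2
  rw [← h.simple hRelT hD' hne]
  exact ⟨0, by rw [pow_zero, one_mul]; exact hmemT E hE k⟩

end dat

end Run7.h418
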