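import Pool.Agent.Run7.h418.Lt
import Pool.Agent.Run7.h418.Lim

/-!
The stabiliser of a curve is a lattice.
-/

set_option autoImplicit false

open MvPolynomial Metric Set Filter Topology

namespace Run7.h418

open Pool.Agent.Y190.OP Pool.Agent.W602.GT Pool.Agent.N155

section shf

variable {N : ℕ} {f : ℂ → Mat N} {D : Fin N → Dr (Fin N ⊕ Fin N)} {C : ℝ}

theorem pr_shf (i : Fin N) (φ : ℂ → Mat N) (z w : ℂ) :
    pr i (fun w => φ (w + z)) w = pr i φ (w + z) := by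
  unfold pr
  have h1 : deriv (fun w => chart i (φ (w + z))) w = deriv (fun w => chart i (φ w)) (w + z) :=
    deriv_comp_add_const (fun w => chart i (φ w)) z w
  rw [h1]

theorem sol_shf {Z : Fin N → Set (Fin N ⊕ Fin N → ℂ)} {φ : ℂ → Mat N} (h : Sol Z univ φ) (z : ℂ) :
    Sol Z univ (fun w => φ (w + z)) := by
  constructor
  · intro w _
    obtain ⟨V, G, hV, hwV, hG, hφ⟩ := h.1 (w + z) (mem_univ _)
    refine ⟨(fun w => w + z) ⁻¹' V, fun w => G (w + z), hV.preimage (by fun_prop), hwV, ?_,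
      fun x hx => hφ _ hx⟩
    exact hG.comp (by fun_prop) fun x hx => hx
  · intro w _ i hi
    rw [pr_shf]
    exact h.2 _ (mem_univ _) i hi

/-- translation of curves -/
def shf (z : ℂ) (φ : Ws f) : Ws f := ⟨fun w => φ.1 (w + z), sol_shf φ.2 z⟩

theorem shf_zero (z : ℂ) (φ : Ws f) : (shf z φ).1 0 = φ.1 z := by
  change φ.1 (0 + z) = _
  rw [zero_add]

theorem pr_shf_zero (z : ℂ) (φ : Ws f) (i : Fin N) : pr i (shf z φ).1 0 = pr i φ.1 z := by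
  have h1 := pr_shf i φ.1 z 0
  rw [zero_add] at h1
  exact h1

variable {q : ℕ} {V : Fin q → Fin N → Dr (Fin N ⊕ Fin N)} {act : (Fin q → ℂ) → Ws f → Ws f}
  {ε : ℝ}

/-- translations belong to the action -/
theorem IsAct.shf_eq (h : Dat f D C) (hA : IsAct f C V act ε) {d : Fin q → ℂ}
    (hd : ∀ k G, D k G - (∑ b, d b • V b) k G ∈ Rel f k) :
    ∃ ρ > 0, ∀ z : ℂ, ‖z‖ < ρ → ∀ φ : Ws f, shf z φ = act (z • d) φ := by
  obtain ⟨ρ, hρ, hR⟩ := h.radii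
  have hε := hA.pos
  refine ⟨min ρ (ε / (‖d‖ + 1)), lt_min hρ (by positivity), fun z hz φ => ?_⟩
  have hz1 : ‖z‖ < ρ := hz.trans_le (min_le_left _ _)
  have hz2 : ‖z • d‖ ≤ ε := by
    have h1 : ‖z‖ < ε / (‖d‖ + 1) := hz.trans_le (min_le_right _ _)
    rw [lt_div_iff₀ (by positivity)] at h1
    rw [norm_smul]
    nlinarith [norm_nonneg z, norm_nonneg d]
  obtain ⟨i, hi, hiK⟩ := exists_max (φ.2.1.mem_PM (mem_univ (0 : ℂ)))
  have haB := φ.norm_le h hi hiK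
  have ha := φ.2.2 0 (mem_univ 0) i hi
  obtain ⟨B, hB, hBa⟩ := hR i _ ha hiK
  obtain ⟨h1, h2⟩ := h.pr_fl φ.2 hi hB hBa.le z (mem_ball_zero_iff.2 hz1)
  obtain ⟨h3, h4⟩ := hA.loc _ hz2 φ i hi (by linarith)
  refine Ws.ext' h (k := i) ?_ h3 ?_
  · rw [shf_zero]
    exact h1
  · rw [pr_shf_zero, h2, h4, sum_k, sum_smul_single, fl_smul, mul_one, ← sum_k]
    exact fl_congr (fun G hG => h.stab hG) (hd i) ha z

/-- the general points -/
def Genr (f : ℂ → Mat N) (V : Fin q → Fin N → Dr (Fin N ⊕ Fin N)) (k : Fin N)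
    (a : Fin N ⊕ Fin N → ℂ) : Prop :=
  ∃ (l : Fin q → Fin N ⊕ Fin N) (g : Fin N ⊕ Fin N → Rn N),
    (∀ t, g t ∈ Rel f k ∨ ∃ s, g t = X (l s)) ∧
      eval a (Matrix.of fun t t' => pderiv t' (g t)).det ≠ 0 ∧
      eval a (Matrix.of fun b s => V b k (X (l s))).det ≠ 0

/-- each curve contains general points -/
theorem exists_genr (h : Dat f D C) (hG : ∀ k, (∃ z, f z k k ≠ 0) →
    ∃ (l : Fin q → Fin N ⊕ Fin N) (g : Fin N ⊕ Fin N → Rn N),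
      (∀ t, g t ∈ Rel f k ∨ ∃ s, g t = X (l s)) ∧
      (Matrix.of fun t t' => pderiv t' (g t)).det ∉ Rel f k ∧
      (Matrix.of fun b s => V b k (X (l s))).det ∉ Rel f k) (φ : Ws f) {ρ : ℝ} (hρ : 0 < ρ) :
    ∃ (z : ℂ) (k : Fin N), ‖z‖ < ρ ∧ φ.1 z k k ≠ 0 ∧ ‖pr k φ.1 z‖ ≤ max 1 C + 1 ∧
      Genr f V k (pr k φ.1 z) := by
  obtain ⟨k, hk, hkK⟩ := exists_max (φ.2.1.mem_PM (mem_univ (0 : ℂ)))
  have haB := φ.norm_le h hk hkK
  have hkf : ∃ z, f z k k ≠ 0 := chart_of_mem (φ.2.2 0 (mem_univ 0) k hk)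
  obtain ⟨l, g, h1, h2, h3⟩ := hG k hkf
  have hmx := h.mx φ.1 φ.2 k
  rw [← hmx] at h2 h3
  have e1 := ev_ne φ.2.1 ⟨0, hk⟩ h2 0
  have e2 := ev_ne φ.2.1 ⟨0, hk⟩ h3 0
  have e3 : ∀ᶠ z in 𝓝 (0 : ℂ), ‖z‖ < ρ := by
    filter_upwards [ball_mem_nhds (0 : ℂ) hρ] with z hz
    exact mem_ball_zero_iff.1 hz
  have e4 : ∀ᶠ z in 𝓝 (0 : ℂ), φ.1 z k k ≠ 0 := ev_diag φ.2.1 (mem_univ 0) hk
  have e5 : ∀ᶠ z in 𝓝 (0 : ℂ), ‖pr k φ.1 z‖ < max 1 C + 1 := by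
    have hc : ContinuousAt (fun z => pr k φ.1 z) 0 := continuousAt_pi.2 fun l =>
      (analyticAt_pr isOpen_univ φ.2.1 (mem_univ 0) hk l).continuousAt
    exact hc.norm.eventually_lt_const (by linarith)
  have e6 : ∀ᶠ z in 𝓝[≠] (0 : ℂ), ‖z‖ < ρ ∧ φ.1 z k k ≠ 0 ∧ ‖pr k φ.1 z‖ < max 1 C + 1 :=
    mem_nhdsWithin_of_mem_nhds (e3.and (e4.and e5))
  obtain ⟨z, hz1, hz2, hz3, hz4, hz5⟩ := (e1.and (e2.and e6)).exists
  exact ⟨z, k, hz3, hz4, le_of_lt hz5, l, g, h1, hz1, hz2⟩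

/-- the periods of a curve -/
def Per (act : (Fin q → ℂ) → Ws f → Ws f) (φ : Ws f) : Set (Fin q → ℂ) := {t | act t φ = φ}

theorem IsAct.cancel (h : Dat f D C) (hA : IsAct f C V act ε) {t s : Fin q → ℂ} {φ χ : Ws f}
    (he : act t φ = act s χ) : act (t - s) φ = χ := by
  have h1 : t - s = -s + t := by abel
  rw [h1, hA.add, he, ← hA.add, neg_add_cancel, hA.zero h]

/-- **The periods are cocompact.** -/
theorem IsAct.cocompact (h : Dat f D C) (hV : ∀ b, Cmp f (V b)) (hA : IsAct f C V act ε)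
    {d : Fin q → ℂ} (hd : ∀ k G, D k G - (∑ b, d b • V b) k G ∈ Rel f k)
    (hG : ∀ k, (∃ z, f z k k ≠ 0) →
    ∃ (l : Fin q → Fin N ⊕ Fin N) (g : Fin N ⊕ Fin N → Rn N),
      (∀ t, g t ∈ Rel f k ∨ ∃ s, g t = X (l s)) ∧
      (Matrix.of fun t t' => pderiv t' (g t)).det ∉ Rel f k ∧
      (Matrix.of fun b s => V b k (X (l s))).det ∉ Rel f k) (φ0 : Ws f) :
    ∃ R : ℝ, ∀ t, ∃ p ∈ Per act φ0, ‖t - p‖ ≤ R := by
  by_contra hcon
  push Not at hcon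
  choose t ht using fun n : ℕ => hcon n
  set 𝓤 : Ultrafilter ℕ := hyperfilter ℕ with h𝓤
  have hcof : ∀ R : ℝ, ∀ᶠ n : ℕ in (𝓤 : Filter ℕ), R ≤ n := by
    intro R
    have h2 : ∀ᶠ n : ℕ in atTop, R ≤ n := by
      filter_upwards [eventually_ge_atTop ⌈R⌉₊] with n hn
      exact (Nat.le_ceil R).trans (by exact_mod_cast hn)
    have h3 : (𝓤 : Filter ℕ) ≤ atTop := by
      rw [← Nat.cofinite_eq_atTop]
      exact hyperfilter_le_cofinite
    exact h3 h2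
  obtain ⟨ψ, hψ, hconv⟩ := h.compact (𝓤 := 𝓤) (φ := fun n => (act (t n) φ0).1)
    fun n => (act (t n) φ0).2
  obtain ⟨ρ, hρ, hshf⟩ := hA.shf_eq h hd
  let ψ' : Ws f := ⟨ψ, hψ⟩
  obtain ⟨z, k, hzρ, hk0, hB0, l, g, h1, h20, h30⟩ := exists_genr h hG ψ' hρ
  have hk : ψ z k k ≠ 0 := hk0
  have hB : ‖pr k ψ z‖ ≤ max 1 C + 1 := hB0
  have h2 : eval (pr k ψ z) (Matrix.of fun t t' => pderiv t' (g t)).det ≠ 0 := h20
  have h3 : eval (pr k ψ z) (Matrix.of fun b s => V b k (X (l s))).det ≠ 0 := h30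
  set χ : Ws f := shf z ψ' with hχ
  have hχk : χ.1 0 k k ≠ 0 := by
    rw [hχ, shf_zero]
    exact hk
  have hχa : pr k χ.1 0 = pr k ψ z := pr_shf_zero z ψ' k
  have ha : pr k ψ z ∈ Vs (Rel f) k := hψ.2 z (mem_univ z) k hk
  obtain ⟨hlt, -⟩ := local_trans hV hA.pos hA.sm ha hB h1 h2 h3
  obtain ⟨h4, h5⟩ := tendsto_pr (fun n => (act (t n) φ0).2.1) hψ.1 hconv hk
  have h6 : ∀ᶠ n in (𝓤 : Filter ℕ), ∃ s : Fin q → ℂ, ‖s‖ < ε ∧
      act (z • d + t n - s) φ0 = χ := by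
    filter_upwards [h4, h5.eventually (hlt ε hA.pos)] with n hn1 hn2
    obtain ⟨s, hs, hs2⟩ := hn2 ((act (t n) φ0).2.2 z (mem_univ z) k hn1)
    refine ⟨s, hs, hA.cancel h ?_⟩
    rw [hA.add, ← hshf z hzρ]
    obtain ⟨h7, h8⟩ := hA.loc s hs.le χ k hχk (by rw [hχa]; exact hB)
    refine Ws.ext' h (k := k) ?_ h7 ?_
    · rw [shf_zero]
      exact hn1
    · rw [pr_shf_zero, h8, hχa]
      exact hs2
  obtain ⟨m, sm, hsm, hm⟩ := h6.exists
  obtain ⟨n, ⟨sn, hsn, hn⟩, hnR⟩ := (h6.and (hcof (2 * ε + ‖t m‖))).exists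
  have h7 : act ((z • d + t n - sn) - (z • d + t m - sm)) φ0 = φ0 := by
    refine hA.cancel h ?_
    rw [hn, hm]
  have h8 := ht n _ h7
  have h9 : t n - ((z • d + t n - sn) - (z • d + t m - sm)) = sn + t m - sm := by abel
  rw [h9] at h8
  have h10 : ‖sn + t m - sm‖ ≤ ‖sn‖ + ‖t m‖ + ‖sm‖ :=
    (norm_sub_le _ _).trans (add_le_add (norm_add_le _ _) le_rfl)
  linarith

/-- **The periods of a curve through a general point are discrete.** -/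
theorem IsAct.discrete (hV : ∀ b, Cmp f (V b)) (hA : IsAct f C V act ε)
    {φ0 : Ws f} {k : Fin N} (hk : φ0.1 0 k k ≠ 0) (hB : ‖pr k φ0.1 0‖ ≤ max 1 C + 1)
    (hg : Genr f V k (pr k φ0.1 0)) : ∃ r > 0, ∀ t ∈ Per act φ0, ‖t‖ < r → t = 0 := by
  obtain ⟨l, g, h1, h2, h3⟩ := hg
  have ha : pr k φ0.1 0 ∈ Vs (Rel f) k := φ0.2.2 0 (mem_univ 0) k hk
  obtain ⟨-, r, hr, hlt⟩ := local_trans hV hA.pos hA.sm ha hB h1 h2 h3
  refine ⟨min r ε, lt_min hr hA.pos, fun t ht htr => hlt t (htr.trans_le (min_le_left _ _)) ?_⟩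
  obtain ⟨-, h5⟩ := hA.loc t (htr.le.trans (min_le_right _ _)) φ0 k hk hB
  have h6 : act t φ0 = φ0 := ht
  rw [h6] at h5
  exact h5.symm

end shf

section lattice

/-- a discrete and cocompact subgroup has a basis -/
theorem exists_basis {q : ℕ} {P : Set (Fin q → ℂ)} (h0 : (0 : Fin q → ℂ) ∈ P)
    (hadd : ∀ x ∈ P, ∀ y ∈ P, x + y ∈ P) (hneg : ∀ x ∈ P, -x ∈ P)
    (hdisc : ∃ r > 0, ∀ t ∈ P, ‖t‖ < r → t = 0) (hcc : ∃ R : ℝ, ∀ t, ∃ p ∈ P, ‖t - p‖ ≤ R) :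
    ∃ b : Module.Basis (Fin (2 * q)) ℝ (Fin q → ℂ), ∀ i, b i ∈ P := by
  let A : AddSubgroup (Fin q → ℂ) :=
    { carrier := P, add_mem' := fun {x y} hx hy => hadd x hx y hy, zero_mem' := h0
      neg_mem' := fun {x} hx => hneg x hx }
  let L : Submodule ℤ (Fin q → ℂ) := AddSubgroup.toIntSubmodule A
  have hL : ∀ x, x ∈ L ↔ x ∈ P := fun x => Iff.rfl
  obtain ⟨r, hr, hdisc⟩ := hdisc
  have hdt : DiscreteTopology L := by
    refine DiscreteTopology.of_forall_le_dist hr ?_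
    intro x y hxy
    by_contra hlt
    push Not at hlt
    apply hxy
    have h1 : (x : Fin q → ℂ) - y ∈ P := by
      rw [sub_eq_add_neg]
      exact hadd _ x.2 _ (hneg _ y.2)
    have h2 : dist x y = ‖(x : Fin q → ℂ) - y‖ := by
      rw [Subtype.dist_eq, dist_eq_norm]
    rw [h2] at hlt
    exact Subtype.ext (sub_eq_zero.1 (hdisc _ h1 hlt))
  have hspan : Submodule.span ℝ (L : Set (Fin q → ℂ)) = ⊤ := by
    by_contra hne
    obtain ⟨g, hg0, hg⟩ := Submodule.exists_le_ker_of_lt_top _ (lt_top_iff_ne_top.2 hne)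
    obtain ⟨v, hv⟩ : ∃ v, g v ≠ 0 := by
      by_contra hcon
      push Not at hcon
      exact hg0 (LinearMap.ext hcon)
    obtain ⟨R, hR⟩ := hcc
    set G : (Fin q → ℂ) →L[ℝ] ℝ := LinearMap.toContinuousLinearMap g with hG
    have hGg : ∀ x, G x = g x := fun x => rfl
    have hbd : ∀ s : ℝ, |s| * |g v| ≤ ‖G‖ * R := by
      intro s
      obtain ⟨p, hp, hpR⟩ := hR (s • v)
      have h1 : g p = 0 := hg (Submodule.subset_span hp)
      have h2 : G (s • v - p) = s * g v := by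
        rw [hGg, map_sub, h1, sub_zero, map_smul, smul_eq_mul]
      have h3 := G.le_opNorm (s • v - p)
      rw [h2, Real.norm_eq_abs, abs_mul] at h3
      exact h3.trans (mul_le_mul_of_nonneg_left hpR (norm_nonneg _))
    have h4 := hbd ((‖G‖ * R + 1) / g v)
    rw [← abs_mul, div_mul_cancel₀ _ hv] at h4
    have h7 := le_abs_self (‖G‖ * R + 1)
    linarith
  have hz : IsZLattice ℝ L := ⟨hspan⟩
  have hfree : Module.Free ℤ L := ZLattice.module_free ℝ L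
  have hfin : Module.Finite ℤ L := ZLattice.module_finite ℝ L
  have hrank : Module.finrank ℤ L = 2 * q := by
    rw [ZLattice.rank ℝ L, Module.finrank_pi_fintype]
    simp [Complex.finrank_real_complex, mul_comm]
  let b0 : Module.Basis (Fin (2 * q)) ℤ L := (Module.finBasis ℤ L).reindex (finCongr hrank)
  refine ⟨b0.ofZLatticeBasis ℝ L, fun i => ?_⟩
  rw [Module.Basis.ofZLatticeBasis_apply]
  exact (b0 i).2

end lattice

end Run7.h418
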