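import Mathlib
import Pool.Agent.Helper540.Holo

/-!
Polynomial vector fields: Taylor expansion along the flow, and the local flow.
-/

set_option autoImplicit false

open MvPolynomial Metric Set Filter Topology

namespace Run7.h418

section tay

variable {τ : Type}

/-- the derivations of the polynomial ring -/
abbrev Dr (τ : Type) : Type := Derivation ℂ (MvPolynomial τ ℂ) (MvPolynomial τ ℂ)

/-- the coefficients of the Taylor expansion of `G` along the flow of `D` -/
noncomputable def cf (D : Dr τ) (G : MvPolynomial τ ℂ) (a : τ → ℂ) (k : ℕ) : ℂ :=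
  eval a (D^[k] G) / k.factorial

theorem cf_zero (D : Dr τ) (G : MvPolynomial τ ℂ) (a : τ → ℂ) : cf D G a 0 = eval a G := by
  simp [cf]

theorem cf_succ (D : Dr τ) (G : MvPolynomial τ ℂ) (a : τ → ℂ) (k : ℕ) :
    (k + 1) * cf D G a (k + 1) = cf D (D G) a k := by
  unfold cf
  rw [Function.iterate_succ_apply, Nat.factorial_succ]
  push_cast
  have h1 : (k : ℂ) + 1 ≠ 0 := by exact_mod_cast k.succ_ne_zero
  have h2 : (k.factorial : ℂ) ≠ 0 := by exact_mod_cast k.factorial_ne_zero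
  field_simp

theorem iter_add (D : Dr τ) (k : ℕ) : ∀ G H : MvPolynomial τ ℂ, D^[k] (G + H) = D^[k] G + D^[k] H := by
  induction k with
  | zero => intro G H; rfl
  | succ k ih => intro G H; rw [Function.iterate_succ_apply, map_add, ih]; rfl

theorem iter_zero (D : Dr τ) (k : ℕ) : D^[k] (0 : MvPolynomial τ ℂ) = 0 := by
  induction k with
  | zero => rfl
  | succ k ih => rw [Function.iterate_succ_apply, map_zero, ih]

theorem iter_C (D : Dr τ) (c : ℂ) (k : ℕ) : D^[k + 1] (C c : MvPolynomial τ ℂ) = 0 := by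
  rw [Function.iterate_succ_apply, ← MvPolynomial.algebraMap_eq, Derivation.map_algebraMap,
    iter_zero]

theorem cf_add (D : Dr τ) (G H : MvPolynomial τ ℂ) (a : τ → ℂ) (k : ℕ) :
    cf D (G + H) a k = cf D G a k + cf D H a k := by
  unfold cf
  rw [iter_add, map_add, add_div]

theorem cf_sub (D : Dr τ) (G H : MvPolynomial τ ℂ) (a : τ → ℂ) (k : ℕ) :
    cf D (G - H) a k = cf D G a k - cf D H a k := by
  have := cf_add D (G - H) H a k
  rw [sub_add_cancel] at this
  rw [this]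
  ring

/-- the Leibniz rule -/
theorem cf_mul (D : Dr τ) (a : τ → ℂ) (k : ℕ) : ∀ G H : MvPolynomial τ ℂ,
    cf D (G * H) a k = ∑ p ∈ Finset.HasAntidiagonal.antidiagonal k, cf D G a p.1 * cf D H a p.2 := by
  induction k with
  | zero =>
    intro G H
    simp [cf_zero]
  | succ k ih =>
    intro G H
    have h1 : ((k : ℂ) + 1) ≠ 0 := by exact_mod_cast k.succ_ne_zero
    apply mul_left_cancel₀ h1
    rw [cf_succ, D.leibniz, cf_add, smul_eq_mul, smul_eq_mul, mul_comm H, ih, ih,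
      Finset.mul_sum]
    have e1 : ∑ p ∈ Finset.HasAntidiagonal.antidiagonal k, cf D G a p.1 * cf D (D H) a p.2 =
        ∑ p ∈ Finset.HasAntidiagonal.antidiagonal (k + 1), cf D G a p.1 * (p.2 * cf D H a p.2) := by
      rw [Finset.Nat.antidiagonal_succ', Finset.sum_cons]
      simp only [Nat.cast_zero, zero_mul, mul_zero, zero_add, Finset.sum_map]
      refine Finset.sum_congr rfl fun p _ => ?_
      rw [← cf_succ]
      simp
    have e2 : ∑ p ∈ Finset.HasAntidiagonal.antidiagonal k, cf D (D G) a p.1 * cf D H a p.2 =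
        ∑ p ∈ Finset.HasAntidiagonal.antidiagonal (k + 1), (p.1 * cf D G a p.1) * cf D H a p.2 := by
      rw [Finset.Nat.antidiagonal_succ, Finset.sum_cons]
      simp only [Nat.cast_zero, zero_mul, zero_add, Finset.sum_map]
      refine Finset.sum_congr rfl fun p _ => ?_
      rw [← cf_succ]
      simp
    rw [e1, e2, ← Finset.sum_add_distrib]
    refine Finset.sum_congr rfl fun p hp => ?_
    have h2 : (p.1 : ℂ) + p.2 = k + 1 := by
      have := Finset.HasAntidiagonal.mem_antidiagonal.1 hp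
      exact_mod_cast this
    rw [← h2]
    ring

end tay

section bd

variable {τ : Type} [Fintype τ]

/-- `G` is bounded by `M` on the ball of radius `r` -/
def Bd (G : MvPolynomial τ ℂ) (r M : ℝ) : Prop := ∀ a : τ → ℂ, ‖a‖ ≤ r → ‖eval a G‖ ≤ M

omit [Fintype τ] in
theorem continuous_eval' (G : MvPolynomial τ ℂ) : Continuous fun a : τ → ℂ => eval a G :=
  MvPolynomial.continuous_eval G

theorem exists_bd (G : MvPolynomial τ ℂ) (r : ℝ) : ∃ M : ℝ, 0 < M ∧ Bd G r M := by
  obtain ⟨M, hM⟩ := (isCompact_closedBall (0 : τ → ℂ) r).exists_bound_of_continuousOn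
    (continuous_eval' G).continuousOn
  refine ⟨max M 1, by positivity, fun a ha => (hM a (mem_closedBall_zero_iff.2 ha)).trans
    (le_max_left _ _)⟩

omit [Fintype τ] in
/-- the derivative of a polynomial along a solution -/
theorem hasDerivAt_eval (D : Dr τ) {γ : ℂ → τ → ℂ} {z : ℂ}
    (h : ∀ l, HasDerivAt (fun w => γ w l) (eval (γ z) (D (X l))) z) (G : MvPolynomial τ ℂ) :
    HasDerivAt (fun w => eval (γ w) G) (eval (γ z) (D G)) z := by
  induction G using MvPolynomial.induction_on with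
  | C c =>
    have h1 : D (C c) = 0 := by
      rw [← MvPolynomial.algebraMap_eq, Derivation.map_algebraMap]
    rw [h1, map_zero]
    simpa using hasDerivAt_const z c
  | add p q hp hq =>
    simp only [map_add]
    exact hp.add hq
  | mul_X p l hp =>
    have h2 := hp.mul (h l)
    rw [D.leibniz]
    simp only [map_mul, eval_X, map_add, smul_eq_mul]
    refine h2.congr_deriv ?_
    ring

/-- Cauchy's estimate -/
theorem Bd.step (D : Dr τ) {G : MvPolynomial τ ℂ} {r δ C M : ℝ} (hδ : 0 < δ) (hC : 0 < C)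
    (hG : Bd G (r + δ) M) (hD : ∀ l, Bd (D (X l)) r C) : Bd (D G) r (M * C / δ) := by
  intro a ha
  set v : τ → ℂ := fun l => eval a (D (X l)) with hv
  have hvC : ‖v‖ ≤ C := (pi_norm_le_iff_of_nonneg hC.le).2 fun l => hD l a ha
  have h1 : HasDerivAt (fun w : ℂ => eval (a + w • v) G) (eval (a + (0 : ℂ) • v) (D G)) 0 := by
    refine hasDerivAt_eval D (γ := fun w => a + w • v) (fun l => ?_) G
    have h2 : HasDerivAt (fun w : ℂ => a l + w * v l) (1 * v l) 0 :=
      ((hasDerivAt_id (0 : ℂ)).mul_const (v l)).const_add (a l)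
    simpa [hv] using h2
  have hdiff : Differentiable ℂ fun w : ℂ => eval (a + w • v) G := by
    have h3 : ∀ G : MvPolynomial τ ℂ, Differentiable ℂ fun w : ℂ => eval (a + w • v) G := by
      intro G
      induction G using MvPolynomial.induction_on with
      | C c => simp
      | add p q hp hq => simp only [map_add]; exact hp.add hq
      | mul_X p l hp =>
        simp only [map_mul, eval_X, Pi.add_apply, Pi.smul_apply, smul_eq_mul]
        exact hp.mul (by fun_prop)
    exact h3 G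
  have h4 := Complex.norm_deriv_le_of_forall_mem_sphere_norm_le (f := fun w : ℂ =>
    eval (a + w • v) G) (c := 0) (R := δ / C) (C := M) (by positivity)
    hdiff.diffContOnCl (fun w hw => by
      apply hG
      rw [mem_sphere_zero_iff_norm] at hw
      refine (norm_add_le _ _).trans (add_le_add ha ?_)
      rw [norm_smul, hw]
      calc δ / C * ‖v‖ ≤ δ / C * C := by gcongr
        _ = δ := by field_simp)
  rw [h1.deriv, zero_smul, add_zero] at h4
  refine h4.trans (le_of_eq ?_)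
  field_simp

theorem Bd.mono {G : MvPolynomial τ ℂ} {r r' M : ℝ} (h : Bd G r M) (hr : r' ≤ r) : Bd G r' M :=
  fun a ha => h a (ha.trans hr)

theorem Bd.iter (D : Dr τ) {G : MvPolynomial τ ℂ} {B C M : ℝ} (hC : 0 < C)
    (hG : Bd G (B + 1) M) (hD : ∀ l, Bd (D (X l)) (B + 1) C) (k : ℕ) :
    Bd (D^[k] G) B ((k * C) ^ k * M) := by
  rcases Nat.eq_zero_or_pos k with rfl | hk
  · simpa using hG.mono (by linarith)
  have hk' : (0 : ℝ) < k := by exact_mod_cast hk
  have h1 : ∀ j : ℕ, j ≤ k → Bd (D^[j] G) (B + 1 - j / k) ((k * C) ^ j * M) := by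
    intro j
    induction j with
    | zero => intro _; simpa using hG
    | succ j ih =>
      intro hj
      have h2 := ih (by omega)
      rw [Function.iterate_succ_apply']
      have h3 : B + 1 - (j : ℝ) / k = (B + 1 - ((j + 1 : ℕ) : ℝ) / k) + 1 / k := by
        push_cast
        field_simp
        ring
      rw [h3] at h2
      have h4 := h2.step D (δ := 1 / k) (by positivity) hC (fun l => (hD l).mono (by
        have : 0 ≤ ((j + 1 : ℕ) : ℝ) / k := by positivity
        linarith))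
      intro a ha
      refine (h4 a ha).trans (le_of_eq ?_)
      rw [pow_succ]
      field_simp
  have h5 := h1 k le_rfl
  intro a ha
  refine h5 a (ha.trans (le_of_eq ?_))
  rw [div_self hk'.ne']
  ring

theorem cf_bd (D : Dr τ) {G : MvPolynomial τ ℂ} {B C M : ℝ} (hC : 0 < C) (hM : 0 ≤ M)
    (hG : Bd G (B + 1) M) (hD : ∀ l, Bd (D (X l)) (B + 1) C) {a : τ → ℂ} (ha : ‖a‖ ≤ B) (k : ℕ) :
    ‖cf D G a k‖ ≤ M * (Real.exp 1 * C) ^ k := by
  unfold cf
  rw [norm_div, Complex.norm_natCast]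
  have h1 := Bd.iter D hC hG hD k a ha
  have h2 : ((k : ℝ)) ^ k / k.factorial ≤ Real.exp 1 ^ k := by
    have := Real.pow_div_factorial_le_exp (k : ℝ) (by positivity) k
    rwa [← Real.exp_one_pow] at this
  have h3 : (0 : ℝ) < k.factorial := by exact_mod_cast k.factorial_pos
  calc ‖eval a (D^[k] G)‖ / k.factorial ≤ ((k * C) ^ k * M) / k.factorial := by gcongr
    _ = M * (((k : ℝ)) ^ k / k.factorial) * C ^ k := by rw [mul_pow]; ring
    _ ≤ M * (Real.exp 1 ^ k) * C ^ k := by gcongr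
    _ = _ := by rw [mul_pow]; ring

end bd

section flow

variable {τ : Type} [Fintype τ]

/-- the value of `G` along the flow of `D` which starts at `a` -/
noncomputable def gs (D : Dr τ) (G : MvPolynomial τ ℂ) (a : τ → ℂ) (z : ℂ) : ℂ :=
  ∑' k, cf D G a k * z ^ k

/-- the flow of the vector field `D` -/
noncomputable def fl (D : Dr τ) (a : τ → ℂ) (z : ℂ) : τ → ℂ := fun l => gs D (X l) a z

/-- The flow of `D` exists for starting points of norm at most `B` and for times less than `ρ`. -/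
structure Rad (D : Dr τ) (B ρ : ℝ) : Prop where
  Bnn : 0 ≤ B
  pos : 0 < ρ
  bd : ∃ C : ℝ, 0 < C ∧ (∀ l, Bd (D (X l)) (B + 1) C) ∧ ρ * (4 * (B + 1) * Real.exp 1 * C) ≤ 1

theorem exists_rad (D : Dr τ) {B : ℝ} (hB : 0 ≤ B) : ∃ ρ : ℝ, Rad D B ρ := by
  choose M hM hMb using fun l => exists_bd (D (X l)) (B + 1)
  obtain ⟨C, hC⟩ := Finite.exists_le M
  refine ⟨1 / (4 * (B + 1) * Real.exp 1 * (max C 1)), hB, by positivity, max C 1, by positivity,
    fun l a ha => (hMb l a ha).trans ((hC l).trans (le_max_left _ _)), ?_⟩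
  rw [one_div, inv_mul_cancel₀]
  positivity

theorem Rad.mono {D : Dr τ} {B ρ ρ' : ℝ} (h : Rad D B ρ) (h0 : 0 < ρ') (hρ : ρ' ≤ ρ) :
    Rad D B ρ' := by
  obtain ⟨C, hC, h1, h2⟩ := h.bd
  have := h.Bnn
  exact ⟨h.Bnn, h0, C, hC, h1, (mul_le_mul_of_nonneg_right hρ (by positivity)).trans h2⟩

theorem Rad.cf_le {D : Dr τ} {B ρ : ℝ} (h : Rad D B ρ) {G : MvPolynomial τ ℂ} {M : ℝ}
    (hM : 0 ≤ M) (hG : Bd G (B + 1) M) {a : τ → ℂ} (ha : ‖a‖ ≤ B) {z : ℂ} (hz : ‖z‖ ≤ ρ) (k : ℕ) :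
    ‖cf D G a k * z ^ k‖ ≤ M * (1 / (4 * (B + 1))) ^ k := by
  obtain ⟨C, hC, h1, h2⟩ := h.bd
  have hB := h.Bnn
  rw [norm_mul, norm_pow]
  have h3 : Real.exp 1 * C * ‖z‖ ≤ 1 / (4 * (B + 1)) := by
    rw [le_div_iff₀ (by positivity)]
    calc Real.exp 1 * C * ‖z‖ * (4 * (B + 1)) ≤ Real.exp 1 * C * ρ * (4 * (B + 1)) := by gcongr
      _ = ρ * (4 * (B + 1) * Real.exp 1 * C) := by ring
      _ ≤ 1 := h2
  calc ‖cf D G a k‖ * ‖z‖ ^ k ≤ M * (Real.exp 1 * C) ^ k * ‖z‖ ^ k := by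
        gcongr
        exact cf_bd D hC hM hG h1 ha k
    _ = M * (Real.exp 1 * C * ‖z‖) ^ k := by rw [mul_pow]; ring
    _ ≤ _ := by gcongr

theorem quarter {B : ℝ} (hB : 0 ≤ B) : 1 / (4 * (B + 1)) < 1 ∧ 0 ≤ 1 / (4 * (B + 1)) := by
  constructor
  · rw [div_lt_one (by positivity)]
    linarith
  · positivity

theorem Rad.summable {D : Dr τ} {B ρ : ℝ} (h : Rad D B ρ) (G : MvPolynomial τ ℂ)
    {a : τ → ℂ} (ha : ‖a‖ ≤ B) {z : ℂ} (hz : ‖z‖ ≤ ρ) :
    Summable fun k => ‖cf D G a k * z ^ k‖ := by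
  obtain ⟨M, hM, hG⟩ := exists_bd G (B + 1)
  obtain ⟨h1, h2⟩ := quarter h.Bnn
  refine Summable.of_nonneg_of_le (fun _ => norm_nonneg _) (fun k => h.cf_le hM.le hG ha hz k) ?_
  exact (summable_geometric_of_lt_one h2 h1).mul_left M

theorem Rad.gs_mul {D : Dr τ} {B ρ : ℝ} (h : Rad D B ρ) (G H : MvPolynomial τ ℂ)
    {a : τ → ℂ} (ha : ‖a‖ ≤ B) {z : ℂ} (hz : ‖z‖ ≤ ρ) :
    gs D (G * H) a z = gs D G a z * gs D H a z := by
  unfold gs
  rw [tsum_mul_tsum_eq_tsum_sum_antidiagonal_of_summable_norm (h.summable G ha hz)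
    (h.summable H ha hz)]
  refine tsum_congr fun k => ?_
  rw [cf_mul, Finset.sum_mul]
  refine Finset.sum_congr rfl fun p hp => ?_
  have h2 := Finset.HasAntidiagonal.mem_antidiagonal.1 hp
  rw [← h2, pow_add]
  ring

theorem Rad.gs_add {D : Dr τ} {B ρ : ℝ} (h : Rad D B ρ) (G H : MvPolynomial τ ℂ)
    {a : τ → ℂ} (ha : ‖a‖ ≤ B) {z : ℂ} (hz : ‖z‖ ≤ ρ) :
    gs D (G + H) a z = gs D G a z + gs D H a z := by
  unfold gs
  rw [← (h.summable G ha hz).of_norm.tsum_add (h.summable H ha hz).of_norm]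
  refine tsum_congr fun k => ?_
  rw [cf_add, add_mul]

omit [Fintype τ] in
theorem gs_C (D : Dr τ) (c : ℂ) (a : τ → ℂ) (z : ℂ) : gs D (C c) a z = c := by
  unfold gs
  rw [tsum_eq_single 0]
  · simp [cf_zero]
  · intro k hk
    obtain ⟨j, rfl⟩ := Nat.exists_eq_succ_of_ne_zero hk
    unfold cf
    rw [Nat.succ_eq_add_one, iter_C]
    simp

/-- the value of a polynomial along the flow -/
theorem Rad.eval_fl {D : Dr τ} {B ρ : ℝ} (h : Rad D B ρ) (G : MvPolynomial τ ℂ)
    {a : τ → ℂ} (ha : ‖a‖ ≤ B) {z : ℂ} (hz : ‖z‖ ≤ ρ) : eval (fl D a z) G = gs D G a z := by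
  induction G using MvPolynomial.induction_on with
  | C c => rw [eval_C, gs_C]
  | add p q hp hq => rw [map_add, hp, hq, h.gs_add p q ha hz]
  | mul_X p l hp => rw [map_mul, hp, eval_X, h.gs_mul p (X l) ha hz]; rfl

omit [Fintype τ] in
theorem gs_at_zero (D : Dr τ) (G : MvPolynomial τ ℂ) (a : τ → ℂ) : gs D G a 0 = eval a G := by
  unfold gs
  rw [tsum_eq_single 0]
  · simp [cf_zero]
  · intro k hk
    rw [zero_pow hk, mul_zero]

omit [Fintype τ] in
theorem fl_zero (D : Dr τ) (a : τ → ℂ) : fl D a 0 = a := by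
  funext l
  change gs D (X l) a 0 = a l
  rw [gs_at_zero, eval_X]

theorem Rad.hasDerivAt_gs {D : Dr τ} {B ρ : ℝ} (h : Rad D B ρ) (G : MvPolynomial τ ℂ)
    {a : τ → ℂ} (ha : ‖a‖ ≤ B) {z : ℂ} (hz : ‖z‖ < ρ) :
    HasDerivAt (gs D G a) (gs D (D G) a z) z := by
  obtain ⟨M, hM, hG⟩ := exists_bd (D G) (B + 1)
  obtain ⟨h1, h2⟩ := quarter h.Bnn
  set g' : ℕ → ℂ → ℂ := fun k w => cf D G a k * (k * w ^ (k - 1)) with hg'
  have key : ∀ k w, g' (k + 1) w = cf D (D G) a k * w ^ k := by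
    intro k w
    rw [hg', ← cf_succ]
    simp only [Nat.cast_add, Nat.cast_one, Nat.add_sub_cancel]
    ring
  have hsum : Summable fun k : ℕ => if k = 0 then 0 else M * (1 / (4 * (B + 1))) ^ (k - 1) := by
    rw [← summable_nat_add_iff 1]
    simp only [Nat.add_eq_zero_iff, one_ne_zero, and_false, if_false, Nat.add_sub_cancel]
    exact (summable_geometric_of_lt_one h2 h1).mul_left M
  have h3 := hasDerivAt_tsum_of_isPreconnected (g := fun k w => cf D G a k * w ^ k) (g' := g')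
    hsum (t := ball (0 : ℂ) ρ) isOpen_ball (convex_ball _ _).isPreconnected (fun k w _ => by
      have := (hasDerivAt_pow k w).const_mul (cf D G a k)
      simpa [hg'] using this) (fun k w hw => by
      rcases Nat.eq_zero_or_pos k with rfl | hk
      · simp [hg']
      · obtain ⟨j, rfl⟩ := Nat.exists_eq_succ_of_ne_zero hk.ne'
        rw [Nat.succ_eq_add_one, key]
        simp only [Nat.add_eq_zero_iff, one_ne_zero, and_false, if_false, Nat.add_sub_cancel]
        exact h.cf_le hM.le hG ha (mem_ball_zero_iff.1 hw).le j)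
    (y₀ := 0) (mem_ball_self h.pos) (h.summable G ha (by simpa using h.pos.le)).of_norm
    (mem_ball_zero_iff.2 hz)
  have h4 : ∑' k, g' k z = gs D (D G) a z := by
    have h5 : Summable fun k => g' k z := by
      rw [← summable_nat_add_iff 1]
      simp only [key]
      exact (h.summable (D G) ha hz.le).of_norm
    rw [h5.tsum_eq_zero_add]
    simp only [key]
    simp [hg', gs]
  rw [h4] at h3
  exact h3

theorem Rad.hasDerivAt_fl {D : Dr τ} {B ρ : ℝ} (h : Rad D B ρ)
    {a : τ → ℂ} (ha : ‖a‖ ≤ B) {z : ℂ} (hz : ‖z‖ < ρ) (l : τ) :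
    HasDerivAt (fun w => fl D a w l) (eval (fl D a z) (D (X l))) z := by
  rw [h.eval_fl _ ha hz.le]
  exact h.hasDerivAt_gs (X l) ha hz

theorem Rad.norm_fl {D : Dr τ} {B ρ : ℝ} (h : Rad D B ρ)
    {a : τ → ℂ} (ha : ‖a‖ ≤ B) {z : ℂ} (hz : ‖z‖ ≤ ρ) : ‖fl D a z - a‖ ≤ 1 / 2 := by
  rw [pi_norm_le_iff_of_nonneg (by norm_num)]
  intro l
  have hB := h.Bnn
  obtain ⟨h1, h2⟩ := quarter h.Bnn
  have hG : Bd (X l : MvPolynomial τ ℂ) (B + 1) (B + 1) := fun a ha => by
    rw [eval_X]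
    exact (norm_le_pi_norm a l).trans ha
  have h3 := (h.summable (X l) ha hz).of_norm
  have h4 : fl D a z l - a l = ∑' k, cf D (X l) a (k + 1) * z ^ (k + 1) := by
    change gs D (X l) a z - a l = _
    unfold gs
    rw [h3.tsum_eq_zero_add]
    simp [cf_zero]
  rw [Pi.sub_apply, h4]
  have h5 : Summable fun k : ℕ => (B + 1) * (1 / (4 * (B + 1))) ^ (k + 1) := by
    simp only [pow_succ]
    exact ((summable_geometric_of_lt_one h2 h1).mul_right _).mul_left _
  refine (tsum_of_norm_bounded h5.hasSum fun k => h.cf_le (by positivity) hG ha hz (k + 1)).trans ?_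
  rw [tsum_mul_left]
  simp only [pow_succ]
  rw [tsum_mul_right, tsum_geometric_of_lt_one h2 h1]
  have h6 : 1 / (4 * (B + 1)) ≤ 1 / 4 := by
    apply one_div_le_one_div_of_le (by norm_num)
    linarith
  have h7 : (1 - 1 / (4 * (B + 1)))⁻¹ ≤ 2 := by
    rw [inv_le_comm₀ (by linarith) (by norm_num)]
    linarith
  calc (B + 1) * ((1 - 1 / (4 * (B + 1)))⁻¹ * (1 / (4 * (B + 1))))
      ≤ (B + 1) * (2 * (1 / (4 * (B + 1)))) := by gcongr
    _ = 1 / 2 := by field_simp; norm_num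

/-- joint holomorphy -/
theorem Rad.diff_gs {D : Dr τ} {B ρ : ℝ} (h : Rad D B ρ) (G : MvPolynomial τ ℂ)
    {a : τ → ℂ} (ha : ‖a‖ < B) {z : ℂ} (hz : ‖z‖ < ρ) :
    DifferentiableAt ℂ (fun p : (τ → ℂ) × ℂ => gs D G p.1 p.2) (a, z) := by
  obtain ⟨M, hM, hG⟩ := exists_bd G (B + 1)
  obtain ⟨h1, h2⟩ := quarter h.Bnn
  have hopen : IsOpen (ball (0 : τ → ℂ) B ×ˢ ball (0 : ℂ) ρ) := isOpen_ball.prod isOpen_ball
  obtain ⟨ε, hε, hsub⟩ := Metric.isOpen_iff.1 hopen (a, z)
    ⟨mem_ball_zero_iff.2 ha, mem_ball_zero_iff.2 hz⟩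
  have hlim : TendstoUniformlyOn (fun (n : ℕ) (p : (τ → ℂ) × ℂ) =>
      ∑ k ∈ Finset.range n, cf D G p.1 k * p.2 ^ k) (fun p => gs D G p.1 p.2) atTop
      (ball (a, z) ε) := by
    refine tendstoUniformlyOn_tsum_nat (u := fun k => M * (1 / (4 * (B + 1))) ^ k)
      ((summable_geometric_of_lt_one h2 h1).mul_left M) fun k p hp => ?_
    obtain ⟨hp1, hp2⟩ := hsub hp
    exact h.cf_le hM.le hG (mem_ball_zero_iff.1 hp1).le (mem_ball_zero_iff.1 hp2).le k
  have hcf : ∀ G : MvPolynomial τ ℂ, Differentiable ℂ fun p : (τ → ℂ) × ℂ => eval p.1 G := by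
    intro G
    induction G using MvPolynomial.induction_on with
    | C c => simp
    | add p q hp hq => simp only [map_add]; exact hp.add hq
    | mul_X p l hp =>
      simp only [map_mul, eval_X]
      exact hp.mul (by fun_prop)
  have := Pool.Agent.Helper540.differentiableOn_of_uniform_limit (fun n => by
    refine DifferentiableOn.fun_sum fun k _ => ?_
    have h5 : Differentiable ℂ fun p : (τ → ℂ) × ℂ => cf D G p.1 k := by
      have h6 := hcf (D^[k] G)
      have h7 : (fun p : (τ → ℂ) × ℂ => cf D G p.1 k) =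
          fun p : (τ → ℂ) × ℂ => (k.factorial : ℂ)⁻¹ * eval p.1 (D^[k] G) := by
        funext p
        unfold cf
        rw [div_eq_inv_mul]
      rw [h7]
      exact h6.const_mul _
    exact (h5.mul (by fun_prop)).differentiableOn) hlim
  exact this.differentiableAt (isOpen_ball.mem_nhds (mem_ball_self (by linarith)))

theorem Rad.diff_fl {D : Dr τ} {B ρ : ℝ} (h : Rad D B ρ)
    {a : τ → ℂ} (ha : ‖a‖ < B) {z : ℂ} (hz : ‖z‖ < ρ) :
    DifferentiableAt ℂ (fun p : (τ → ℂ) × ℂ => fl D p.1 p.2) (a, z) := by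
  rw [differentiableAt_pi]
  intro l
  exact h.diff_gs (X l) ha hz

end flow

end Run7.h418
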