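import Pool.Agent.Run7.h418.Defs
import Pool.Agent.Run7.h418.Poly
import Pool.Agent.Y190.OP.Bro
import Pool.Agent.Y190.OP.Zf

/-!
The affine coordinates of a curve and their derivatives; polynomial relations between them.
-/

set_option autoImplicit false

open MvPolynomial Metric Set Filter Topology

namespace Run7.h418

open Pool.Agent.Y190.OP Pool.Agent.W602.GT

variable {N : ℕ}

/-- the polynomials in the affine coordinates and their derivatives -/
abbrev Rn (N : ℕ) : Type := MvPolynomial (Fin N ⊕ Fin N) ℂ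

/-- the affine coordinates of a curve and their derivatives -/
noncomputable def pr (i : Fin N) (φ : ℂ → Mat N) (z : ℂ) : Fin N ⊕ Fin N → ℂ :=
  Sum.elim (chart i (φ z)) (deriv (fun w => chart i (φ w)) z)

/-- change of the chart -/
noncomputable def cc (i : Fin N) (a : Fin N ⊕ Fin N → ℂ) : Fin N ⊕ Fin N → ℂ :=
  Sum.elim (fun k => a (Sum.inl k) / a (Sum.inl i)) (fun k =>
    (a (Sum.inr k) * a (Sum.inl i) - a (Sum.inl k) * a (Sum.inr i)) / a (Sum.inl i) ^ 2)

theorem cc_inl (i k : Fin N) (a : Fin N ⊕ Fin N → ℂ) :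
    cc i a (Sum.inl k) = a (Sum.inl k) / a (Sum.inl i) := rfl

theorem cc_inr (i k : Fin N) (a : Fin N ⊕ Fin N → ℂ) :
    cc i a (Sum.inr k) =
      (a (Sum.inr k) * a (Sum.inl i) - a (Sum.inl k) * a (Sum.inr i)) / a (Sum.inl i) ^ 2 := rfl

theorem homog (i : Fin N) (G : Rn N) : ∃ (M : ℕ) (G' : Rn N), ∀ a : Fin N ⊕ Fin N → ℂ,
    a (Sum.inl i) ≠ 0 → eval a G' = a (Sum.inl i) ^ M * eval (cc i a) G := by
  induction G using MvPolynomial.induction_on with
  | C c => exact ⟨0, C c, fun a _ => by simp⟩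
  | add p q hp hq =>
    obtain ⟨M, p', hp'⟩ := hp
    obtain ⟨M', q', hq'⟩ := hq
    refine ⟨M + M', X (Sum.inl i) ^ M' * p' + X (Sum.inl i) ^ M * q', fun a ha => ?_⟩
    simp only [map_add, map_mul, map_pow, eval_X, hp' a ha, hq' a ha, pow_add]
    ring
  | mul_X p l hp =>
    obtain ⟨M, p', hp'⟩ := hp
    rcases l with k | k
    · refine ⟨M + 1, p' * X (Sum.inl k), fun a ha => ?_⟩
      rw [map_mul, map_mul, eval_X, eval_X, hp' a ha, cc_inl]
      generalize (eval (cc i a)) p = e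
      field_simp
      ring
    · refine ⟨M + 2, p' * (X (Sum.inr k) * X (Sum.inl i) - X (Sum.inl k) * X (Sum.inr i)),
        fun a ha => ?_⟩
      rw [map_mul, map_mul, map_sub, map_mul, map_mul, eval_X, eval_X, eval_X, eval_X, eval_X,
        hp' a ha, cc_inr]
      generalize (eval (cc i a)) p = e
      field_simp
      ring

/-- the coordinates in terms of local homogeneous coordinates -/
theorem pr_of_lift {φ : ℂ → Mat N} {G : ℂ → Fin N → ℂ} {z : ℂ} (hG : DifferentiableAt ℂ G z)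
    (hφ : ∀ᶠ w in 𝓝 z, G w ≠ 0 ∧ φ w = Phi (G w)) {i : Fin N} (hi : φ z i i ≠ 0) :
    G z i ≠ 0 ∧ pr i φ z = cc i (Sum.elim (G z) (deriv G z)) := by
  obtain ⟨h1, h2⟩ := hφ.self_of_nhds
  have hGi : G z i ≠ 0 := (Phi_diag_ne h1).1 (h2 ▸ hi)
  refine ⟨hGi, ?_⟩
  have hd : ∀ k, HasDerivAt (fun w => G w k) (deriv G z k) z := fun k =>
    (hasDerivAt_pi.1 hG.hasDerivAt) k
  have hev : ∀ᶠ w in 𝓝 z, chart i (φ w) = fun k => G w k / G w i := by
    filter_upwards [hφ, (hd i).continuousAt.eventually_ne hGi] with w hw hwi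
    rw [hw.2, chart_Phi hw.1 hwi]
    funext k
    rw [Pi.smul_apply, smul_eq_mul, div_eq_inv_mul]
  have h3 : HasDerivAt (fun w => chart i (φ w)) (fun k => (deriv G z k * G z i -
      G z k * deriv G z i) / G z i ^ 2) z := by
    refine HasDerivAt.congr_of_eventuallyEq ?_ hev
    exact hasDerivAt_pi.2 fun k => (hd k).div (hd i) hGi
  unfold pr cc
  rw [h3.deriv, hev.self_of_nhds]
  rfl

theorem HolP.nhds {U : Set ℂ} {φ : ℂ → Mat N} (h : HolP U φ) {z : ℂ} (hz : z ∈ U) :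
    ∃ G : ℂ → Fin N → ℂ, DifferentiableAt ℂ G z ∧ (∀ᶠ w in 𝓝 z, DifferentiableAt ℂ G w) ∧
      ∀ᶠ w in 𝓝 z, G w ≠ 0 ∧ φ w = Phi (G w) := by
  obtain ⟨V, G, hV, hzV, hG, hφ⟩ := h z hz
  refine ⟨G, (hG z hzV).differentiableAt (hV.mem_nhds hzV), ?_, ?_⟩
  · filter_upwards [hV.mem_nhds hzV] with w hw
    exact (hG w hw).differentiableAt (hV.mem_nhds hw)
  · filter_upwards [hV.mem_nhds hzV] with w hw
    exact hφ w hw

theorem ev_diag {U : Set ℂ} {φ : ℂ → Mat N} (h : HolP U φ) {z : ℂ} (hz : z ∈ U) {i : Fin N}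
    (hi : φ z i i ≠ 0) : ∀ᶠ w in 𝓝 z, φ w i i ≠ 0 :=
  ((continuous_apply_apply i i).continuousAt.comp (h.continuousAt hz)).eventually_ne hi

/-- an open set on which `φ` is projectively holomorphic -/
theorem ev_holP {U : Set ℂ} (hU : IsOpen U) {φ : ℂ → Mat N} {z : ℂ} (hz : z ∈ U)
    {i : Fin N} (h : HolP U φ) (hi : φ z i i ≠ 0) : ∀ᶠ w in 𝓝 z, w ∈ U ∧ φ w i i ≠ 0 :=
  Filter.Eventually.and (hU.mem_nhds hz) (ev_diag h hz hi)

theorem pr_inl {φ : ℂ → Mat N} {z : ℂ} {i : Fin N} (k : Fin N) :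
    pr i φ z (Sum.inl k) = chart i (φ z) k := rfl

theorem pr_inr {φ : ℂ → Mat N} {z : ℂ} {i : Fin N} (k : Fin N) :
    pr i φ z (Sum.inr k) = deriv (fun w => chart i (φ w)) z k := rfl

/-- change of charts along a curve -/
theorem pr_cc {U : Set ℂ} (hU : IsOpen U) {φ : ℂ → Mat N} (h : HolP U φ) {z : ℂ} (hz : z ∈ U)
    {i k : Fin N} (hi : φ z i i ≠ 0) (hk : φ z k k ≠ 0) :
    pr i φ z (Sum.inl k) ≠ 0 ∧ pr k φ z = cc k (pr i φ z) := by
  have h1 : ∀ᶠ w in 𝓝 z, chart i (φ w) ≠ 0 ∧ φ w = Phi (chart i (φ w)) := by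
    filter_upwards [ev_holP hU hz h hi] with w hw
    exact ⟨PM.chart_ne hw.2, (PM.Phi_chart (h.mem_PM hw.1) hw.2).symm⟩
  exact pr_of_lift (h.diff_chart hz hi) h1 hk

theorem hasDerivAt_chart {U : Set ℂ} {φ : ℂ → Mat N} (h : HolP U φ) {z : ℂ} (hz : z ∈ U)
    {i : Fin N} (hi : φ z i i ≠ 0) (k : Fin N) :
    HasDerivAt (fun w => pr i φ w (Sum.inl k)) (pr i φ z (Sum.inr k)) z :=
  (hasDerivAt_pi.1 (h.diff_chart hz hi).hasDerivAt) k

theorem analyticAt_chart {U : Set ℂ} (hU : IsOpen U) {φ : ℂ → Mat N} (h : HolP U φ) {z : ℂ}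
    (hz : z ∈ U) {i : Fin N} (hi : φ z i i ≠ 0) :
    AnalyticAt ℂ (fun w => chart i (φ w)) z := by
  rw [Complex.analyticAt_iff_eventually_differentiableAt]
  filter_upwards [ev_holP hU hz h hi] with w hw
  exact h.diff_chart hw.1 hw.2

theorem analyticAt_pr {U : Set ℂ} (hU : IsOpen U) {φ : ℂ → Mat N} (h : HolP U φ) {z : ℂ}
    (hz : z ∈ U) {i : Fin N} (hi : φ z i i ≠ 0) (l : Fin N ⊕ Fin N) :
    AnalyticAt ℂ (fun w => pr i φ w l) z := by
  have h1 := analyticAt_chart hU h hz hi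
  rcases l with k | k
  · exact (analyticAt_pi_iff.1 h1) k
  · exact (analyticAt_pi_iff.1 h1.deriv) k

theorem analyticAt_eval {τ : Type} {γ : ℂ → τ → ℂ} {z : ℂ}
    (h : ∀ l, AnalyticAt ℂ (fun w => γ w l) z) (G : MvPolynomial τ ℂ) :
    AnalyticAt ℂ (fun w => eval (γ w) G) z := by
  induction G using MvPolynomial.induction_on with
  | C c => simp only [eval_C]; exact analyticAt_const
  | add p q hp hq => simp only [map_add]; exact hp.add hq
  | mul_X p l hp => simp only [map_mul, eval_X]; exact hp.mul (h l)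

/-- the relations satisfied by the coordinates of `φ` in the chart `i` -/
def Rel (φ : ℂ → Mat N) (i : Fin N) : Ideal (Rn N) where
  carrier := {G | ∀ z, φ z i i ≠ 0 → eval (pr i φ z) G = 0}
  add_mem' := fun {G H} hG hH z hz => by rw [map_add, hG z hz, hH z hz, add_zero]
  zero_mem' := fun z _ => map_zero _
  smul_mem' := fun c G hG z hz => by rw [smul_eq_mul, map_mul, hG z hz, mul_zero]

theorem mem_Rel {φ : ℂ → Mat N} {i : Fin N} {G : Rn N} :
    G ∈ Rel φ i ↔ ∀ z, φ z i i ≠ 0 → eval (pr i φ z) G = 0 := Iff.rfl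

/-- the value of a polynomial as an entire function, up to units -/
theorem exists_entire {φ : ℂ → Mat N} (h : HolP univ φ) (i : Fin N) (G : Rn N) :
    ∃ E : ℂ → ℂ, Differentiable ℂ E ∧
      ∀ z, φ z i i ≠ 0 → ∃ u : ℂ, u ≠ 0 ∧ E z = u * eval (pr i φ z) G := by
  obtain ⟨L, hL, hL0, hφ⟩ := zero_free h
  obtain ⟨M, G', hG'⟩ := homog i G
  refine ⟨fun z => eval (Sum.elim (L z) (deriv L z)) G', ?_, fun z hz => ?_⟩
  · have hL' : Differentiable ℂ (deriv L) := by
      have := (hL.differentiableOn (s := univ)).deriv isOpen_univ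
      exact differentiableOn_univ.1 this
    intro z
    refine (analyticAt_eval (γ := fun z => Sum.elim (L z) (deriv L z)) (fun l => ?_)
      G').differentiableAt
    rcases l with k | k
    · exact (differentiable_pi.1 hL k).analyticAt z
    · exact (differentiable_pi.1 hL' k).analyticAt z
  · obtain ⟨h1, h2⟩ := pr_of_lift (hL z) (Eventually.of_forall fun w => ⟨hL0 w, hφ w⟩) hz
    refine ⟨L z i ^ M, pow_ne_zero _ h1, ?_⟩
    rw [h2]
    exact hG' _ h1

theorem entire_zero {E : ℂ → ℂ} (hE : Differentiable ℂ E) {z0 : ℂ} (h : ∀ᶠ w in 𝓝 z0, E w = 0)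
    (z : ℂ) : E z = 0 := by
  have h1 : AnalyticOnNhd ℂ E univ := fun w _ => hE.analyticAt w
  exact h1.eqOn_zero_of_preconnected_of_eventuallyEq_zero isPreconnected_univ (mem_univ z0) h
    (mem_univ z)

theorem rel_of_near {φ : ℂ → Mat N} (h : HolP univ φ) {i : Fin N} {G : Rn N} {z0 : ℂ}
    (hz0 : φ z0 i i ≠ 0) (hG : ∀ᶠ w in 𝓝 z0, eval (pr i φ w) G = 0) : G ∈ Rel φ i := by
  obtain ⟨E, hE, hu⟩ := exists_entire h i G
  have h1 : ∀ᶠ w in 𝓝 z0, E w = 0 := by
    filter_upwards [hG, ev_diag h (mem_univ z0) hz0] with w hw hwi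
    obtain ⟨u, -, h2⟩ := hu w hwi
    rw [h2, hw, mul_zero]
  intro z hz
  obtain ⟨u, hu0, h2⟩ := hu z hz
  have h3 := entire_zero hE h1 z
  rw [h3] at h2
  exact (mul_eq_zero.1 h2.symm).resolve_left hu0

/-- the relations form a prime ideal -/
theorem rel_prime {φ : ℂ → Mat N} (h : HolP univ φ) {i : Fin N} {G H : Rn N} {z0 : ℂ}
    (hz0 : φ z0 i i ≠ 0) (hGH : G * H ∈ Rel φ i) : G ∈ Rel φ i ∨ H ∈ Rel φ i := by
  obtain ⟨E, hE, hu⟩ := exists_entire h i G
  obtain ⟨E', hE', hu'⟩ := exists_entire h i H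
  have h1 : ∀ᶠ w in 𝓝 z0, E w * E' w = 0 := by
    filter_upwards [ev_diag h (mem_univ z0) hz0] with w hwi
    obtain ⟨u, -, h2⟩ := hu w hwi
    obtain ⟨u', -, h2'⟩ := hu' w hwi
    have h3 := hGH w hwi
    rw [map_mul] at h3
    rw [h2, h2', mul_mul_mul_comm, h3, mul_zero]
  have h2 : ∀ z, E z * E' z = 0 := entire_zero (hE.mul hE') h1
  have h3 : (∀ z, E z = 0) ∨ ∀ z, E' z = 0 := by
    by_contra hcon
    push Not at hcon
    obtain ⟨⟨z1, h3⟩, z2, h4⟩ := hcon
    have h5 : ∀ᶠ w in 𝓝 z1, E' w = 0 := by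
      filter_upwards [hE.continuous.continuousAt.eventually_ne h3] with w hw
      exact (mul_eq_zero.1 (h2 w)).resolve_left hw
    exact h4 (entire_zero hE' h5 z2)
  rcases h3 with h3 | h3
  · left
    intro z hz
    obtain ⟨u, hu0, h4⟩ := hu z hz
    rw [h3 z] at h4
    exact (mul_eq_zero.1 h4.symm).resolve_left hu0
  · right
    intro z hz
    obtain ⟨u, hu0, h4⟩ := hu' z hz
    rw [h3 z] at h4
    exact (mul_eq_zero.1 h4.symm).resolve_left hu0

/-- the points of the chart `i` of the variety of the ideals `I` -/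
def Vs (I : Fin N → Ideal (Rn N)) (i : Fin N) : Set (Fin N ⊕ Fin N → ℂ) :=
  {a | ∀ G ∈ I i, eval a G = 0}

/-- change of charts -/
theorem cc_mem {f : ℂ → Mat N} (h : HolP univ f) {i k : Fin N} {a : Fin N ⊕ Fin N → ℂ}
    (ha : a ∈ Vs (Rel f) i) (hk : a (Sum.inl k) ≠ 0) : cc k a ∈ Vs (Rel f) k := by
  intro G hG
  obtain ⟨M, G', hG'⟩ := homog k G
  have h1 : X (Sum.inl k) * G' ∈ Rel f i := by
    intro z hz
    rw [map_mul, eval_X]
    by_cases h2 : pr i f z (Sum.inl k) = 0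
    · rw [h2, zero_mul]
    · have h3 : f z k k ≠ 0 := by
        intro h4
        apply h2
        obtain ⟨u, hu, h5⟩ := h.mem_PM (mem_univ z)
        rw [pr_inl, h5, chart_Phi hu ((Phi_diag_ne hu).1 (h5 ▸ hz)), Pi.smul_apply, smul_eq_mul]
        have : u k = 0 := by
          by_contra h6
          exact (Phi_diag_ne hu).2 h6 (h5 ▸ h4)
        rw [this, mul_zero]
      obtain ⟨h4, h5⟩ := pr_cc isOpen_univ h (mem_univ z) hz h3
      rw [hG' _ h4, ← h5, hG z h3, mul_zero, mul_zero]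
  have h2 := ha _ h1
  rw [map_mul, eval_X, hG' a hk] at h2
  exact ((mul_eq_zero.1 ((mul_eq_zero.1 h2).resolve_left hk)).resolve_left (pow_ne_zero _ hk))

end Run7.h418
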