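import Pool.Agent.Run7.h418.Bd

/-!
Brody curves with constant values of the symmetric differentials.
-/

set_option autoImplicit false

open MvPolynomial Metric Set Filter Topology

namespace Run7.h418

open Pool.Agent.Y190.OP Pool.Agent.W602.GT Pool.Agent.N155

section bro

variable {N : ℕ}

/-- Brody curves -/
theorem brody_curve {T : Set (Mat N)} (hT : IsCompact T) (hTP : T ⊆ PM) {Ψ : ℂ → Mat N}
    (hΨ : HolP univ Ψ) (hΨT : ∀ z, Ψ z ∈ T) (hne : ¬ ∀ z, Ψ z = Ψ 0) :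
    ∃ H : ℂ → Mat N, HolP univ H ∧ (∀ z, H z ∈ T) ∧ (¬ ∀ z, H z = H 0) ∧
      ∀ z, ‖fderiv ℝ H z‖ ≤ 2 := by
  have h1 : ∀ n : ℕ, ∃ h : ℂ → Mat N, HolP (ball 0 (n + 1 : ℝ)) h ∧
      (∀ z ∈ ball (0 : ℂ) (n + 1 : ℝ), h z ∈ T) ∧
      (∀ z ∈ ball (0 : ℂ) ((n + 1 : ℝ) / 2), ‖fderiv ℝ h z‖ ≤ 2) ∧ ‖fderiv ℝ h 0‖ = 1 := by
    intro n
    exact big hΨ hΨT hne (by positivity)
  choose h hH hHS hHd hH0 using h1
  set 𝓤 : Ultrafilter ℕ := hyperfilter ℕ with h𝓤
  have hcof : ∀ R : ℝ, ∀ᶠ n : ℕ in (𝓤 : Filter ℕ), R ≤ n := by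
    intro R
    have h2 : ∀ᶠ n : ℕ in atTop, R ≤ n := by
      filter_upwards [eventually_ge_atTop ⌈R⌉₊] with n hn
      exact (Nat.le_ceil R).trans (by exact_mod_cast hn)
    have h3 : (𝓤 : Filter ℕ) ≤ atTop := by
      rw [← Nat.cofinite_eq_atTop]
      exact hyperfilter_le_cofinite
    exact h3 h2
  have hlim : ∀ z : ℂ, ∃ y ∈ T, Tendsto (fun n => h n z) 𝓤 (𝓝 y) := by
    intro z
    have h1 : (𝓤.map (fun n => h n z) : Filter (Mat N)) ≤ 𝓟 T := by
      rw [Ultrafilter.coe_map, le_principal_iff, mem_map]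
      filter_upwards [hcof ‖z‖] with n hn
      exact hHS n z (mem_ball_zero_iff.2 (by linarith))
    obtain ⟨y, hy, hy'⟩ := hT.ultrafilter_le_nhds (𝓤.map (fun n => h n z)) h1
    exact ⟨y, hy, hy'⟩
  choose H hHmem hHt using hlim
  have hCC : ∀ R : ℝ, 0 < R → CConv (𝓤 : Filter ℕ) (ball 0 R) h H := by
    intro R hR z hz
    rw [Metric.tendsto_nhds]
    intro ε hε
    have h2 := Metric.tendsto_nhds.1 (hHt z) (ε / 2) (by positivity)
    have h3 := hcof (2 * R)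
    rw [eventually_prod_iff]
    refine ⟨_, h2.and h3, fun w => w ∈ ball (0 : ℂ) R ∧ dist w z < ε / 4, ?_, ?_⟩
    · have h4 : ∀ᶠ w in 𝓝 z, w ∈ ball (0 : ℂ) R := isOpen_ball.mem_nhds hz
      have h5 : ∀ᶠ w in 𝓝 z, dist w z < ε / 4 := ball_mem_nhds z (by positivity)
      exact h4.and h5
    · rintro n ⟨hn1, hn2⟩ w ⟨hw1, hw2⟩
      have h6 : ‖h n w - h n z‖ ≤ 2 * ‖w - z‖ := by
        have hsub : ball (0 : ℂ) R ⊆ ball (0 : ℂ) ((n + 1 : ℝ) / 2) :=
          ball_subset_ball (by linarith)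
        have hsub2 : ball (0 : ℂ) R ⊆ ball (0 : ℂ) (n + 1 : ℝ) :=
          ball_subset_ball (by linarith)
        exact (convex_ball (0 : ℂ) R).norm_image_sub_le_of_norm_fderiv_le
          (fun x hx => (hH n).differentiableAt (hsub2 hx))
          (fun x hx => hHd n x (hsub hx)) hz hw1
      calc dist (h n w) (H z) ≤ dist (h n w) (h n z) + dist (h n z) (H z) := dist_triangle _ _ _
        _ < ε / 2 + ε / 2 := by
            refine add_lt_add ?_ hn1
            rw [dist_eq_norm]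
            rw [dist_eq_norm] at hw2
            linarith
        _ = ε := by ring
  have hev : ∀ R : ℝ, 0 < R → ∀ᶠ n in (𝓤 : Filter ℕ), HolP (ball 0 R) (h n) := by
    intro R _
    filter_upwards [hcof R] with n hn
    exact (hH n).mono (ball_subset_ball (by linarith))
  have hl := fun (R : ℝ) (hR : 0 < R) => holP_limit isOpen_ball (hCC R hR)
    (hev R hR) (fun z _ => hTP (hHmem z))
  have hHol : HolP univ H := by
    intro z _
    exact (hl (‖z‖ + 1) (by positivity)).1 z (mem_ball_zero_iff.2 (by linarith))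
  refine ⟨H, hHol, hHmem, fun hc => ?_, fun z => ?_⟩
  · have hc1 : fderiv ℝ H 0 = 0 := by
      have : H = fun _ => H 0 := funext fun z => hc z
      rw [this]; simp
    have ht := (hl 1 one_pos).2 0 (mem_ball_self one_pos)
    rw [hc1] at ht
    have e1 := (ht.norm).eventually_lt_const (u := 1) (by simp)
    obtain ⟨n, hn⟩ := e1.exists
    rw [hH0 n] at hn
    exact lt_irrefl _ hn
  · have ht := (hl (‖z‖ + 1) (by positivity)).2 z (mem_ball_zero_iff.2 (by linarith))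
    refine le_of_tendsto ht.norm ?_
    filter_upwards [hcof (2 * (‖z‖ + 1))] with n hn
    exact hHd n z (mem_ball_zero_iff.2 (by linarith))

/-- the curves whose coordinates and derivatives are in the sets `Z i` -/
def Sol (Z : Fin N → Set (Fin N ⊕ Fin N → ℂ)) (U : Set ℂ) (φ : ℂ → Mat N) : Prop :=
  HolP U φ ∧ ∀ z ∈ U, ∀ i, φ z i i ≠ 0 → pr i φ z ∈ Z i

end bro

section liou

variable {n : ℕ} {ι κ : Type} {F : ι → MvPolynomial (Fin (n + 1)) ℂ}
  {σ : κ → (Fin (n + 1) → ℂ) → (Fin (n + 1) → ℂ) → ℂ} {m : κ → ℕ}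

/-- the tangent vectors with given values of the symmetric differentials -/
def Ep (F : ι → MvPolynomial (Fin (n + 1)) ℂ)
    (σ : κ → (Fin (n + 1) → ℂ) → (Fin (n + 1) → ℂ) → ℂ) (c : κ → ℂ) (i : Fin (n + 1)) :
    Set (Fin (n + 1) ⊕ Fin (n + 1) → ℂ) :=
  {a | a ∈ Tg F i ∧ ∀ j, sg σ j a = c j}

theorem cc_comp_inl (k : Fin (n + 1)) (a : Fin (n + 1) ⊕ Fin (n + 1) → ℂ) :
    cc k a ∘ Sum.inl = (a (Sum.inl k))⁻¹ • (a ∘ Sum.inl) := by
  funext l
  simp only [Function.comp_apply, cc_inl, Pi.smul_apply, smul_eq_mul]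
  rw [div_eq_inv_mul]

theorem cc_comp_inr (k : Fin (n + 1)) {a : Fin (n + 1) ⊕ Fin (n + 1) → ℂ}
    (ha : a (Sum.inl k) ≠ 0) :
    cc k a ∘ Sum.inr = (a (Sum.inl k))⁻¹ • (a ∘ Sum.inr +
      (-(a (Sum.inr k) / a (Sum.inl k))) • (a ∘ Sum.inl)) := by
  funext l
  simp only [Function.comp_apply, cc_inr, Pi.smul_apply, smul_eq_mul, Pi.add_apply]
  field_simp
  ring

theorem sg_cc (hσ : ∀ j, SymForm F (m j) (σ j)) {i k : Fin (n + 1)}
    {a : Fin (n + 1) ⊕ Fin (n + 1) → ℂ} (ha : a ∈ Tg F i) (hk : a (Sum.inl k) ≠ 0) (j : κ) :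
    sg σ j (cc k a) = sg σ j a := by
  unfold sg
  rw [cc_comp_inl, cc_comp_inr k hk]
  exact (hσ j).twist _ (Tg.cone ha) _ ha.2.2.2 _ _ (inv_ne_zero hk)

/-- Brody curves have constant values of the symmetric differentials -/
theorem liouville (hF : ∀ j, IsForm (F j)) (hσ : ∀ j, SymForm F (m j) (σ j))
    {φ : ℂ → Mat (n + 1)} (h : HolP univ φ) (hT : ∀ z, φ z ∈ TF F) {K : ℝ}
    (hK : ∀ z, ‖fderiv ℝ φ z‖ ≤ K) : ∃ c : κ → ℂ, Sol (Ep F σ c) univ φ := by
  choose ix hix hixK using fun z => exists_max (h.mem_PM (mem_univ z))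
  have hTg : ∀ z i, φ z i i ≠ 0 → pr i φ z ∈ Tg F i := fun z i hi =>
    pr_Tg hF isOpen_univ h (fun z _ => hT z) (mem_univ z) hi
  have hs : ∀ j z i, φ z i i ≠ 0 → sg σ j (pr i φ z) = sg σ j (pr (ix z) φ z) := by
    intro j z i hi
    obtain ⟨h1, h2⟩ := pr_cc isOpen_univ h (mem_univ z) (hix z) hi
    rw [h2]
    exact sg_cc hσ (hTg z _ (hix z)) h1 j
  have hconst : ∀ j, ∀ z, sg σ j (pr (ix z) φ z) = sg σ j (pr (ix 0) φ 0) := by
    intro j
    have hd : Differentiable ℂ fun z => sg σ j (pr (ix z) φ z) := by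
      intro z
      have hi := hix z
      obtain ⟨P, H, hH, hrep⟩ := sg_rep hσ j (Tg.cone (hTg z _ hi))
      have h1 : AnalyticAt ℂ (fun w => eval (pr (ix z) φ w) P / eval (pr (ix z) φ w ∘ Sum.inl) H)
          z := by
        have h2 := analyticAt_eval (γ := fun w => pr (ix z) φ w)
          (fun l => analyticAt_pr isOpen_univ h (mem_univ z) hi l) P
        have h3 := analyticAt_eval (γ := fun w => pr (ix z) φ w ∘ Sum.inl)
          (fun l => analyticAt_pr isOpen_univ h (mem_univ z) hi (Sum.inl l)) H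
        exact h2.div h3 hH
      refine h1.differentiableAt.congr_of_eventuallyEq ?_
      have h4 : ∀ᶠ w in 𝓝 z, eval (pr (ix z) φ w ∘ Sum.inl) H ≠ 0 :=
        (analyticAt_eval (γ := fun w => pr (ix z) φ w ∘ Sum.inl)
          (fun l => analyticAt_pr isOpen_univ h (mem_univ z) hi (Sum.inl l)) H).continuousAt.eventually_ne hH
      filter_upwards [h4, ev_diag h (mem_univ z) hi] with w hw hwi
      rw [← hs j w _ hwi]
      have h5 := hTg w _ hwi
      have := hrep _ (Tg.cone h5) hw _ h5.2.2.2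
      rwa [Sum.elim_comp_inl_inr] at this
    obtain ⟨A, hA, hAb⟩ := norm_der (n + 1)
    choose C hC using fun i => sg_bounded (F := F) hσ j i (A * K)
    obtain ⟨C', hC'⟩ := Finite.exists_le C
    intro z
    refine hd.apply_eq_apply_of_bounded ?_ z 0
    rw [isBounded_iff_forall_norm_le]
    refine ⟨C', ?_⟩
    rintro _ ⟨w, rfl⟩
    refine (hC (ix w) _ ⟨hTg w _ (hix w), hixK w, ?_⟩).trans (hC' _)
    have h1 := (hAb univ φ isOpen_univ h w (mem_univ w) (ix w) (hix w) (hixK w)).2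
    have h2 : pr (ix w) φ w ∘ Sum.inr = deriv (fun w' => chart (ix w) (φ w')) w := rfl
    rw [h2]
    exact h1.trans (by gcongr; exact hK w)
  refine ⟨fun j => sg σ j (pr (ix 0) φ 0), h, fun z _ i hi => ⟨hTg z i hi, fun j => ?_⟩⟩
  rw [hs j z i hi, hconst j z]

/-- the constants of a nonconstant curve are not zero -/
theorem const_ne (hσ : ∀ j, SymForm F (m j) (σ j)) (him : Immersive F σ) {c : κ → ℂ}
    {φ : ℂ → Mat (n + 1)} (h : Sol (Ep F σ c) univ φ) (hne : ¬ ∀ z, φ z = φ 0) :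
    ∃ j, c j ≠ 0 := by
  have h1 : ∃ z1, fderiv ℝ φ z1 ≠ 0 := by
    by_contra hcon
    push Not at hcon
    apply hne
    intro z
    exact is_const_of_fderiv_eq_zero (𝕜 := ℝ) (fun w => h.1.differentiableAt (mem_univ w)) hcon z 0
  obtain ⟨z, hz⟩ := h1
  obtain ⟨A, hA, hAb⟩ := norm_der (n + 1)
  obtain ⟨i, hi, hiK⟩ := exists_max (h.1.mem_PM (mem_univ z))
  have h2 := (hAb univ φ isOpen_univ h.1 z (mem_univ z) i hi hiK).1
  have h3 : deriv (fun w' => chart i (φ w')) z ≠ 0 := by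
    intro h0
    rw [h0, norm_zero, mul_zero] at h2
    exact hz (norm_le_zero_iff.1 h2)
  obtain ⟨h4, h5⟩ := h.2 z (mem_univ z) i hi
  obtain ⟨j, hj⟩ := exists_ne_zero hσ him (Tg.cone h4) h4.2.2.2 (not_mult (i := i) h4.1 h4.2.1 h3)
  exact ⟨j, fun h6 => hj ((h5 j).trans h6)⟩

end liou

end Run7.h418
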