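import Pool.Agent.Run7.h418.Ana

/-!
Local transitivity of the action at general points.
-/

set_option autoImplicit false

open MvPolynomial Metric Set Filter Topology

namespace Run7.h418

open Pool.Agent.Y190.OP Pool.Agent.W602.GT Pool.Agent.N155

section pol

variable {τ : Type} [Fintype τ]

theorem fderiv_eval (G : MvPolynomial τ ℂ) (a x : τ → ℂ) :
    fderiv ℂ (fun x => eval x G) a x = ∑ t, eval a (pderiv t G) * x t := by
  have h1 : DifferentiableAt ℂ (fun x => eval x G) a :=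
    (AnalyticOnNhd.eval_mvPolynomial G a (mem_univ a)).differentiableAt
  have h2 : HasDerivAt (fun s : ℂ => a + s • x) x 0 := by
    have := ((hasDerivAt_id (0 : ℂ)).smul_const x).const_add a
    simpa using this
  have h3 : HasFDerivAt (fun x => eval x G) (fderiv ℂ (fun x => eval x G) a)
      ((fun s : ℂ => a + s • x) 0) := by
    simpa using h1.hasFDerivAt
  have h4 := h3.comp_hasDerivAt 0 h2
  have h5 := hasDerivAt_eval' (γ := fun s : ℂ => a + s • x) (γ' := x) (z := 0)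
    (fun l => (hasDerivAt_pi.1 h2) l) G
  rw [h4.unique h5]
  simp

theorem fderiv_comp_apply {E ι : Type} [NormedAddCommGroup E] [NormedSpace ℂ E] [Fintype ι]
    {Φ : E → ι → ℂ} {a : E} (h : DifferentiableAt ℂ Φ a) (x : E) (i : ι) :
    fderiv ℂ Φ a x i = fderiv ℂ (fun y => Φ y i) a x := by
  have h1 := (hasFDerivAt_pi'.1 h.hasFDerivAt) i
  rw [h1.fderiv]
  rfl

end pol

section lt

variable {N : ℕ} {f : ℂ → Mat N} {D : Fin N → Dr (Fin N ⊕ Fin N)} {C : ℝ} {q : ℕ}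
  {V : Fin q → Fin N → Dr (Fin N ⊕ Fin N)} {ε : ℝ}

theorem sum_k (V : Fin q → Fin N → Dr (Fin N ⊕ Fin N)) (t : Fin q → ℂ) (k : Fin N) :
    (∑ b, t b • V b) k = ∑ b, t b • V b k := by
  rw [Finset.sum_apply]
  rfl

/-- **Local transitivity.** -/
theorem local_trans (hV : ∀ b, Cmp f (V b)) (hε : 0 < ε)
    (hsm : ∀ t : Fin q → ℂ, ‖t‖ ≤ ε → Sm C (∑ b, t b • V b)) {k : Fin N}
    {a : Fin N ⊕ Fin N → ℂ} (ha : a ∈ Vs (Rel f) k) (haB : ‖a‖ ≤ max 1 C + 1)
    {l : Fin q → Fin N ⊕ Fin N} {g : Fin N ⊕ Fin N → Rn N}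
    (hg : ∀ t, g t ∈ Rel f k ∨ ∃ s, g t = X (l s))
    (h1 : eval a (Matrix.of fun t t' => pderiv t' (g t)).det ≠ 0)
    (h2 : eval a (Matrix.of fun b s => V b k (X (l s))).det ≠ 0) :
    (∀ η > 0, ∀ᶠ x in 𝓝 a, x ∈ Vs (Rel f) k → ∃ t : Fin q → ℂ, ‖t‖ < η ∧
      x = fl ((∑ b, t b • V b) k) a 1) ∧
    ∃ r > 0, ∀ t : Fin q → ℂ, ‖t‖ < r → fl ((∑ b, t b • V b) k) a 1 = a → t = 0 := by
  have hsm' : ∀ t : Fin q → ℂ, ‖t‖ ≤ ε → Rad (∑ b, t b • V b k) (max 1 C + 1) 2 := by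
    intro t ht
    rw [← sum_k]
    exact hsm t ht k
  have hB0 : 0 ≤ max 1 C + 1 := by positivity
  simp only [sum_k]
  set Γ : (Fin q → ℂ) → Fin N ⊕ Fin N → ℂ := fun t => fl (∑ b, t b • V b k) a 1 with hΓ
  have hΓana : ∀ l, AnalyticAt ℂ (fun t => Γ t l) 0 := fun l =>
    ana_fl hε hsm' (by norm_num) hB0 haB l
  have hΓ0 : Γ 0 = a := by
    rw [hΓ]
    simp only [Pi.zero_apply, zero_smul, Finset.sum_const_zero]
    exact fl_zero_vf a 1
  have hΓc : ContinuousAt Γ 0 := continuousAt_pi.2 fun l => (hΓana l).continuousAt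
  -- the map to the parameters
  set Ψ : (Fin q → ℂ) → Fin q → ℂ := fun t s => Γ t (l s) with hΨ
  have hΨana : AnalyticAt ℂ Ψ 0 := analyticAt_pi_iff.2 fun s => hΓana (l s)
  have hΨinj : ∀ x, fderiv ℂ Ψ 0 x = 0 → x = 0 := by
    intro x hx
    have hdet : ((eval a).mapMatrix (Matrix.of fun b s => V b k (X (l s)))).det ≠ 0 := by
      rw [← RingHom.map_det]
      exact h2
    refine Matrix.eq_zero_of_vecMul_eq_zero hdet ?_
    funext s
    have h3 := congrFun hx s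
    rw [fderiv_comp_apply hΨana.differentiableAt] at h3
    have h4 := fderiv_fl hε hsm' (by norm_num) hB0 haB (l s) x
    change fderiv ℂ (fun t => Γ t (l s)) 0 x = _ at h4
    change fderiv ℂ (fun t => Γ t (l s)) 0 x = _ at h3
    rw [h4] at h3
    exact h3
  obtain ⟨⟨N1, hN1, hinj1⟩, hmap⟩ := inv_fun hΨana hΨinj
  -- the map to the equations
  set Θ : (Fin N ⊕ Fin N → ℂ) → Fin N ⊕ Fin N → ℂ := fun x t => eval x (g t) with hΘ
  have hΘana : AnalyticAt ℂ Θ a := analyticAt_pi_iff.2 fun t =>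
    AnalyticOnNhd.eval_mvPolynomial (g t) a (mem_univ a)
  have hΘinj : ∀ x, fderiv ℂ Θ a x = 0 → x = 0 := by
    intro x hx
    have hdet : ((eval a).mapMatrix (Matrix.of fun t t' => pderiv t' (g t))).det ≠ 0 := by
      rw [← RingHom.map_det]
      exact h1
    refine Matrix.eq_zero_of_mulVec_eq_zero hdet ?_
    funext t
    have h3 := congrFun hx t
    rw [fderiv_comp_apply hΘana.differentiableAt] at h3
    have h4 := fderiv_eval (g t) a x
    change fderiv ℂ (fun x => eval x (g t)) a x = _ at h3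
    rw [h4] at h3
    exact h3
  obtain ⟨⟨N2, hN2, hinj2⟩, -⟩ := inv_fun hΘana hΘinj
  constructor
  · intro η hη
    have hW : {t : Fin q → ℂ | ‖t‖ < η ∧ ‖t‖ ≤ ε ∧ Γ t ∈ N2} ∈ 𝓝 (0 : Fin q → ℂ) := by
      have h3 : ∀ᶠ t in 𝓝 (0 : Fin q → ℂ), ‖t‖ < η := by
        filter_upwards [ball_mem_nhds (0 : Fin q → ℂ) hη] with t ht
        exact mem_ball_zero_iff.1 ht
      have h4 : ∀ᶠ t in 𝓝 (0 : Fin q → ℂ), ‖t‖ ≤ ε := by
        filter_upwards [ball_mem_nhds (0 : Fin q → ℂ) hε] with t ht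
        exact (mem_ball_zero_iff.1 ht).le
      have h5 : ∀ᶠ t in 𝓝 (0 : Fin q → ℂ), Γ t ∈ N2 := by
        have : N2 ∈ 𝓝 (Γ 0) := by rw [hΓ0]; exact hN2
        exact hΓc this
      exact h3.and (h4.and h5)
    have hW2 : Ψ '' {t : Fin q → ℂ | ‖t‖ < η ∧ ‖t‖ ≤ ε ∧ Γ t ∈ N2} ∈ 𝓝 (Ψ 0) := by
      rw [← hmap]
      exact image_mem_map hW
    have hΨ0 : Ψ 0 = fun s => a (l s) := by
      funext s
      change Γ 0 (l s) = _
      rw [hΓ0]
    have hcont : Tendsto (fun x : Fin N ⊕ Fin N → ℂ => fun s => x (l s)) (𝓝 a)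
        (𝓝 fun s => a (l s)) := by
      have : Continuous fun x : Fin N ⊕ Fin N → ℂ => fun s => x (l s) := by fun_prop
      exact this.tendsto a
    rw [hΨ0] at hW2
    filter_upwards [hcont hW2, hN2] with x hx hxN hxV
    obtain ⟨t, ⟨ht1, ht2, ht3⟩, ht4⟩ := hx
    refine ⟨t, ht1, ?_⟩
    refine hinj2 hxN ht3 ?_
    have hmem : Γ t ∈ Vs (Rel f) k := by
      have h5 := (Cmp.sum hV t).pres k
      rw [sum_k] at h5
      exact fl_mem h5 (hsm' t ht2) ha haB (by norm_num)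
    funext t'
    change eval x (g t') = eval (Γ t) (g t')
    rcases hg t' with h3 | ⟨s, h3⟩
    · rw [hxV _ h3, hmem _ h3]
    · rw [h3, eval_X, eval_X]
      exact (congrFun ht4 s).symm
  · obtain ⟨r, hr, hball⟩ := Metric.mem_nhds_iff.1 hN1
    refine ⟨r, hr, fun t ht hta => ?_⟩
    have h3 : Γ t = Γ 0 := by rw [hΓ0]; exact hta
    refine hinj1 (hball (mem_ball_zero_iff.2 ht)) (hball (mem_ball_self hr)) ?_
    funext s
    change Γ t (l s) = Γ 0 (l s)
    rw [h3]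

end lt

end Run7.h418
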