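import Pool.Agent.Run7.h418.Wsp

/-!
Mixed partial derivatives of holomorphic functions of two variables.
-/

set_option autoImplicit false

open Metric Set Filter Topology MvPolynomial

namespace Run7.h418

open Pool.Agent.Y190.OP

theorem eventually_slice1 {P : ℂ × ℂ → Prop} {z s : ℂ} (h : ∀ᶠ p in 𝓝 (z, s), P p) :
    ∀ᶠ w in 𝓝 z, P (w, s) := by
  have hc : ContinuousAt (fun w : ℂ => (w, s)) z := by fun_prop
  exact hc.eventually h

theorem eventually_slice2 {P : ℂ × ℂ → Prop} {z s : ℂ} (h : ∀ᶠ p in 𝓝 (z, s), P p) :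
    ∀ᶠ t in 𝓝 s, P (z, t) := by
  have hc : ContinuousAt (fun t : ℂ => (z, t)) s := by fun_prop
  exact hc.eventually h

theorem hasDerivAt_slice1 {g : ℂ × ℂ → ℂ} {p : ℂ × ℂ} (h : DifferentiableAt ℂ g p) :
    HasDerivAt (fun w => g (w, p.2)) (fderiv ℂ g p (1, 0)) p.1 := by
  have h1 : HasDerivAt (fun w : ℂ => (w, p.2)) ((1 : ℂ), (0 : ℂ)) p.1 :=
    (hasDerivAt_id p.1).prodMk (hasDerivAt_const p.1 p.2)
  exact HasFDerivAt.comp_hasDerivAt (l := g) (l' := fderiv ℂ g p) p.1 h.hasFDerivAt h1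

theorem hasDerivAt_slice2 {g : ℂ × ℂ → ℂ} {p : ℂ × ℂ} (h : DifferentiableAt ℂ g p) :
    HasDerivAt (fun t => g (p.1, t)) (fderiv ℂ g p (0, 1)) p.2 := by
  have h1 : HasDerivAt (fun t : ℂ => (p.1, t)) ((0 : ℂ), (1 : ℂ)) p.2 :=
    (hasDerivAt_const p.2 p.1).prodMk (hasDerivAt_id p.2)
  exact HasFDerivAt.comp_hasDerivAt (l := g) (l' := fderiv ℂ g p) p.2 h.hasFDerivAt h1

/-- mixed partial derivatives -/
theorem mixed {g : ℂ × ℂ → ℂ} {z s : ℂ} (h : ∀ᶠ p in 𝓝 (z, s), DifferentiableAt ℂ g p) :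
    HasDerivAt (fun w => deriv (fun t => g (w, t)) s) (deriv (fun t => deriv (fun w => g (w, t)) z) s)
      z := by
  obtain ⟨U, hU, hUo, hzU⟩ := _root_.mem_nhds_iff.1 h
  have hd : DifferentiableOn ℂ g U := fun p hp => (hU hp).differentiableWithinAt
  have h2 : ContDiffOn ℂ 2 g U := by
    exact_mod_cast Pool.Agent.Helper540.contDiffOn_of_differentiableOn hUo hd 2
  have h3 : ContDiffAt ℂ 2 g (z, s) := h2.contDiffAt (hUo.mem_nhds hzU)
  have h4 : DifferentiableAt ℂ (fderiv ℂ g) (z, s) :=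
    (h3.fderiv_right (m := 1) (by norm_num)).differentiableAt (by norm_num)
  have hsym := second_derivative_symmetric_of_eventually (𝕜 := ℂ) (f := g) (f' := fderiv ℂ g)
    (x := (z, s)) (f'' := fderiv ℂ (fderiv ℂ g) (z, s)) (h.mono fun p hp => hp.hasFDerivAt)
    h4.hasFDerivAt (1, 0) (0, 1)
  have e1 : (fun w => deriv (fun t => g (w, t)) s) =ᶠ[𝓝 z] fun w => fderiv ℂ g (w, s) (0, 1) := by
    filter_upwards [eventually_slice1 h] with w hw
    exact (hasDerivAt_slice2 hw).deriv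
  have e2 : (fun t => deriv (fun w => g (w, t)) z) =ᶠ[𝓝 s] fun t => fderiv ℂ g (z, t) (1, 0) := by
    filter_upwards [eventually_slice2 h] with t ht
    exact (hasDerivAt_slice1 ht).deriv
  have h5 : DifferentiableAt ℂ (fun p => fderiv ℂ g p (0, 1)) (z, s) := h4.clm_apply
    (differentiableAt_const _)
  have h6 : DifferentiableAt ℂ (fun p => fderiv ℂ g p (1, 0)) (z, s) := h4.clm_apply
    (differentiableAt_const _)
  have e3 : fderiv ℂ (fun p => fderiv ℂ g p (0, 1)) (z, s) (1, 0) =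
      fderiv ℂ (fderiv ℂ g) (z, s) (1, 0) (0, 1) := by
    rw [fderiv_clm_apply h4 (differentiableAt_const _)]
    simp
  have e4 : fderiv ℂ (fun p => fderiv ℂ g p (1, 0)) (z, s) (0, 1) =
      fderiv ℂ (fderiv ℂ g) (z, s) (0, 1) (1, 0) := by
    rw [fderiv_clm_apply h4 (differentiableAt_const _)]
    simp
  have h7 := hasDerivAt_slice1 h5
  have h8 := hasDerivAt_slice2 h6
  rw [e2.deriv_eq, h8.deriv, e4, ← hsym, ← e3]
  exact h7.congr_of_eventuallyEq e1

theorem Holo.analyticAt_slice {g : ℂ × ℂ → ℂ} {z s : ℂ}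
    (h : ∀ᶠ p in 𝓝 (z, s), DifferentiableAt ℂ g p) :
    AnalyticAt ℂ (fun w => deriv (fun t => g (w, t)) s) z := by
  rw [Complex.analyticAt_iff_eventually_differentiableAt]
  have h1 : ∀ᶠ p in 𝓝 (z, s), ∀ᶠ q in 𝓝 p, DifferentiableAt ℂ g q := h.eventually_nhds
  filter_upwards [eventually_slice1 h1] with w hw
  exact (mixed hw).differentiableAt

end Run7.h418
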