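import Pool.Agent.Run7.h418.Mx
import Pool.Agent.Run7.h418.Trd
import Pool.Agent.Run7.h418.Frm

/-!
Existence of a curve with a maximal set of relations which contains the relations of a given curve;
curves of minimal transcendence degree.
-/

set_option autoImplicit false

open MvPolynomial Metric Set Filter Topology

namespace Run7.h418

open Pool.Agent.Y190.OP Pool.Agent.W602.GT Pool.Agent.N155

variable {n : ℕ} {ι κ : Type} {F : ι → MvPolynomial (Fin (n + 1)) ℂ}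
  {σ : κ → (Fin (n + 1) → ℂ) → (Fin (n + 1) → ℂ) → ℂ} {m : κ → ℕ} {c : κ → ℂ}

/-- existence of a curve with a maximal set of relations -/
theorem exists_dat_ge [Finite κ] (hσ : ∀ j, SymForm F (m j) (σ j)) (hm : ∀ j, 0 < m j)
    (him : Immersive F σ) (hc : ∃ j, c j ≠ 0) {φ0 : ℂ → Mat (n + 1)}
    (hφ0 : Sol (Ep F σ c) univ φ0) :
    ∃ (f : ℂ → Mat (n + 1)) (D : Fin (n + 1) → Dr (Fin (n + 1) ⊕ Fin (n + 1))) (C : ℝ),
      Dat f D C ∧ (∀ i, Vs (Rel f) i ⊆ Ep F σ c i) ∧ (∀ i, Rel φ0 i ≤ Rel f i) ∧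
      ∀ z i, φ0 z i i ≠ 0 → SolAt (D i) (pr i φ0) z := by
  set S : Set (Fin (n + 1) → (Ideal (Rn (n + 1)))ᵒᵈ) :=
    {T | ∃ φ, Sol (Vs (Rel φ0)) univ φ ∧ T = fun i => OrderDual.toDual (Rel φ i)} with hS
  have hwf : WellFoundedLT (Fin (n + 1) → (Ideal (Rn (n + 1)))ᵒᵈ) := inferInstance
  obtain ⟨T, ⟨f, hf0, rfl⟩, hmin⟩ := hwf.wf.has_min S ⟨_, φ0, sol_self hφ0.1, rfl⟩
  have hle : ∀ i, Rel φ0 i ≤ Rel f i := fun i G hG z hz => hf0.2 z (mem_univ z) i hz G hG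
  have hf : Sol (Ep F σ c) univ f := hf0.sub (Vs_sub hσ hφ0)
  have hV := Vs_sub hσ hf
  choose D hD1 hD2 using exists_vf hσ hm him hc
  obtain ⟨R, hR⟩ := Finite.exists_le fun j => ‖c j‖
  choose C hC using fun i => exists_bound_v hm hσ him i R
  obtain ⟨C', hC'⟩ := Finite.exists_le C
  refine ⟨f, D, C', ⟨hf.1, hD1, fun U φ hU hφ z hz i hi => hD2 i U φ hU (hφ.sub hV) z hz hi,
    fun i a ha => (hV i ha).1.1, fun i a ha => (hV i ha).1.2.1, fun i a ha h0 => ?_,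
    fun i a ha haK => ?_, fun φ hφ i => ?_⟩, hV, hle,
    fun z i hi => hD2 i univ φ0 isOpen_univ hφ0 z (mem_univ z) hi⟩
  · obtain ⟨j, hj⟩ := hc
    apply hj
    have h1 := hV i ha
    rw [← h1.2 j]
    unfold sg
    rw [h0]
    have h2 := (hσ j).deg _ (Tg.cone h1.1) 0 (by intro j; simp) 0
    rw [smul_zero, zero_pow (hm j).ne', zero_mul] at h2
    exact h2
  · have h1 := hV i ha
    refine (hC i a h1.1 haK fun j => ?_).trans (hC' i)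
    rw [h1.2 j]
    exact hR j
  · have h1 : ∀ i, Rel f i ≤ Rel φ i := fun i G hG z hz => hφ.2 z (mem_univ z) i hz G hG
    have h3 : Sol (Vs (Rel φ0)) univ φ := hφ.sub fun i a ha G hG => ha G (hle i hG)
    have h2 := hmin _ ⟨φ, h3, rfl⟩
    by_contra hne
    apply h2
    rw [Pi.lt_def]
    refine ⟨fun k => h1 k, i, ?_⟩
    exact lt_of_le_of_ne (h1 i) fun he => hne (OrderDual.toDual.injective he)

/-- `w` is a lower bound for the transcendence degrees of the curves -/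
def Low (F : ι → MvPolynomial (Fin (n + 1)) ℂ)
    (σ : κ → (Fin (n + 1) → ℂ) → (Fin (n + 1) → ℂ) → ℂ) (w : ℕ) : Prop :=
  ∀ (c : κ → ℂ) (f : ℂ → Mat (n + 1)) (D : Fin (n + 1) → Dr (Fin (n + 1) ⊕ Fin (n + 1))) (C : ℝ),
    Dat f D C → (∀ i, Vs (Rel f) i ⊆ Ep F σ c i) → ∀ (M : Type) (_ : Field M) (_ : Algebra ℂ M)
      (ev : Fin (n + 1) → Rn (n + 1) →ₐ[ℂ] M) (δ : Derivation ℂ M M), IsFd f D ev δ →
        (w : Cardinal) ≤ Algebra.trdeg ℂ M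

theorem IsFd.trdeg_le {N : ℕ} {f : ℂ → Mat N} {D : Fin N → Dr (Fin N ⊕ Fin N)} {M M' : Type}
    [Field M] [Algebra ℂ M] [Field M'] [Algebra ℂ M'] {ev : Fin N → Rn N →ₐ[ℂ] M}
    {ev' : Fin N → Rn N →ₐ[ℂ] M'} {δ : Derivation ℂ M M} {δ' : Derivation ℂ M' M'}
    (hf : HolP univ f) (hM : IsFd f D ev δ) (hM' : IsFd f D ev' δ') :
    Algebra.trdeg ℂ M ≤ Algebra.trdeg ℂ M' := by
  obtain ⟨k, hk0⟩ := PM.exists_diag (hf.mem_PM (mem_univ (0 : ℂ)))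
  have hk : ∃ z, f z k k ≠ 0 := ⟨0, hk0⟩
  obtain ⟨w, x, hx⟩ := exists_tb (ev k) (hM.fr hk)
  have hex : ∀ {K : Type} [Field K] [Algebra ℂ K] (e : Rn N →ₐ[ℂ] K) (P : MvPolynomial (Fin w) ℂ),
      aeval (fun t => e (x t)) P = e (aeval x P) := by
    intro K _ _ e P
    have h1 : (e.comp (aeval x) : MvPolynomial (Fin w) ℂ →ₐ[ℂ] K) = aeval fun t => e (x t) :=
      MvPolynomial.algHom_ext fun t => by simp
    rw [← h1]
    rfl
  have h1 : AlgebraicIndependent ℂ (fun t => ev' k (x t)) := by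
    rw [algebraicIndependent_iff]
    intro P hP
    rw [hex, hM'.ker k hk, ← hM.ker k hk, ← hex] at hP
    exact algebraicIndependent_iff.1 hx.1 P hP
  rw [tb_card hx]
  have := h1.cardinalMk_le_trdeg
  rwa [Cardinal.mk_fin] at this

/-- curves of minimal transcendence degree -/
theorem exists_low (h : ∃ (c : κ → ℂ) (f : ℂ → Mat (n + 1))
    (D : Fin (n + 1) → Dr (Fin (n + 1) ⊕ Fin (n + 1))) (C : ℝ), Dat f D C ∧
      ∀ i, Vs (Rel f) i ⊆ Ep F σ c i) :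
    ∃ (w : ℕ) (c : κ → ℂ) (f : ℂ → Mat (n + 1))
      (D : Fin (n + 1) → Dr (Fin (n + 1) ⊕ Fin (n + 1))) (C : ℝ), Low F σ w ∧ Dat f D C ∧
      (∀ i, Vs (Rel f) i ⊆ Ep F σ c i) ∧ ∀ (M : Type) (_ : Field M) (_ : Algebra ℂ M)
      (ev : Fin (n + 1) → Rn (n + 1) →ₐ[ℂ] M) (δ : Derivation ℂ M M), IsFd f D ev δ →
        Algebra.trdeg ℂ M = w := by
  classical
  have hfin : ∀ {f : ℂ → Mat (n + 1)} {D : Fin (n + 1) → Dr (Fin (n + 1) ⊕ Fin (n + 1))} {C : ℝ}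
      {M : Type} [Field M] [Algebra ℂ M] {ev : Fin (n + 1) → Rn (n + 1) →ₐ[ℂ] M}
      {δ : Derivation ℂ M M}, Dat f D C → IsFd f D ev δ →
        ∃ w : ℕ, Algebra.trdeg ℂ M = w := by
    intro f D C M _ _ ev δ hD hM
    obtain ⟨k, hk0⟩ := PM.exists_diag (hD.hol.mem_PM (mem_univ (0 : ℂ)))
    obtain ⟨w, x, hx⟩ := exists_tb (ev k) (hM.fr ⟨0, hk0⟩)
    exact ⟨w, tb_card hx⟩
  have hP : ∃ w : ℕ, ∃ (c : κ → ℂ) (f : ℂ → Mat (n + 1))
      (D : Fin (n + 1) → Dr (Fin (n + 1) ⊕ Fin (n + 1))) (C : ℝ), Dat f D C ∧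
      (∀ i, Vs (Rel f) i ⊆ Ep F σ c i) ∧ ∃ (M : Type) (_ : Field M) (_ : Algebra ℂ M)
      (ev : Fin (n + 1) → Rn (n + 1) →ₐ[ℂ] M) (δ : Derivation ℂ M M), IsFd f D ev δ ∧
        Algebra.trdeg ℂ M = w := by
    obtain ⟨c, f, D, C, hD, hV⟩ := h
    obtain ⟨k, hk0⟩ := PM.exists_diag (hD.hol.mem_PM (mem_univ (0 : ℂ)))
    obtain ⟨M, hMf, hMa, ev, δ, hM⟩ := hD.exists_field ⟨0, hk0⟩
    obtain ⟨w, hw⟩ := hfin hD hM
    exact ⟨w, c, f, D, C, hD, hV, M, hMf, hMa, ev, δ, hM, hw⟩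
  obtain ⟨c, f, D, C, hD, hV, M, hMf, hMa, ev, δ, hM, hw⟩ := Nat.find_spec hP
  refine ⟨Nat.find hP, c, f, D, C, ?_, hD, hV, ?_⟩
  · intro c' f' D' C' hD' hV' M' _ _ ev' δ' hM'
    obtain ⟨w', hw'⟩ := hfin hD' hM'
    rw [hw']
    have := Nat.find_min' hP ⟨c', f', D', C', hD', hV', M', _, _, ev', δ', hM', hw'⟩
    exact_mod_cast this
  · intro M' _ _ ev' δ' hM'
    rw [← hw]
    exact le_antisymm (hM'.trdeg_le hD.hol hM) (hM.trdeg_le hD.hol hM')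

end Run7.h418
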