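import Pool.Agent.Run7.h418.Orb
import Pool.Agent.Run7.h418.Mnl

/-!
Orbits of one-parameter groups are curves with constant values of the symmetric differentials.
-/

set_option autoImplicit false

open MvPolynomial Metric Set Filter Topology

namespace Run7.h418

open Pool.Agent.Y190.OP Pool.Agent.W602.GT Pool.Agent.N155

section act

variable {n : ℕ} {ι κ : Type} {F : ι → MvPolynomial (Fin (n + 1)) ℂ}
  {σ : κ → (Fin (n + 1) → ℂ) → (Fin (n + 1) → ℂ) → ℂ} {m : κ → ℕ} {c : κ → ℂ}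
  {f : ℂ → Mat (n + 1)} {D : Fin (n + 1) → Dr (Fin (n + 1) ⊕ Fin (n + 1))} {C : ℝ}
  {q : ℕ} {V : Fin q → Fin (n + 1) → Dr (Fin (n + 1) ⊕ Fin (n + 1))}
  {act : (Fin q → ℂ) → Ws f → Ws f} {ε : ℝ}

theorem Ws.mem_TF (hV : ∀ i, Vs (Rel f) i ⊆ Ep F σ c i) (φ : Ws f) (z : ℂ) : φ.1 z ∈ TF F := by
  obtain ⟨i, hi⟩ := PM.exists_diag (φ.2.1.mem_PM (mem_univ z))
  have h1 := hV i (φ.2.2 z (mem_univ z) i hi)
  refine ⟨chart i (φ.1 z), Tg.cone h1.1, PM.Phi_chart (φ.2.1.mem_PM (mem_univ z)) hi⟩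

theorem IsAct.orb_ep (hF : ∀ j, IsForm (F j)) (hσ : ∀ j, SymForm F (m j) (σ j)) (h : Dat f D C)
    (hV : ∀ i, Vs (Rel f) i ⊆ Ep F σ c i) (hC : ∀ b, Cmp f (V b)) (hA : IsAct f C V act ε)
    (φ : Ws f) (e : Fin q → ℂ) : ∃ c' : κ → ℂ, Sol (Ep F σ c') univ (orb act e φ) := by
  obtain ⟨K, hK⟩ := hA.orb_bd h hC e
  exact liouville hF hσ (hA.orb_hol h hC φ e) (fun z => (act (z • e) φ).mem_TF hV 0) (hK φ)

theorem stable_span {τ : Type} {D : Dr τ} {I : Ideal (MvPolynomial τ ℂ)}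
    {S : Set (MvPolynomial τ ℂ)} (hI : ∀ G ∈ I, D G ∈ I)
    (hS : ∀ G ∈ S, D G ∈ I ⊔ Ideal.span S) : ∀ G ∈ I ⊔ Ideal.span S, D G ∈ I ⊔ Ideal.span S := by
  intro G hG
  obtain ⟨G1, h1, G2, h2, rfl⟩ := Submodule.mem_sup.1 hG
  rw [map_add]
  refine add_mem (Ideal.mem_sup_left (hI _ h1)) ?_
  induction h2 using Submodule.span_induction with
  | mem x hx => exact hS x hx
  | zero => rw [map_zero]; exact zero_mem _
  | add x y hx hy ihx ihy =>
    rw [map_add]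
    refine add_mem (ihx ?_) (ihy ?_)
    · exact add_mem (Ideal.mem_sup_left h1) (Ideal.mem_sup_right hx)
    · exact add_mem (Ideal.mem_sup_left h1) (Ideal.mem_sup_right hy)
  | smul r x hx ih =>
    rw [smul_eq_mul, D.leibniz, smul_eq_mul, smul_eq_mul]
    refine add_mem (Ideal.mul_mem_left _ _ (ih ?_)) (Ideal.mul_mem_right _ _
      (Ideal.mem_sup_right hx))
    exact add_mem (Ideal.mem_sup_left h1) (Ideal.mem_sup_right hx)

/-- vector fields without zeros -/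
theorem Dat.vf_zero (h : Dat f D C) {U : Dr (Fin (n + 1) ⊕ Fin (n + 1))} {i : Fin (n + 1)}
    (hc : ∀ G, ⁅D i, U⁆ G ∈ Rel f i) {a : Fin (n + 1) ⊕ Fin (n + 1) → ℂ}
    (ha : a ∈ Vs (Rel f) i) (h0 : ∀ l, eval a (U (X l)) = 0) (l : Fin (n + 1) ⊕ Fin (n + 1)) :
    U (X l) ∈ Rel f i := by
  set S : Set (Rn (n + 1)) := Set.range fun l => U (X l) with hS
  have hUS : ∀ G, U G ∈ Ideal.span S := by
    intro G
    rw [der_sum U G]
    refine Ideal.sum_mem _ fun k _ => ?_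
    rw [smul_eq_mul]
    exact Ideal.mul_mem_left _ _ (Ideal.subset_span ⟨k, rfl⟩)
  have h1 : ∀ G ∈ Rel f i ⊔ Ideal.span S, D i G ∈ Rel f i ⊔ Ideal.span S := by
    refine stable_span (fun G hG => h.stab hG) ?_
    rintro _ ⟨l, rfl⟩
    have h2 : D i (U (X l)) = ⁅D i, U⁆ (X l) + U (D i (X l)) := by
      rw [Derivation.commutator_apply]
      ring
    simp only [h2]
    exact add_mem (Ideal.mem_sup_left (hc _)) (Ideal.mem_sup_right (hUS _))
  have h2 : Rel f i ⊔ Ideal.span S ≤ Iz {a} := by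
    refine sup_le (fun G hG b hb => ?_) (Ideal.span_le.2 ?_)
    · rw [mem_singleton_iff.1 hb]
      exact ha G hG
    · rintro _ ⟨l, rfl⟩ b hb
      rw [mem_singleton_iff.1 hb]
      exact h0 l
  have h3 : Rel f i ⊔ Ideal.span S ≠ ⊤ := by
    intro h4
    rw [h4] at h2
    have h5 : (1 : Rn (n + 1)) ∈ Iz {a} := h2 trivial
    have h6 := h5 a rfl
    rw [map_one] at h6
    exact one_ne_zero h6
  have h4 := h.simple le_sup_left h1 h3
  rw [← h4]
  exact Ideal.mem_sup_right (Ideal.subset_span ⟨l, rfl⟩)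

/-- constant orbits -/
theorem IsAct.orb_const (h : Dat f D C) (hC : ∀ b, Cmp f (V b)) (hA : IsAct f C V act ε)
    (φ : Ws f) (e : Fin q → ℂ) (hc : ∀ i G, ⁅D i, (∑ b, e b • V b) i⁆ G ∈ Rel f i)
    (h0 : ∀ s, orb act e φ s = orb act e φ 0) :
    ∃ i, (∃ z, f z i i ≠ 0) ∧ ∀ l, (∑ b, e b • V b) i (X l) ∈ Rel f i := by
  set U := ∑ b, e b • V b with hU
  obtain ⟨i, hi, hiK⟩ := exists_max ((hA.orb_hol h hC φ e).mem_PM (mem_univ (0 : ℂ)))
  have hi' : ∀ s : ℂ, (act (s • e) φ).1 0 i i ≠ 0 := by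
    intro s
    have h1 := h0 s
    change (act (s • e) φ).1 0 = _ at h1
    rw [h1]
    exact hi
  have hiK' : ∀ s : ℂ, chart i ((act (s • e) φ).1 0) ∈ Kc i := by
    intro s
    have h1 := h0 s
    change (act (s • e) φ).1 0 = _ at h1
    rw [h1]
    exact hiK
  have hd : ∀ (s : ℂ) l, HasDerivAt (fun s => pr i (act (s • e) φ).1 0 l)
      (eval (pr i (act (s • e) φ).1 0) (U i (X l))) s := fun s l =>
    (hA.sol h hC φ e s (hi' s)).2.self_of_nhds l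
  have hcst : ∀ (s : ℂ) l, pr i (act (s • e) φ).1 0 l = pr i (act ((0 : ℂ) • e) φ).1 0 l := by
    intro s l
    have h1 : Differentiable ℂ fun s => pr i (act (s • e) φ).1 0 l := fun s =>
      (hd s l).differentiableAt
    refine h1.apply_eq_apply_of_bounded ?_ s 0
    rw [isBounded_iff_forall_norm_le]
    refine ⟨max 1 C, ?_⟩
    rintro _ ⟨w, rfl⟩
    exact (norm_le_pi_norm _ l).trans ((act (w • e) φ).norm_le h (hi' w) (hiK' w))
  have hmem : pr i (act ((0 : ℂ) • e) φ).1 0 ∈ Vs (Rel f) i :=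
    (act ((0 : ℂ) • e) φ).2.2 0 (mem_univ 0) i (hi' 0)
  refine ⟨i, chart_of_mem hmem, fun l => h.vf_zero (hc i) hmem (fun l => ?_) l⟩
  have h1 := (hd 0 l).deriv
  have h2 : (fun s => pr i (act (s • e) φ).1 0 l) = fun _ => pr i (act ((0 : ℂ) • e) φ).1 0 l :=
    funext fun s => hcst s l
  rw [h2, deriv_const] at h1
  exact h1.symm

end act

end Run7.h418
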