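import Pool.Agent.Run7.h418.Gt
import Pool.Agent.Run7.h418.Mx

/-!
Hyperbolicity of varieties with an immersive family of symmetric differentials.
-/

set_option autoImplicit false

open MvPolynomial Set LinearAlgebra.Projectivization

namespace Run7.h418

open Pool.Agent.Y190.OP Pool.Agent.W602.GT Pool.Agent.N155

variable {n : ℕ} {ι κ : Type} {F : ι → MvPolynomial (Fin (n + 1)) ℂ}
  {σ : κ → (Fin (n + 1) → ℂ) → (Fin (n + 1) → ℂ) → ℂ} {m : κ → ℕ} {c : κ → ℂ}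

/-- holomorphic maps to projective space -/
theorem holP_map {f : ℂ → ℙ ℂ (Fin (n + 1) → ℂ)} (hf : HolMap f) :
    HolP univ (fun z => Phi (f z).rep) := by
  intro z _
  obtain ⟨V, g, hV, hzV, hg, hfg⟩ := hf z
  refine ⟨V, g, hV, hzV, hg, fun w hw => ?_⟩
  obtain ⟨h0, he⟩ := hfg w hw
  refine ⟨h0, ?_⟩
  obtain ⟨a, ha⟩ := Projectivization.exists_smul_eq_mk_rep ℂ (g w) h0
  have h1 : (f w).rep = (a : ℂ) • g w := by rw [he]; exact ha.symm
  change Phi (f w).rep = Phi (g w)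
  rw [h1, Phi_smul a.ne_zero]

theorem proj_eq {p q : ℙ ℂ (Fin (n + 1) → ℂ)} (h : Phi p.rep = Phi q.rep) : p = q := by
  obtain ⟨c, hc, hc'⟩ := Phi_inj p.rep_nonzero q.rep_nonzero h
  rw [← p.mk_rep, ← q.mk_rep, Projectivization.mk_eq_mk_iff']
  exact ⟨c⁻¹, by rw [hc', smul_smul, inv_mul_cancel₀ hc, one_smul]⟩

/-- a nonconstant entire curve gives a curve with a maximal set of relations -/
theorem dat_of_map [Finite κ] (hF : ∀ i, IsForm (F i)) (hm : ∀ j, 0 < m j)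
    (hσ : ∀ j, SymForm F (m j) (σ j)) (him : Immersive F σ)
    {f : ℂ → ℙ ℂ (Fin (n + 1) → ℂ)} (hf : HolMap f) (hfF : ∀ z, (f z).rep ∈ Cone F)
    (hne : ¬ ∀ z w, f z = f w) :
    ∃ (c : κ → ℂ) (f : ℂ → Mat (n + 1)) (D : Fin (n + 1) → Dr (Fin (n + 1) ⊕ Fin (n + 1)))
      (C : ℝ), Dat f D C ∧ ∀ i, Vs (Rel f) i ⊆ Ep F σ c i := by
  have hΨ := holP_map hf
  have hΨne : ¬ ∀ z, Phi (f z).rep = Phi (f 0).rep := by
    intro h
    apply hne
    intro z w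
    rw [proj_eq (h z), proj_eq (h w)]
  obtain ⟨H, hH, hHT, hHne, hHd⟩ := brody_curve (isCompact_TF hF) TF_PM hΨ
    (fun z => ⟨_, hfF z, rfl⟩) hΨne
  obtain ⟨c, hc⟩ := liouville hF hσ hH hHT hHd
  obtain ⟨f, D, C, hD, hV⟩ := exists_dat hσ hm him (const_ne hσ him hc hHne) hc
  exact ⟨c, f, D, C, hD, hV⟩

theorem brody_of_general [Finite κ] (hF : ∀ i, IsForm (F i)) (hm : ∀ j, 0 < m j)
    (hσ : ∀ j, SymForm F (m j) (σ j)) (him : Immersive F σ) (hall : AllSubGeneral F) :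
    BrodyHyperbolic F := by
  intro f hf hfF
  by_contra hne
  obtain ⟨c, f, D, C, hD, hV⟩ := dat_of_map hF hm hσ him hf hfF hne
  exact no_dat hF hD hσ him hV hall

end Run7.h418
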