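import Pool.Agent.Run7.h418.Lat
import Pool.Agent.Run7.h418.Com
import Pool.Agent.Run7.h418.Gen
import Pool.Agent.Run7.h418.Thm
import Pool.Agent.Run7.h418.TorDefs

/-!
Complex tori in varieties with an immersive family of symmetric differentials.
-/

set_option autoImplicit false

open MvPolynomial Metric Set Filter Topology

namespace Run7.h418

open Pool.Agent.Y190.OP Pool.Agent.W602.GT Pool.Agent.N155 Pool.Agent.TH182.TC

section tor

variable {n : ℕ} {ι κ : Type} {F : ι → MvPolynomial (Fin (n + 1)) ℂ}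
  {σ : κ → (Fin (n + 1) → ℂ) → (Fin (n + 1) → ℂ) → ℂ} {m : κ → ℕ} {c : κ → ℂ}
  {f : ℂ → Mat (n + 1)} {D : Fin (n + 1) → Dr (Fin (n + 1) ⊕ Fin (n + 1))} {C : ℝ}
  {q : ℕ} {V : Fin q → Fin (n + 1) → Dr (Fin (n + 1) ⊕ Fin (n + 1))}
  {act : (Fin q → ℂ) → Ws f → Ws f} {ε : ℝ}

/-- the point of a matrix -/
theorem exists_pt (hV : ∀ i, Vs (Rel f) i ⊆ Ep F σ c i) (φ : Ws f) :
    ∃ u : Fin (n + 1) → ℂ, u ∈ Cone F ∧ Phi u = φ.1 0 := φ.mem_TF hV 0

/-- local homogeneous coordinates of the orbit map -/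
theorem IsAct.local_lift (h : Dat f D C) (hA : IsAct f C V act ε) (φ : Ws f)
    (t0 : Fin q → ℂ) : ∃ (i : Fin (n + 1)) (G : (Fin q → ℂ) → Fin (n + 1) → ℂ),
      (act t0 φ).1 0 i i ≠ 0 ∧ AnalyticAt ℂ G t0 ∧
      (∀ᶠ t in 𝓝 t0, G t i = 1 ∧ (act t φ).1 0 = Phi (G t)) ∧
      ∀ e l, fderiv ℂ G t0 e l =
        eval (pr i (act t0 φ).1 0) ((∑ b, e b • V b) i (X (Sum.inl l))) := by
  obtain ⟨i, hi, hiK, haB, hnear⟩ := hA.near h φ t0
  set a := pr i (act t0 φ).1 0 with ha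
  have hsm' : ∀ t : Fin q → ℂ, ‖t‖ ≤ ε → Rad (∑ b, t b • V b i) (max 1 C + 1) 2 := by
    intro t ht
    rw [← sum_k]
    exact hA.sm t ht i
  have hB0 : 0 ≤ max 1 C + 1 := by positivity
  have haB' : ‖a‖ ≤ max 1 C + 1 := by linarith
  set Γ : (Fin q → ℂ) → Fin (n + 1) → ℂ := fun t l => fl (∑ b, t b • V b i) a 1 (Sum.inl l)
    with hΓ
  have hΓana : AnalyticAt ℂ Γ 0 := analyticAt_pi_iff.2 fun l =>
    ana_fl hA.pos hsm' (by norm_num) hB0 haB' (Sum.inl l)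
  have hsub : AnalyticAt ℂ (fun t : Fin q → ℂ => t - t0) t0 := by fun_prop
  have hG : AnalyticAt ℂ (fun t => Γ (t - t0)) t0 :=
    AnalyticAt.fun_comp (by rw [sub_self]; exact hΓana) hsub
  refine ⟨i, fun t => Γ (t - t0), hi, hG, ?_, fun e l => ?_⟩
  · have hsmall : ∀ᶠ t in 𝓝 t0, ‖t - t0‖ ≤ ε := by
      filter_upwards [ball_mem_nhds t0 hA.pos] with t ht
      exact (mem_ball_iff_norm.1 ht).le
    filter_upwards [hsmall] with t ht
    obtain ⟨h1, h2⟩ := hnear t ht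
    have h3 : Γ (t - t0) = chart i ((act t φ).1 0) := by
      funext l
      have h4 := congrFun h2 (Sum.inl l)
      rw [sum_k] at h4
      exact h4.symm
    refine ⟨?_, ?_⟩
    · rw [h3]
      exact PM.chart_self h1
    · rw [h3]
      exact (PM.Phi_chart ((act t φ).2.1.mem_PM (mem_univ (0 : ℂ))) h1).symm
  · rw [fderiv_comp_apply hG.differentiableAt]
    have h1 : HasFDerivAt (fun t => Γ t l) (fderiv ℂ (fun t => Γ t l) 0) (t0 - t0) := by
      rw [sub_self]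
      exact ((analyticAt_pi_iff.1 hΓana l).differentiableAt).hasFDerivAt
    have h2 : HasFDerivAt (fun t => Γ (t - t0) l) (fderiv ℂ (fun t => Γ t l) 0) t0 := by
      have h3 : HasFDerivAt (fun t : Fin q → ℂ => t - t0) (ContinuousLinearMap.id ℂ _) t0 :=
        (hasFDerivAt_id t0).sub_const t0
      have h4 := HasFDerivAt.comp (g := fun t => Γ t l) (f := fun t => t - t0) t0 h1 h3
      rw [ContinuousLinearMap.comp_id] at h4
      exact h4
    rw [h2.fderiv, sum_k, dsum_apply, map_sum]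
    have h3 := fderiv_fl hA.pos hsm' (by norm_num) hB0 haB' (Sum.inl l) e
    change fderiv ℂ (fun t => Γ t l) 0 e = _ at h3
    rw [h3]
    refine Finset.sum_congr rfl fun b _ => ?_
    rw [Derivation.smul_apply, MvPolynomial.smul_eval]

/-- orbits of nonzero vector fields are immersed -/
theorem IsAct.orb_imm (hF : ∀ j, IsForm (F j)) (hm : ∀ j, 0 < m j)
    (hσ : ∀ j, SymForm F (m j) (σ j)) (him : Immersive F σ) (h : Dat f D C)
    (hV : ∀ i, Vs (Rel f) i ⊆ Ep F σ c i) (hC : ∀ b, Cmp f (V b)) (hA : IsAct f C V act ε)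
    (φ : Ws f) (e : Fin q → ℂ) (hc : ∀ i G, ⁅D i, (∑ b, e b • V b) i⁆ G ∈ Rel f i)
    (hne : ∀ i, (∃ z, f z i i ≠ 0) → ¬ ∀ l, (∑ b, e b • V b) i (X l) ∈ Rel f i)
    {i : Fin (n + 1)} (hi : φ.1 0 i i ≠ 0) :
    ∃ l, eval (pr i φ.1 0) ((∑ b, e b • V b) i (X (Sum.inl l))) ≠ 0 := by
  by_contra hcon
  push Not at hcon
  obtain ⟨c', hc'⟩ := hA.orb_ep hF hσ h hV hC φ e
  have hnc : ¬ ∀ s, orb act e φ s = orb act e φ 0 := by
    intro h0
    obtain ⟨k, hk, h1⟩ := hA.orb_const h hC φ e hc h0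
    exact hne k hk h1
  obtain ⟨j, hj⟩ := const_ne hσ him hc' hnc
  apply hj
  have h0 : act ((0 : ℂ) • e) φ = φ := by rw [zero_smul, hA.zero h]
  have hi0 : orb act e φ 0 i i ≠ 0 := by
    change (act ((0 : ℂ) • e) φ).1 0 i i ≠ 0
    rw [h0]
    exact hi
  obtain ⟨h1, h2⟩ := hc'.2 0 (mem_univ 0) i hi0
  rw [← h2 j]
  have h3 := hA.pr_orb h hC φ e 0 hi0
  rw [h0] at h3
  have h4 : pr i (orb act e φ) 0 ∘ Sum.inr = 0 := by
    funext l
    change deriv (fun w => chart i (orb act e φ w)) 0 l = _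
    rw [h3.deriv]
    exact hcon l
  unfold sg
  rw [h4]
  have h5 := (hσ j).deg _ (Tg.cone h1) 0 (by intro j; simp) 0
  rw [smul_zero, zero_pow (hm j).ne', zero_mul] at h5
  exact h5

end tor

end Run7.h418
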